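import Mathlib
import Pool.Agent.N899.SB.Stm
import Pool.Agent.Y14.Defs

/-!
# Black body radiation of gluons: definitions

Two-dimensional cell complexes made of quadrangles, products with graphs, gauge theory on them.
-/

open MeasureTheory Matrix
open scoped Matrix.Norms.Frobenius
open Pool.Agent.N899.SB

namespace Pool.Agent.N899.BB

noncomputable section

/-! ### Complexes -/

/-- a finite oriented graph -/
structure Gr where
  V : Type
  E : Type
  [fV : Fintype V]
  [dV : DecidableEq V]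
  [fE : Fintype E]
  [dE : DecidableEq E]
  src : E → V
  tgt : E → V

attribute [instance] Gr.fV Gr.dV Gr.fE Gr.dE

/-- the path with `m` edges and `m + 1` vertices -/
def path (m : ℕ) : Gr where
  V := Fin (m + 1)
  E := Fin m
  src := Fin.castSucc
  tgt := Fin.succ

/-- the cycle with `t` edges and `t` vertices -/
def cyc (t : ℕ) [NeZero t] : Gr where
  V := ZMod t
  E := ZMod t
  src := fun τ => τ
  tgt := fun τ => τ + 1

/-- a finite complex of vertices, edges and quadrangular faces. The edges of a face are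
`f1 : a → b`, `f2 : b → c`, `f3 : d → c`, `f4 : a → d`. -/
structure Cx where
  V : Type
  E : Type
  F : Type
  [fV : Fintype V]
  [dV : DecidableEq V]
  [fE : Fintype E]
  [dE : DecidableEq E]
  [fF : Fintype F]
  [dF : DecidableEq F]
  src : E → V
  tgt : E → V
  f1 : F → E
  f2 : F → E
  f3 : F → E
  f4 : F → E
  h1 : ∀ f, src (f1 f) = src (f4 f)
  h2 : ∀ f, tgt (f1 f) = src (f2 f)
  h3 : ∀ f, tgt (f2 f) = tgt (f3 f)
  h4 : ∀ f, tgt (f4 f) = src (f3 f)

attribute [instance] Cx.fV Cx.dV Cx.fE Cx.dE Cx.fF Cx.dF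

/-- one point -/
def pt : Cx where
  V := Unit
  E := Empty
  F := Empty
  src := Empty.elim
  tgt := Empty.elim
  f1 := Empty.elim
  f2 := Empty.elim
  f3 := Empty.elim
  f4 := Empty.elim
  h1 := fun f => f.elim
  h2 := fun f => f.elim
  h3 := fun f => f.elim
  h4 := fun f => f.elim

/-- the product of a complex and a graph -/
def Cx.prod (X : Cx) (Γ : Gr) : Cx where
  V := X.V × Γ.V
  E := (X.E × Γ.V) ⊕ (X.V × Γ.E)
  F := (X.F × Γ.V) ⊕ (X.E × Γ.E)
  src := Sum.elim (fun e => (X.src e.1, e.2)) (fun e => (e.1, Γ.src e.2))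
  tgt := Sum.elim (fun e => (X.tgt e.1, e.2)) (fun e => (e.1, Γ.tgt e.2))
  f1 := Sum.elim (fun f => Sum.inl (X.f1 f.1, f.2)) (fun f => Sum.inl (f.1, Γ.src f.2))
  f2 := Sum.elim (fun f => Sum.inl (X.f2 f.1, f.2)) (fun f => Sum.inr (X.tgt f.1, f.2))
  f3 := Sum.elim (fun f => Sum.inl (X.f3 f.1, f.2)) (fun f => Sum.inl (f.1, Γ.tgt f.2))
  f4 := Sum.elim (fun f => Sum.inl (X.f4 f.1, f.2)) (fun f => Sum.inr (X.src f.1, f.2))
  h1 := by
    rintro (⟨f, t⟩ | ⟨f, t⟩)
    · exact Prod.ext (X.h1 f) rfl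
    · rfl
  h2 := by
    rintro (⟨f, t⟩ | ⟨f, t⟩)
    · exact Prod.ext (X.h2 f) rfl
    · rfl
  h3 := by
    rintro (⟨f, t⟩ | ⟨f, t⟩)
    · exact Prod.ext (X.h3 f) rfl
    · rfl
  h4 := by
    rintro (⟨f, t⟩ | ⟨f, t⟩)
    · exact Prod.ext (X.h4 f) rfl
    · rfl

/-- isomorphisms of complexes; the orientations of the faces may be reversed -/
structure Iso (X Y : Cx) where
  eV : X.V ≃ Y.V
  eE : X.E ≃ Y.E
  eF : X.F ≃ Y.F
  src : ∀ e, Y.src (eE e) = eV (X.src e)
  tgt : ∀ e, Y.tgt (eE e) = eV (X.tgt e)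
  face : ∀ f, (Y.f1 (eF f) = eE (X.f1 f) ∧ Y.f2 (eF f) = eE (X.f2 f) ∧
      Y.f3 (eF f) = eE (X.f3 f) ∧ Y.f4 (eF f) = eE (X.f4 f)) ∨
    (Y.f1 (eF f) = eE (X.f4 f) ∧ Y.f2 (eF f) = eE (X.f3 f) ∧
      Y.f3 (eF f) = eE (X.f2 f) ∧ Y.f4 (eF f) = eE (X.f1 f))

/-! ### Gauge theory on complexes -/

section gauge

variable {G : Type} [Group G]

/-- the plaquette variable of a face -/
def Cx.plq (X : Cx) (U : X.E → G) (f : X.F) : G :=
  U (X.f1 f) * U (X.f2 f) * (U (X.f3 f))⁻¹ * (U (X.f4 f))⁻¹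

/-- the action -/
def Cx.S (X : Cx) (we : G → ℝ) (U : X.E → G) : ℝ := ∑ f, we (X.plq U f)

/-- the partition function -/
def Cx.Z (X : Cx) [MeasurableSpace G] (μ : Measure G) (we : G → ℝ) (β : ℝ) : ℝ :=
  ∫ U : X.E → G, Real.exp (-(β * X.S we U)) ∂(Measure.pi fun _ => μ)

/-- the reference measure of the configurations -/
abbrev Cx.M (X : Cx) [MeasurableSpace G] (μ : Measure G) : Measure (X.E → G) :=
  Measure.pi fun _ => μ

/-- the square root of the weight of one slice -/
def Cx.φ (X : Cx) (we : G → ℝ) (β : ℝ) (u : X.E → G) : ℝ := Real.exp (-(β * (1 / 2 * X.S we u)))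

/-- the energy of the faces between two slices; `W` are the links between the slices -/
def Cx.tm (X : Cx) (we : G → ℝ) (u : X.E → G) (W : X.V → G) (v : X.E → G) : ℝ :=
  ∑ e, we (u e * W (X.tgt e) * (v e)⁻¹ * (W (X.src e))⁻¹)

/-- the transfer matrix -/
def Cx.k (X : Cx) [MeasurableSpace G] (μ : Measure G) (we : G → ℝ) (β : ℝ)
    (u v : X.E → G) : ℝ :=
  ∫ W : X.V → G, Real.exp (-(β * (1 / 2 * X.S we u + 1 / 2 * X.S we v + X.tm we u W v)))
    ∂(Measure.pi fun _ => μ)

/-- the configuration with the links over the vertex `ρ` replaced by one -/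
def fixr {Y : Cx} {Γ : Gr} (ρ : Y.V) (U : (Y.prod Γ).E → G) : (Y.prod Γ).E → G :=
  Sum.elim (fun e => U (Sum.inl e)) (fun e => if e.1 = ρ then 1 else U (Sum.inr e))

/-- the partition function with the links over the vertex `ρ` equal to one -/
def Cx.Z1 (Y : Cx) (ρ : Y.V) (Γ : Gr) [MeasurableSpace G] (μ : Measure G) (we : G → ℝ)
    (β : ℝ) : ℝ :=
  ∫ U : (Y.prod Γ).E → G, Real.exp (-(β * (Y.prod Γ).S we (fixr ρ U))) ∂(Measure.pi fun _ => μ)

end gauge

/-! ### Trees -/

/-- A rooted spanning tree with edges oriented away from the root, and for every edge `e` which is not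
in the tree a face with `f3 = e`, whose edges `f2` and `f4` are in the tree, and whose edge `f1` is in
the tree or of smaller rank. -/
structure Rt (Y : Cx) where
  root : Y.V
  tree : Y.E → Bool
  /-- the edge of the tree with the given target -/
  pe : Y.V → Option Y.E
  pe_root : pe root = none
  pe_some : ∀ v, v ≠ root → ∃ e, pe v = some e ∧ tree e = true ∧ Y.tgt e = v
  pe_tree : ∀ e, tree e = true → pe (Y.tgt e) = some e
  rV : Y.V → ℕ
  rV_lt : ∀ e, tree e = true → rV (Y.src e) < rV (Y.tgt e)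
  /-- the face of the edge -/
  bf : (e : Y.E) → tree e = false → Y.F
  rE : Y.E → ℕ
  bf3 : ∀ e h, Y.f3 (bf e h) = e
  bf2 : ∀ e h, tree (Y.f2 (bf e h)) = true
  bf4 : ∀ e h, tree (Y.f4 (bf e h)) = true
  bf1 : ∀ e h, tree (Y.f1 (bf e h)) = false → rE (Y.f1 (bf e h)) < rE e

/-- the links of `Y × cycle` which are fixed: the links of the tree, and the links over the root -/
def Rt.fixed {Y : Cx} (R : Rt Y) {Γ : Gr} : (Y.prod Γ).E → Bool :=
  Sum.elim (fun e => R.tree e.1) (fun e => decide (e.1 = R.root))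

/-- the configuration with the fixed links replaced by one -/
def Rt.fix {G : Type} [Group G] {Y : Cx} (R : Rt Y) {Γ : Gr} (U : (Y.prod Γ).E → G) :
    (Y.prod Γ).E → G := fun e => if R.fixed e then 1 else U e

/-- the partition function with the fixed links equal to one -/
def Rt.Z {G : Type} [Group G] {Y : Cx} (R : Rt Y) (Γ : Gr) [MeasurableSpace G] (μ : Measure G)
    (we : G → ℝ) (β : ℝ) : ℝ :=
  ∫ U : (Y.prod Γ).E → G, Real.exp (-(β * (Y.prod Γ).S we (R.fix U))) ∂(Measure.pi fun _ => μ)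

/-! ### Systems -/

/-- A system of plaquettes. Every plaquette is the product `g₀ g₁ g₂⁻¹ g₃⁻¹`, every `gᵢ` is one (`none`)
or the variable of a link. To every link `w` belongs a basic plaquette `bp w`, which is
`g (g w)⁻¹` or `(g w) g⁻¹`, `g` being one (`pr w = none`) or the variable of the link `pr w` of
smaller rank. -/
structure Sys where
  L : Type
  P : Type
  [fL : Fintype L]
  [dL : DecidableEq L]
  [fP : Fintype P]
  [dP : DecidableEq P]
  wd : P → Fin 4 → Option L
  bp : L → P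
  pr : L → Option L
  rk : L → ℕ
  rk_lt : ∀ w w', pr w = some w' → rk w' < rk w
  bp_inj : Function.Injective bp
  bp_wd : ∀ w, (wd (bp w) 0 = pr w ∧ wd (bp w) 1 = none ∧ wd (bp w) 2 = some w ∧
      wd (bp w) 3 = none) ∨
    (wd (bp w) 0 = none ∧ wd (bp w) 1 = some w ∧ wd (bp w) 2 = none ∧ wd (bp w) 3 = pr w)

attribute [instance] Sys.fL Sys.dL Sys.fP Sys.dP

section sys

variable {G : Type} [Group G]

/-- the value of a letter -/
def ev {L : Type} (U : L → G) : Option L → G
  | none => 1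
  | some w => U w

/-- the plaquette variable -/
def Sys.plq (Q : Sys) (U : Q.L → G) (p : Q.P) : G :=
  ev U (Q.wd p 0) * ev U (Q.wd p 1) * (ev U (Q.wd p 2))⁻¹ * (ev U (Q.wd p 3))⁻¹

/-- the action with the coupling constants `c` -/
def Sys.S (Q : Sys) (we : G → ℝ) (c : Q.P → ℝ) (U : Q.L → G) : ℝ := ∑ p, c p * we (Q.plq U p)

/-- the partition function -/
def Sys.Z (Q : Sys) [MeasurableSpace G] (μ : Measure G) (we : G → ℝ) (c : Q.P → ℝ) (β : ℝ) : ℝ :=
  ∫ U : Q.L → G, Real.exp (-(β * Q.S we c U)) ∂(Measure.pi fun _ => μ)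

/-- the expectation -/
def Sys.EX (Q : Sys) [MeasurableSpace G] (μ : Measure G) (we : G → ℝ) (c : Q.P → ℝ) (β : ℝ)
    (F : (Q.L → G) → ℝ) : ℝ :=
  (∫ U : Q.L → G, F U * Real.exp (-(β * Q.S we c U)) ∂(Measure.pi fun _ => μ)) / Q.Z μ we c β

end sys

/-- the incidence matrix -/
def Sys.D (Q : Sys) : Matrix Q.P Q.L ℝ := fun p w =>
  (if Q.wd p 0 = some w then 1 else 0) + (if Q.wd p 1 = some w then 1 else 0) -
    (if Q.wd p 2 = some w then 1 else 0) - (if Q.wd p 3 = some w then 1 else 0)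

/-- the incidence matrix of faces and edges of a complex -/
def Cx.D (X : Cx) : Matrix X.F X.E ℝ := fun f e =>
  (if X.f1 f = e then 1 else 0) + (if X.f2 f = e then 1 else 0) -
    (if X.f3 f = e then 1 else 0) - (if X.f4 f = e then 1 else 0)

/-- the incidence matrix of edges and vertices of a complex -/
def Cx.d0 (X : Cx) : Matrix X.E X.V ℝ := fun e v =>
  (if X.tgt e = v then 1 else 0) - (if X.src e = v then 1 else 0)

/-- the Laplacian on the vertices -/
def Cx.L0 (X : Cx) : Matrix X.V X.V ℝ := (X.d0)ᵀ * X.d0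

/-- the Laplacian on the edges -/
def Cx.L1 (X : Cx) : Matrix X.E X.E ℝ := (X.D)ᵀ * X.D + X.d0 * (X.d0)ᵀ

/-- the matrix of the quadratic form of `Y × Γ` on the links which are not fixed -/
def Rt.hess {Y : Cx} (R : Rt Y) (Γ : Gr) :
    Matrix {e : (Y.prod Γ).E // R.fixed e = false} {e : (Y.prod Γ).E // R.fixed e = false} ℝ :=
  fun e e' => ∑ f, (Y.prod Γ).D f e.1 * (Y.prod Γ).D f e'.1

/-- the matrix of the quadratic form -/
def Sys.H (Q : Sys) (c : Q.P → ℝ) : Matrix Q.L Q.L ℝ := fun w w' =>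
  ∑ p, c p * (Q.D p w * Q.D p w')

/-- the coupling constants of the interpolation: one for the basic plaquettes, `x` for the other
plaquettes -/
def Sys.cp (Q : Sys) (x : ℝ) : Q.P → ℝ := fun p => if ∃ w, Q.bp w = p then 1 else x

open Pool.Agent.Y14.Wilson in
/-- the energy of a plaquette -/
def we {N : ℕ} {G : Subgroup (UU N)} (g : G) : ℝ := (trace (1 - mt g)).re

/-- the partition function of one plaquette -/
def kap {G : Type} [MeasurableSpace G] (μ : Measure G) (we : G → ℝ) (β : ℝ) : ℝ :=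
  ∫ g, Real.exp (-(β * we g)) ∂μ

/-! ### The box -/

/-- the box with `n + 1` vertices on each side -/
def box (n : ℕ) : Cx := ((pt.prod (path n)).prod (path n)).prod (path n)

/-- the torus `(ℤ/l)³ × ℤ/s` -/
def torus (l s : ℕ) [NeZero l] [NeZero s] : Cx :=
  (((pt.prod (cyc s)).prod (cyc l)).prod (cyc l)).prod (cyc l)

/-- the eigenvalues of the Laplacian of the path -/
def lam (n : ℕ) (k : Fin (n + 1)) : ℝ := 2 - 2 * Real.cos (Real.pi * k / (n + 1))

/-- the eigenvalues of the Laplacian of the box -/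
def lam3 (n : ℕ) (k : Fin (n + 1) × Fin (n + 1) × Fin (n + 1)) : ℝ :=
  lam n k.1 + lam n k.2.1 + lam n k.2.2

/-- the number of polarisations with the momentum `k`: `2` minus the number of the components of `k`
which vanish, zero for `k = 0` -/
def pol (n : ℕ) (k : Fin (n + 1) × Fin (n + 1) × Fin (n + 1)) : ℕ :=
  2 - ((if k.1 = 0 then 1 else 0) + (if k.2.1 = 0 then 1 else 0) + (if k.2.2 = 0 then 1 else 0))

/-- the frequency `ω ≥ 0` with `2 cosh ω = 2 + x` -/
def om (x : ℝ) : ℝ := Real.log (1 + x / 2 + Real.sqrt (x + x ^ 2 / 4))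

/-- the vacuum energy of the box -/
def vac (n : ℕ) : ℝ := ∑ k, (pol n k : ℝ) * om (lam3 n k)

/-- minus the free energy of the black body radiation in the box, divided by the temperature -/
def bbr (n s : ℕ) : ℝ := ∑ k, (pol n k : ℝ) * -Real.log (1 - Real.exp (-(s * om (lam3 n k))))

/-- the pressure of a free massless field on `ℤ³ × ℤ/s` -/
def plat (s : ℕ) : ℝ := -(1 / (s : ℝ)) * ∫ x in (Set.Icc (0 : Fin 3 → ℝ) 1),
  Real.log (1 - Real.exp (-(s * om (∑ i, (2 - 2 * Real.cos (Real.pi * x i))))))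

end

end Pool.Agent.N899.BB
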