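import Mathlib
import Pool.Agent.N899.BB.Defs

/-!
# Black body radiation of gluons: statements
-/

open MeasureTheory Matrix Filter Topology
open scoped Matrix.Norms.Frobenius
open Pool.Agent.N899.SB Pool.Agent.Y14.Wilson

namespace Pool.Agent.N899.BB

noncomputable section

/-! ### Part A: complexes, transfer matrices -/

/-- Isomorphic complexes. -/
def S_ISO : Prop :=
  (∀ (X Y : Cx), Iso X Y → ∀ (G : Type) [Group G] [MeasurableSpace G] (μ : Measure G)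
    [IsProbabilityMeasure μ] (we : G → ℝ), (∀ g, we g⁻¹ = we g) → ∀ β : ℝ,
    X.Z μ we β = Y.Z μ we β) ∧
  (∀ (X Y : Cx) (Γ : Gr), Iso X Y → Nonempty (Iso (X.prod Γ) (Y.prod Γ))) ∧
  ∀ (X : Cx) (Γ Γ' : Gr), Nonempty (Iso ((X.prod Γ).prod Γ') ((X.prod Γ').prod Γ))

/-- The transfer matrix. -/
def S_KX : Prop := ∀ (G : Type) [Group G] [TopologicalSpace G] [IsTopologicalGroup G]
  [CompactSpace G] [SecondCountableTopology G] [MeasurableSpace G] [BorelSpace G]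
  (μ : Measure G) [IsProbabilityMeasure μ] [μ.IsInvInvariant] (we : G → ℝ), Continuous we →
  (∀ g, we g⁻¹ = we g) → (∀ g h, we (h * g * h⁻¹) = we g) → (∀ g, 0 ≤ we g) → ∀ (X : Cx) (β : ℝ),
  0 ≤ β →
  Continuous (fun p : (X.E → G) × (X.E → G) => X.k μ we β p.1 p.2) ∧
  (∀ u v : X.E → G, 0 < X.k μ we β u v) ∧ (∀ u v : X.E → G, X.k μ we β u v = X.k μ we β v u) ∧
  Continuous (X.φ we β : (X.E → G) → ℝ) ∧ (∀ u : X.E → G, 0 < X.φ we β u ∧ X.φ we β u ≤ 1) ∧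
  ∀ u v : X.E → G, X.k μ we β u v ≤ X.φ we β u * X.φ we β v

/-- Partition functions of products with cycles and paths. -/
def S_SL : Prop := ∀ (G : Type) [Group G] [TopologicalSpace G] [IsTopologicalGroup G]
  [CompactSpace G] [SecondCountableTopology G] [MeasurableSpace G] [BorelSpace G]
  (μ : Measure G) [IsProbabilityMeasure μ] (we : G → ℝ), Continuous we → ∀ (X : Cx) (β : ℝ),
  (∀ t : ℕ, (X.prod (cyc (t + 1))).Z μ we β = trk (X.M μ) (X.k μ we β) t) ∧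
  ((X.prod (path 0)).Z μ we β = ∫ u, X.φ we β u * X.φ we β u ∂(X.M μ)) ∧
  ∀ m : ℕ, (X.prod (path (m + 1))).Z μ we β =
    ∫ u, ∫ v, X.φ we β u * kit (X.M μ) (X.k μ we β) m u v * X.φ we β v ∂(X.M μ) ∂(X.M μ)

/-- Closed and open chains. -/
def S_OPEN : Prop := ∀ (Y : Type) [TopologicalSpace Y] [CompactSpace Y]
  [SecondCountableTopology Y] [MeasurableSpace Y] [BorelSpace Y] (μ : Measure Y)
  [IsProbabilityMeasure μ] (k : Y → Y → ℝ) (φ : Y → ℝ),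
  Continuous (fun p : Y × Y => k p.1 p.2) → (∀ u v, 0 < k u v) → (∀ u v, k u v = k v u) →
  Continuous φ → (∀ u, 0 < φ u ∧ φ u ≤ 1) → (∀ u v, k u v ≤ φ u * φ v) →
  ∀ o : ℕ → ℝ, o 0 = ∫ u, φ u * φ u ∂μ →
  (∀ m, o (m + 1) = ∫ u, ∫ v, φ u * kit μ k m u v * φ v ∂μ ∂μ) →
  (∀ m, 0 < o m ∧ o m ≤ 1) ∧
  (∀ r R : ℕ, 1 ≤ r → r ≤ R →
    ((R : ℝ) / r) * Real.log (o (2 * r)) ≤ Real.log (trk μ k (2 * R - 1))) ∧
  ∀ l m : ℕ, Real.log (trk μ k l) ≤ ((l + 1) / (m + 1) : ℕ) * Real.log (o m)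

/-- Torus and box. -/
def S_TB : Prop := ∀ (G : Type) [Group G] [TopologicalSpace G] [IsTopologicalGroup G]
  [CompactSpace G] [SecondCountableTopology G] [MeasurableSpace G] [BorelSpace G]
  (μ : Measure G) [IsProbabilityMeasure μ] [μ.IsInvInvariant] (we : G → ℝ), Continuous we →
  (∀ g, we g⁻¹ = we g) → (∀ g h, we (h * g * h⁻¹) = we g) → (∀ g, 0 ≤ we g) → ∀ (β : ℝ),
  0 ≤ β → ∀ (s : ℕ) [NeZero s],
  (∀ (R r : ℕ) [NeZero (2 * R)], 1 ≤ r → r ≤ R →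
    ((R : ℝ) / r) ^ 3 * Real.log (((box (2 * r)).prod (cyc s)).Z μ we β) ≤
      Real.log ((torus (2 * R) s).Z μ we β)) ∧
  ∀ (l m : ℕ) [NeZero l], Real.log ((torus l s).Z μ we β) ≤
    ((l / (m + 1) : ℕ) : ℝ) ^ 3 * Real.log (((box m).prod (cyc s)).Z μ we β)

/-- The torus in coordinates. -/
def S_TOR : Prop := ∀ (G : Type) [Group G] [MeasurableSpace G] (μ : Measure G)
  [IsProbabilityMeasure μ] (we : G → ℝ), (∀ g, we g⁻¹ = we g) → ∀ (l s : ℕ) [NeZero l] [NeZero s]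
  (β : ℝ), prt (D := 3) (l := l) (t := s) μ we β = (torus l s).Z μ we β

/-! ### Part B: fixing the links over the root, gauge fixing -/

/-- The partition function is at most the one with the links over the root equal to one, and not
much smaller. -/
def S_DIA : Prop := ∀ (G : Type) [Group G] [TopologicalSpace G] [IsTopologicalGroup G]
  [CompactSpace G] [SecondCountableTopology G] [MeasurableSpace G] [BorelSpace G]
  (μ : Measure G) [IsProbabilityMeasure μ] [μ.IsMulLeftInvariant] [μ.IsMulRightInvariant]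
  [μ.IsInvInvariant] (we : G → ℝ), Continuous we →
  (∀ g, we g⁻¹ = we g) → (∀ g h, we (h * g * h⁻¹) = we g) → (∀ g, 0 ≤ we g) → ∀ (β : ℝ),
  0 ≤ β → ∀ (Y : Cx) (ρ : Y.V) (t : ℕ) [NeZero t], Even t →
  (Y.prod (cyc t)).Z μ we β ≤ Y.Z1 ρ (cyc t) μ we β ∧
  ∀ (A : Set G) (η : ℝ), MeasurableSet A →
    (∀ P ∈ A, ∀ a g : G, |we (a * (P * g * P⁻¹)) - we (a * g)| ≤ η) →
    μ.real A * Real.exp (-(β * (Fintype.card Y.E * η))) * Y.Z1 ρ (cyc t) μ we β ≤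
      (Y.prod (cyc t)).Z μ we β

/-- Gauge fixing on a tree. -/
def S_TREE : Prop := ∀ (G : Type) [Group G] [TopologicalSpace G] [IsTopologicalGroup G]
  [CompactSpace G] [SecondCountableTopology G] [MeasurableSpace G] [BorelSpace G]
  (μ : Measure G) [IsProbabilityMeasure μ] [μ.IsMulLeftInvariant] [μ.IsMulRightInvariant]
  (we : G → ℝ), Continuous we → (∀ g h, we (h * g * h⁻¹) = we g) →
  ∀ (Y : Cx) (R : Rt Y) (Γ : Gr) (β : ℝ), Y.Z1 R.root Γ μ we β = R.Z Γ μ we β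

/-- Trees of the box. -/
def S_RT : Prop := (Nonempty (Rt pt)) ∧
  (∀ (Y : Cx) (m : ℕ), Nonempty (Rt Y) → Nonempty (Rt (Y.prod (path m)))) ∧
  (∀ n, Nonempty (Rt (box n))) ∧ ∀ n, Fintype.card (box n).E = 3 * n * (n + 1) ^ 2 ∧
    Fintype.card (box n).F = 3 * n ^ 2 * (n + 1)

/-- The system of a complex with a tree. -/
def S_SYSR : Prop := ∀ (Y : Cx) (R : Rt Y) (t : ℕ) [NeZero t], ∃ Q : Sys,
  Fintype.card Q.L = t * Fintype.card Y.E ∧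
  Fintype.card Q.P = t * (Fintype.card Y.F + Fintype.card Y.E) ∧
  (Q.H fun _ => 1).det = (R.hess (cyc t)).det ∧
  ∀ (G : Type) [Group G] [MeasurableSpace G] (μ : Measure G) [IsProbabilityMeasure μ]
    (we : G → ℝ) (β : ℝ), Q.Z μ we (fun _ => 1) β = R.Z (cyc t) μ we β

/-! ### Part C: the Gaussian asymptotics -/

section gauss

/-- the size of the configuration -/
def Sys.r {N : ℕ} {G : Subgroup (UU N)} (Q : Sys) (U : Q.L → G) : ℝ := ∑ w, ‖mt (U w) - 1‖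

/-- the coordinates -/
def crd {N n : ℕ} {G : Subgroup (UU N)} (B : LieBasis G n) (g : G) (a : Fin n) : ℝ :=
  (trace ((B.X a)ᴴ * mt g)).re

/-- the derivatives -/
def dl {N n : ℕ} {G : Subgroup (UU N)} (B : LieBasis G n) {L : Type} [DecidableEq L] (w : L)
    (a : Fin n) (F : (L → G) → ℝ) (U : L → G) : ℝ :=
  deriv (fun t => F (Function.update U w (B.ex a t * U w))) 0

end gauss

/-- Moments of the size. -/
def S_MOM : Prop := ∀ {N : ℕ} (G : Subgroup (UU N)) (_ : IsClosed (G : Set (UU N)))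
  [MeasurableSpace G] [BorelSpace G] (μ : Measure G) [IsProbabilityMeasure μ] [μ.IsHaarMeasure],
  ∃ C : ℝ, 1 ≤ C ∧ ∀ (Q : Sys) (m : ℕ), 1 ≤ m → Fintype.card Q.L ≤ m → Fintype.card Q.P ≤ m →
    ∀ x : ℝ, 0 ≤ x → x ≤ 1 → ∀ β : ℝ, 3 ≤ β → ∀ p : ℕ, p ≤ 8 →
    Q.EX μ we (Q.cp x) β (fun U => Q.r U ^ p) ≤ Real.sqrt (C * (m : ℝ) ^ 6 * Real.log β / β) ^ p

/-- Taylor expansions. -/
def S_TAY : Prop := ∀ {N n : ℕ} (G : Subgroup (UU N)) (_ : IsClosed (G : Set (UU N)))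
  (B : LieBasis G n), ∃ C : ℝ, 1 ≤ C ∧ ∀ (Q : Sys) (m : ℕ), 1 ≤ m → Fintype.card Q.L ≤ m →
    Fintype.card Q.P ≤ m → ∀ x : ℝ, 0 ≤ x → x ≤ 1 → ∀ U : Q.L → G,
    (∀ w a, |dl B w a (Q.S we (Q.cp x)) U - ∑ w', Q.H (Q.cp x) w w' * crd B (U w') a| ≤
        C * m * Q.r U ^ 2) ∧
    (∀ w a, |crd B (U w) a| ≤ Q.r U) ∧
    (∀ w a w' b, |dl B w a (fun U : Q.L → G => crd B (U w') b) U -
      (if w = w' ∧ a = b then 1 else 0)| ≤ C * Q.r U) ∧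
    ∀ p, |we (Q.plq U p) - 1 / 2 * ∑ a, (∑ w, Q.D p w * crd B (U w) a) ^ 2| ≤ C * Q.r U ^ 3

/-- Integration by parts. -/
def S_IBP : Prop := ∀ {N n : ℕ} (G : Subgroup (UU N)) (_ : IsClosed (G : Set (UU N)))
  [MeasurableSpace G] [BorelSpace G] (μ : Measure G) [IsProbabilityMeasure μ] [μ.IsHaarMeasure]
  (B : LieBasis G n) (Q : Sys) (c : Q.P → ℝ) (β : ℝ) (w : Q.L) (a : Fin n) (w' : Q.L) (b : Fin n),
  Q.EX μ we c β (dl B w a (fun U : Q.L → G => crd B (U w') b)) =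
    β * Q.EX μ we c β (fun U => crd B (U w') b * dl B w a (Q.S we c) U) ∧
  Continuous (dl B w a (fun U : Q.L → G => crd B (U w') b)) ∧
  Continuous (dl B w a (Q.S (G := G) we c)) ∧ Continuous (fun U : Q.L → G => crd B (U w') b)

/-- The matrices of the interpolation. -/
def S_HINV : Prop := ∀ (Q : Sys), (Q.H (Q.cp 0)).det = 1 ∧ ∀ x : ℝ, 0 ≤ x → x ≤ 1 →
  (Q.H (Q.cp x)).PosDef ∧ ∀ w w', |(Q.H (Q.cp x))⁻¹ w w'| ≤ Fintype.card Q.L

/-- The basic plaquettes are independent. -/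
def S_BASE : Prop := ∀ (G : Type) [Group G] [TopologicalSpace G] [IsTopologicalGroup G]
  [CompactSpace G] [SecondCountableTopology G] [MeasurableSpace G] [BorelSpace G]
  (μ : Measure G) [IsProbabilityMeasure μ] [μ.IsMulLeftInvariant] [μ.IsMulRightInvariant]
  [μ.IsInvInvariant] (we : G → ℝ), Continuous we → (∀ g, we g⁻¹ = we g) → ∀ (Q : Sys) (β : ℝ),
  Q.Z μ we (Q.cp 0) β = kap μ we β ^ Fintype.card Q.L

/-- The expectation of the plaquettes. -/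
def S_EST : Prop := ∀ {N n : ℕ} (G : Subgroup (UU N)) (_ : IsClosed (G : Set (UU N)))
  [MeasurableSpace G] [BorelSpace G] (μ : Measure G) [IsProbabilityMeasure μ] [μ.IsHaarMeasure]
  (_ : LieBasis G n), ∃ (C : ℝ) (K : ℕ), 1 ≤ C ∧ 1 ≤ K ∧ ∀ (Q : Sys) (m : ℕ), 1 ≤ m →
    Fintype.card Q.L ≤ m → Fintype.card Q.P ≤ m → ∀ x : ℝ, 0 ≤ x → x ≤ 1 → ∀ β : ℝ, 3 ≤ β →
    ∀ p : Q.P, |β * Q.EX μ we (Q.cp x) β (fun U => we (Q.plq U p)) -
      n / 2 * ∑ w, ∑ w', Q.D p w * (Q.H (Q.cp x))⁻¹ w w' * Q.D p w'| ≤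
      C * ((m : ℝ) * Real.log β) ^ K / Real.sqrt β

/-- The asymptotics of the partition function. -/
def S_GAUSS : Prop := ∀ {N n : ℕ} (G : Subgroup (UU N)) (_ : IsClosed (G : Set (UU N)))
  [MeasurableSpace G] [BorelSpace G] (μ : Measure G) [IsProbabilityMeasure μ] [μ.IsHaarMeasure]
  (_ : LieBasis G n), ∃ (C : ℝ) (K : ℕ), 1 ≤ C ∧ 1 ≤ K ∧ ∀ (Q : Sys) (m : ℕ), 1 ≤ m →
    Fintype.card Q.L ≤ m → Fintype.card Q.P ≤ m → ∀ β : ℝ, 3 ≤ β →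
    |Real.log (Q.Z μ we (fun _ => 1) β) - Fintype.card Q.L * Real.log (kap μ we β) +
      n / 2 * Real.log (Q.H fun _ => 1).det| ≤ C * ((m : ℝ) * Real.log β) ^ K / Real.sqrt β

/-- Crude lower bounds. -/
def S_LOW : Prop := ∀ {N : ℕ} (G : Subgroup (UU N)) (_ : IsClosed (G : Set (UU N)))
  [MeasurableSpace G] [BorelSpace G] (μ : Measure G) [IsProbabilityMeasure μ] [μ.IsHaarMeasure],
  ∃ C : ℝ, 1 ≤ C ∧ ∀ β : ℝ, 3 ≤ β →
    (-(C * Real.log β) ≤ Real.log (kap μ (we (G := G)) β) ∧ kap μ (we (G := G)) β ≤ 1) ∧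
    (∀ m : ℕ, 1 ≤ m → ∃ (A : Set G) (η : ℝ), MeasurableSet A ∧
      (∀ P ∈ A, ∀ a g : G, |we (a * (P * g * P⁻¹)) - we (a * g)| ≤ η) ∧
      -(C * Real.log (m * β)) ≤ Real.log (μ.real A * Real.exp (-(β * (m * η)))) ∧
      0 < μ.real A) ∧
    ∀ X : Cx, -(C * (Fintype.card X.E + Fintype.card X.F) * Real.log β) ≤
      Real.log (X.Z μ (we (G := G)) β) ∧ X.Z μ (we (G := G)) β ≤ 1

/-! ### Part D: the determinant -/

/-- Block circulant matrices. -/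
def S_CIRC : Prop := ∀ (J : Type) [Fintype J] [DecidableEq J] (t : ℕ) [NeZero t]
  (A0 A1 : Matrix J J ℝ) (M : Matrix (J × ZMod t) (J × ZMod t) ℝ),
  (∀ i τ j τ', M (i, τ) (j, τ') = (if τ' = τ then A0 i j else 0) +
    (if τ' = τ + 1 then A1 i j else 0) + (if τ = τ' + 1 then A1 j i else 0)) →
  ((M.det : ℝ) : ℂ) = ∏ q ∈ Finset.range t,
    (Matrix.of fun i j : J => (A0 i j : ℂ) +
      Complex.exp (2 * Real.pi * Complex.I * q / t) * A1 i j +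
      Complex.exp (-(2 * Real.pi * Complex.I * q / t)) * A1 j i).det

/-- The determinant of the gauge fixed quadratic form. -/
def S_ALG : Prop := ∀ (Y : Cx) (R : Rt Y) (g : Polynomial ℝ),
  (∀ x : ℝ, g.eval x * (x • (1 : Matrix Y.V Y.V ℝ) + Y.L0).det =
    x * (x • (1 : Matrix Y.E Y.E ℝ) + Y.L1).det) →
  ∀ (t : ℕ) [NeZero t], (R.hess (cyc t)).det =
    ∏ q ∈ Finset.range t, g.eval (2 - 2 * Real.cos (2 * Real.pi * q / t))

/-- The spectrum of the box. -/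
def S_SPEC : Prop := ∀ (n : ℕ) (x : ℝ),
  (x • (1 : Matrix (box n).V (box n).V ℝ) + (box n).L0).det = ∏ k, (x + lam3 n k) ∧
  (x • (1 : Matrix (box n).E (box n).E ℝ) + (box n).L1).det = ∏ k, (x + lam3 n k) ^
    (3 - ((if k.1 = 0 then 1 else 0) + (if k.2.1 = 0 then 1 else 0) +
      (if k.2.2 = 0 then 1 else 0)))

/-- The product over the frequencies. -/
def S_PRODQ : Prop := ∀ (t : ℕ) [NeZero t] (x : ℝ), 0 < x →
  0 < om x ∧ ∏ q ∈ Finset.range t, (2 - 2 * Real.cos (2 * Real.pi * q / t) + x) =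
    Real.exp (t * om x) * (1 - Real.exp (-(t * om x))) ^ 2

/-- The determinant of the box. -/
def S_DET : Prop := ∀ (n : ℕ) (R : Rt (box n)) (t : ℕ) [NeZero t],
  0 < (R.hess (cyc t)).det ∧ Real.log (R.hess (cyc t)).det = t * vac n - 2 * bbr n t

/-! ### Part E: analysis -/

/-- Riemann sums. -/
def S_RIEM : Prop := ∃ C : ℝ, 1 ≤ C ∧ ∀ n s : ℕ, 1 ≤ n → 1 ≤ s →
  0 ≤ vac n ∧ vac n ≤ C * n ^ 3 ∧ 0 ≤ bbr n s ∧
  |bbr n s - 2 * n ^ 3 * (s * plat s)| ≤ C * n ^ 2 * (1 + Real.log n)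

/-- The Stefan-Boltzmann constant. -/
def S_PLAT : Prop := (∃ C : ℝ, 1 ≤ C ∧ ∀ s : ℕ, 1 ≤ s → 0 ≤ plat s ∧ plat s ≤ C / (s : ℝ) ^ 4) ∧
  Tendsto (fun s : ℕ => (s : ℝ) ^ 4 * plat s) atTop (𝓝 (Real.pi ^ 2 / 90))

/-- Real sequences. (`b r` will be the logarithm of the trace of the power `2 * r`.) -/
def S_SEQ3 : Prop := ∀ (b : ℕ → ℝ) (C : ℝ),
  (∀ i j, 1 ≤ i → 1 ≤ j → b (i + j) ≤ b i + b j) →
  (∀ i, 1 ≤ i → 2 * b (i + 1) ≤ b i + b (i + 2)) →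
  (∀ i : ℕ, 1 ≤ i → -(C * i) ≤ b i) → ∃ κ : ℝ, Tendsto (fun i : ℕ => b i / i) atTop (𝓝 κ) ∧
  ∀ i j : ℕ, 1 ≤ i → i < j → b i / i - b j / j ≤ b i / i - κ ∧
    (b i / i - κ) * (1 - (i : ℝ) / j) ≤ b i / i - b j / j

end

end Pool.Agent.N899.BB
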