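import Mathlib
import Pool.Agent.N899.BB.Stm

/-!
Project BB, part ALG: the determinant of the gauge fixed quadratic form of `Y × cycle`.
-/

set_option autoImplicit false

open Matrix Filter Topology

namespace Pool.Agent.N899.BB.Alg

noncomputable section

/-! ### the block circulant form -/

/-- the index set of one slice -/
abbrev J {Y : Cx} (R : Rt Y) : Type := {e : Y.E // R.tree e = false} ⊕ {v : Y.V // v ≠ R.root}

/-- the faces in the slices -/
def B {Y : Cx} (R : Rt Y) : Matrix Y.F (J R) ℝ :=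
  fun f => Sum.elim (fun e => Y.D f e.1) (fun _ => 0)

/-- the faces between the slices, first part -/
def C0 {Y : Cx} (R : Rt Y) : Matrix Y.E (J R) ℝ :=
  fun e => Sum.elim (fun e' => if e = e'.1 then 1 else 0) (fun v => Y.d0 e v.1)

/-- the faces between the slices, second part -/
def C1 {Y : Cx} (R : Rt Y) : Matrix Y.E (J R) ℝ :=
  fun e => Sum.elim (fun e' => if e = e'.1 then -1 else 0) (fun _ => 0)

/-- the edges of the product -/
abbrev PE (Y : Cx) (t : ℕ) : Type := (Y.E × ZMod t) ⊕ (Y.V × ZMod t)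

/-- the faces of the product -/
abbrev PF (Y : Cx) (t : ℕ) : Type := (Y.F × ZMod t) ⊕ (Y.E × ZMod t)

/-- the incidence matrix of the product -/
def DP (Y : Cx) (t : ℕ) [NeZero t] : Matrix (PF Y t) (PE Y t) ℝ := fun f e =>
  (if Sum.elim (fun f : Y.F × ZMod t => (Sum.inl (Y.f1 f.1, f.2) : PE Y t))
      (fun f => Sum.inl (f.1, f.2)) f = e then 1 else 0) +
  (if Sum.elim (fun f : Y.F × ZMod t => (Sum.inl (Y.f2 f.1, f.2) : PE Y t))
      (fun f => Sum.inr (Y.tgt f.1, f.2)) f = e then 1 else 0) -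
  (if Sum.elim (fun f : Y.F × ZMod t => (Sum.inl (Y.f3 f.1, f.2) : PE Y t))
      (fun f => Sum.inl (f.1, f.2 + 1)) f = e then 1 else 0) -
  (if Sum.elim (fun f : Y.F × ZMod t => (Sum.inl (Y.f4 f.1, f.2) : PE Y t))
      (fun f => Sum.inr (Y.src f.1, f.2)) f = e then 1 else 0)

theorem DP_eq (Y : Cx) (t : ℕ) [NeZero t] : (Y.prod (cyc t)).D = DP Y t := rfl

/-- the coordinates of the free links -/
def se {Y : Cx} (R : Rt Y) (t : ℕ) (i : J R) (τ : ZMod t) : PE Y t :=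
  Sum.elim (fun e => Sum.inl (e.1, τ)) (fun v => Sum.inr (v.1, τ)) i

/-- the coordinates of the free links -/
def sig {Y : Cx} (R : Rt Y) (t : ℕ) [NeZero t] :
    J R × ZMod t ≃ {e : (Y.prod (cyc t)).E // R.fixed e = false} where
  toFun p := match p with
    | (Sum.inl e, τ) => ⟨Sum.inl (e.1, τ), e.2⟩
    | (Sum.inr v, τ) => ⟨Sum.inr (v.1, τ), by simp [Rt.fixed, v.2]⟩
  invFun p := match p with
    | ⟨Sum.inl (e, τ), h⟩ => (Sum.inl ⟨e, h⟩, τ)
    | ⟨Sum.inr (v, τ), h⟩ => (Sum.inr ⟨v, by simpa [Rt.fixed] using h⟩, τ)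
  left_inv p := by
    rcases p with ⟨e | v, τ⟩ <;> rfl
  right_inv p := by
    rcases p with ⟨⟨e, τ⟩ | ⟨v, τ⟩, h⟩ <;> rfl

theorem sig_val {Y : Cx} (R : Rt Y) (t : ℕ) [NeZero t] (i : J R) (τ : ZMod t) :
    (sig R t (i, τ)).1 = se R t i τ := by
  rcases i with e | v <;> rfl

theorem D_inl {Y : Cx} (R : Rt Y) (t : ℕ) [NeZero t] (f : Y.F) (s τ : ZMod t) (i : J R) :
    DP Y t (Sum.inl (f, s)) (se R t i τ) = if s = τ then B R f i else 0 := by
  rcases i with e | v
  · by_cases hs : s = τ <;> simp [DP, se, B, Cx.D, hs]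
  · simp [DP, se, B]

theorem D_inr {Y : Cx} (R : Rt Y) (t : ℕ) [NeZero t] (e : Y.E) (s τ : ZMod t) (i : J R) :
    DP Y t (Sum.inr (e, s)) (se R t i τ) =
      (if s = τ then C0 R e i else 0) + (if s + 1 = τ then C1 R e i else 0) := by
  rcases i with e' | v
  · simp only [DP, se, C0, C1, Sum.elim_inl, Sum.elim_inr, Sum.inl.injEq, Prod.mk.injEq,
      reduceCtorEq, if_false]
    by_cases h1 : e = e'.1
    · simp only [h1, true_and, if_true]
      split_ifs <;> norm_num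
    · simp only [h1, false_and, if_false]
      norm_num
  · by_cases h2 : s = τ <;> simp [DP, se, C0, C1, Cx.d0, h2]

theorem key (t : ℕ) [NeZero t] (τ τ' : ZMod t) (x y x' y' : ℝ) :
    ∑ s : ZMod t, ((if s = τ then x else 0) + (if s + 1 = τ then y else 0)) *
      ((if s = τ' then x' else 0) + (if s + 1 = τ' then y' else 0)) =
    (if τ' = τ then x * x' + y * y' else 0) + (if τ' = τ + 1 then x * y' else 0) +
      (if τ = τ' + 1 then x' * y else 0) := by
  have h1 : ∑ s : ZMod t, (if s = τ then x else 0) * (if s = τ' then x' else 0) =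
      if τ' = τ then x * x' else 0 := by
    rw [Finset.sum_eq_single τ (fun s _ hs => by simp [hs]) (by simp)]
    simp [eq_comm]
  have h2 : ∑ s : ZMod t, (if s = τ then x else 0) * (if s + 1 = τ' then y' else 0) =
      if τ' = τ + 1 then x * y' else 0 := by
    rw [Finset.sum_eq_single τ (fun s _ hs => by simp [hs]) (by simp)]
    simp [eq_comm]
  have h3 : ∑ s : ZMod t, (if s + 1 = τ then y else 0) * (if s = τ' then x' else 0) =
      if τ = τ' + 1 then x' * y else 0 := by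
    rw [Finset.sum_eq_single τ' (fun s _ hs => by simp [hs]) (by simp)]
    simp [eq_comm, mul_comm]
  have h4 : ∑ s : ZMod t, (if s + 1 = τ then y else 0) * (if s + 1 = τ' then y' else 0) =
      if τ' = τ then y * y' else 0 := by
    have h5 : ∑ s : ZMod t, (if s + 1 = τ then y else 0) * (if s + 1 = τ' then y' else 0) =
        ∑ s : ZMod t, (if s = τ then y else 0) * (if s = τ' then y' else 0) :=
      Equiv.sum_comp (Equiv.addRight (1 : ZMod t))
        (fun s => (if s = τ then y else 0) * (if s = τ' then y' else 0))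
    rw [h5, Finset.sum_eq_single τ (fun s _ hs => by simp [hs]) (by simp)]
    simp [eq_comm]
  simp_rw [add_mul, mul_add, Finset.sum_add_distrib]
  rw [h1, h2, h3, h4]
  split_ifs <;> ring

/-- the diagonal block -/
def A0 {Y : Cx} (R : Rt Y) : Matrix (J R) (J R) ℝ :=
  (B R)ᵀ * B R + (C0 R)ᵀ * C0 R + (C1 R)ᵀ * C1 R

/-- the off diagonal block -/
def A1 {Y : Cx} (R : Rt Y) : Matrix (J R) (J R) ℝ := (C0 R)ᵀ * C1 R

theorem hess_eq {Y : Cx} (R : Rt Y) (t : ℕ) [NeZero t] (i : J R) (τ : ZMod t) (j : J R)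
    (τ' : ZMod t) : R.hess (cyc t) (sig R t (i, τ)) (sig R t (j, τ')) =
      (if τ' = τ then A0 R i j else 0) + (if τ' = τ + 1 then A1 R i j else 0) +
      (if τ = τ' + 1 then A1 R j i else 0) := by
  have h0 : R.hess (cyc t) (sig R t (i, τ)) (sig R t (j, τ')) =
      ∑ f : PF Y t, DP Y t f (se R t i τ) * DP Y t f (se R t j τ') := by
    rw [← sig_val, ← sig_val]
    rfl
  rw [h0, Fintype.sum_sum_type, Fintype.sum_prod_type, Fintype.sum_prod_type]
  simp_rw [D_inl, D_inr, key]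
  have h1 : ∀ f : Y.F, ∑ s : ZMod t, (if s = τ then B R f i else 0) * (if s = τ' then B R f j else 0) =
      if τ' = τ then B R f i * B R f j else 0 := by
    intro f
    rw [Finset.sum_eq_single τ (fun s _ hs => by simp [hs]) (by simp)]
    simp [eq_comm]
  simp_rw [h1, Finset.sum_add_distrib]
  simp only [A0, A1, Matrix.add_apply, Matrix.mul_apply, Matrix.transpose_apply]
  simp_rw [Finset.sum_ite_irrel, Finset.sum_const_zero, Finset.sum_add_distrib]
  have h2 : ∑ e, C0 R e j * C1 R e i = ∑ e, C0 R e j * C1 R e i := rfl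
  split_ifs <;> ring

/-! ### linear algebra -/

theorem D_sum {Y : Cx} (f : Y.F) (g : Y.E → ℝ) :
    ∑ e, Y.D f e * g e = g (Y.f1 f) + g (Y.f2 f) - g (Y.f3 f) - g (Y.f4 f) := by
  simp [Cx.D, sub_mul, add_mul, Finset.sum_sub_distrib, Finset.sum_add_distrib]

theorem D_d0 (Y : Cx) : Y.D * Y.d0 = 0 := by
  ext f v
  rw [Matrix.mul_apply, D_sum]
  simp only [Cx.d0, Y.h1, Y.h2, Y.h3, Y.h4, Matrix.zero_apply]
  ring

/-- the edge of a free link -/
def eif {Y : Cx} (R : Rt Y) : J R → Y.E :=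
  Sum.elim (fun e => e.1) (fun v => (R.pe_some v.1 v.2).choose)

theorem eif_inr {Y : Cx} (R : Rt Y) (v : {v : Y.V // v ≠ R.root}) :
    R.pe v.1 = some (eif R (Sum.inr v)) ∧ R.tree (eif R (Sum.inr v)) = true ∧
      Y.tgt (eif R (Sum.inr v)) = v.1 := (R.pe_some v.1 v.2).choose_spec

theorem eif_bij {Y : Cx} (R : Rt Y) : Function.Bijective (eif R) := by
  constructor
  · rintro (e | v) (e' | v') h
    · exact congrArg Sum.inl (Subtype.ext h)
    · exfalso
      have h1 := e.2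
      have h2 := (eif_inr R v').2.1
      rw [← h] at h2
      change R.tree e.1 = true at h2
      rw [h1] at h2
      exact Bool.false_ne_true h2
    · exfalso
      have h1 := e'.2
      have h2 := (eif_inr R v).2.1
      rw [h] at h2
      change R.tree e'.1 = true at h2
      rw [h1] at h2
      exact Bool.false_ne_true h2
    · refine congrArg Sum.inr (Subtype.ext ?_)
      rw [← (eif_inr R v).2.2, ← (eif_inr R v').2.2, h]
  · intro e
    cases h : R.tree e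
    · exact ⟨Sum.inl ⟨e, h⟩, rfl⟩
    · have h1 : Y.tgt e ≠ R.root := by
        intro h2
        have h3 := R.pe_tree e h
        rw [h2, R.pe_root] at h3
        exact absurd h3 (by simp)
      refine ⟨Sum.inr ⟨Y.tgt e, h1⟩, ?_⟩
      have h2 := (eif_inr R ⟨Y.tgt e, h1⟩).1
      rw [R.pe_tree e h] at h2
      exact (Option.some.inj h2).symm

/-- the edges are the free links of a slice -/
def ei {Y : Cx} (R : Rt Y) : J R ≃ Y.E := Equiv.ofBijective _ (eif_bij R)

theorem ei_inl {Y : Cx} (R : Rt Y) (e : {e : Y.E // R.tree e = false}) :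
    ei R (Sum.inl e) = e.1 := rfl

theorem ei_inr {Y : Cx} (R : Rt Y) (v : {v : Y.V // v ≠ R.root}) :
    R.tree (ei R (Sum.inr v)) = true ∧ Y.tgt (ei R (Sum.inr v)) = v.1 :=
  (eif_inr R v).2

theorem card_eq {Y : Cx} (R : Rt Y) :
    Fintype.card Y.E + 1 = Fintype.card {e : Y.E // R.tree e = false} + Fintype.card Y.V := by
  have h1 := Fintype.card_congr (ei R)
  rw [Fintype.card_sum] at h1
  have h2 := Fintype.card_congr (Equiv.optionSubtypeNe R.root)
  rw [Fintype.card_option] at h2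
  omega

/-- the complex matrix of the faces between the slices -/
def Psi {Y : Cx} (R : Rt Y) (ζ : ℂ) : Matrix Y.E (J R) ℂ :=
  (C0 R).map (fun x : ℝ => (x : ℂ)) + ζ • (C1 R).map (fun x : ℝ => (x : ℂ))

/-- complex versions -/
def Bc {Y : Cx} (R : Rt Y) : Matrix Y.F (J R) ℂ := (B R).map (fun x : ℝ => (x : ℂ))

/-- complex versions -/
def Dc (Y : Cx) : Matrix Y.F Y.E ℂ := Y.D.map (fun x : ℝ => (x : ℂ))

/-- complex versions -/
def dc (Y : Cx) : Matrix Y.E Y.V ℂ := Y.d0.map (fun x : ℝ => (x : ℂ))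

theorem Psi_inl {Y : Cx} (R : Rt Y) (ζ : ℂ) (e : Y.E) (e' : {e : Y.E // R.tree e = false}) :
    Psi R ζ e (Sum.inl e') = if e = e'.1 then 1 - ζ else 0 := by
  simp only [Psi, C0, C1, Matrix.add_apply, Matrix.map_apply, Matrix.smul_apply, Sum.elim_inl,
    smul_eq_mul]
  split_ifs
  · push_cast
    ring
  · simp

theorem Psi_inr {Y : Cx} (R : Rt Y) (ζ : ℂ) (e : Y.E) (v : {v : Y.V // v ≠ R.root}) :
    Psi R ζ e (Sum.inr v) = dc Y e v.1 := by
  simp [Psi, C0, C1, dc]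

theorem Dc_dc (Y : Cx) : Dc Y * dc Y = 0 := by
  have h := congrArg (fun M : Matrix Y.F Y.V ℝ => M.map (fun x : ℝ => (x : ℂ))) (D_d0 Y)
  ext f v
  have h1 := congrFun (congrFun h f) v
  simp only [Matrix.map_apply, Matrix.mul_apply, Matrix.zero_apply, Complex.ofReal_zero,
    Complex.ofReal_sum, Complex.ofReal_mul] at h1
  simpa [Dc, dc, Matrix.mul_apply] using h1

theorem Dc_Psi {Y : Cx} (R : Rt Y) (ζ : ℂ) : Dc Y * Psi R ζ = (1 - ζ) • Bc R := by
  ext f j
  rcases j with e | v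
  · rw [Matrix.mul_apply]
    simp_rw [Psi_inl]
    simp [Dc, Bc, B, mul_comm]
  · have h := congrFun (congrFun (Dc_dc Y) f) v.1
    rw [Matrix.mul_apply] at h ⊢
    simp_rw [Psi_inr]
    rw [h]
    simp [Bc, B]

/-- the part of the tree -/
def TT {Y : Cx} (R : Rt Y) : Matrix {v : Y.V // v ≠ R.root} {v : Y.V // v ≠ R.root} ℂ :=
  fun v v' => dc Y (ei R (Sum.inr v)) v'.1

theorem TT_apply {Y : Cx} (R : Rt Y) (v v' : {v : Y.V // v ≠ R.root}) :
    TT R v v' = (if v = v' then 1 else 0) - (if Y.src (ei R (Sum.inr v)) = v'.1 then 1 else 0) := by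
  have h := (ei_inr R v).2
  simp only [TT, dc, Matrix.map_apply, Cx.d0, h, Subtype.ext_iff]
  push_cast
  congr 1 <;> split_ifs <;> simp

theorem TT_zero {Y : Cx} (R : Rt Y) (v v' : {v : Y.V // v ≠ R.root}) (hv : v ≠ v')
    (h : R.rV v.1 ≤ R.rV v'.1) : TT R v v' = 0 := by
  rw [TT_apply, if_neg hv, if_neg, sub_zero]
  intro h1
  have h2 := R.rV_lt _ (ei_inr R v).1
  rw [(ei_inr R v).2, h1] at h2
  omega

theorem TT_diag {Y : Cx} (R : Rt Y) (v : {v : Y.V // v ≠ R.root}) : TT R v v = 1 := by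
  rw [TT_apply, if_pos rfl, if_neg, sub_zero]
  intro h1
  have h2 := R.rV_lt _ (ei_inr R v).1
  rw [(ei_inr R v).2, h1] at h2
  omega

theorem TT_det {Y : Cx} (R : Rt Y) : (TT R).det = 1 := by
  have h : Matrix.BlockTriangular (TT R) (fun v => OrderDual.toDual (R.rV v.1)) := by
    intro i j hij
    have h1 : R.rV i.1 < R.rV j.1 := hij
    refine TT_zero R i j (fun h2 => ?_) h1.le
    rw [h2] at h1
    exact lt_irrefl _ h1
  rw [h.det]
  refine Finset.prod_eq_one fun a _ => ?_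
  have h1 : (TT R).toSquareBlock (fun v => OrderDual.toDual (R.rV v.1)) a = 1 := by
    ext i j
    rw [Matrix.toSquareBlock_def, Matrix.of_apply, Matrix.one_apply]
    split_ifs with h2
    · rw [h2]
      exact TT_diag R j.1
    · refine TT_zero R _ _ (fun h3 => h2 (Subtype.ext h3)) ?_
      have h3 : OrderDual.toDual (R.rV i.1.1) = OrderDual.toDual (R.rV j.1.1) := i.2.trans j.2.symm
      exact (OrderDual.toDual_inj.1 h3).le
  rw [h1, Matrix.det_one]

theorem Psi_det {Y : Cx} (R : Rt Y) (ζ : ℂ) : ((Psi R ζ).submatrix (ei R) id).det =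
    (1 - ζ) ^ Fintype.card {e : Y.E // R.tree e = false} := by
  have h : (Psi R ζ).submatrix (ei R) id = Matrix.fromBlocks
      ((1 - ζ) • (1 : Matrix {e : Y.E // R.tree e = false} {e : Y.E // R.tree e = false} ℂ))
      (fun e v => dc Y e.1 v.1) 0 (TT R) := by
    ext i j
    rcases i with e | v <;> rcases j with e' | v'
    · simp [Psi_inl, ei_inl, Matrix.one_apply, Subtype.ext_iff]
    · simp [Psi_inr, ei_inl]
    · simp only [Matrix.submatrix_apply, id, Psi_inl, Matrix.fromBlocks_apply₂₁, Matrix.zero_apply]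
      rw [if_neg]
      intro h1
      have h2 := (ei_inr R v).1
      rw [h1, e'.2] at h2
      exact Bool.false_ne_true h2
    · simp [Psi_inr, TT]
  rw [h, Matrix.det_fromBlocks_zero₂₁, TT_det, Matrix.det_smul, Matrix.det_one]
  ring

/-- the Fourier transform of the quadratic form -/
def Mh {Y : Cx} (R : Rt Y) (ζ w : ℂ) : Matrix (J R) (J R) ℂ :=
  (Bc R)ᵀ * Bc R + (Psi R w)ᵀ * Psi R ζ

theorem Mh_eq {Y : Cx} (R : Rt Y) {ζ w : ℂ} (h1 : 1 - ζ ≠ 0) (h2 : 1 - w ≠ 0) :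
    Mh R ζ w = (Psi R w)ᵀ * (1 + ((1 - ζ) * (1 - w))⁻¹ • ((Dc Y)ᵀ * Dc Y)) * Psi R ζ := by
  have h3 : Bc R = (1 - ζ)⁻¹ • (Dc Y * Psi R ζ) := by
    rw [Dc_Psi, smul_smul, inv_mul_cancel₀ h1, one_smul]
  have h4 : Bc R = (1 - w)⁻¹ • (Dc Y * Psi R w) := by
    rw [Dc_Psi, smul_smul, inv_mul_cancel₀ h2, one_smul]
  have h5 : (Bc R)ᵀ * Bc R = ((1 - ζ) * (1 - w))⁻¹ •
      ((Psi R w)ᵀ * ((Dc Y)ᵀ * Dc Y) * Psi R ζ) := by
    calc (Bc R)ᵀ * Bc R = ((1 - w)⁻¹ • (Dc Y * Psi R w))ᵀ * ((1 - ζ)⁻¹ • (Dc Y * Psi R ζ)) := by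
          rw [← h3, ← h4]
      _ = _ := by
          rw [Matrix.transpose_smul, Matrix.smul_mul, Matrix.mul_smul, smul_smul,
            Matrix.transpose_mul, mul_inv, mul_comm (1 - w)⁻¹]
          simp only [Matrix.mul_assoc]
  rw [Mh, h5]
  simp only [Matrix.mul_add, Matrix.add_mul, Matrix.mul_one, Matrix.mul_smul, Matrix.smul_mul]
  rw [add_comm]

theorem Mh_det {Y : Cx} (R : Rt Y) {ζ w : ℂ} (h1 : 1 - ζ ≠ 0) (h2 : 1 - w ≠ 0) :
    (Mh R ζ w).det = ((1 - ζ) * (1 - w)) ^ Fintype.card {e : Y.E // R.tree e = false} *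
      (1 + ((1 - ζ) * (1 - w))⁻¹ • ((Dc Y)ᵀ * Dc Y)).det := by
  set N := (1 : Matrix Y.E Y.E ℂ) + ((1 - ζ) * (1 - w))⁻¹ • ((Dc Y)ᵀ * Dc Y) with hN
  have h3 : Mh R ζ w = ((Psi R w).submatrix (ei R) id)ᵀ * N.submatrix (ei R) (ei R) *
      (Psi R ζ).submatrix (ei R) id := by
    rw [Mh_eq R h1 h2, Matrix.transpose_submatrix, Matrix.submatrix_mul_equiv,
      Matrix.submatrix_mul_equiv, Matrix.submatrix_id_id]
  rw [h3, Matrix.det_mul, Matrix.det_mul, Matrix.det_transpose, Psi_det, Psi_det,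
    Matrix.det_submatrix_equiv_self, mul_pow]
  ring

theorem main_id {Y : Cx} (R : Rt Y) {ζ w : ℂ} (h1 : 1 - ζ ≠ 0) (h2 : 1 - w ≠ 0) :
    (Mh R ζ w).det * (((1 - ζ) * (1 - w)) • (1 : Matrix Y.V Y.V ℂ) + (dc Y)ᵀ * dc Y).det =
      ((1 - ζ) * (1 - w)) * (((1 - ζ) * (1 - w)) • (1 : Matrix Y.E Y.E ℂ) +
        ((Dc Y)ᵀ * Dc Y + dc Y * (dc Y)ᵀ)).det := by
  rw [Mh_det R h1 h2]
  set z := (1 - ζ) * (1 - w) with hz
  have hz0 : z ≠ 0 := mul_ne_zero h1 h2
  have e1 : z • (1 : Matrix Y.V Y.V ℂ) + (dc Y)ᵀ * dc Y =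
      z • (1 + (dc Y)ᵀ * (z⁻¹ • dc Y)) := by
    rw [Matrix.mul_smul, smul_add, smul_smul, mul_inv_cancel₀ hz0, one_smul]
  have e2 : z • (1 : Matrix Y.E Y.E ℂ) + ((Dc Y)ᵀ * Dc Y + dc Y * (dc Y)ᵀ) =
      z • ((1 + z⁻¹ • ((Dc Y)ᵀ * Dc Y)) * (1 + (z⁻¹ • dc Y) * (dc Y)ᵀ)) := by
    have e3 : ((Dc Y)ᵀ * Dc Y) * (dc Y * (dc Y)ᵀ) = 0 := by
      rw [Matrix.mul_assoc, ← Matrix.mul_assoc (Dc Y), Dc_dc, Matrix.zero_mul, Matrix.mul_zero]
    rw [Matrix.add_mul, Matrix.mul_add, Matrix.mul_add, Matrix.one_mul, Matrix.mul_one,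
      Matrix.one_mul, Matrix.smul_mul, Matrix.smul_mul, Matrix.mul_smul, e3, smul_zero, smul_zero,
      add_zero, smul_add, smul_add, smul_smul, smul_smul, mul_inv_cancel₀ hz0, one_smul, one_smul]
    abel
  rw [e1, e2, Matrix.det_smul, Matrix.det_smul, Matrix.det_mul,
    Matrix.det_one_add_mul_comm (z⁻¹ • dc Y) ((dc Y)ᵀ)]
  have h3 : z ^ Fintype.card {e : Y.E // R.tree e = false} * z ^ Fintype.card Y.V =
      z * z ^ Fintype.card Y.E := by
    rw [← pow_add, ← card_eq R, pow_succ]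
    ring
  linear_combination (1 + z⁻¹ • ((Dc Y)ᵀ * Dc Y)).det * (1 + (dc Y)ᵀ * (z⁻¹ • dc Y)).det * h3

/-! ### the points of the circle -/

theorem L0_det_pos (Y : Cx) {x : ℝ} (hx : 0 < x) :
    0 < (x • (1 : Matrix Y.V Y.V ℝ) + Y.L0).det := by
  have h1 : Y.L0.PosSemidef := by
    have := Matrix.posSemidef_conjTranspose_mul_self Y.d0
    rwa [Matrix.conjTranspose_eq_transpose_of_trivial] at this
  have h2 : (x • (1 : Matrix Y.V Y.V ℝ)).PosDef := Matrix.PosDef.one.smul hx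
  exact (h2.add_posSemidef h1).det_pos

theorem cast_det0 (Y : Cx) (x : ℝ) : (((x • (1 : Matrix Y.V Y.V ℝ) + Y.L0).det : ℝ) : ℂ) =
    ((x : ℂ) • (1 : Matrix Y.V Y.V ℂ) + (dc Y)ᵀ * dc Y).det := by
  have h := RingHom.map_det Complex.ofRealHom (x • (1 : Matrix Y.V Y.V ℝ) + Y.L0)
  rw [Complex.ofRealHom_eq_coe] at h
  rw [h]
  congr 1
  ext i j
  simp [Cx.L0, dc, Matrix.mul_apply, Matrix.one_apply, apply_ite]

theorem cast_det1 (Y : Cx) (x : ℝ) : (((x • (1 : Matrix Y.E Y.E ℝ) + Y.L1).det : ℝ) : ℂ) =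
    ((x : ℂ) • (1 : Matrix Y.E Y.E ℂ) + ((Dc Y)ᵀ * Dc Y + dc Y * (dc Y)ᵀ)).det := by
  have h := RingHom.map_det Complex.ofRealHom (x • (1 : Matrix Y.E Y.E ℝ) + Y.L1)
  rw [Complex.ofRealHom_eq_coe] at h
  rw [h]
  congr 1
  ext i j
  simp [Cx.L1, dc, Dc, Matrix.mul_apply, Matrix.one_apply, apply_ite]

theorem zz (φ : ℝ) : (1 - Complex.exp (φ * Complex.I)) * (1 - Complex.exp (-(φ * Complex.I))) =
    ((2 - 2 * Real.cos φ : ℝ) : ℂ) := by
  have h1 : Complex.exp (φ * Complex.I) * Complex.exp (-(φ * Complex.I)) = 1 := by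
    rw [← Complex.exp_add, add_neg_cancel, Complex.exp_zero]
  have h2 : (2 : ℂ) * Complex.cos φ = Complex.exp (φ * Complex.I) + Complex.exp (-(φ * Complex.I)) := by
    rw [Complex.cos]
    ring_nf
  push_cast
  rw [h2]
  linear_combination h1

theorem point {Y : Cx} (R : Rt Y) (g : Polynomial ℝ)
    (hg : ∀ x : ℝ, g.eval x * (x • (1 : Matrix Y.V Y.V ℝ) + Y.L0).det =
      x * (x • (1 : Matrix Y.E Y.E ℝ) + Y.L1).det) (φ : ℝ) (hφ : Real.cos φ ≠ 1) :
    (Mh R (Complex.exp (φ * Complex.I)) (Complex.exp (-(φ * Complex.I)))).det =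
      ((g.eval (2 - 2 * Real.cos φ) : ℝ) : ℂ) := by
  have hx : 0 < 2 - 2 * Real.cos φ := by
    have := lt_of_le_of_ne (Real.cos_le_one φ) hφ
    linarith
  have hz := zz φ
  have hz0 : (1 - Complex.exp (φ * Complex.I)) * (1 - Complex.exp (-(φ * Complex.I))) ≠ 0 := by
    rw [hz]
    exact_mod_cast hx.ne'
  have h := main_id R (left_ne_zero_of_mul hz0) (right_ne_zero_of_mul hz0)
  rw [hz, ← cast_det0, ← cast_det1] at h
  have h0 := L0_det_pos Y hx
  have h1 : ((((2 - 2 * Real.cos φ) • (1 : Matrix Y.V Y.V ℝ) + Y.L0).det : ℝ) : ℂ) ≠ 0 := by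
    exact_mod_cast h0.ne'
  apply mul_right_cancel₀ h1
  rw [h]
  exact_mod_cast (hg (2 - 2 * Real.cos φ)).symm

theorem point' {Y : Cx} (R : Rt Y) (g : Polynomial ℝ)
    (hg : ∀ x : ℝ, g.eval x * (x • (1 : Matrix Y.V Y.V ℝ) + Y.L0).det =
      x * (x • (1 : Matrix Y.E Y.E ℝ) + Y.L1).det) (φ : ℝ) :
    (Mh R (Complex.exp (φ * Complex.I)) (Complex.exp (-(φ * Complex.I)))).det =
      ((g.eval (2 - 2 * Real.cos φ) : ℝ) : ℂ) := by
  have hd : Dense {φ : ℝ | Real.cos φ = 1}ᶜ := by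
    apply Set.Countable.dense_compl ℝ
    refine (Set.countable_range (fun n : ℤ => (n : ℝ) * (2 * Real.pi))).mono ?_
    intro x hx
    obtain ⟨n, hn⟩ := (Real.cos_eq_one_iff x).1 hx
    exact ⟨n, hn⟩
  have hc1 : Continuous (fun φ : ℝ =>
      (Mh R (Complex.exp (φ * Complex.I)) (Complex.exp (-(φ * Complex.I)))).det) := by
    apply Continuous.matrix_det
    refine continuous_matrix fun i j => ?_
    simp only [Mh, Psi, Matrix.add_apply, Matrix.mul_apply, Matrix.transpose_apply,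
      Matrix.smul_apply, smul_eq_mul]
    fun_prop
  have hc2 : Continuous (fun φ : ℝ => ((g.eval (2 - 2 * Real.cos φ) : ℝ) : ℂ)) := by
    refine Complex.continuous_ofReal.comp (g.continuous.comp ?_)
    fun_prop
  exact congrFun (Continuous.ext_on hd hc1 hc2 fun φ hφ => point R g hg φ hφ) φ

theorem Mh_of {Y : Cx} (R : Rt Y) {ζ w : ℂ} (h : w * ζ = 1) :
    (Matrix.of fun i j : J R => (A0 R i j : ℂ) + ζ * A1 R i j + w * A1 R j i) = Mh R ζ w := by
  ext i j
  simp only [Matrix.of_apply, Mh, Psi, Bc, A0, A1, Matrix.add_apply, Matrix.mul_apply,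
    Matrix.transpose_apply, Matrix.map_apply, Matrix.smul_apply, smul_eq_mul]
  push_cast
  rw [Finset.mul_sum, Finset.mul_sum, add_assoc, add_assoc, add_assoc]
  congr 1
  rw [← Finset.sum_add_distrib, ← Finset.sum_add_distrib, ← Finset.sum_add_distrib]
  refine Finset.sum_congr rfl fun e _ => ?_
  linear_combination -(C1 R e i : ℂ) * (C1 R e j : ℂ) * h

theorem t_ALG : S_CIRC → S_ALG := by
  intro hC Y R g hg t _
  have h1 := hC (J R) t (A0 R) (A1 R) ((R.hess (cyc t)).submatrix (sig R t) (sig R t))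
    (fun i τ j τ' => hess_eq R t i τ j τ')
  rw [Matrix.det_submatrix_equiv_self] at h1
  have h2 : (((R.hess (cyc t)).det : ℝ) : ℂ) =
      ((∏ q ∈ Finset.range t, g.eval (2 - 2 * Real.cos (2 * Real.pi * q / t)) : ℝ) : ℂ) := by
    rw [h1, Complex.ofReal_prod]
    refine Finset.prod_congr rfl fun q _ => ?_
    rw [← point' R g hg (2 * Real.pi * q / t), Mh_of]
    · have e : (2 * Real.pi * Complex.I * q / t : ℂ) =
          ((2 * Real.pi * q / t : ℝ) : ℂ) * Complex.I := by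
        push_cast
        ring
      rw [e]
    · rw [← Complex.exp_add, neg_add_cancel, Complex.exp_zero]
  exact_mod_cast h2

end

end Pool.Agent.N899.BB.Alg
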