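import Mathlib
import Pool.Agent.N899.BB.Stm
import Pool.Agent.Y14.Main

/-!
# Black body radiation of gluons: the asymptotics of the partition function of the box
-/

open MeasureTheory Matrix Filter Topology
open scoped Matrix.Norms.Frobenius
open Pool.Agent.N899.SB Pool.Agent.Y14.Wilson

namespace Pool.Agent.N899.BB.Asm

set_option linter.unusedSectionVars false
set_option linter.unusedVariables false

noncomputable section

variable {N n : ℕ} {G : Subgroup (UU N)}

lemma compactG (hG : IsClosed (G : Set (UU N))) : CompactSpace G :=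
  isCompact_iff_compactSpace.1 (IsClosed.isCompact (X := UU N) hG)

lemma scG : SecondCountableTopology G := by
  have h00 : SecondCountableTopology (UU N) := TopologicalSpace.Subtype.secondCountableTopology _
  exact TopologicalSpace.Subtype.secondCountableTopology _

lemma mt_cont : Continuous (mt : G → Mt N) := continuous_subtype_val.comp continuous_subtype_val

lemma mt_mul (g h : G) : mt (g * h) = mt g * mt h := rfl

lemma mt_inv (g : G) : mt g⁻¹ = (mt g)ᴴ := rfl

lemma mt_unit (g : G) : mt g * (mt g)ᴴ = 1 := Matrix.mem_unitaryGroup_iff.1 (g : UU N).2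

lemma mt_unit' (g : G) : (mt g)ᴴ * mt g = 1 := Matrix.mem_unitaryGroup_iff'.1 (g : UU N).2

lemma we_cont : Continuous (we : G → ℝ) := by
  have h1 : Continuous fun g : G => (1 : Mt N) - mt g := continuous_const.sub mt_cont
  exact Complex.continuous_re.comp (Continuous.matrix_trace h1)

lemma we_inv (g : G) : we g⁻¹ = we g := by
  unfold we
  rw [mt_inv]
  have h1 : (1 : Mt N) - (mt g)ᴴ = (1 - mt g)ᴴ := by
    rw [conjTranspose_sub, conjTranspose_one]
  rw [h1, trace_conjTranspose, Complex.star_def, Complex.conj_re]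

lemma we_conj (g h : G) : we (h * g * h⁻¹) = we g := by
  unfold we
  have h1 : (1 : Mt N) - mt (h * g * h⁻¹) = mt h * (1 - mt g) * mt h⁻¹ := by
    rw [mt_mul, mt_mul, mt_inv, Matrix.mul_sub, Matrix.sub_mul, Matrix.mul_one, mt_unit]
  rw [h1, Matrix.trace_mul_comm, ← Matrix.mul_assoc, mt_inv, mt_unit', Matrix.one_mul]

lemma we_sq (g : G) : 2 * we g = (trace ((1 - mt g)ᴴ * (1 - mt g))).re := by
  unfold we
  have h1 : (1 - mt g)ᴴ * (1 - mt g) = (1 - mt g) + (1 - mt g)ᴴ := by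
    rw [conjTranspose_sub, conjTranspose_one, Matrix.sub_mul, Matrix.mul_sub, Matrix.mul_sub,
      Matrix.one_mul, Matrix.mul_one, mt_unit', Matrix.one_mul]
    abel
  rw [h1, trace_add, trace_conjTranspose, Complex.add_re, Complex.star_def, Complex.conj_re]
  ring

lemma tr_nonneg (A : Mt N) : 0 ≤ (trace (Aᴴ * A)).re := by
  rw [Matrix.trace]
  simp only [Matrix.diag_apply, Matrix.mul_apply, Matrix.conjTranspose_apply, Complex.re_sum]
  refine Finset.sum_nonneg fun j _ => Finset.sum_nonneg fun i _ => ?_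
  rw [Complex.star_def, ← Complex.normSq_eq_conj_mul_self, Complex.ofReal_re]
  exact Complex.normSq_nonneg _

lemma we_nonneg (g : G) : 0 ≤ we g := by
  have h1 := we_sq g
  have h2 := tr_nonneg (1 - mt g)
  linarith

/-- the logarithms of the boxes -/
lemma log_aux {q : ℕ} {β : ℝ} (hq : 1 ≤ q) (hβ : 3 ≤ β) :
    1 ≤ Real.log β ∧ 0 ≤ Real.log q ∧
    Real.log (((3 * q * (q + 1) ^ 2 : ℕ) : ℝ) * β) ≤ 4 * (Real.log q + Real.log β) := by
  have hq1 : (1 : ℝ) ≤ q := by exact_mod_cast hq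
  have hq0 : (0 : ℝ) < q := by linarith
  have hβ0 : 0 < β := by linarith
  have h1 : 1 ≤ Real.log β := by
    rw [Real.le_log_iff_exp_le hβ0]
    exact (Real.exp_one_lt_d9.le.trans (by norm_num)).trans hβ
  have h2 : 0 ≤ Real.log q := Real.log_nonneg hq1
  refine ⟨h1, h2, ?_⟩
  have h3 : ((3 * q * (q + 1) ^ 2 : ℕ) : ℝ) ≤ 12 * (q : ℝ) ^ 3 := by
    push_cast
    nlinarith [mul_nonneg hq0.le (sub_nonneg.2 hq1), mul_nonneg (sq_nonneg (q : ℝ))
      (sub_nonneg.2 hq1), mul_nonneg (mul_nonneg hq0.le (sub_nonneg.2 hq1)) (sub_nonneg.2 hq1)]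
  have h4 : ((3 * q * (q + 1) ^ 2 : ℕ) : ℝ) * β ≤ (q : ℝ) ^ 3 * β ^ 4 := by
    have h5 : (12 : ℝ) ≤ β ^ 3 := by nlinarith [mul_self_nonneg (β - 3)]
    calc ((3 * q * (q + 1) ^ 2 : ℕ) : ℝ) * β ≤ 12 * (q : ℝ) ^ 3 * β :=
          mul_le_mul_of_nonneg_right h3 hβ0.le
      _ ≤ β ^ 3 * (q : ℝ) ^ 3 * β := by gcongr
      _ = (q : ℝ) ^ 3 * β ^ 4 := by ring
  have h6 : 0 < ((3 * q * (q + 1) ^ 2 : ℕ) : ℝ) * β := by positivity
  refine (Real.log_le_log h6 h4).trans ?_
  rw [Real.log_mul (by positivity) (by positivity), Real.log_pow, Real.log_pow]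
  push_cast
  linarith

/-- **the partition function of the box** -/
theorem box_asym (hDIA : S_DIA) (hTREE : S_TREE) (hRT : S_RT) (hSYSR : S_SYSR)
    (hGAUSS : S_GAUSS) (hLOW : S_LOW) (hDET : S_DET) (hG : IsClosed (G : Set (UU N)))
    [MeasurableSpace G] [BorelSpace G] (μ : Measure G) [IsProbabilityMeasure μ]
    [μ.IsHaarMeasure] (B : LieBasis G n) :
    ∃ (C : ℝ) (K : ℕ), 1 ≤ C ∧ 1 ≤ K ∧ ∀ (q s : ℕ) [NeZero s], 1 ≤ q → Even s → ∀ β : ℝ, 3 ≤ β →
      |Real.log (((box q).prod (cyc s)).Z μ we β) -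
        (s * (3 * q * (q + 1) ^ 2 * Real.log (kap μ (we (G := G)) β) - n / 2 * vac q) +
          n * bbr q s)| ≤
        C * (Real.log q + Real.log β) + C * (s * q ^ 3 * Real.log β) ^ K / Real.sqrt β := by
  have := compactG hG
  have := scG (G := G)
  have := right_inv μ
  have := inv_inv' μ
  obtain ⟨C1, K, hC1, hK, hg⟩ := hGAUSS G hG μ B
  obtain ⟨C2, hC2, hl⟩ := hLOW G hG μ
  refine ⟨max (4 * C2) (C1 * 18 ^ K), K, ?_, hK, fun q s _ hq hs β hβ => ?_⟩
  · exact le_trans (by linarith) (le_max_left _ _)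
  have hq1 : (1 : ℝ) ≤ q := by exact_mod_cast hq
  have hs0 : 1 ≤ s := Nat.one_le_iff_ne_zero.2 (NeZero.ne s)
  have hs1 : (1 : ℝ) ≤ s := by exact_mod_cast hs0
  have hβ0 : 0 < β := by linarith
  obtain ⟨hlβ, hlq, hlm⟩ := log_aux hq hβ
  obtain ⟨⟨R⟩, hE, hF⟩ : Nonempty (Rt (box q)) ∧ Fintype.card (box q).E = 3 * q * (q + 1) ^ 2 ∧
      Fintype.card (box q).F = 3 * q ^ 2 * (q + 1) := ⟨hRT.2.2.1 q, hRT.2.2.2 q⟩
  obtain ⟨Q, hQL, hQP, hQH, hQZ⟩ := hSYSR (box q) R s
  obtain ⟨hd0, hdet⟩ := hDET q R s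
  -- the diamagnetic inequality
  obtain ⟨hle, hge⟩ := hDIA G μ (we (G := G)) we_cont we_inv (fun g h => we_conj g h) we_nonneg β
    hβ0.le (box q) R.root s hs
  have htree := hTREE G μ (we (G := G)) we_cont (fun g h => we_conj g h) (box q) R (cyc s) β
  obtain ⟨hl1, hl2, hl3⟩ := hl β hβ
  have hm1 : 1 ≤ 3 * q * (q + 1) ^ 2 := by nlinarith [Nat.zero_le q, Nat.zero_le (q ^ 2)]
  obtain ⟨A, η, hA, hη, hA1, hA0⟩ := hl2 (3 * q * (q + 1) ^ 2) hm1
  have hge' := hge A η hA hη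
  rw [htree, ← hQZ G μ we β] at hle hge'
  rw [hE] at hge'
  -- the sizes
  have hcardL : Fintype.card Q.L ≤ 18 * s * q ^ 3 := by
    rw [hQL, hE]
    have h1 : (q + 1) ^ 2 ≤ 4 * q ^ 2 := by nlinarith
    calc s * (3 * q * (q + 1) ^ 2) ≤ s * (3 * q * (4 * q ^ 2)) := by gcongr
      _ ≤ 18 * s * q ^ 3 := by
        have : s * (3 * q * (4 * q ^ 2)) = 12 * (s * q ^ 3) := by ring
        rw [this, mul_assoc]
        exact Nat.mul_le_mul_right _ (by norm_num)
  have hcardP : Fintype.card Q.P ≤ 18 * s * q ^ 3 := by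
    rw [hQP, hE, hF]
    have h1 : (q + 1) ^ 2 ≤ 4 * q ^ 2 := by nlinarith
    have h2 : q + 1 ≤ 2 * q := by omega
    calc s * (3 * q ^ 2 * (q + 1) + 3 * q * (q + 1) ^ 2) ≤
        s * (3 * q ^ 2 * (2 * q) + 3 * q * (4 * q ^ 2)) := by gcongr
      _ = 18 * s * q ^ 3 := by ring
  have hm18 : 1 ≤ 18 * s * q ^ 3 := by
    have : 1 ≤ q ^ 3 := Nat.one_le_pow _ _ hq
    nlinarith
  have hgs := hg Q (18 * s * q ^ 3) hm18 hcardL hcardP β hβ
  rw [hQH, hdet, hQL, hE] at hgs
  have hZ0 : 0 < Q.Z μ (we (G := G)) (fun _ => 1) β := by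
    unfold Sys.Z
    refine integral_exp_pos ?_
    refine Continuous.integrable_of_hasCompactSupport ?_ (HasCompactSupport.of_compactSpace _)
    have hev : ∀ o : Option Q.L, Continuous fun U : Q.L → G => ev U o := by
      intro o
      cases o with
      | none => exact continuous_const
      | some w => exact continuous_apply w
    refine Real.continuous_exp.comp (Continuous.neg (continuous_const.mul ?_))
    unfold Sys.S
    refine continuous_finset_sum _ fun p _ => continuous_const.mul (we_cont.comp ?_)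
    unfold Sys.plq
    exact (((hev _).mul (hev _)).mul (hev _).inv).mul (hev _).inv
  obtain ⟨a, ha⟩ : ∃ a : ℝ, a = μ.real A *
      Real.exp (-(β * (((3 * q * (q + 1) ^ 2 : ℕ) : ℝ) * η))) := ⟨_, rfl⟩
  have ha0 : 0 < a := by rw [ha]; positivity
  rw [← ha] at hge' hA1
  have hZb : 0 < ((box q).prod (cyc s)).Z μ (we (G := G)) β :=
    lt_of_lt_of_le (by positivity) hge'
  have h1 : Real.log (((box q).prod (cyc s)).Z μ (we (G := G)) β) ≤
      Real.log (Q.Z μ (we (G := G)) (fun _ => 1) β) := Real.log_le_log hZb hle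
  have h2 : Real.log a + Real.log (Q.Z μ (we (G := G)) (fun _ => 1) β) ≤
      Real.log (((box q).prod (cyc s)).Z μ (we (G := G)) β) := by
    rw [← Real.log_mul ha0.ne' hZ0.ne']
    exact Real.log_le_log (by positivity) hge'
  -- put everything together
  obtain ⟨x, hx⟩ : ∃ x, x = Real.log (((box q).prod (cyc s)).Z μ (we (G := G)) β) := ⟨_, rfl⟩
  obtain ⟨y, hy⟩ : ∃ y, y = Real.log (Q.Z μ (we (G := G)) (fun _ => 1) β) := ⟨_, rfl⟩
  rw [← hx] at h1 h2 ⊢
  rw [← hy] at h1 h2 hgs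
  have hA2 : -(C2 * (4 * (Real.log q + Real.log β))) ≤ Real.log a := by
    refine le_trans ?_ hA1
    have := mul_le_mul_of_nonneg_left hlm (by linarith : (0 : ℝ) ≤ C2)
    linarith
  have e1 : |y - (s * (3 * q * (q + 1) ^ 2 * Real.log (kap μ (we (G := G)) β) - n / 2 * vac q) +
      n * bbr q s)| ≤ C1 * 18 ^ K * (s * q ^ 3 * Real.log β) ^ K / Real.sqrt β := by
    have e2 : y - (s * (3 * q * (q + 1) ^ 2 * Real.log (kap μ (we (G := G)) β) - n / 2 * vac q) +
      n * bbr q s) = y - ((s * (3 * q * (q + 1) ^ 2) : ℕ) : ℝ) *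
        Real.log (kap μ (we (G := G)) β) + n / 2 * (s * vac q - 2 * bbr q s) := by
      push_cast
      ring
    rw [e2]
    refine hgs.trans (le_of_eq ?_)
    have e3 : (((18 * s * q ^ 3 : ℕ) : ℝ) * Real.log β) ^ K =
        18 ^ K * (s * q ^ 3 * Real.log β) ^ K := by
      rw [← mul_pow]
      push_cast
      ring
    rw [e3, mul_assoc C1]
  have hL0 : 0 ≤ Real.log q + Real.log β := by linarith
  have hT0 : 0 ≤ (s * q ^ 3 * Real.log β) ^ K / Real.sqrt β := by positivity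
  have e4 : C1 * 18 ^ K * (s * q ^ 3 * Real.log β) ^ K / Real.sqrt β ≤
      max (4 * C2) (C1 * 18 ^ K) * (s * q ^ 3 * Real.log β) ^ K / Real.sqrt β := by
    rw [mul_div_assoc, mul_div_assoc]
    exact mul_le_mul_of_nonneg_right (le_max_right _ _) hT0
  have e5 : C2 * (4 * (Real.log q + Real.log β)) ≤
      max (4 * C2) (C1 * 18 ^ K) * (Real.log q + Real.log β) := by
    calc C2 * (4 * (Real.log q + Real.log β)) = 4 * C2 * (Real.log q + Real.log β) := by ring
      _ ≤ _ := mul_le_mul_of_nonneg_right (le_max_left _ _) hL0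
  rw [abs_le] at e1 ⊢
  constructor
  · linarith [e1.1]
  · have h7 : 0 ≤ max (4 * C2) (C1 * 18 ^ K) * (Real.log q + Real.log β) :=
      mul_nonneg (le_trans (by linarith) (le_max_left _ _)) hL0
    linarith [e1.2]

end

end Pool.Agent.N899.BB.Asm
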