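import Mathlib
import Pool.Agent.N899.BB.Asm1

/-!
# Black body radiation of gluons: the pressure of the torus
-/

open MeasureTheory Matrix Filter Topology
open scoped Matrix.Norms.Frobenius
open Pool.Agent.N899.SB Pool.Agent.Y14.Wilson

namespace Pool.Agent.N899.BB.Asm

set_option linter.unusedSectionVars false
set_option linter.unusedVariables false

noncomputable section

variable {N n : ℕ} {G : Subgroup (UU N)}

/-- the vacuum energy per volume, `k` being the logarithm of the partition function of one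
plaquette -/
def av (n q : ℕ) (k : ℝ) : ℝ := (3 * q * (q + 1) ^ 2 * k - n / 2 * vac q) / q ^ 3

/-- **the pressure of the box** -/
theorem box_pressure (hDIA : S_DIA) (hTREE : S_TREE) (hRT : S_RT) (hSYSR : S_SYSR)
    (hGAUSS : S_GAUSS) (hLOW : S_LOW) (hDET : S_DET) (hRIEM : S_RIEM)
    (hG : IsClosed (G : Set (UU N)))
    [MeasurableSpace G] [BorelSpace G] (μ : Measure G) [IsProbabilityMeasure μ]
    [μ.IsHaarMeasure] (B : LieBasis G n) :
    ∃ (C : ℝ) (K : ℕ), 1 ≤ C ∧ 1 ≤ K ∧ ∀ (q s : ℕ) [NeZero s], 1 ≤ q → Even s → ∀ β : ℝ, 3 ≤ β →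
      |Real.log (((box q).prod (cyc s)).Z μ we β) / (s * q ^ 3) -
        (av n q (Real.log (kap μ (we (G := G)) β)) + 2 * n * plat s)| ≤
        C * ((Real.log q + Real.log β) / q) + C * ((s * q ^ 3 * Real.log β) ^ K / Real.sqrt β) := by
  obtain ⟨C1, K, hC1, hK, h1⟩ := box_asym hDIA hTREE hRT hSYSR hGAUSS hLOW hDET hG μ B
  obtain ⟨C2, hC2, h2⟩ := hRIEM
  refine ⟨C1 + n * C2, K, ?_, hK, fun q s _ hq hs β hβ => ?_⟩
  · have : (0 : ℝ) ≤ n * C2 := by positivity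
    linarith
  have hq1 : (1 : ℝ) ≤ q := by exact_mod_cast hq
  have hq0 : (0 : ℝ) < q := by linarith
  have hs0 : 1 ≤ s := Nat.one_le_iff_ne_zero.2 (NeZero.ne s)
  have hs1 : (1 : ℝ) ≤ s := by exact_mod_cast hs0
  have hs00 : (0 : ℝ) < s := by linarith
  have hβ0 : 0 < β := by linarith
  have hn0 : (0 : ℝ) ≤ n := Nat.cast_nonneg n
  obtain ⟨hlβ, hlq, -⟩ := log_aux hq hβ
  have h3 := h1 q s hq hs β hβ
  obtain ⟨-, -, -, h4⟩ := h2 q s hq hs0
  obtain ⟨x, hx⟩ : ∃ x, x = Real.log (((box q).prod (cyc s)).Z μ (we (G := G)) β) := ⟨_, rfl⟩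
  obtain ⟨k, hk⟩ : ∃ k, k = Real.log (kap μ (we (G := G)) β) := ⟨_, rfl⟩
  obtain ⟨T, hT⟩ : ∃ T, T = (s * (q : ℝ) ^ 3 * Real.log β) ^ K / Real.sqrt β := ⟨_, rfl⟩
  have hT0 : 0 ≤ T := by rw [hT]; positivity
  rw [← hx, ← hk, mul_div_assoc, ← hT] at h3
  rw [← hx, ← hk, ← hT]
  obtain ⟨L, hL⟩ : ∃ L, L = Real.log q + Real.log β := ⟨_, rfl⟩
  rw [← hL] at h3 ⊢
  have hL1 : 1 + Real.log q ≤ L := by linarith
  have hL0 : 0 ≤ L := by linarith
  obtain ⟨V, hV⟩ : ∃ V : ℝ, V = s * (q : ℝ) ^ 3 := ⟨_, rfl⟩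
  have hV0 : 0 < V := by rw [hV]; positivity
  have hVq : (q : ℝ) ≤ V := by
    rw [hV]
    calc (q : ℝ) = 1 * (q : ℝ) ^ 1 := by ring
      _ ≤ s * (q : ℝ) ^ 3 := by gcongr; norm_num
  have hV1 : 1 ≤ V := hq1.trans hVq
  have e1 : x / (s * q ^ 3) - (av n q k + 2 * n * plat s) =
      (x - (s * (3 * q * (q + 1) ^ 2 * k - n / 2 * vac q) + n * bbr q s)) / V +
      n * (bbr q s - 2 * q ^ 3 * (s * plat s)) / V := by
    unfold av
    rw [hV]
    field_simp
    ring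
  rw [e1]
  refine (abs_add_le _ _).trans ?_
  have e2 : |(x - (s * (3 * q * (q + 1) ^ 2 * k - n / 2 * vac q) + n * bbr q s)) / V| ≤
      C1 * (L / q) + C1 * T := by
    rw [abs_div, abs_of_pos hV0, div_le_iff₀ hV0]
    refine h3.trans ?_
    have e3 : L ≤ L / q * V := by
      rw [div_mul_eq_mul_div, le_div_iff₀ hq0]
      exact mul_le_mul_of_nonneg_left hVq hL0
    have e4 : T ≤ T * V := le_mul_of_one_le_right hT0 hV1
    calc C1 * L + C1 * T ≤ C1 * (L / q * V) + C1 * (T * V) := by gcongr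
      _ = (C1 * (L / q) + C1 * T) * V := by ring
  have e5 : |n * (bbr q s - 2 * q ^ 3 * (s * plat s)) / V| ≤ n * C2 * (L / q) := by
    rw [abs_div, abs_of_pos hV0, abs_mul, abs_of_nonneg hn0, div_le_iff₀ hV0]
    have e7 : n * C2 * (L / q) * V = n * (C2 * (L / q * V)) := by ring
    rw [e7]
    refine mul_le_mul_of_nonneg_left ?_ hn0
    refine h4.trans ?_
    have e6 : (q : ℝ) ^ 2 * (1 + Real.log q) ≤ L / q * V := by
      rw [div_mul_eq_mul_div, le_div_iff₀ hq0, hV]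
      calc (q : ℝ) ^ 2 * (1 + Real.log q) * q ≤ (q : ℝ) ^ 2 * L * q := by gcongr
        _ = L * (1 * q ^ 3) := by ring
        _ ≤ L * (s * q ^ 3) := by gcongr
    calc C2 * (q : ℝ) ^ 2 * (1 + Real.log q) = C2 * ((q : ℝ) ^ 2 * (1 + Real.log q)) := by ring
      _ ≤ C2 * (L / q * V) := mul_le_mul_of_nonneg_left e6 (by linarith)
  have hTn : 0 ≤ n * C2 * T := by positivity
  nlinarith [e2, e5, hTn]

lemma card_box_cyc (hRT : S_RT) (q s : ℕ) [NeZero s] (hq : 1 ≤ q) :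
    Fintype.card ((box q).prod (cyc s)).E + Fintype.card ((box q).prod (cyc s)).F ≤
      38 * (s * q ^ 3) := by
  have h1 : Fintype.card ((box q).prod (cyc s)).E =
      Fintype.card (box q).E * s + Fintype.card (box q).V * s := by
    have : Fintype.card ((box q).prod (cyc s)).E =
      Fintype.card (((box q).E × ZMod s) ⊕ ((box q).V × ZMod s)) := rfl
    rw [this, Fintype.card_sum, Fintype.card_prod, Fintype.card_prod, ZMod.card]
  have h2 : Fintype.card ((box q).prod (cyc s)).F =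
      Fintype.card (box q).F * s + Fintype.card (box q).E * s := by
    have : Fintype.card ((box q).prod (cyc s)).F =
      Fintype.card (((box q).F × ZMod s) ⊕ ((box q).E × ZMod s)) := rfl
    rw [this, Fintype.card_sum, Fintype.card_prod, Fintype.card_prod, ZMod.card]
  have h3 : Fintype.card (box q).V = (q + 1) ^ 3 := by
    have : Fintype.card (box q).V =
      Fintype.card (((Unit × Fin (q + 1)) × Fin (q + 1)) × Fin (q + 1)) := rfl
    rw [this, Fintype.card_prod, Fintype.card_prod, Fintype.card_prod, Fintype.card_fin,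
      Fintype.card_unit]
    ring
  rw [h1, h2, h3, (hRT.2.2.2 q).1, (hRT.2.2.2 q).2]
  have h4 : q + 1 ≤ 2 * q := by omega
  have h5 : (q + 1) ^ 2 ≤ 4 * q ^ 2 := by nlinarith
  have h6 : (q + 1) ^ 3 ≤ 8 * q ^ 3 := by
    calc (q + 1) ^ 3 ≤ (2 * q) ^ 3 := Nat.pow_le_pow_left h4 3
      _ = 8 * q ^ 3 := by ring
  calc 3 * q * (q + 1) ^ 2 * s + (q + 1) ^ 3 * s + (3 * q ^ 2 * (q + 1) * s +
      3 * q * (q + 1) ^ 2 * s) ≤ 3 * q * (4 * q ^ 2) * s + 8 * q ^ 3 * s +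
        (3 * q ^ 2 * (2 * q) * s + 3 * q * (4 * q ^ 2) * s) := by gcongr
    _ = 38 * (s * q ^ 3) := by ring

/-- **the pressure of the torus** -/
theorem torus_pressure (hTB : S_TB) (hDIA : S_DIA) (hTREE : S_TREE) (hRT : S_RT)
    (hSYSR : S_SYSR) (hGAUSS : S_GAUSS) (hLOW : S_LOW) (hDET : S_DET) (hRIEM : S_RIEM)
    (hG : IsClosed (G : Set (UU N)))
    [MeasurableSpace G] [BorelSpace G] (μ : Measure G) [IsProbabilityMeasure μ]
    [μ.IsHaarMeasure] (B : LieBasis G n) :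
    ∃ (C : ℝ) (K : ℕ), 1 ≤ C ∧ 1 ≤ K ∧ ∀ (q l s : ℕ) [NeZero l] [NeZero s], 2 ≤ q → Even q →
      Even l → Even s → q ^ 2 ≤ l → ∀ β : ℝ, 3 ≤ β →
      |Real.log ((torus l s).Z μ we β) / (s * l ^ 3) -
        (av n q (Real.log (kap μ (we (G := G)) β)) + 2 * n * plat s)| ≤
        C * ((Real.log q + Real.log β) / q) + C * ((s * q ^ 3 * Real.log β) ^ K / Real.sqrt β) := by
  have := compactG hG
  have := scG (G := G)
  have := right_inv μ
  have := inv_inv' μ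
  obtain ⟨C1, K, hC1, hK, h1⟩ := box_pressure hDIA hTREE hRT hSYSR hGAUSS hLOW hDET hRIEM hG μ B
  obtain ⟨C2, hC2, hl⟩ := hLOW G hG μ
  refine ⟨C1 + 6 * 38 * C2, K, by linarith, hK, fun q l s _ _ hq hqe hle hse hql β hβ => ?_⟩
  have hq1' : 1 ≤ q := by omega
  have hq1 : (1 : ℝ) ≤ q := by exact_mod_cast hq1'
  have hq0 : (0 : ℝ) < q := by linarith
  have hs0 : 1 ≤ s := Nat.one_le_iff_ne_zero.2 (NeZero.ne s)
  have hs1 : (1 : ℝ) ≤ s := by exact_mod_cast hs0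
  have hs00 : (0 : ℝ) < s := by linarith
  have hβ0 : 0 < β := by linarith
  obtain ⟨hlβ, hlq, -⟩ := log_aux hq1' hβ
  have hb := h1 q s hq1' hse β hβ
  obtain ⟨hl1, hl2, hl3⟩ := hl β hβ
  have hlow := (hl3 ((box q).prod (cyc s))).1
  have hup := (hl3 ((box q).prod (cyc s))).2
  have hcard := card_box_cyc hRT q s hq1'
  have htb := hTB G μ (we (G := G)) we_cont we_inv (fun g h => we_conj g h) we_nonneg β hβ0.le s
  obtain ⟨r, hr⟩ := even_iff_two_dvd.1 hqe
  obtain ⟨R, hR⟩ := even_iff_two_dvd.1 hle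
  have hr1 : 1 ≤ r := by omega
  have hql' : q ≤ l := le_trans (by nlinarith) hql
  have hrR : r ≤ R := by omega
  have hlnat : 1 ≤ l := by omega
  have hl0 : (0 : ℝ) < l := by exact_mod_cast (by omega : 0 < l)
  have hqlR : (q : ℝ) ^ 2 ≤ l := by exact_mod_cast hql
  subst hR
  have hlo := htb.1 R r hr1 hrR
  have hhi := htb.2 (2 * R) q
  rw [← hr] at hlo
  obtain ⟨x, hx⟩ : ∃ x, x = Real.log (((box q).prod (cyc s)).Z μ (we (G := G)) β) := ⟨_, rfl⟩
  obtain ⟨y, hy⟩ : ∃ y, y = Real.log ((torus (2 * R) s).Z μ (we (G := G)) β) := ⟨_, rfl⟩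
  obtain ⟨k, hk⟩ : ∃ k, k = av n q (Real.log (kap μ (we (G := G)) β)) + 2 * n * plat s := ⟨_, rfl⟩
  obtain ⟨T, hT⟩ : ∃ T, T = (s * (q : ℝ) ^ 3 * Real.log β) ^ K / Real.sqrt β := ⟨_, rfl⟩
  have hT0 : 0 ≤ T := by rw [hT]; positivity
  rw [← hx, ← hk, ← hT] at hb
  rw [← hx] at hlow hlo hhi
  rw [← hy] at hlo hhi
  rw [← hy, ← hk, ← hT]
  obtain ⟨L, hL⟩ : ∃ L, L = Real.log q + Real.log β := ⟨_, rfl⟩
  rw [← hL] at hb ⊢
  have hL1 : Real.log β ≤ L := by linarith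
  have hL0 : 0 ≤ L := by linarith
  have hx0 : x ≤ 0 := by
    rw [hx]
    refine Real.log_nonpos ?_ hup
    unfold Cx.Z
    exact integral_nonneg fun U => (Real.exp_pos _).le
  obtain ⟨lR, hlR⟩ : ∃ lR : ℝ, lR = ((2 * R : ℕ) : ℝ) := ⟨_, rfl⟩
  rw [← hlR] at hl0 hqlR ⊢
  have hRr : (R : ℝ) / r = lR / q := by
    rw [hlR, hr]
    push_cast
    have hr0 : (r : ℝ) ≠ 0 := by
      have : (1 : ℝ) ≤ r := by exact_mod_cast hr1
      linarith
    field_simp
  rw [hRr] at hlo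
  -- the pressure of the box is at least `- 38 C log β`
  obtain ⟨X, hX⟩ : ∃ X, X = x / (s * q ^ 3) := ⟨_, rfl⟩
  rw [← hX] at hb
  have hV0 : (0 : ℝ) < s * (q : ℝ) ^ 3 := by positivity
  have hxX : x = X * (s * q ^ 3) := by rw [hX, div_mul_cancel₀ _ hV0.ne']
  have hX0 : X ≤ 0 := by rw [hX]; exact div_nonpos_of_nonpos_of_nonneg hx0 hV0.le
  have hXlow : -(38 * C2 * L) ≤ X := by
    rw [hX, le_div_iff₀ hV0]
    have hc : ((Fintype.card ((box q).prod (cyc s)).E : ℝ) +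
        Fintype.card ((box q).prod (cyc s)).F) ≤ 38 * (s * q ^ 3) := by exact_mod_cast hcard
    have e1 : C2 * ((Fintype.card ((box q).prod (cyc s)).E : ℝ) +
        Fintype.card ((box q).prod (cyc s)).F) * Real.log β ≤ C2 * (38 * (s * q ^ 3)) * L := by
      have hc0 : (0 : ℝ) ≤ (Fintype.card ((box q).prod (cyc s)).E : ℝ) +
        Fintype.card ((box q).prod (cyc s)).F := by positivity
      gcongr
    linarith
  -- the lower bound
  have hA1 : X ≤ y / (s * lR ^ 3) := by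
    rw [le_div_iff₀ (by positivity)]
    refine le_trans (le_of_eq ?_) hlo
    rw [hxX]
    field_simp
  -- the upper bound
  obtain ⟨f, hf⟩ : ∃ f : ℝ, f = ((2 * R / (q + 1) : ℕ) : ℝ) := ⟨_, rfl⟩
  rw [← hf] at hhi
  have hf0 : 0 ≤ f := by rw [hf]; exact Nat.cast_nonneg _
  have hf1 : lR / (q + 1) - 1 ≤ f := by
    have e1 : lR / ((q : ℝ) + 1) < f + 1 := by
      rw [div_lt_iff₀ (by linarith), hlR, hf]
      have := Nat.lt_div_mul_add (a := 2 * R) (b := q + 1) (by omega)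
      have h3 : 2 * R < (2 * R / (q + 1) + 1) * (q + 1) := by
        rw [add_mul, one_mul]; exact this
      exact_mod_cast h3
    linarith
  have hf2 : f * (q + 1) ≤ lR := by
    rw [hf, hlR]
    exact_mod_cast Nat.div_mul_le_self (2 * R) (q + 1)
  obtain ⟨w, hw⟩ : ∃ w : ℝ, w = f * q / lR := ⟨_, rfl⟩
  have hw0 : 0 ≤ w := by rw [hw]; positivity
  have hw1 : w ≤ 1 := by
    rw [hw, div_le_one hl0]
    nlinarith
  have hw2 : 1 - 2 / q ≤ w := by
    have e1 : (lR / (q + 1) - 1) * q / lR ≤ w := by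
      rw [hw]
      exact div_le_div_of_nonneg_right (mul_le_mul_of_nonneg_right hf1 hq0.le) hl0.le
    have e2 : (lR / (q + 1) - 1) * q / lR = q / (q + 1) - q / lR := by
      field_simp
    have e3 : 1 - 1 / (q : ℝ) ≤ q / (q + 1) := by
      rw [le_div_iff₀ (by linarith)]
      have : (1 - 1 / (q : ℝ)) * (q + 1) = q - 1 / q := by field_simp; ring
      rw [this]
      have : 0 < 1 / (q : ℝ) := by positivity
      linarith
    have e4 : q / lR ≤ 1 / q := by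
      rw [div_le_div_iff₀ hl0 hq0]
      nlinarith
    have e5 : 2 / (q : ℝ) = 1 / q + 1 / q := by ring
    rw [e2] at e1
    rw [e5]
    linarith
  have hA2 : y / (s * lR ^ 3) ≤ w ^ 3 * X := by
    rw [div_le_iff₀ (by positivity)]
    refine hhi.trans (le_of_eq ?_)
    rw [hxX, hw]
    field_simp
  have hw3 : 1 - w ^ 3 ≤ 6 / q := by
    have e1 : 1 - w ^ 3 ≤ 3 * (1 - w) := by
      nlinarith [mul_nonneg hw0 (sub_nonneg.2 hw1), mul_nonneg (mul_nonneg hw0 hw0)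
        (sub_nonneg.2 hw1), mul_nonneg (sub_nonneg.2 hw1) (sub_nonneg.2 hw1)]
    have e2 : 6 / (q : ℝ) = 3 * (2 / q) := by ring
    rw [e2]
    linarith
  have hA3 : y / (s * lR ^ 3) ≤ X + 6 * 38 * C2 * (L / q) := by
    refine hA2.trans ?_
    have e1 : w ^ 3 * X = X + (1 - w ^ 3) * (-X) := by ring
    rw [e1]
    have e2 : (1 - w ^ 3) * (-X) ≤ 6 / q * (38 * C2 * L) := by
      refine mul_le_mul hw3 (by linarith) (by linarith) (by positivity)
    have e3 : 6 / q * (38 * C2 * L) = 6 * 38 * C2 * (L / q) := by ring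
    linarith
  have hfin : 0 ≤ 6 * 38 * C2 * T := by positivity
  have hfin2 : 0 ≤ 6 * 38 * C2 * (L / q) := by positivity
  rw [abs_le] at hb ⊢
  constructor
  · nlinarith [hb.1, hA1]
  · nlinarith [hb.2, hA3]

end

end Pool.Agent.N899.BB.Asm
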