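import Mathlib
import Pool.Agent.N899.BB.Asm2
import Pool.Agent.N899.YM.SBMain

/-!
# Black body radiation of gluons: the pressure at positive temperature
-/

open MeasureTheory Matrix Filter Topology
open scoped Matrix.Norms.Frobenius
open Pool.Agent.N899.SB Pool.Agent.Y14.Wilson

namespace Pool.Agent.N899.BB.Asm

set_option linter.unusedSectionVars false
set_option linter.unusedVariables false

noncomputable section

variable {N n : ℕ} {G : Subgroup (UU N)}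

open Pool.Agent.N899.Thermo in
lemma partition_torus (hTOR : S_TOR) [MeasurableSpace G] [BorelSpace G] (μ : Measure G)
    [IsProbabilityMeasure μ] (l s : ℕ) [NeZero l] [NeZero s] (β : ℝ) :
    partition 3 l s μ β = (torus l s).Z μ (we (G := G)) β :=
  hTOR G μ (we (G := G)) we_inv l s β

/-- the final estimate -/
lemma final_calc {A At P ps pt a n Cp e J : ℝ} (hJ : 2 ≤ J) (hn : 0 ≤ n) (hps : 0 ≤ ps)
    (hps1 : ps ≤ Cp) (hpt0 : 0 ≤ pt) (hpt : pt ≤ Cp / J) (hCp : 0 ≤ Cp) (he : 0 ≤ e)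
    (h1 : |A - (a + 2 * n * ps)| ≤ e) (h2 : |At - (a + 2 * n * pt)| ≤ e)
    (h3 : A - At ≤ A - P) (h4 : (A - P) * (1 - 1 / J) ≤ A - At) :
    |A - P - 2 * n * ps| ≤ 6 * e + 4 * n * Cp / J := by
  have hJ0 : 0 < J := by linarith
  rw [abs_le] at h1 h2
  obtain ⟨j, hj⟩ : ∃ j, j = 1 / J := ⟨_, rfl⟩
  have hj0 : 0 < j := by rw [hj]; positivity
  have hj1 : j ≤ 1 / 2 := by
    rw [hj]
    exact one_div_le_one_div_of_le (by norm_num) hJ
  have hpt' : pt ≤ Cp * j := by rw [hj]; simpa [div_eq_mul_inv] using hpt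
  rw [← hj] at h4
  have e1 : 4 * n * Cp / J = 4 * n * Cp * j := by rw [hj]; ring
  rw [e1, abs_le]
  have h5 : 2 * n * pt ≤ 2 * n * (Cp * j) := mul_le_mul_of_nonneg_left hpt' (by linarith)
  have h6 : 0 ≤ n * (Cp * j) := by positivity
  constructor
  · nlinarith
  · -- upper bound
    have h7 : A - At ≤ 2 * n * ps + 2 * e := by nlinarith [mul_nonneg hn hpt0]
    have h8 : (A - P) * (1 - j) ≤ 2 * n * ps + 2 * e := h4.trans h7
    by_contra hcon
    push Not at hcon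
    have h9 : 2 * n * ps + 6 * e + 4 * n * Cp * j < A - P := by linarith
    have h10 : (2 * n * ps + 6 * e + 4 * n * Cp * j) * (1 - j) < (A - P) * (1 - j) :=
      mul_lt_mul_of_pos_right h9 (by linarith)
    have h11 : 2 * n * ps + 2 * e ≤ (2 * n * ps + 6 * e + 4 * n * Cp * j) * (1 - j) := by
      have e2 : n * ps ≤ n * Cp := mul_le_mul_of_nonneg_left hps1 hn
      have e3 : n * ps * j ≤ n * Cp * j := mul_le_mul_of_nonneg_right e2 hj0.le
      have e4 : 0 ≤ n * Cp * j := by positivity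
      have e5 : n * Cp * j * j ≤ n * Cp * j * (1 / 2) := mul_le_mul_of_nonneg_left hj1 e4
      have e6 : e * j ≤ e * (1 / 2) := mul_le_mul_of_nonneg_left hj1 he
      nlinarith
    linarith

/-- **the exact Stefan-Boltzmann law** -/
theorem sb_exact (hTOR : S_TOR) (hTB : S_TB) (hDIA : S_DIA) (hTREE : S_TREE) (hRT : S_RT)
    (hSYSR : S_SYSR) (hGAUSS : S_GAUSS) (hLOW : S_LOW) (hDET : S_DET) (hRIEM : S_RIEM)
    (hPLAT : S_PLAT) (hSEQ : S_SEQ3) (hG : IsClosed (G : Set (UU N)))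
    [MeasurableSpace G] [BorelSpace G] (μ : Measure G) [IsProbabilityMeasure μ]
    [μ.IsHaarMeasure] (B : LieBasis G n) :
    ∃ (C : ℝ) (K : ℕ), 3 ≤ C ∧ 1 ≤ K ∧ ∀ β : ℝ, C ≤ β → ∀ (l : ℕ) [NeZero l], Even l → β ≤ l →
      ∃ P : ℝ, (∀ ε : ℝ, 0 < ε → ∃ t₀ : ℕ, ∀ (t : ℕ) [NeZero t], Even t → t₀ ≤ t →
        |Real.log (Thermo.partition 3 l t μ β) / (t * l ^ 3) - P| ≤ ε) ∧
      ∀ (s : ℕ) [NeZero s], Even s → (s : ℝ) ^ K ≤ β →
        |Real.log (Thermo.partition 3 l s μ β) / (s * l ^ 3) - P - 2 * n * plat s| ≤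
          C * β ^ (-(1 / K : ℝ)) := by
  have := compactG hG
  have := scG (G := G)
  have := right_inv μ
  have := inv_inv' μ
  obtain ⟨C1, K0, hC1, hK0, ht⟩ := torus_pressure hTB hDIA hTREE hRT hSYSR hGAUSS hLOW hDET hRIEM
    hG μ B
  obtain ⟨⟨Cp, hCp, hp⟩, -⟩ := hPLAT
  obtain ⟨M, hM⟩ : ∃ M : ℕ, M = 64 * K0 := ⟨_, rfl⟩
  have hM1 : 1 ≤ M := by omega
  have hM0 : (0 : ℝ) < M := by exact_mod_cast (by omega : 0 < M)
  obtain ⟨C2, hC2⟩ : ∃ C2 : ℝ, C2 = C1 * ((M + 4) + (192 * M) ^ K0) := ⟨_, rfl⟩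
  have hC20 : 0 ≤ C2 := by rw [hC2]; positivity
  have hn0 : (0 : ℝ) ≤ n := Nat.cast_nonneg n
  refine ⟨6 * C2 + 4 * n * Cp + 256, M, ?_, hM1, fun β hβ l _ hl hβl => ?_⟩
  · have : (0 : ℝ) ≤ 4 * n * Cp := by positivity
    linarith
  have hβ256 : 256 ≤ β := by
    have : (0 : ℝ) ≤ 4 * n * Cp := by positivity
    linarith
  have hβ3 : 3 ≤ β := by linarith
  have hβ0 : 0 < β := by linarith
  have hl1 : 1 ≤ l := Nat.one_le_iff_ne_zero.2 (NeZero.ne l)
  have hl0 : (0 : ℝ) < l := by exact_mod_cast hl1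
  -- the sequence
  obtain ⟨hs1, hs2, C3, hs3⟩ := MG990.N899.lb_seq μ (L := ld B) (D := 3) (l := l) β
  obtain ⟨κ, hκ, hseq⟩ := hSEQ (MG990.N899.lb μ (ld B) β 3 l) C3 hs1 hs2 hs3
  have hlb : ∀ (s i : ℕ) [NeZero s], s = 2 * i →
      Real.log (Thermo.partition 3 l s μ β) / (s * l ^ 3) =
        MG990.N899.lb μ (ld B) β 3 l i / i * (1 / (2 * l ^ 3)) := by
    intro s i _ hsi
    rw [Thermo.partition_lb μ B β hsi, hsi]
    have hi0 : (i : ℝ) ≠ 0 := by
      have := NeZero.ne s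
      have : i ≠ 0 := by omega
      exact_mod_cast this
    push_cast
    field_simp
  refine ⟨κ * (1 / (2 * l ^ 3)), fun ε hε => ?_, fun s _ hs hsβ => ?_⟩
  · have h1 : Tendsto (fun i : ℕ => MG990.N899.lb μ (ld B) β 3 l i / i * (1 / (2 * (l : ℝ) ^ 3)))
        atTop (𝓝 (κ * (1 / (2 * l ^ 3)))) := hκ.mul_const _
    rw [Metric.tendsto_atTop] at h1
    obtain ⟨i₀, hi₀⟩ := h1 ε hε
    refine ⟨2 * i₀, fun t _ htt ht0 => ?_⟩
    obtain ⟨i, hi⟩ := even_iff_two_dvd.1 htt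
    rw [hlb t i hi]
    have := hi₀ i (by omega)
    rw [Real.dist_eq] at this
    exact this.le
  -- the parameters
  obtain ⟨y, hy⟩ : ∃ y : ℝ, y = β ^ (1 / M : ℝ) := ⟨_, rfl⟩
  have hy1 : 1 ≤ y := by rw [hy]; exact Real.one_le_rpow (by linarith) (by positivity)
  have hy0 : 0 < y := by linarith
  have hyM : y ^ M = β := by
    rw [hy, one_div]
    exact Real.rpow_inv_natCast_pow hβ0.le (by omega)
  have hyinv : β ^ (-(1 / M : ℝ)) = 1 / y := by
    rw [Real.rpow_neg hβ0.le, hy, one_div (β ^ _)]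
  have hsq : Real.sqrt β = y ^ (32 * K0) := by
    rw [← hyM, hM]
    have : y ^ (64 * K0) = (y ^ (32 * K0)) ^ 2 := by rw [← pow_mul]; congr 1; ring
    rw [this, Real.sqrt_sq (by positivity)]
  have hs0 : 1 ≤ s := Nat.one_le_iff_ne_zero.2 (NeZero.ne s)
  have hs1R : (1 : ℝ) ≤ s := by exact_mod_cast hs0
  have hsy : (s : ℝ) ≤ y := by
    by_contra hcon
    push Not at hcon
    have : y ^ M < (s : ℝ) ^ M := pow_lt_pow_left₀ hcon hy0.le (by omega)
    rw [hyM] at this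
    linarith
  have hlogβ : Real.log β ≤ M * y := by
    rw [← hyM, Real.log_pow]
    refine mul_le_mul_of_nonneg_left ?_ hM0.le
    linarith [Real.log_le_sub_one_of_pos hy0]
  have hlogβ1 : 1 ≤ Real.log β := (log_aux (q := 1) le_rfl hβ3).1
  -- q and J
  obtain ⟨c, hc⟩ : ∃ c : ℕ, c = ⌈y ^ 2⌉₊ := ⟨_, rfl⟩
  have hc1 : y ^ 2 ≤ c := by rw [hc]; exact Nat.le_ceil _
  have hc2 : (c : ℝ) ≤ 2 * y ^ 2 := by
    have := Nat.ceil_lt_add_one (a := y ^ 2) (by positivity)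
    rw [← hc] at this
    nlinarith
  obtain ⟨q, hq⟩ : ∃ q : ℕ, q = 2 * c := ⟨_, rfl⟩
  have hq1 : 2 * y ^ 2 ≤ (q : ℝ) := by rw [hq]; push_cast; linarith
  have hq2 : (q : ℝ) ≤ 4 * y ^ 2 := by rw [hq]; push_cast; linarith
  have hqe : Even q := by rw [hq]; exact even_two_mul c
  have hc0 : 1 ≤ c := by
    have : (1 : ℝ) ≤ c := le_trans (by nlinarith) hc1
    exact_mod_cast this
  have hq2' : 2 ≤ q := by omega
  have hq0 : (0 : ℝ) < q := by exact_mod_cast (by omega : 0 < q)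
  obtain ⟨d, hd⟩ : ∃ d : ℕ, d = ⌈y⌉₊ := ⟨_, rfl⟩
  have hd1 : y ≤ d := by rw [hd]; exact Nat.le_ceil _
  have hd2 : (d : ℝ) ≤ 2 * y := by
    have := Nat.ceil_lt_add_one (a := y) hy0.le
    rw [← hd] at this
    linarith
  have hd0 : 1 ≤ d := by
    have : (1 : ℝ) ≤ d := le_trans hy1 hd1
    exact_mod_cast this
  obtain ⟨J, hJ⟩ : ∃ J : ℕ, J = d + 1 := ⟨_, rfl⟩
  have hJy : y ≤ (J : ℝ) := by rw [hJ]; push_cast; linarith
  have hJy2 : (J : ℝ) ≤ 3 * y := by rw [hJ]; push_cast; linarith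
  have hJ2 : 2 ≤ J := by omega
  have hJ2R : (2 : ℝ) ≤ J := by exact_mod_cast hJ2
  have hJ0 : (0 : ℝ) < J := by linarith
  obtain ⟨t, htt⟩ : ∃ t : ℕ, t = s * J := ⟨_, rfl⟩
  have hte : Even t := by rw [htt]; exact hs.mul_right J
  have hst : s < t := by rw [htt]; nlinarith
  have htne : NeZero t := ⟨by omega⟩
  have htR : (t : ℝ) = s * J := by rw [htt]; push_cast; ring
  -- q ^ 2 ≤ l
  have hql : q ^ 2 ≤ l := by
    have h1 : (q : ℝ) ^ 2 ≤ l := by
      refine le_trans ?_ hβl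
      have h2 : (q : ℝ) ^ 2 ≤ (4 * y ^ 2) ^ 2 := pow_le_pow_left₀ hq0.le hq2 2
      have h3 : y ^ 4 ≤ y ^ (32 * K0) := pow_le_pow_right₀ hy1 (by omega)
      have h4 : (16 : ℝ) ≤ y ^ (32 * K0) := by
        rw [← hsq]
        have : (16 : ℝ) = Real.sqrt (16 ^ 2) := by rw [Real.sqrt_sq (by norm_num)]
        rw [this]
        exact Real.sqrt_le_sqrt (by norm_num; linarith)
      calc (q : ℝ) ^ 2 ≤ (4 * y ^ 2) ^ 2 := h2
        _ = 16 * y ^ 4 := by ring
        _ ≤ y ^ (32 * K0) * y ^ (32 * K0) := by gcongr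
        _ = β := by rw [← hsq, Real.mul_self_sqrt hβ0.le]
    exact_mod_cast h1
  -- the error
  have herr : ∀ r : ℕ, (r : ℝ) ≤ 3 * y ^ 2 →
      C1 * ((Real.log q + Real.log β) / q) + C1 * ((r * q ^ 3 * Real.log β) ^ K0 / Real.sqrt β) ≤
        C2 * (1 / y) := by
    intro r hr
    have h1 : (Real.log q + Real.log β) / q ≤ (M + 4) * (1 / y) := by
      have h2 : Real.log q ≤ 4 * y := by
        have h3 : Real.log q ≤ Real.log ((2 * y) ^ 2) :=
          Real.log_le_log hq0 (by nlinarith)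
        rw [Real.log_pow] at h3
        have h4 := Real.log_le_sub_one_of_pos (show 0 < 2 * y by linarith)
        push_cast at h3
        linarith
      rw [div_le_iff₀ hq0]
      have h5 : (M + 4) * (1 / y) * (2 * y ^ 2) ≤ (M + 4) * (1 / y) * q :=
        mul_le_mul_of_nonneg_left hq1 (by positivity)
      have h6 : ((M : ℝ) + 4) * (1 / y) * (2 * y ^ 2) = 2 * ((M + 4) * y) := by
        field_simp
      have h7 : 0 ≤ ((M : ℝ) + 4) * y := by positivity
      linarith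
    have h8 : (r * q ^ 3 * Real.log β) ^ K0 / Real.sqrt β ≤ (192 * M) ^ K0 * (1 / y) := by
      have h9 : (r : ℝ) * q ^ 3 * Real.log β ≤ 192 * M * y ^ 9 := by
        have h10 : (r : ℝ) * q ^ 3 ≤ 3 * y ^ 2 * (4 * y ^ 2) ^ 3 := by gcongr
        calc (r : ℝ) * q ^ 3 * Real.log β ≤ 3 * y ^ 2 * (4 * y ^ 2) ^ 3 * (M * y) :=
              mul_le_mul h10 hlogβ (by linarith) (by positivity)
          _ = 192 * M * y ^ 9 := by ring
      have h11 : (r * q ^ 3 * Real.log β) ^ K0 ≤ (192 * M * y ^ 9) ^ K0 :=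
        pow_le_pow_left₀ (mul_nonneg (by positivity) (by linarith)) h9 K0
      have h12 : y ^ (9 * K0 + 1) ≤ y ^ (32 * K0) := pow_le_pow_right₀ hy1 (by omega)
      rw [hsq, div_le_iff₀ (by positivity)]
      refine h11.trans ?_
      rw [mul_pow, ← pow_mul, mul_assoc]
      refine mul_le_mul_of_nonneg_left ?_ (by positivity)
      have h13 : y ^ (9 * K0) * y ≤ y ^ (32 * K0) := by rw [← pow_succ]; exact h12
      rw [one_div, inv_mul_eq_div, le_div_iff₀ hy0]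
      exact h13
    rw [hC2]
    calc C1 * ((Real.log q + Real.log β) / q) + C1 * ((r * q ^ 3 * Real.log β) ^ K0 / Real.sqrt β)
        ≤ C1 * ((M + 4) * (1 / y)) + C1 * ((192 * M) ^ K0 * (1 / y)) := by gcongr
      _ = C1 * ((M + 4) + (192 * M) ^ K0) * (1 / y) := by ring
  have hA := (ht q l s hq2' hqe hl hs hql β hβ3).trans (herr s (by nlinarith))
  have hAt := (ht q l t hq2' hqe hl hte hql β hβ3).trans (herr t (by
    rw [htR]
    calc (s : ℝ) * J ≤ y * (3 * y) := by gcongr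
      _ = 3 * y ^ 2 := by ring))
  rw [← partition_torus hTOR μ l s β] at hA
  rw [← partition_torus hTOR μ l t β] at hAt
  -- the comparison
  obtain ⟨i, hi⟩ := even_iff_two_dvd.1 hs
  obtain ⟨j, hj⟩ := even_iff_two_dvd.1 hte
  have hi1 : 1 ≤ i := by omega
  have hij : i < j := by omega
  obtain ⟨hq3, hq4⟩ := hseq i j hi1 hij
  rw [hlb s i hi] at hA ⊢
  rw [hlb t j hj] at hAt
  have hV : (0 : ℝ) < 1 / (2 * l ^ 3) := by positivity
  have hijJ : (i : ℝ) / j = 1 / J := by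
    have hi0 : (0 : ℝ) < i := by exact_mod_cast hi1
    have hj' : (j : ℝ) = i * J := by
      have : j = i * J := by
        have : 2 * j = 2 * (i * J) := by rw [← hj, htt, hi]; ring
        omega
      rw [this]; push_cast; ring
    rw [hj']
    field_simp
  rw [hyinv]
  obtain ⟨hps0, hps1⟩ := hp s hs0
  obtain ⟨hpt0, hpt1⟩ := hp t (by omega)
  have hps2 : plat s ≤ Cp := by
    refine hps1.trans (div_le_self (by linarith) ?_)
    exact one_le_pow₀ hs1R
  have hpt2 : plat t ≤ Cp / J := by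
    refine hpt1.trans (div_le_div_of_nonneg_left (by linarith) hJ0 ?_)
    have h1 : (J : ℝ) ≤ t := by rw [htR]; nlinarith
    have h2 : (1 : ℝ) ≤ t := le_trans (by linarith) h1
    calc (J : ℝ) ≤ t := h1
      _ = (t : ℝ) ^ 1 := (pow_one _).symm
      _ ≤ (t : ℝ) ^ 4 := pow_le_pow_right₀ h2 (by norm_num)
  have hfin := final_calc (P := κ * (1 / (2 * (l : ℝ) ^ 3))) hJ2R hn0 hps0 hps2 hpt0 hpt2
    (by linarith) (by positivity : 0 ≤ C2 * (1 / y)) hA hAt (by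
      rw [← sub_mul, ← sub_mul]
      exact mul_le_mul_of_nonneg_right hq3 hV.le) (by
      rw [← sub_mul, ← sub_mul, ← hijJ, mul_right_comm]
      exact mul_le_mul_of_nonneg_right hq4 hV.le)
  refine hfin.trans ?_
  have h1 : 4 * n * Cp / J ≤ 4 * n * Cp * (1 / y) := by
    rw [div_eq_mul_one_div]
    exact mul_le_mul_of_nonneg_left (one_div_le_one_div_of_le hy0 hJy) (by positivity)
  have h2 : 0 < 1 / y := by positivity
  nlinarith

end

end Pool.Agent.N899.BB.Asm
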