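import Mathlib
import Pool.Agent.N899.BB.Stm

/-!
# BB/BASE: the basic plaquettes are independent
-/

set_option autoImplicit false
set_option linter.unusedSectionVars false

open MeasureTheory
open Pool.Agent.N899.SB Pool.Agent.N899.BB
open scoped ENNReal

namespace Pool.Agent.N899.BB.Base

theorem S_cp0 {G : Type} [Group G] (we : G → ℝ) (hinv : ∀ g, we g⁻¹ = we g) (Q : Sys)
    (U : Q.L → G) : Q.S we (Q.cp 0) U = ∑ w, we (U w * (ev U (Q.pr w))⁻¹) := by
  have h1 : ∀ w, we (Q.plq U (Q.bp w)) = we (U w * (ev U (Q.pr w))⁻¹) := by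
    intro w
    unfold Sys.plq
    rcases Q.bp_wd w with ⟨a, b, c, d⟩ | ⟨a, b, c, d⟩
    · rw [a, b, c, d]
      simp only [ev, mul_one, inv_one]
      rw [← hinv, mul_inv_rev, inv_inv]
    · rw [a, b, c, d]
      simp only [ev, one_mul, inv_one, mul_one]
  unfold Sys.S
  rw [← Finset.sum_congr rfl fun w _ => h1 w]
  rw [← Finset.sum_image (f := fun p => we (Q.plq U p)) (g := Q.bp) (s := Finset.univ)
    Q.bp_inj.injOn]
  rw [← Finset.sum_subset (Finset.subset_univ (Finset.univ.image Q.bp))]
  · refine Finset.sum_congr rfl fun p hp => ?_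
    rw [Finset.mem_image] at hp
    obtain ⟨w, _, hw⟩ := hp
    unfold Sys.cp
    rw [if_pos ⟨w, hw⟩, one_mul]
  · intro p _ hp
    unfold Sys.cp
    rw [if_neg, zero_mul]
    rintro ⟨w, hw⟩
    exact hp (Finset.mem_image.2 ⟨w, Finset.mem_univ _, hw⟩)

section
variable {G : Type} [Group G] [TopologicalSpace G] [IsTopologicalGroup G]
  [SecondCountableTopology G] [MeasurableSpace G] [BorelSpace G]

theorem meas_ev {L : Type} [Fintype L] (o : Option L) : Measurable fun U : L → G => ev U o := by
  cases o with
  | none => exact measurable_const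
  | some w => exact measurable_pi_apply w

theorem ev_update {L : Type} [DecidableEq L] (U : L → G) (w0 : L) (y : G) {o : Option L}
    (h : o ≠ some w0) : ev (Function.update U w0 y) o = ev U o := by
  cases o with
  | none => rfl
  | some w =>
    show Function.update U w0 y w = U w
    exact Function.update_of_ne (fun e => h (by rw [e])) _ _

theorem main (μ : Measure G) [IsProbabilityMeasure μ] [μ.IsMulRightInvariant] (F : G → ℝ≥0∞)
    (hF : Measurable F) {L : Type} [Fintype L] [DecidableEq L] (pr : L → Option L) (rk : L → ℕ)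
    (hrk : ∀ w w', pr w = some w' → rk w' < rk w) :
    ∀ (m : ℕ) (s : Finset L), s.card = m →
      ∫⁻ U : L → G, ∏ w ∈ s, F (U w * (ev U (pr w))⁻¹) ∂(Measure.pi fun _ => μ) =
        (∫⁻ g, F g ∂μ) ^ m := by
  intro m
  induction m with
  | zero =>
    intro s hs
    rw [Finset.card_eq_zero] at hs
    subst hs
    simp
  | succ m ih =>
    intro s hs
    obtain ⟨w0, hw0, hmax⟩ := Finset.exists_max_image s rk (Finset.card_pos.1 (by omega))
    have h1 : (s.erase w0).card = m := by
      rw [Finset.card_erase_of_mem hw0]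
      omega
    have hM : ∀ w, Measurable fun U : L → G => F (U w * (ev U (pr w))⁻¹) := fun w =>
      hF.comp ((measurable_pi_apply w).mul (meas_ev _).inv)
    have hR : Measurable fun U : L → G => ∏ w ∈ s.erase w0, F (U w * (ev U (pr w))⁻¹) :=
      Finset.measurable_prod _ fun w _ => hM w
    rw [pow_succ', ← ih _ h1, ← lintegral_const_mul _ hR]
    refine lintegral_eq_of_lmarginal_eq {w0} (Finset.measurable_prod _ fun w _ => hM w)
      (hR.const_mul _) ?_
    funext U
    rw [lmarginal_singleton, lmarginal_singleton]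
    have e1 : ∀ y, ∏ w ∈ s.erase w0, F (Function.update U w0 y w *
        (ev (Function.update U w0 y) (pr w))⁻¹) =
          ∏ w ∈ s.erase w0, F (U w * (ev U (pr w))⁻¹) := by
      intro y
      refine Finset.prod_congr rfl fun w hw => ?_
      rw [Finset.mem_erase] at hw
      rw [Function.update_of_ne hw.1, ev_update]
      intro h2
      have h3 := hrk w w0 h2
      have h4 := hmax w hw.2
      omega
    have e2 : ∀ y, F (Function.update U w0 y w0 * (ev (Function.update U w0 y) (pr w0))⁻¹) =
        F (y * (ev U (pr w0))⁻¹) := by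
      intro y
      rw [Function.update_self, ev_update]
      intro h2
      have h3 := hrk w0 w0 h2
      omega
    have e3 : ∀ y, ∏ w ∈ s, F (Function.update U w0 y w *
        (ev (Function.update U w0 y) (pr w))⁻¹) =
          F (y * (ev U (pr w0))⁻¹) * ∏ w ∈ s.erase w0, F (U w * (ev U (pr w))⁻¹) := by
      intro y
      rw [← Finset.mul_prod_erase s _ hw0, e1, e2]
    simp_rw [e3, e1]
    have hFm : Measurable fun y => F (y * (ev U (pr w0))⁻¹) := hF.comp (measurable_id.mul_const _)
    rw [lintegral_mul_const _ hFm, lintegral_const, measure_univ, mul_one]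
    congr 1
    exact lintegral_mul_right_eq_self F _

end

theorem t_BASE : S_BASE := by
  intro G _ _ _ _ _ _ _ μ _ _ _ _ we hwe hinv Q β
  set F : G → ℝ≥0∞ := fun g => ENNReal.ofReal (Real.exp (-(β * we g))) with hF
  have hFm : Measurable F := by
    have : Continuous fun g => Real.exp (-(β * we g)) := by fun_prop
    exact this.measurable.ennreal_ofReal
  have h1 := main μ F hFm Q.pr Q.rk Q.rk_lt (Fintype.card Q.L) Finset.univ rfl
  have h2 : ∀ U : Q.L → G, ENNReal.ofReal (Real.exp (-(β * Q.S we (Q.cp 0) U))) =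
      ∏ w, F (U w * (ev U (Q.pr w))⁻¹) := by
    intro U
    rw [S_cp0 we hinv, hF, ← ENNReal.ofReal_prod_of_nonneg (fun _ _ => (Real.exp_pos _).le),
      ← Real.exp_sum, Finset.mul_sum, Finset.sum_neg_distrib]
  have h3 : Q.Z μ we (Q.cp 0) β =
      (∫⁻ U : Q.L → G, ENNReal.ofReal (Real.exp (-(β * Q.S we (Q.cp 0) U)))
        ∂(Measure.pi fun _ => μ)).toReal := by
    unfold Sys.Z
    rw [integral_eq_lintegral_of_nonneg_ae (Filter.Eventually.of_forall fun _ =>
      (Real.exp_pos _).le)]
    refine Measurable.aestronglyMeasurable ?_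
    have h4 : (fun U : Q.L → G => Q.S we (Q.cp 0) U) =
        fun U => ∑ w, we (U w * (ev U (Q.pr w))⁻¹) := funext fun U => S_cp0 we hinv Q U
    have h5 : Measurable fun U : Q.L → G => Q.S we (Q.cp 0) U := by
      rw [h4]
      exact Finset.measurable_fun_sum _ fun w _ =>
        hwe.measurable.comp ((measurable_pi_apply w).mul (meas_ev _).inv)
    exact Real.measurable_exp.comp (h5.const_mul β).neg
  have h6 : kap μ we β = (∫⁻ g, F g ∂μ).toReal := by
    unfold kap
    rw [integral_eq_lintegral_of_nonneg_ae (Filter.Eventually.of_forall fun _ =>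
      (Real.exp_pos _).le)]
    have : Continuous fun g => Real.exp (-(β * we g)) := by fun_prop
    exact this.measurable.aestronglyMeasurable
  rw [h3, h6]
  simp_rw [h2]
  rw [h1, ENNReal.toReal_pow]

end Pool.Agent.N899.BB.Base
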