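import Mathlib
import Pool.Agent.N899.BB.Stm

/-!
# Determinant of a block circulant matrix
-/

open Matrix

namespace Pool.Agent.N899.BB.Circ

noncomputable section

variable {J : Type} [Fintype J] [DecidableEq J] {t : ℕ} [NeZero t]

/-- the characters -/
def ch (q τ : ZMod t) : ℂ := ZMod.stdAddChar (q * τ)

lemma ch_add (q a b : ZMod t) : ch q (a + b) = ch q a * ch q b := by
  unfold ch
  rw [mul_add, AddChar.map_add_eq_mul]

lemma ch_zero (q : ZMod t) : ch q 0 = 1 := by
  unfold ch
  rw [mul_zero, AddChar.map_zero_eq_one]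

lemma ch_sum (a : ZMod t) : ∑ q : ZMod t, ch q a = if a = 0 then (t : ℂ) else 0 := by
  have h := AddChar.sum_mulShift (R := ZMod t) (R' := ℂ) (ψ := ZMod.stdAddChar) a
    (ZMod.isPrimitive_stdAddChar t)
  simpa [ch] using h

lemma ch_one (q : ℕ) : ch (t := t) (q : ZMod t) 1 = Complex.exp (2 * Real.pi * Complex.I * q / t) := by
  unfold ch
  rw [mul_one]
  have h := ZMod.stdAddChar_coe (N := t) (q : ℤ)
  simpa using h

lemma ch_neg_one (q : ℕ) : ch (t := t) (q : ZMod t) (-1) =
    Complex.exp (-(2 * Real.pi * Complex.I * q / t)) := by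
  have h : ch (t := t) (q : ZMod t) 1 * ch (t := t) (q : ZMod t) (-1) = 1 := by
    rw [← ch_add, add_neg_cancel, ch_zero]
  rw [ch_one] at h
  rw [Complex.exp_neg]
  exact eq_inv_of_mul_eq_one_right h

/-- the Fourier matrix -/
def Fm : Matrix (J × ZMod t) (J × ZMod t) ℂ :=
  Matrix.of fun a b => if a.1 = b.1 then ch b.2 a.2 else 0

/-- the adjoint -/
def Gm : Matrix (J × ZMod t) (J × ZMod t) ℂ :=
  Matrix.of fun a b => if a.1 = b.1 then ch a.2 (-b.2) else 0

lemma FG : (Fm * Gm : Matrix (J × ZMod t) (J × ZMod t) ℂ) = (t : ℂ) • 1 := by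
  ext ⟨i, a⟩ ⟨j, b⟩
  rw [Matrix.mul_apply, Fintype.sum_prod_type]
  simp only [Fm, Gm, Matrix.of_apply]
  rw [Finset.sum_eq_single i]
  · by_cases hij : i = j
    · subst hij
      simp only [if_true]
      have : ∀ q : ZMod t, ch q a * ch q (-b) = ch q (a - b) := by
        intro q; rw [← ch_add, sub_eq_add_neg]
      simp only [this, ch_sum]
      by_cases hab : a = b
      · subst hab; simp
      · have : a - b ≠ 0 := sub_ne_zero.2 hab
        simp [this, hab]
    · simp [hij]
  · intro k _ hk
    simp [Ne.symm hk]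
  · intro h; exact absurd (Finset.mem_univ _) h

lemma detF : (Fm : Matrix (J × ZMod t) (J × ZMod t) ℂ).det ≠ 0 := by
  intro h0
  have h := congrArg Matrix.det (FG (J := J) (t := t))
  rw [Matrix.det_mul, h0, zero_mul, Matrix.det_smul, Matrix.det_one, mul_one] at h
  exact pow_ne_zero _ (Nat.cast_ne_zero.2 (NeZero.ne t)) h.symm

/-- Block circulant matrices. -/
theorem t_CIRC : S_CIRC := by
  intro J _ _ t _ A0 A1 M hM
  set B : ZMod t → Matrix J J ℂ := fun q => Matrix.of fun i j =>
    (A0 i j : ℂ) + ch q 1 * A1 i j + ch q (-1) * A1 j i with hB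
  have key : (M.map Complex.ofRealHom) * (Fm : Matrix (J × ZMod t) (J × ZMod t) ℂ) =
      Fm * Matrix.blockDiagonal B := by
    ext ⟨i, a⟩ ⟨j, q⟩
    rw [Matrix.mul_apply, Matrix.mul_apply, Fintype.sum_prod_type, Fintype.sum_prod_type]
    simp only [Fm, Matrix.of_apply, Matrix.map_apply, Matrix.blockDiagonal_apply,
      Complex.ofRealHom_eq_coe]
    rw [Finset.sum_eq_single j]
    · rw [Finset.sum_eq_single i]
      · simp only [if_true]
        have eR : ∑ x : ZMod t, ch x a * (if x = q then B x i j else 0) = ch q a * B q i j := by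
          rw [Finset.sum_eq_single q]
          · simp
          · intro b _ hb; simp [hb]
          · intro h; exact absurd (Finset.mem_univ _) h
        have e1 : ∑ x : ZMod t, ((if x = a then A0 i j else 0 : ℝ) : ℂ) * ch q x =
            A0 i j * ch q a := by
          rw [Finset.sum_eq_single a]
          · simp
          · intro b _ hb; simp [hb]
          · intro h; exact absurd (Finset.mem_univ _) h
        have e2 : ∑ x : ZMod t, ((if x = a + 1 then A1 i j else 0 : ℝ) : ℂ) * ch q x =
            A1 i j * ch q (a + 1) := by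
          rw [Finset.sum_eq_single (a + 1)]
          · simp
          · intro b _ hb; simp [hb]
          · intro h; exact absurd (Finset.mem_univ _) h
        have e3 : ∑ x : ZMod t, ((if a = x + 1 then A1 j i else 0 : ℝ) : ℂ) * ch q x =
            A1 j i * ch q (a + -1) := by
          rw [Finset.sum_eq_single (a + -1)]
          · simp
          · intro b _ hb
            have : a ≠ b + 1 := by
              intro h; apply hb; rw [h]; ring
            simp [this]
          · intro h; exact absurd (Finset.mem_univ _) h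
        rw [eR]
        simp only [hM, Complex.ofReal_add, add_mul, Finset.sum_add_distrib]
        rw [e1, e2, e3, ch_add, ch_add, hB]
        simp only [Matrix.of_apply]
        ring
      · intro b _ hb
        simp [Ne.symm hb]
      · intro h; exact absurd (Finset.mem_univ _) h
    · intro b _ hb
      simp [hb]
    · intro h; exact absurd (Finset.mem_univ _) h
  have hd := congrArg Matrix.det key
  rw [Matrix.det_mul, Matrix.det_mul, mul_comm (Matrix.det Fm)] at hd
  have h1 := mul_right_cancel₀ detF hd
  have h2 : (M.map Complex.ofRealHom).det = ((M.det : ℝ) : ℂ) := by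
    have := (RingHom.map_det Complex.ofRealHom M)
    simpa [RingHom.mapMatrix_apply] using this.symm
  rw [h2, Matrix.det_blockDiagonal] at h1
  rw [h1]
  symm
  refine Finset.prod_bij (fun (q : ℕ) _ => (q : ZMod t)) (fun _ _ => Finset.mem_univ _) ?_ ?_ ?_
  · intro a ha b hb hab
    rw [Finset.mem_range] at ha hb
    have := (ZMod.natCast_eq_natCast_iff' a b t).1 hab
    rwa [Nat.mod_eq_of_lt ha, Nat.mod_eq_of_lt hb] at this
  · intro q _
    exact ⟨q.val, Finset.mem_range.2 (ZMod.val_lt q), ZMod.natCast_zmod_val q⟩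
  · intro q _
    rw [hB]
    simp only [ch_one, ch_neg_one]

end

end Pool.Agent.N899.BB.Circ
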