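import Mathlib
import Pool.Agent.N899.BB.Stm

/-! # The product over the frequencies and the determinant of the box -/

set_option autoImplicit false

namespace Pool.Agent.N899.BB.Det

open Pool.Agent.N899.BB

lemma prod_range_sub {t : ℕ} (ht : 0 < t) (y : ℂ) :
    ∏ q ∈ Finset.range t, (y - Complex.exp (2 * Real.pi * Complex.I / t) ^ q) = y ^ t - 1 := by
  have hz : IsPrimitiveRoot (Complex.exp (2 * Real.pi * Complex.I / t)) t :=
    Complex.isPrimitiveRoot_exp t ht.ne'
  have h := hz.pow_sub_pow_eq_prod_sub_mul y 1 ht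
  rw [one_pow] at h
  rw [h]
  apply Finset.prod_nbij (fun q => Complex.exp (2 * Real.pi * Complex.I / t) ^ q)
  · intro q _
    rw [Polynomial.mem_nthRootsFinset ht, ← pow_mul, mul_comm q t, pow_mul, hz.pow_eq_one, one_pow]
  · intro a ha b hb hab
    exact hz.pow_inj (Finset.mem_range.1 (Finset.mem_coe.1 ha))
      (Finset.mem_range.1 (Finset.mem_coe.1 hb)) hab
  · intro w hw
    rw [Finset.mem_coe, Polynomial.mem_nthRootsFinset ht] at hw
    have : NeZero t := ⟨ht.ne'⟩
    obtain ⟨i, hi, hiw⟩ := hz.eq_pow_of_pow_eq_one hw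
    exact ⟨i, Finset.mem_coe.2 (Finset.mem_range.2 hi), hiw⟩
  · intro q _
    rw [mul_one]

/-- the real product -/
lemma prod_range_cos {t : ℕ} (ht : 0 < t) (y : ℝ) :
    ∏ q ∈ Finset.range t, (y ^ 2 + 1 - 2 * y * Real.cos (2 * Real.pi * q / t)) = (y ^ t - 1) ^ 2 := by
  have h1 := prod_range_sub ht (y : ℂ)
  have h2 : (starRingEnd ℂ) (∏ q ∈ Finset.range t,
      ((y : ℂ) - Complex.exp (2 * Real.pi * Complex.I / t) ^ q)) = (y : ℂ) ^ t - 1 := by
    rw [h1, map_sub, map_pow, Complex.conj_ofReal, map_one]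
  have h3 : ((∏ q ∈ Finset.range t, (y ^ 2 + 1 - 2 * y * Real.cos (2 * Real.pi * q / t)) : ℝ) : ℂ)
      = (((y ^ t - 1) ^ 2 : ℝ) : ℂ) := by
    push_cast
    rw [sq ((y : ℂ) ^ t - 1)]
    nth_rw 1 [← h1]
    rw [← h2, map_prod, ← Finset.prod_mul_distrib]
    apply Finset.prod_congr rfl
    intro q _
    have e1 : Complex.exp (2 * Real.pi * Complex.I / t) ^ q =
        Complex.exp (((2 * Real.pi * q / t : ℝ) : ℂ) * Complex.I) := by
      rw [← Complex.exp_nat_mul]
      congr 1
      push_cast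
      ring
    rw [e1, map_sub, Complex.conj_ofReal, ← Complex.exp_conj, map_mul, Complex.conj_ofReal,
      Complex.conj_I]
    set θ : ℂ := ((2 * Real.pi * q / t : ℝ) : ℂ) with hθ
    have hc : (2 : ℂ) * Complex.cos θ = Complex.exp (θ * Complex.I) + Complex.exp (θ * -Complex.I) := by
      rw [Complex.cos, mul_neg]
      rw [neg_mul]
      ring
    have hθ' : (2 * (Real.pi : ℂ) * q / t) = θ := by
      rw [hθ]; push_cast; ring
    rw [hθ']
    have hm : Complex.exp (θ * Complex.I) * Complex.exp (θ * -Complex.I) = 1 := by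
      rw [← Complex.exp_add]
      rw [show θ * Complex.I + θ * -Complex.I = 0 by ring, Complex.exp_zero]
    linear_combination (-(y : ℂ)) * hc - hm
  exact_mod_cast h3

lemma exp_om {x : ℝ} (hx : 0 < x) : 0 < om x ∧
    Real.exp (om x) ^ 2 + 1 = (2 + x) * Real.exp (om x) := by
  have hs : 0 ≤ x + x ^ 2 / 4 := by positivity
  have h1 : (1 : ℝ) < 1 + x / 2 + Real.sqrt (x + x ^ 2 / 4) := by
    have := Real.sqrt_nonneg (x + x ^ 2 / 4)
    linarith
  refine ⟨Real.log_pos h1, ?_⟩
  unfold om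
  rw [Real.exp_log (by linarith)]
  have h2 := Real.sq_sqrt hs
  set s := Real.sqrt (x + x ^ 2 / 4)
  nlinarith [h2]

theorem t_PRODQ : S_PRODQ := by
  intro t inst x hx
  have ht : 0 < t := Nat.pos_of_ne_zero (NeZero.ne t)
  obtain ⟨h0, h1⟩ := exp_om hx
  refine ⟨h0, ?_⟩
  set y := Real.exp (om x) with hy
  have hy0 : 0 < y := Real.exp_pos _
  have h2 := prod_range_cos ht y
  have h3 : ∏ q ∈ Finset.range t, (y ^ 2 + 1 - 2 * y * Real.cos (2 * Real.pi * q / t)) =
      y ^ t * ∏ q ∈ Finset.range t, (2 - 2 * Real.cos (2 * Real.pi * q / t) + x) := by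
    rw [show y ^ t = ∏ _q ∈ Finset.range t, y by rw [Finset.prod_const, Finset.card_range],
      ← Finset.prod_mul_distrib]
    apply Finset.prod_congr rfl
    intro q _
    rw [h1]; ring
  have h4 : Real.exp (t * om x) = y ^ t := by rw [hy, Real.exp_nat_mul]
  rw [Real.exp_neg, h4]
  rw [h3] at h2
  have hyt : 0 < y ^ t := by positivity
  have : y ^ t * ∏ q ∈ Finset.range t, (2 - 2 * Real.cos (2 * Real.pi * q / t) + x) =
      y ^ t * (y ^ t * (1 - (y ^ t)⁻¹) ^ 2) := by
    rw [h2]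
    field_simp
  exact mul_left_cancel₀ hyt.ne' this

/-- number of vanishing components -/
def zc (n : ℕ) (k : Fin (n + 1) × Fin (n + 1) × Fin (n + 1)) : ℕ :=
  (if k.1 = 0 then 1 else 0) + (if k.2.1 = 0 then 1 else 0) + (if k.2.2 = 0 then 1 else 0)

lemma lam_nonneg (n : ℕ) (k : Fin (n + 1)) : 0 ≤ lam n k := by
  unfold lam
  linarith [Real.cos_le_one (Real.pi * k / (n + 1))]

lemma lam_pos (n : ℕ) (k : Fin (n + 1)) (hk : k ≠ 0) : 0 < lam n k := by
  unfold lam
  have hk0 : (0 : ℝ) < (k : ℕ) := by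
    have : (k : ℕ) ≠ 0 := fun h => hk (Fin.ext h)
    exact_mod_cast Nat.pos_of_ne_zero this
  have hk1 : ((k : ℕ) : ℝ) < n + 1 := by exact_mod_cast k.2
  have hn : (0 : ℝ) < (n : ℝ) + 1 := by positivity
  have h1 : 0 < Real.pi * k / (n + 1) := by have := Real.pi_pos; positivity
  have h2 : Real.pi * k / (n + 1) < Real.pi := by
    rw [div_lt_iff₀ hn]
    exact mul_lt_mul_of_pos_left hk1 Real.pi_pos
  have h3 : Real.cos (Real.pi * k / (n + 1)) < Real.cos 0 :=
    Real.cos_lt_cos_of_nonneg_of_le_pi le_rfl h2.le h1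
  rw [Real.cos_zero] at h3
  linarith

lemma lam_zero (n : ℕ) : lam n 0 = 0 := by
  unfold lam
  simp

lemma lam3_pos (n : ℕ) (k : Fin (n + 1) × Fin (n + 1) × Fin (n + 1)) (hk : k ≠ 0) :
    0 < lam3 n k := by
  unfold lam3
  have h1 := lam_nonneg n k.1
  have h2 := lam_nonneg n k.2.1
  have h3 := lam_nonneg n k.2.2
  by_cases a : k.1 = 0
  · by_cases b : k.2.1 = 0
    · by_cases c : k.2.2 = 0
      · exact absurd (Prod.ext a (Prod.ext b c)) hk
      · have := lam_pos n _ c; linarith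
    · have := lam_pos n _ b; linarith
  · have := lam_pos n _ a; linarith

lemma zc_le (n : ℕ) (k : Fin (n + 1) × Fin (n + 1) × Fin (n + 1)) (hk : k ≠ 0) : zc n k ≤ 2 := by
  unfold zc
  by_cases a : k.1 = 0
  · by_cases b : k.2.1 = 0
    · by_cases c : k.2.2 = 0
      · exact absurd (Prod.ext a (Prod.ext b c)) hk
      · simp [a, b, c]
    · simp only [a, b, if_true, if_false]; split_ifs <;> simp
  · simp only [a, if_false]; split_ifs <;> simp

lemma pol_eq (n : ℕ) (k : Fin (n + 1) × Fin (n + 1) × Fin (n + 1)) : pol n k = 2 - zc n k := rfl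

lemma pol_zero (n : ℕ) : pol n 0 = 0 := by
  rw [pol_eq]
  simp [zc]

lemma zc_zero (n : ℕ) : zc n 0 = 3 := by
  simp [zc]

lemma lam3_zero (n : ℕ) : lam3 n 0 = 0 := by
  simp [lam3, lam_zero]

open Polynomial in
/-- the polynomial -/
noncomputable def gg (n : ℕ) : ℝ[X] := ∏ k, (X + C (lam3 n k)) ^ pol n k

lemma gg_eval (n : ℕ) (x : ℝ) : (gg n).eval x = ∏ k, (x + lam3 n k) ^ pol n k := by
  unfold gg
  rw [Polynomial.eval_prod]
  apply Finset.prod_congr rfl
  intro k _
  rw [Polynomial.eval_pow, Polynomial.eval_add, Polynomial.eval_X, Polynomial.eval_C]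

lemma gg_spec (hs : S_SPEC) (n : ℕ) (x : ℝ) :
    (gg n).eval x * (x • (1 : Matrix (box n).V (box n).V ℝ) + (box n).L0).det =
    x * (x • (1 : Matrix (box n).E (box n).E ℝ) + (box n).L1).det := by
  obtain ⟨h1, h2⟩ := hs n x
  rw [h1, h2, gg_eval, ← Finset.prod_mul_distrib]
  rw [Fintype.prod_eq_mul_prod_compl (0 : Fin (n + 1) × Fin (n + 1) × Fin (n + 1))]
  conv_rhs => rw [Fintype.prod_eq_mul_prod_compl (0 : Fin (n + 1) × Fin (n + 1) × Fin (n + 1))]
  have e0 : (x + lam3 n 0) ^ pol n 0 * (x + lam3 n 0) = x := by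
    rw [pol_zero, lam3_zero, pow_zero, one_mul, add_zero]
  have e1 : (x + lam3 n 0) ^ (3 - ((if (0 : Fin (n + 1) × Fin (n + 1) × Fin (n + 1)).1 = 0 then 1 else 0) +
      (if (0 : Fin (n + 1) × Fin (n + 1) × Fin (n + 1)).2.1 = 0 then 1 else 0) +
      (if (0 : Fin (n + 1) × Fin (n + 1) × Fin (n + 1)).2.2 = 0 then 1 else 0))) = 1 := by
    simp
  rw [e0, e1, one_mul]
  congr 1
  apply Finset.prod_congr rfl
  intro k hk
  have hk0 : k ≠ 0 := by
    rw [Finset.mem_compl, Finset.mem_singleton] at hk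
    exact hk
  rw [← pow_succ]
  congr 1
  have := zc_le n k hk0
  rw [pol_eq]
  change 2 - zc n k + 1 = 3 - zc n k
  omega

theorem t_DET : S_ALG → S_SPEC → S_PRODQ → S_DET := by
  intro ha hs hp n R t inst
  have ht : 0 < t := Nat.pos_of_ne_zero (NeZero.ne t)
  have h := ha (box n) R (gg n) (gg_spec hs n) t
  -- the factors
  have h1 : (R.hess (cyc t)).det = ∏ k, (if k = 0 then (1 : ℝ) else
      (Real.exp (t * om (lam3 n k)) * (1 - Real.exp (-(t * om (lam3 n k)))) ^ 2) ^ pol n k) := by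
    rw [h]
    simp only [gg_eval]
    rw [Finset.prod_comm]
    apply Finset.prod_congr rfl
    intro k _
    rw [Finset.prod_pow]
    split_ifs with hk
    · rw [hk, pol_zero, pow_zero]
    · rw [(hp t (lam3 n k) (lam3_pos n k hk)).2]
  have hpos : ∀ k, 0 < (if k = 0 then (1 : ℝ) else
      (Real.exp (t * om (lam3 n k)) * (1 - Real.exp (-(t * om (lam3 n k)))) ^ 2) ^ pol n k) := by
    intro k
    split_ifs with hk
    · exact one_pos
    · have h0 := (hp t (lam3 n k) (lam3_pos n k hk)).1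
      have ht' : (0 : ℝ) < t := by exact_mod_cast ht
      have h2 : Real.exp (-(t * om (lam3 n k))) < 1 := by
        rw [Real.exp_lt_one_iff]
        have := mul_pos ht' h0
        linarith
      have h3 : 0 < 1 - Real.exp (-(t * om (lam3 n k))) := by linarith
      positivity
  constructor
  · rw [h1]
    exact Finset.prod_pos fun k _ => hpos k
  · rw [h1, Real.log_prod (fun k _ => (hpos k).ne')]
    unfold vac bbr
    rw [Finset.mul_sum, Finset.mul_sum, ← Finset.sum_sub_distrib]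
    apply Finset.sum_congr rfl
    intro k _
    split_ifs with hk
    · rw [hk, pol_zero]
      simp
    · have h0 := (hp t (lam3 n k) (lam3_pos n k hk)).1
      have ht' : (0 : ℝ) < t := by exact_mod_cast ht
      have h2 : Real.exp (-(t * om (lam3 n k))) < 1 := by
        rw [Real.exp_lt_one_iff]
        have := mul_pos ht' h0
        linarith
      have h3 : 0 < 1 - Real.exp (-(t * om (lam3 n k))) := by linarith
      rw [Real.log_pow, Real.log_mul (Real.exp_pos _).ne' (by positivity), Real.log_exp, Real.log_pow]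
      push_cast
      ring

end Pool.Agent.N899.BB.Det
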