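import Mathlib
import Pool.Agent.N899.BB.Defs

/-!
# Black body radiation of gluons: the general decomposition into slices
-/

open MeasureTheory
open Pool.Agent.N899.SB

namespace Pool.Agent.N899.BB

/-- Decomposition of path integrals over `X × cycle` and `X × path` into slices. -/
def S_SLG : Prop := ∀ (G : Type) [Group G] [TopologicalSpace G] [IsTopologicalGroup G]
  [CompactSpace G] [SecondCountableTopology G] [MeasurableSpace G] [BorelSpace G]
  (μ : Measure G) [IsProbabilityMeasure μ] (X : Cx)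
  (h : (X.E → G) → (X.V → G) → (X.E → G) → ℝ),
  Continuous (fun p : (X.E → G) × (X.V → G) × (X.E → G) => h p.1 p.2.1 p.2.2) →
  (∀ t : ℕ, ∫ U : (X.prod (cyc (t + 1))).E → G, ∏ τ : ZMod (t + 1),
      h (fun e => U (Sum.inl (e, τ))) (fun v => U (Sum.inr (v, τ)))
        (fun e => U (Sum.inl (e, τ + 1))) ∂(Measure.pi fun _ => μ) =
    trk (X.M μ) (fun u v => ∫ W : X.V → G, h u W v ∂(Measure.pi fun _ => μ)) t) ∧
  ∀ (m : ℕ) (f : (X.E → G) → ℝ), Continuous f →
    ∫ U : (X.prod (path (m + 1))).E → G, f (fun e => U (Sum.inl (e, (0 : Fin (m + 2))))) *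
      (∏ τ : Fin (m + 1), h (fun e => U (Sum.inl (e, τ.castSucc))) (fun v => U (Sum.inr (v, τ)))
        (fun e => U (Sum.inl (e, τ.succ)))) *
      f (fun e => U (Sum.inl (e, Fin.last (m + 1)))) ∂(Measure.pi fun _ => μ) =
    ∫ u, ∫ v, f u * kit (X.M μ) (fun u v => ∫ W : X.V → G, h u W v ∂(Measure.pi fun _ => μ))
      m u v * f v ∂(X.M μ) ∂(X.M μ)

end Pool.Agent.N899.BB
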