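import Mathlib
import Pool.Agent.N899.SB.Kit
import Pool.Agent.N899.BB.Stm
import Pool.Agent.N899.BB.Stm2

/-!
# The diamagnetic inequality: trivial Polyakov loop over one vertex
-/

set_option autoImplicit false
set_option linter.unusedSectionVars false

open MeasureTheory
open Pool.Agent.N899.SB

namespace Pool.Agent.N899.BB.Dia

noncomputable section

section alg

variable {G : Type} [Group G]

/-- simultaneous conjugation -/
def cj {E : Type} (P : G) (v : E → G) : E → G := fun e => P * v e * P⁻¹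

lemma cj_cj {E : Type} (P Q : G) (v : E → G) : cj P (cj Q v) = cj (P * Q) v := by
  funext e
  unfold cj
  group

lemma cj_one {E : Type} (v : E → G) : cj 1 v = v := by
  funext e
  simp [cj]

lemma cj_eq {E : Type} (P : G) (v : E → G) : cj P v = (fun _ => P) * (v * fun _ => P⁻¹) := by
  funext e
  simp [cj, mul_assoc]

variable {Y : Cx} (we : G → ℝ)

lemma S_cj (hc : ∀ g h, we (h * g * h⁻¹) = we g) (P : G) (u : Y.E → G) :
    Y.S we (cj P u) = Y.S we u := by
  unfold Cx.S
  refine Finset.sum_congr rfl fun f _ => ?_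
  rw [← hc (Y.plq u f) P]
  congr 1
  unfold Cx.plq cj
  group

lemma tm_cj (hc : ∀ g h, we (h * g * h⁻¹) = we g) (P : G) (u v : Y.E → G) (W : Y.V → G) :
    Y.tm we (cj P u) W (cj P v) = Y.tm we u (fun x => P⁻¹ * W x * P) v := by
  unfold Cx.tm
  refine Finset.sum_congr rfl fun e _ => ?_
  rw [← hc (u e * (P⁻¹ * W (Y.tgt e) * P) * (v e)⁻¹ * (P⁻¹ * W (Y.src e) * P)⁻¹) P]
  congr 1
  unfold cj
  group

lemma tm_mulr (P : G) (u v : Y.E → G) (W : Y.V → G) :
    Y.tm we u (fun x => W x * P) v = Y.tm we u W (cj P v) := by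
  unfold Cx.tm cj
  refine Finset.sum_congr rfl fun e _ => ?_
  congr 1
  group

lemma tm_inv (hi : ∀ g, we g⁻¹ = we g) (hc : ∀ g h, we (h * g * h⁻¹) = we g)
    (u v : Y.E → G) (W : Y.V → G) : Y.tm we u W⁻¹ v = Y.tm we v W u := by
  unfold Cx.tm
  refine Finset.sum_congr rfl fun e _ => ?_
  rw [← hi, ← hc _ (W (Y.src e))]
  congr 1
  simp only [Pi.inv_apply]
  group

/-- the weight between two slices -/
def hh (Y : Cx) (we : G → ℝ) (β : ℝ) (u : Y.E → G) (W : Y.V → G) (v : Y.E → G) : ℝ :=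
  Real.exp (-(β * (1 / 2 * Y.S we u + 1 / 2 * Y.S we v + Y.tm we u W v)))

lemma hh_pos (β : ℝ) (u : Y.E → G) (W : Y.V → G) (v : Y.E → G) : 0 < hh Y we β u W v :=
  Real.exp_pos _

lemma hh_cj (hc : ∀ g h, we (h * g * h⁻¹) = we g) (β : ℝ) (P : G) (u v : Y.E → G)
    (W : Y.V → G) : hh Y we β (cj P u) W (cj P v) = hh Y we β u (fun x => P⁻¹ * W x * P) v := by
  unfold hh
  rw [S_cj we hc, S_cj we hc, tm_cj we hc]

lemma hh_mulr (hc : ∀ g h, we (h * g * h⁻¹) = we g) (β : ℝ) (P : G) (u v : Y.E → G)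
    (W : Y.V → G) : hh Y we β u (fun x => W x * P) v = hh Y we β u W (cj P v) := by
  unfold hh
  rw [S_cj we hc, tm_mulr]

lemma hh_symm (hi : ∀ g, we g⁻¹ = we g) (hc : ∀ g h, we (h * g * h⁻¹) = we g) (β : ℝ)
    (u v : Y.E → G) (W : Y.V → G) : hh Y we β u W⁻¹ v = hh Y we β v W u := by
  unfold hh
  rw [tm_inv we hi hc, add_comm (1 / 2 * Y.S we u)]

/-- the decomposition of the action -/
lemma act_prod (t : ℕ) [NeZero t] (V : (Y.prod (cyc t)).E → G) :
    (Y.prod (cyc t)).S we V = ∑ τ : ZMod t, (Y.S we (fun e => V (Sum.inl (e, τ))) +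
      Y.tm we (fun e => V (Sum.inl (e, τ))) (fun v => V (Sum.inr (v, τ)))
        (fun e => V (Sum.inl (e, τ + 1)))) := by
  have h1 : (Y.prod (cyc t)).S we V =
      ∑ f : (Y.F × ZMod t) ⊕ (Y.E × ZMod t), we ((Y.prod (cyc t)).plq V f) := rfl
  rw [h1, Fintype.sum_sum_type, Fintype.sum_prod_type_right, Fintype.sum_prod_type_right,
    ← Finset.sum_add_distrib]
  rfl

lemma exp_prod (β : ℝ) (t : ℕ) [NeZero t] (V : (Y.prod (cyc t)).E → G) :
    Real.exp (-(β * (Y.prod (cyc t)).S we V)) = ∏ τ : ZMod t,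
      hh Y we β (fun e => V (Sum.inl (e, τ))) (fun v => V (Sum.inr (v, τ)))
        (fun e => V (Sum.inl (e, τ + 1))) := by
  unfold hh
  rw [act_prod, ← Real.exp_sum]
  congr 1
  rw [Finset.sum_neg_distrib, ← Finset.mul_sum]
  congr 2
  have h2 : ∑ τ : ZMod t, Y.S we (fun e => V (Sum.inl (e, τ + 1))) =
      ∑ τ : ZMod t, Y.S we (fun e => V (Sum.inl (e, τ))) :=
    Fintype.sum_equiv (Equiv.addRight 1) _ _ fun τ => rfl
  rw [Finset.sum_add_distrib, Finset.sum_add_distrib, Finset.sum_add_distrib, ← Finset.mul_sum,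
    ← Finset.mul_sum, h2]
  ring

lemma fixr_inr {ρ : Y.V} {t : ℕ} [NeZero t] (V : (Y.prod (cyc t)).E → G) (τ : ZMod t) :
    (fun v => fixr (Y := Y) (Γ := cyc t) ρ V (Sum.inr (v, τ))) =
      Function.update (fun v => V (Sum.inr (v, τ))) ρ 1 := by
  funext v
  by_cases h : v = ρ
  · subst h
    simp [fixr]
  · simp [fixr, h]

end alg

section meas

variable {G : Type} [Group G] [TopologicalSpace G] [IsTopologicalGroup G]
  [CompactSpace G] [SecondCountableTopology G] [MeasurableSpace G] [BorelSpace G]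
  (μ : Measure G) [IsProbabilityMeasure μ]

lemma swap2 {A B : Type} [TopologicalSpace A] [CompactSpace A] [SecondCountableTopology A]
    [MeasurableSpace A] [BorelSpace A] [TopologicalSpace B] [CompactSpace B]
    [SecondCountableTopology B] [MeasurableSpace B] [BorelSpace B] (μ : Measure A)
    [IsFiniteMeasure μ] (ν : Measure B) [IsFiniteMeasure ν] (F : A → B → ℝ)
    (hF : Continuous (Function.uncurry F)) :
    ∫ a, ∫ b, F a b ∂ν ∂μ = ∫ b, ∫ a, F a b ∂μ ∂ν :=
  integral_integral_swap (Kit.intble (μ.prod ν) _ hF)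

/-- one coordinate is integrated separately -/
lemma int_update {V : Type} [Fintype V] [DecidableEq V] (ρ : V) (F : (V → G) → ℝ)
    (hF : Continuous F) :
    ∫ W : V → G, F W ∂(Measure.pi fun _ => μ) =
      ∫ W : V → G, ∫ P, F (Function.update W ρ P) ∂μ ∂(Measure.pi fun _ => μ) := by
  have hu : Continuous (fun p : (V → G) × G => Function.update p.1 ρ p.2) :=
    continuous_fst.update ρ continuous_snd
  have hmap : Measure.map (fun p : (V → G) × G => Function.update p.1 ρ p.2)
      ((Measure.pi fun _ => μ).prod μ) = Measure.pi fun _ => μ := by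
    refine (Measure.pi_eq fun s hs => ?_).symm
    rw [Measure.map_apply hu.measurable (MeasurableSet.univ_pi hs)]
    have hpre : (fun p : (V → G) × G => Function.update p.1 ρ p.2) ⁻¹' (Set.univ.pi s) =
        (Set.univ.pi (Function.update s ρ Set.univ)) ×ˢ (s ρ) := by
      ext p
      simp only [Set.mem_preimage, Set.mem_pi, Set.mem_univ, true_implies, Set.mem_prod]
      constructor
      · intro h
        refine ⟨fun x => ?_, ?_⟩
        · by_cases hx : x = ρ
          · subst hx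
            simp
          · have := h x
            simpa [hx] using this
        · have := h ρ
          simpa using this
      · rintro ⟨h1, h2⟩ x
        by_cases hx : x = ρ
        · subst hx
          simpa using h2
        · have := h1 x
          simpa [hx] using this
    rw [hpre, Measure.prod_prod, Measure.pi_pi,
      Fintype.prod_eq_mul_prod_compl ρ (fun i => μ (s i)),
      Fintype.prod_eq_mul_prod_compl ρ (fun i => μ (Function.update s ρ Set.univ i))]
    have h3 : ∏ i ∈ ({ρ} : Finset V)ᶜ, μ (Function.update s ρ Set.univ i) =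
        ∏ i ∈ ({ρ} : Finset V)ᶜ, μ (s i) := by
      refine Finset.prod_congr rfl fun i hi => ?_
      have hi' : i ≠ ρ := by simpa using hi
      rw [Function.update_of_ne hi']
    rw [h3]
    simp [mul_comm]
  conv_lhs => rw [← hmap]
  rw [integral_map hu.measurable.aemeasurable hF.stronglyMeasurable.aestronglyMeasurable]
  exact integral_prod _ (Kit.intble _ _ (hF.comp hu))

variable {Y : Cx} {we : G → ℝ} (hw : Continuous we)

include hw in
lemma hh_cont (β : ℝ) {X : Type} [TopologicalSpace X] {a : X → Y.E → G} {b : X → Y.V → G}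
    {c : X → Y.E → G} (ha : Continuous a) (hb : Continuous b) (hc : Continuous c) :
    Continuous fun x => hh Y we β (a x) (b x) (c x) := by
  unfold hh Cx.S Cx.tm Cx.plq
  have h1 : ∀ e, Continuous fun x => a x e := fun e => (continuous_apply e).comp ha
  have h2 : ∀ e, Continuous fun x => b x e := fun e => (continuous_apply e).comp hb
  have h3 : ∀ e, Continuous fun x => c x e := fun e => (continuous_apply e).comp hc
  refine Real.continuous_exp.comp (Continuous.neg (continuous_const.mul ?_))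
  refine ((continuous_const.mul (continuous_finsetSum _ fun f _ => hw.comp ?_)).add
    (continuous_const.mul (continuous_finsetSum _ fun f _ => hw.comp ?_))).add
    (continuous_finsetSum _ fun f _ => hw.comp ?_)
  · fun_prop
  · fun_prop
  · fun_prop

/-- the transfer matrix with the link over `ρ` replaced by one -/
def k1 (Y : Cx) (ρ : Y.V) (μ : Measure G) (we : G → ℝ) (β : ℝ) (u v : Y.E → G) : ℝ :=
  ∫ W : Y.V → G, hh Y we β u (Function.update W ρ 1) v ∂(Measure.pi fun _ => μ)

lemma k_eq (β : ℝ) (u v : Y.E → G) :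
    Y.k μ we β u v = ∫ W : Y.V → G, hh Y we β u W v ∂(Measure.pi fun _ => μ) := rfl

lemma cj_cont {E : Type} {X : Type} [TopologicalSpace X] {P : X → G} {v : X → E → G}
    (hP : Continuous P) (hv : Continuous v) : Continuous fun x => cj (P x) (v x) := by
  refine continuous_pi fun e => ?_
  have h1 : Continuous fun x => v x e := (continuous_apply e).comp hv
  unfold cj
  fun_prop

include hw in
lemma k_cont (β : ℝ) : Continuous (fun p : (Y.E → G) × (Y.E → G) => Y.k μ we β p.1 p.2) := by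
  refine Kit.cont_int (Measure.pi fun _ => μ)
    (fun (p : (Y.E → G) × (Y.E → G)) (W : Y.V → G) => hh Y we β p.1 W p.2) ?_
  exact hh_cont hw β (by fun_prop) (by fun_prop) (by fun_prop)

include hw in
lemma k1_cont (ρ : Y.V) (β : ℝ) :
    Continuous (fun p : (Y.E → G) × (Y.E → G) => k1 Y ρ μ we β p.1 p.2) := by
  refine Kit.cont_int (Measure.pi fun _ => μ)
    (fun (p : (Y.E → G) × (Y.E → G)) (W : Y.V → G) =>
      hh Y we β p.1 (Function.update W ρ 1) p.2) ?_
  exact hh_cont hw β (by fun_prop) (continuous_snd.update ρ continuous_const) (by fun_prop)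

include hw in
lemma k1_cont' (ρ : Y.V) (β : ℝ) {X : Type} [TopologicalSpace X] {f g : X → Y.E → G}
    (hf : Continuous f) (hg : Continuous g) :
    Continuous fun x => k1 Y ρ μ we β (f x) (g x) := by
  have h1 : Continuous fun x => (f x, g x) := hf.prodMk hg
  have h2 := Continuous.comp (k1_cont μ hw ρ β) h1
  exact h2

include hw in
lemma k1_pos (ρ : Y.V) (β : ℝ) (u v : Y.E → G) : 0 < k1 Y ρ μ we β u v := by
  unfold k1 hh
  refine integral_exp_pos (Kit.intble _ _ ?_)
  exact hh_cont hw β continuous_const (continuous_id.update ρ continuous_const) continuous_const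

lemma k1_symm [μ.IsInvInvariant] (hi : ∀ g, we g⁻¹ = we g)
    (hc : ∀ g h, we (h * g * h⁻¹) = we g) (ρ : Y.V) (β : ℝ) (u v : Y.E → G) :
    k1 Y ρ μ we β u v = k1 Y ρ μ we β v u := by
  unfold k1
  rw [← integral_inv_eq_self]
  congr 1
  funext W
  rw [← hh_symm we hi hc]
  congr 1
  funext x
  by_cases hx : x = ρ
  · subst hx
    simp
  · simp [hx]

variable [μ.IsMulLeftInvariant] [μ.IsMulRightInvariant]

lemma int_cj {E : Type} [Fintype E] (P : G) (F : (E → G) → ℝ) :
    ∫ w, F (cj P w) ∂(Measure.pi fun _ : E => μ) = ∫ w, F w ∂(Measure.pi fun _ : E => μ) := by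
  have h1 : ∀ w : E → G, F (cj P w) = (fun z => F ((fun _ => P) * z)) (w * fun _ => P⁻¹) := by
    intro w
    rw [cj_eq]
  simp_rw [h1]
  rw [integral_mul_right_eq_self (μ := Measure.pi fun _ : E => μ)
    (fun z => F ((fun _ => P) * z)) (fun _ => P⁻¹)]
  exact integral_mul_left_eq_self (μ := Measure.pi fun _ : E => μ) F (fun _ => P)

lemma k1_cj (hc : ∀ g h, we (h * g * h⁻¹) = we g) (ρ : Y.V) (β : ℝ) (P : G) (u v : Y.E → G) :
    k1 Y ρ μ we β (cj P u) (cj P v) = k1 Y ρ μ we β u v := by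
  unfold k1
  rw [← int_cj μ P⁻¹ (fun W : Y.V → G => hh Y we β u (Function.update W ρ 1) v)]
  congr 1
  funext W
  rw [hh_cj we hc]
  congr 1
  funext x
  by_cases hx : x = ρ
  · subst hx
    simp
  · simp [hx, cj]

include hw in
/-- the transfer matrix is an average -/
lemma k_avg (hc : ∀ g h, we (h * g * h⁻¹) = we g) (ρ : Y.V) (β : ℝ) (u v : Y.E → G) :
    Y.k μ we β u v = ∫ P, k1 Y ρ μ we β u (cj P v) ∂μ := by
  rw [k_eq, int_update μ ρ (fun W : Y.V → G => hh Y we β u W v)
    (hh_cont hw β continuous_const continuous_id continuous_const),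
    swap2 (Measure.pi fun _ : Y.V => μ) μ
      (fun (W : Y.V → G) P => hh Y we β u (Function.update W ρ P) v)
      (hh_cont hw β continuous_const (continuous_fst.update ρ continuous_snd) continuous_const)]
  congr 1
  funext P
  unfold k1
  rw [← integral_mul_right_eq_self (μ := Measure.pi fun _ : Y.V => μ)
    (fun W : Y.V → G => hh Y we β u (Function.update W ρ P) v) (fun _ => P)]
  congr 1
  funext W
  rw [← hh_mulr we hc]
  congr 1
  funext x
  by_cases hx : x = ρ
  · subst hx
    simp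
  · simp [hx]

lemma kit_cj (hc : ∀ g h, we (h * g * h⁻¹) = we g) (ρ : Y.V) (β : ℝ) (P : G) :
    ∀ (n : ℕ) (u v : Y.E → G), kit (Y.M μ) (k1 Y ρ μ we β) n (cj P u) (cj P v) =
      kit (Y.M μ) (k1 Y ρ μ we β) n u v := by
  intro n
  induction n with
  | zero => exact k1_cj μ hc ρ β P
  | succ n ih =>
    intro u v
    show ∫ w, k1 Y ρ μ we β (cj P u) w * kit (Y.M μ) (k1 Y ρ μ we β) n w (cj P v) ∂(Y.M μ) =
      ∫ w, k1 Y ρ μ we β u w * kit (Y.M μ) (k1 Y ρ μ we β) n w v ∂(Y.M μ)
    rw [← int_cj μ P (fun w => k1 Y ρ μ we β (cj P u) w *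
      kit (Y.M μ) (k1 Y ρ μ we β) n w (cj P v))]
    congr 1
    funext w
    rw [ih, k1_cj μ hc]

include hw in
/-- the iterates of the transfer matrix are averages -/
lemma kit_avg (hc : ∀ g h, we (h * g * h⁻¹) = we g) (ρ : Y.V) (β : ℝ) :
    ∀ (n : ℕ) (u v : Y.E → G), kit (Y.M μ) (Y.k μ we β) n u v =
      ∫ P, kit (Y.M μ) (k1 Y ρ μ we β) n u (cj P v) ∂μ := by
  intro n
  induction n with
  | zero => exact k_avg μ hw hc ρ β
  | succ n ih =>
    intro u v
    have hkc := k1_cont μ hw ρ β (Y := Y)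
    have hKn : ∀ {X : Type} [TopologicalSpace X] {f g : X → Y.E → G}, Continuous f →
        Continuous g → Continuous fun x => kit (Y.M μ) (k1 Y ρ μ we β) n (f x) (g x) :=
      fun hf hg => Kit.kit_cont' (Y.M μ) hkc n hf hg
    show ∫ w, Y.k μ we β u w * kit (Y.M μ) (Y.k μ we β) n w v ∂(Y.M μ) =
      ∫ P, ∫ w, k1 Y ρ μ we β u w * kit (Y.M μ) (k1 Y ρ μ we β) n w (cj P v) ∂(Y.M μ) ∂μ
    have e1 : ∀ w, Y.k μ we β u w * kit (Y.M μ) (Y.k μ we β) n w v =
        ∫ P, ∫ Q, k1 Y ρ μ we β u (cj P w) *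
          kit (Y.M μ) (k1 Y ρ μ we β) n w (cj Q v) ∂μ ∂μ := by
      intro w
      rw [ih w v, k_avg μ hw hc ρ β u w, ← integral_mul_const]
      congr 1
      funext P
      rw [integral_const_mul]
    simp_rw [e1]
    rw [swap2 (Y.M μ) μ (fun w P => ∫ Q, k1 Y ρ μ we β u (cj P w) *
          kit (Y.M μ) (k1 Y ρ μ we β) n w (cj Q v) ∂μ)]
    · have e2 : ∀ P : G, ∫ w, ∫ Q, k1 Y ρ μ we β u (cj P w) *
          kit (Y.M μ) (k1 Y ρ μ we β) n w (cj Q v) ∂μ ∂(Y.M μ) =
          ∫ w, ∫ Q, k1 Y ρ μ we β u w *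
            kit (Y.M μ) (k1 Y ρ μ we β) n w (cj Q v) ∂μ ∂(Y.M μ) := by
        intro P
        rw [← int_cj μ P⁻¹ (fun w => ∫ Q, k1 Y ρ μ we β u (cj P w) *
          kit (Y.M μ) (k1 Y ρ μ we β) n w (cj Q v) ∂μ)]
        congr 1
        funext w
        rw [cj_cj, mul_inv_cancel, cj_one]
        have e3 : ∀ Q, kit (Y.M μ) (k1 Y ρ μ we β) n (cj P⁻¹ w) (cj Q v) =
            kit (Y.M μ) (k1 Y ρ μ we β) n w (cj (P * Q) v) := by
          intro Q
          rw [← kit_cj μ hc ρ β P, cj_cj, cj_cj, mul_inv_cancel, cj_one]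
        simp_rw [e3]
        exact integral_mul_left_eq_self (fun Q => k1 Y ρ μ we β u w *
          kit (Y.M μ) (k1 Y ρ μ we β) n w (cj Q v)) P
      simp_rw [e2]
      rw [integral_const, probReal_univ, one_smul]
      refine swap2 (Y.M μ) μ (fun w Q => k1 Y ρ μ we β u w *
            kit (Y.M μ) (k1 Y ρ μ we β) n w (cj Q v)) ?_
      exact (k1_cont' μ hw ρ β continuous_const continuous_fst).mul
        (hKn continuous_fst (cj_cont continuous_snd continuous_const))
    · refine Kit.cont_int μ (fun (p : (Y.E → G) × G) Q => k1 Y ρ μ we β u (cj p.2 p.1) *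
          kit (Y.M μ) (k1 Y ρ μ we β) n p.1 (cj Q v)) ?_
      exact (k1_cont' μ hw ρ β continuous_const (cj_cont (continuous_snd.comp continuous_fst)
        (continuous_fst.comp continuous_fst))).mul
        (hKn (continuous_fst.comp continuous_fst) (cj_cont continuous_snd continuous_const))

/-- the energy changes little under conjugations in `A` -/
lemma tm_near (hc : ∀ g h, we (h * g * h⁻¹) = we g) {P : G} {η : ℝ}
    (hP : ∀ a g : G, |we (a * (P * g * P⁻¹)) - we (a * g)| ≤ η) (w u : Y.E → G) (W : Y.V → G) :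
    Y.tm we w W (cj P u) ≤ Y.tm we w W u + Fintype.card Y.E * η := by
  have h1 : ∀ e : Y.E, we (w e * W (Y.tgt e) * (cj P u e)⁻¹ * (W (Y.src e))⁻¹) ≤
      we (w e * W (Y.tgt e) * (u e)⁻¹ * (W (Y.src e))⁻¹) + η := by
    intro e
    have h2 := hP ((W (Y.src e))⁻¹ * w e * W (Y.tgt e)) (u e)⁻¹
    rw [← hc (_ * (P * (u e)⁻¹ * P⁻¹)) (W (Y.src e)),
      ← hc (_ * (u e)⁻¹) (W (Y.src e))] at h2
    have e1 : W (Y.src e) * ((W (Y.src e))⁻¹ * w e * W (Y.tgt e) * (P * (u e)⁻¹ * P⁻¹)) *
        (W (Y.src e))⁻¹ = w e * W (Y.tgt e) * (cj P u e)⁻¹ * (W (Y.src e))⁻¹ := by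
      unfold cj
      group
    have e2 : W (Y.src e) * ((W (Y.src e))⁻¹ * w e * W (Y.tgt e) * (u e)⁻¹) *
        (W (Y.src e))⁻¹ = w e * W (Y.tgt e) * (u e)⁻¹ * (W (Y.src e))⁻¹ := by
      group
    rw [e1, e2] at h2
    have := (abs_le.1 h2).2
    linarith
  unfold Cx.tm
  calc _ ≤ ∑ e, (we (w e * W (Y.tgt e) * (u e)⁻¹ * (W (Y.src e))⁻¹) + η) :=
        Finset.sum_le_sum fun e _ => h1 e
    _ = _ := by
        rw [Finset.sum_add_distrib, Finset.sum_const, Finset.card_univ, nsmul_eq_mul]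

include hw in
lemma k1_near (hc : ∀ g h, we (h * g * h⁻¹) = we g) {β : ℝ} (hβ : 0 ≤ β) (ρ : Y.V) {P : G}
    {η : ℝ} (hP : ∀ a g : G, |we (a * (P * g * P⁻¹)) - we (a * g)| ≤ η) (w u : Y.E → G) :
    Real.exp (-(β * (Fintype.card Y.E * η))) * k1 Y ρ μ we β w u ≤
      k1 Y ρ μ we β w (cj P u) := by
  unfold k1
  rw [← integral_const_mul]
  refine integral_mono (Kit.intble _ _ ?_) (Kit.intble _ _ ?_) fun W => ?_
  · exact continuous_const.mul (hh_cont hw β continuous_const
      (continuous_id.update ρ continuous_const) continuous_const)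
  · exact hh_cont hw β continuous_const (continuous_id.update ρ continuous_const)
      continuous_const
  · show Real.exp (-(β * (Fintype.card Y.E * η))) * hh Y we β w (Function.update W ρ 1) u ≤
      hh Y we β w (Function.update W ρ 1) (cj P u)
    unfold hh
    rw [← Real.exp_add, S_cj we hc]
    refine Real.exp_le_exp.2 ?_
    have h1 := mul_le_mul_of_nonneg_left
      (tm_near hc hP w u (Function.update W ρ 1)) hβ
    linarith

end meas

theorem t_DIA : S_SLG → S_DIA := by
  intro hslg G _ _ _ _ _ _ _ μ _ _ _ _ we hw hi hc h0 β hβ Y ρ t inst ht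
  obtain ⟨t', rfl⟩ := Nat.exists_eq_succ_of_ne_zero (NeZero.ne t)
  -- the partition functions
  have hZ : (Y.prod (cyc (t' + 1))).Z μ we β = trk (Y.M μ) (Y.k μ we β) t' := by
    have h1 := (hslg G μ Y (hh Y we β) (hh_cont hw β (by fun_prop) (by fun_prop)
      (by fun_prop))).1 t'
    rw [show Y.k μ we β = fun u v => ∫ W : Y.V → G, hh Y we β u W v ∂(Measure.pi fun _ => μ)
      from rfl, ← h1]
    unfold Cx.Z
    congr 1
    funext U
    exact exp_prod we β (t' + 1) U
  have hZ1 : Y.Z1 ρ (cyc (t' + 1)) μ we β = trk (Y.M μ) (k1 Y ρ μ we β) t' := by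
    have h1 := (hslg G μ Y (fun u W v => hh Y we β u (Function.update W ρ 1) v)
      (hh_cont hw β (by fun_prop) ((continuous_fst.comp continuous_snd).update ρ
        continuous_const) (by fun_prop))).1 t'
    rw [show k1 Y ρ μ we β = fun u v => ∫ W : Y.V → G,
      hh Y we β u (Function.update W ρ 1) v ∂(Measure.pi fun _ => μ) from rfl, ← h1]
    unfold Cx.Z1
    congr 1
    funext U
    rw [exp_prod we β (t' + 1) (fixr ρ U)]
    refine Finset.prod_congr rfl fun τ _ => ?_
    rw [fixr_inr]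
    rfl
  have hkc := k1_cont μ hw ρ β (Y := Y)
  have hkp := k1_pos μ hw ρ β (Y := Y)
  have hks := k1_symm μ hi hc ρ β (Y := Y)
  have hZa : (Y.prod (cyc (t' + 1))).Z μ we β =
      ∫ u, ∫ P, kit (Y.M μ) (k1 Y ρ μ we β) t' u (cj P u) ∂μ ∂(Y.M μ) := by
    rw [hZ]
    unfold trk
    congr 1
    funext u
    exact kit_avg μ hw hc ρ β t' u u
  obtain ⟨a, ha⟩ : ∃ a, t' = 2 * a + 1 := by
    obtain ⟨b, hb⟩ := ht
    exact ⟨b - 1, by omega⟩
  have hci : ∀ n, Continuous fun p : (Y.E → G) × G =>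
      kit (Y.M μ) (k1 Y ρ μ we β) n p.1 (cj p.2 p.1) := fun n =>
    Kit.kit_cont' (Y.M μ) hkc n continuous_fst (cj_cont continuous_snd continuous_fst)
  have hcd : ∀ n, Continuous fun u : Y.E → G => kit (Y.M μ) (k1 Y ρ μ we β) n u u := fun n =>
    Kit.kit_cont' (Y.M μ) hkc n continuous_id continuous_id
  constructor
  · rw [hZa, hZ1]
    unfold trk
    refine integral_mono (Kit.intble _ _ (Kit.cont_int μ (fun u P =>
      kit (Y.M μ) (k1 Y ρ μ we β) t' u (cj P u)) (hci t'))) (Kit.intble _ _ (hcd t'))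
      fun u => ?_
    have h1 : ∫ _ : G, kit (Y.M μ) (k1 Y ρ μ we β) t' u u ∂μ =
        kit (Y.M μ) (k1 Y ρ μ we β) t' u u := by
      rw [integral_const, probReal_univ, one_smul]
    beta_reduce
    rw [← h1]
    refine integral_mono (Kit.intble _ _ ?_) (integrable_const _) fun P => ?_
    · exact (hci t').comp (continuous_const.prodMk continuous_id)
    · have h2 := Kit.kit_cs (Y.M μ) hkc hks a u (cj P u)
      rw [kit_cj μ hc ρ β P, ← pow_two, ← ha] at h2
      exact le_of_sq_le_sq h2 (Kit.kit_pos (Y.M μ) hkc hkp t' u u).le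
  · intro A η hA hη
    rw [hZa, hZ1]
    unfold trk
    set c := Real.exp (-(β * (Fintype.card Y.E * η))) with hcdef
    rw [← integral_const_mul]
    refine integral_mono (Kit.intble _ _ (continuous_const.mul (hcd t')))
      (Kit.intble _ _ (Kit.cont_int μ (fun u P =>
      kit (Y.M μ) (k1 Y ρ μ we β) t' u (cj P u)) (hci t'))) fun u => ?_
    beta_reduce
    have h1 : ∀ P ∈ A, c * kit (Y.M μ) (k1 Y ρ μ we β) t' u u ≤
        kit (Y.M μ) (k1 Y ρ μ we β) t' u (cj P u) := by
      intro P hP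
      have e1 : ∀ v, kit (Y.M μ) (k1 Y ρ μ we β) t' u v =
          ∫ w, kit (Y.M μ) (k1 Y ρ μ we β) (2 * a) u w * k1 Y ρ μ we β w v ∂(Y.M μ) := by
        intro v
        rw [ha]
        exact (Kit.kit_comp (Y.M μ) hkc (2 * a) 0 u v).symm
      rw [e1, e1, ← integral_const_mul]
      refine integral_mono (Kit.intble _ _ ?_) (Kit.intble _ _ ?_) fun w => ?_
      · exact continuous_const.mul ((Kit.kit_cont' (Y.M μ) hkc (2 * a) continuous_const
          continuous_id).mul (k1_cont' μ hw ρ β continuous_id continuous_const))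
      · exact (Kit.kit_cont' (Y.M μ) hkc (2 * a) continuous_const
          continuous_id).mul (k1_cont' μ hw ρ β continuous_id continuous_const)
      · show c * (kit (Y.M μ) (k1 Y ρ μ we β) (2 * a) u w * k1 Y ρ μ we β w u) ≤
          kit (Y.M μ) (k1 Y ρ μ we β) (2 * a) u w * k1 Y ρ μ we β w (cj P u)
        have h2 := mul_le_mul_of_nonneg_left (k1_near μ hw hc hβ ρ (hη P hP) w u)
          (Kit.kit_pos (Y.M μ) hkc hkp (2 * a) u w).le
        rw [← hcdef] at h2
        linarith
    have h3 : ∫ P, A.indicator (fun _ => c * kit (Y.M μ) (k1 Y ρ μ we β) t' u u) P ∂μ =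
        μ.real A * c * kit (Y.M μ) (k1 Y ρ μ we β) t' u u := by
      rw [integral_indicator_const _ hA, smul_eq_mul, mul_assoc]
    rw [← h3]
    refine integral_mono ((integrable_const _).indicator hA) (Kit.intble _ _ ?_) fun P => ?_
    · exact (hci t').comp (continuous_const.prodMk continuous_id)
    · show A.indicator (fun _ => c * kit (Y.M μ) (k1 Y ρ μ we β) t' u u) P ≤
        kit (Y.M μ) (k1 Y ρ μ we β) t' u (cj P u)
      by_cases hP : P ∈ A
      · rw [Set.indicator_of_mem hP]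
        exact h1 P hP
      · rw [Set.indicator_of_notMem hP]
        exact (Kit.kit_pos (Y.M μ) hkc hkp t' u (cj P u)).le

end

end Pool.Agent.N899.BB.Dia
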