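import Mathlib
import Pool.Agent.N899.BB.Stm

/-!
# BB-EST: the expectation of a plaquette at weak coupling
-/

open MeasureTheory Matrix
open scoped Matrix.Norms.Frobenius
open Pool.Agent.N899.SB Pool.Agent.Y14.Wilson

namespace Pool.Agent.N899.BB.Est

noncomputable section

section abs

variable {Ω : Type} [TopologicalSpace Ω] {E : (Ω → ℝ) → ℝ}

theorem mono (hE : Exq E) {F H : Ω → ℝ} (hF : Continuous F) (hH : Continuous H)
    (h : ∀ x, F x ≤ H x) : E F ≤ E H := by
  have h1 : E (fun x => F x + (H x - F x)) = E F + E (fun x => H x - F x) :=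
    hE.add F _ hF (hH.sub hF)
  have h2 : (fun x => F x + (H x - F x)) = H := by funext x; ring
  rw [h2] at h1
  have h3 := hE.nonneg (fun x => H x - F x) (fun x => sub_nonneg.2 (h x))
  linarith

theorem absle (hE : Exq E) {F H R : Ω → ℝ} (hF : Continuous F) (hH : Continuous H)
    (hR : Continuous R) (c : ℝ) (h : ∀ x, |F x - H x| ≤ c * R x) : |E F - E H| ≤ c * E R := by
  have e1 : E (fun x => H x + c * R x) = E H + c * E R := by
    have h := hE.add H (fun x => c * R x) hH (continuous_const.mul hR)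
    rw [h, hE.smul]
  have e2 : E (fun x => F x + c * R x) = E F + c * E R := by
    have h := hE.add F (fun x => c * R x) hF (continuous_const.mul hR)
    rw [h, hE.smul]
  have h1 : E F ≤ E (fun x => H x + c * R x) := mono hE hF (hH.add (continuous_const.mul hR))
    fun x => by have := (abs_le.1 (h x)).2; linarith
  have h2 : E H ≤ E (fun x => F x + c * R x) := mono hE hH (hF.add (continuous_const.mul hR))
    fun x => by have := (abs_le.1 (h x)).1; linarith
  rw [e1] at h1
  rw [e2] at h2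
  exact abs_le.2 ⟨by linarith, by linarith⟩

theorem zero (hE : Exq E) : E (fun _ => 0) = 0 := by
  have h := hE.smul 0 (fun _ => 0)
  simpa using h

theorem sum_lin (hE : Exq E) {ι : Type} (s : Finset ι) (c : ι → ℝ) (F : ι → Ω → ℝ)
    (hF : ∀ i, Continuous (F i)) :
    E (fun x => ∑ i ∈ s, c i * F i x) = ∑ i ∈ s, c i * E (F i) := by
  classical
  induction s using Finset.induction_on with
  | empty => simpa using zero hE
  | insert i s hi ih =>
    have h1 : (fun x => ∑ j ∈ insert i s, c j * F j x) =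
        fun x => c i * F i x + ∑ j ∈ s, c j * F j x := by
      funext x; rw [Finset.sum_insert hi]
    have h2 := hE.add (fun x => c i * F i x) (fun x => ∑ j ∈ s, c j * F j x)
      (continuous_const.mul (hF i))
      (continuous_finsetSum _ fun j _ => continuous_const.mul (hF j))
    rw [h1, h2, hE.smul, ih, Finset.sum_insert hi]

theorem sum_le {ι : Type} [Fintype ι] {X : ℝ} (hn : ((Fintype.card ι : ℕ) : ℝ) ≤ X) {f : ι → ℝ}
    {c : ℝ} (hc : 0 ≤ c) (h : ∀ i, |f i| ≤ c) : |∑ i, f i| ≤ X * c := by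
  calc |∑ i, f i| ≤ ∑ i, |f i| := Finset.abs_sum_le_sum_abs _ _
    _ ≤ ∑ _i : ι, c := Finset.sum_le_sum fun i _ => h i
    _ = (Fintype.card ι : ℝ) * c := by rw [Finset.sum_const, nsmul_eq_mul, Finset.card_univ]
    _ ≤ X * c := by gcongr

theorem inv_bd {ι : Type} [Fintype ι] [DecidableEq ι] {X : ℝ}
    (hn : ((Fintype.card ι : ℕ) : ℝ) ≤ X) (hX : 0 ≤ X) {H K : Matrix ι ι ℝ}
    (hKH : K * H = 1) (hK : ∀ i j, |K i j| ≤ X) {y z : ι → ℝ} {ε : ℝ} (hε : 0 ≤ ε)
    (h : ∀ i, |∑ p, H i p * y p - z i| ≤ ε) (q : ι) :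
    |y q - ∑ i, K q i * z i| ≤ X ^ 2 * ε := by
  have e1 : y q = ∑ i, K q i * ∑ p, H i p * y p := by
    have h1 : K.mulVec (H.mulVec y) = y := by
      rw [Matrix.mulVec_mulVec, hKH, Matrix.one_mulVec]
    exact (congrFun h1 q).symm
  have e2 : y q - ∑ i, K q i * z i = ∑ i, K q i * (∑ p, H i p * y p - z i) := by
    rw [e1, ← Finset.sum_sub_distrib]
    refine Finset.sum_congr rfl fun i _ => ?_
    ring
  rw [e2]
  have h1 : |∑ i, K q i * (∑ p, H i p * y p - z i)| ≤ X * (X * ε) :=
    sum_le hn (by positivity) fun i => by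
      rw [abs_mul]
      exact mul_le_mul (hK _ _) (h i) (abs_nonneg _) hX
  exact h1.trans (le_of_eq (by ring))

theorem core (hE : Exq E) {ι : Type} [Fintype ι] [DecidableEq ι] {n : ℕ} (H K : Matrix ι ι ℝ)
    (hKH : K * H = 1) (X : ℝ) (hX : 1 ≤ X) (hn : ((Fintype.card ι : ℕ) : ℝ) ≤ X)
    (hK : ∀ i j, |K i j| ≤ X) (A g : ι → Fin n → Ω → ℝ) (dA : ι → ι → Fin n → Ω → ℝ)
    (r w : Ω → ℝ) (hA : ∀ i a, Continuous (A i a)) (hg : ∀ i a, Continuous (g i a))
    (hd : ∀ i j a, Continuous (dA i j a)) (hr : Continuous r) (hw : Continuous w)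
    (C s β : ℝ) (hC : 1 ≤ C) (hβ : 0 ≤ β) (hs : 0 ≤ s) (hr0 : ∀ x, 0 ≤ r x)
    (h1 : ∀ i a x, |g i a x - ∑ j, H i j * A j a x| ≤ C * X * r x ^ 2)
    (h2 : ∀ i a x, |A i a x| ≤ r x)
    (h3 : ∀ i j a x, |dA i j a x - (if i = j then 1 else 0)| ≤ C * r x)
    (h4 : ∀ i j a, E (dA i j a) = β * E (fun x => A j a x * g i a x))
    (h5 : E r ≤ s) (h6 : E (fun x => r x ^ 3) ≤ s ^ 3)
    (D : ι → ℝ) (hD : ∑ i, |D i| ≤ 4)
    (h7 : ∀ x, |w x - 1 / 2 * ∑ a, (∑ i, D i * A i a x) ^ 2| ≤ C * r x ^ 3) :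
    |β * E w - n / 2 * ∑ i, ∑ j, D i * K i j * D j| ≤
      C * (β * s ^ 3) + 8 * n * X ^ 2 * (C * s + C * X * (β * s ^ 3)) := by
  have hr3 : Continuous fun x => r x ^ 3 := hr.pow 3
  have hC0 : 0 ≤ C := by linarith
  have hX0 : 0 ≤ X := by linarith
  obtain ⟨e1, he1⟩ : ∃ e1, e1 = C * s + C * X * (β * s ^ 3) := ⟨_, rfl⟩
  have he0 : 0 ≤ e1 := by rw [he1]; positivity
  -- the second moments
  obtain ⟨M, hM⟩ : ∃ M : ι → ι → Fin n → ℝ, ∀ i j a, M i j a = β * E (fun x => A i a x * A j a x) :=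
    ⟨_, fun _ _ _ => rfl⟩
  have hAA : ∀ i j a, Continuous fun x => A i a x * A j a x := fun i j a => (hA i a).mul (hA j a)
  have s1 : ∀ i j a, |∑ k, H i k * M k j a - (if i = j then 1 else 0)| ≤ e1 := by
    intro i j a
    have t1 : ∑ k, H i k * M k j a = β * E (fun x => ∑ k, H i k * (A k a x * A j a x)) := by
      rw [sum_lin hE _ _ _ fun k => hAA k j a, Finset.mul_sum]
      refine Finset.sum_congr rfl fun k _ => ?_
      rw [hM]; ring
    have t2 : |E (fun x => A j a x * g i a x) - E (fun x => ∑ k, H i k * (A k a x * A j a x))| ≤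
        C * X * E (fun x => r x ^ 3) := by
      refine absle hE (F := fun x => A j a x * g i a x)
        (H := fun x => ∑ k, H i k * (A k a x * A j a x)) (R := fun x => r x ^ 3)
        ((hA j a).mul (hg i a))
        (continuous_finsetSum _ fun k _ => continuous_const.mul (hAA k j a)) hr3 _ fun x => ?_
      have u1 : A j a x * g i a x - ∑ k, H i k * (A k a x * A j a x) =
          A j a x * (g i a x - ∑ k, H i k * A k a x) := by
        rw [mul_sub, Finset.mul_sum]
        congr 1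
        refine Finset.sum_congr rfl fun k _ => ?_
        ring
      rw [u1, abs_mul]
      calc |A j a x| * |g i a x - ∑ k, H i k * A k a x| ≤ r x * (C * X * r x ^ 2) :=
            mul_le_mul (h2 _ _ _) (h1 _ _ _) (abs_nonneg _) (hr0 x)
        _ = C * X * r x ^ 3 := by ring
    have t3 : |E (dA i j a) - (if i = j then 1 else 0)| ≤ C * E r := by
      have u1 : E (fun _ => (if i = j then (1 : ℝ) else 0)) = (if i = j then 1 else 0) := by
        have := hE.smul (if i = j then (1 : ℝ) else 0) (fun _ => 1)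
        rw [hE.one, mul_one] at this
        simpa using this
      have u2 := absle hE (F := dA i j a) (H := fun _ => (if i = j then (1 : ℝ) else 0)) (R := r)
        (hd i j a) continuous_const hr C fun x => h3 i j a x
      rwa [u1] at u2
    rw [h4] at t3
    have t4 : |β * E (fun x => A j a x * g i a x) - ∑ k, H i k * M k j a| ≤
        C * X * (β * s ^ 3) := by
      rw [t1, ← mul_sub, abs_mul, abs_of_nonneg hβ]
      calc β * |E (fun x => A j a x * g i a x) - E (fun x => ∑ k, H i k * (A k a x * A j a x))|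
          ≤ β * (C * X * s ^ 3) := by
            refine mul_le_mul_of_nonneg_left (t2.trans ?_) hβ
            exact mul_le_mul_of_nonneg_left h6 (by positivity)
        _ = C * X * (β * s ^ 3) := by ring
    have t5 : C * E r ≤ C * s := mul_le_mul_of_nonneg_left h5 hC0
    rw [abs_le] at t3 t4 ⊢
    rw [he1]
    constructor <;> linarith [t3.1, t3.2, t4.1, t4.2]
  have s2 : ∀ i j a, |M i j a - K i j| ≤ X ^ 2 * e1 := by
    intro i j a
    have t := inv_bd hn hX0 hKH hK (y := fun k => M k j a) (z := fun k => if k = j then (1 : ℝ) else 0)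
      he0 (fun i => s1 i j a) i
    simpa using t
  -- the plaquette
  have s3 : E (fun x => 1 / 2 * ∑ a, (∑ i, D i * A i a x) ^ 2) =
      1 / 2 * ∑ a, ∑ i, D i * ∑ j, D j * E (fun x => A i a x * A j a x) := by
    rw [hE.smul]
    congr 1
    have u1 : (fun x => ∑ a, (∑ i, D i * A i a x) ^ 2) =
        fun x => ∑ a, 1 * (fun a x => ∑ i, D i * (∑ j, D j * (A i a x * A j a x))) a x := by
      funext x
      refine Finset.sum_congr rfl fun a _ => ?_
      rw [pow_two, Finset.sum_mul, one_mul]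
      refine Finset.sum_congr rfl fun i _ => ?_
      rw [Finset.mul_sum, Finset.mul_sum]
      refine Finset.sum_congr rfl fun j _ => ?_
      ring
    rw [u1, sum_lin hE Finset.univ (fun _ => 1)
      (fun a x => ∑ i, D i * (∑ j, D j * (A i a x * A j a x))) fun a =>
        continuous_finsetSum _ fun i _ => continuous_const.mul
          (continuous_finsetSum _ fun j _ => continuous_const.mul (hAA i j a))]
    refine Finset.sum_congr rfl fun a _ => ?_
    rw [one_mul, sum_lin hE Finset.univ D (fun i x => ∑ j, D j * (A i a x * A j a x)) fun i =>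
      continuous_finsetSum _ fun j _ => continuous_const.mul (hAA i j a)]
    refine Finset.sum_congr rfl fun i _ => ?_
    rw [sum_lin hE Finset.univ D (fun j x => A i a x * A j a x) fun j => hAA i j a]
  have hq : Continuous fun x => 1 / 2 * ∑ a, (∑ i, D i * A i a x) ^ 2 :=
    continuous_const.mul (continuous_finsetSum _ fun a _ =>
      (continuous_finsetSum _ fun i _ => continuous_const.mul (hA i a)).pow 2)
  have s4 := absle hE (F := w) (H := fun x => 1 / 2 * ∑ a, (∑ i, D i * A i a x) ^ 2)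
    (R := fun x => r x ^ 3) hw hq hr3 C h7
  have s5 : |β * E w - β * E (fun x => 1 / 2 * ∑ a, (∑ i, D i * A i a x) ^ 2)| ≤
      C * (β * s ^ 3) := by
    rw [← mul_sub, abs_mul, abs_of_nonneg hβ]
    calc β * |E w - E (fun x => 1 / 2 * ∑ a, (∑ i, D i * A i a x) ^ 2)| ≤ β * (C * s ^ 3) := by
          refine mul_le_mul_of_nonneg_left (s4.trans ?_) hβ
          exact mul_le_mul_of_nonneg_left h6 hC0
      _ = C * (β * s ^ 3) := by ring
  have s6 : β * E (fun x => 1 / 2 * ∑ a, (∑ i, D i * A i a x) ^ 2) =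
      1 / 2 * ∑ a, ∑ i, ∑ j, D i * D j * M i j a := by
    rw [s3]
    have : β * (1 / 2 * ∑ a, ∑ i, D i * ∑ j, D j * E (fun x => A i a x * A j a x)) =
        1 / 2 * (β * ∑ a, ∑ i, D i * ∑ j, D j * E (fun x => A i a x * A j a x)) := by ring
    rw [this, Finset.mul_sum]
    congr 1
    refine Finset.sum_congr rfl fun a _ => ?_
    rw [Finset.mul_sum]
    refine Finset.sum_congr rfl fun i _ => ?_
    rw [Finset.mul_sum, Finset.mul_sum]
    refine Finset.sum_congr rfl fun j _ => ?_
    rw [hM]; ring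
  have s7 : (n : ℝ) / 2 * ∑ i, ∑ j, D i * K i j * D j =
      1 / 2 * ∑ _a : Fin n, ∑ i, ∑ j, D i * D j * K i j := by
    rw [Finset.sum_const, Finset.card_univ, Fintype.card_fin, nsmul_eq_mul]
    have : ∑ i, ∑ j, D i * K i j * D j = ∑ i, ∑ j, D i * D j * K i j :=
      Finset.sum_congr rfl fun i _ => Finset.sum_congr rfl fun j _ => by ring
    rw [this]; ring
  have s8 : |1 / 2 * ∑ a, ∑ i, ∑ j, D i * D j * M i j a -
      1 / 2 * ∑ _a : Fin n, ∑ i, ∑ j, D i * D j * K i j| ≤ 8 * n * X ^ 2 * e1 := by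
    rw [← mul_sub, ← Finset.sum_sub_distrib, abs_mul, abs_of_nonneg (by norm_num : (0 : ℝ) ≤ 1 / 2)]
    have u1 : ∀ a : Fin n, |∑ i, ∑ j, D i * D j * M i j a - ∑ i, ∑ j, D i * D j * K i j| ≤
        16 * (X ^ 2 * e1) := by
      intro a
      rw [← Finset.sum_sub_distrib]
      calc |∑ i, (∑ j, D i * D j * M i j a - ∑ j, D i * D j * K i j)|
          ≤ ∑ i, |∑ j, D i * D j * M i j a - ∑ j, D i * D j * K i j| :=
            Finset.abs_sum_le_sum_abs _ _
        _ ≤ ∑ i, ∑ j, |D i| * |D j| * (X ^ 2 * e1) := by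
            refine Finset.sum_le_sum fun i _ => ?_
            rw [← Finset.sum_sub_distrib]
            refine (Finset.abs_sum_le_sum_abs _ _).trans (Finset.sum_le_sum fun j _ => ?_)
            rw [← mul_sub, abs_mul, abs_mul]
            exact mul_le_mul_of_nonneg_left (s2 i j a) (by positivity)
        _ = (∑ i, |D i|) * (∑ j, |D j|) * (X ^ 2 * e1) := by
            rw [Finset.sum_mul_sum, Finset.sum_mul]
            refine Finset.sum_congr rfl fun i _ => ?_
            rw [Finset.sum_mul]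
        _ ≤ 4 * 4 * (X ^ 2 * e1) := by
            have v0 : 0 ≤ ∑ i, |D i| := Finset.sum_nonneg fun i _ => abs_nonneg _
            refine mul_le_mul_of_nonneg_right ?_ (by positivity)
            exact mul_le_mul hD hD v0 (by norm_num)
        _ = 16 * (X ^ 2 * e1) := by ring
    have u2 := sum_le (ι := Fin n) (X := n) (by simp) (by positivity) u1
    calc 1 / 2 * |∑ a : Fin n, (∑ i, ∑ j, D i * D j * M i j a - ∑ i, ∑ j, D i * D j * K i j)|
        ≤ 1 / 2 * (n * (16 * (X ^ 2 * e1))) := by linarith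
      _ = 8 * n * X ^ 2 * e1 := by ring
  rw [s7, ← he1]
  rw [s6] at s5
  rw [abs_le] at s5 s8 ⊢
  constructor <;> linarith [s5.1, s5.2, s8.1, s8.2]

end abs

section conc

variable {N n : ℕ} {G : Subgroup (UU N)}

lemma compactU (N : ℕ) : CompactSpace (UU N) := by
  apply (isCompact_iff_compactSpace (s := (Matrix.unitaryGroup (Fin N) ℂ :
    Set (Matrix (Fin N) (Fin N) ℂ)))).mp
  have hsub : (Matrix.unitaryGroup (Fin N) ℂ : Set (Matrix (Fin N) (Fin N) ℂ))
      ⊆ Set.pi Set.univ (fun _ => Set.pi Set.univ (fun _ => Metric.closedBall (0 : ℂ) 1)) := by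
    intro A hA i _ j _
    rw [mem_closedBall_zero_iff]
    exact entry_norm_bound_of_unitary hA i j
  have hcomp : IsCompact (Set.pi Set.univ (fun _ : Fin N => Set.pi Set.univ
      (fun _ : Fin N => Metric.closedBall (0 : ℂ) 1))) :=
    isCompact_univ_pi fun _ => isCompact_univ_pi fun _ => isCompact_closedBall 0 1
  refine hcomp.of_isClosed_subset ?_ hsub
  have : (Matrix.unitaryGroup (Fin N) ℂ : Set (Matrix (Fin N) (Fin N) ℂ))
      = {A | A * star A = 1} := by
    ext A
    exact Matrix.mem_unitaryGroup_iff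
  rw [this]
  have hc : Continuous (fun A : Matrix (Fin N) (Fin N) ℂ => A * star A) :=
    continuous_id.mul continuous_star
  exact isClosed_eq hc continuous_const

lemma compactG (hG : IsClosed (G : Set (UU N))) : CompactSpace G := by
  have := compactU N
  exact isCompact_iff_compactSpace.1 (IsClosed.isCompact (X := UU N) hG)

lemma scG : SecondCountableTopology G := by
  have h0 : SecondCountableTopology (Mt N) :=
    inferInstanceAs (SecondCountableTopology (Fin N → Fin N → ℂ))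
  have h00 : SecondCountableTopology (UU N) := TopologicalSpace.Subtype.secondCountableTopology _
  exact TopologicalSpace.Subtype.secondCountableTopology _

lemma mt_cont : Continuous (mt : G → Mt N) := continuous_subtype_val.comp continuous_subtype_val

lemma ev_cont {L : Type} (o : Option L) : Continuous fun U : L → G => ev U o := by
  cases o with
  | none => exact continuous_const
  | some w => exact continuous_apply w

lemma plq_cont (Q : Sys) (p : Q.P) : Continuous fun U : Q.L → G => Q.plq U p :=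
  (((ev_cont _).mul (ev_cont _)).mul (ev_cont _).inv).mul (ev_cont _).inv

lemma we_cont : Continuous (we : G → ℝ) :=
  Complex.continuous_re.comp (Continuous.matrix_trace (continuous_const.sub mt_cont))

lemma S_cont (Q : Sys) (c : Q.P → ℝ) : Continuous (Q.S we c : (Q.L → G) → ℝ) :=
  continuous_finsetSum _ fun p _ => continuous_const.mul (we_cont.comp (plq_cont Q p))

lemma r_cont (Q : Sys) : Continuous (Q.r : (Q.L → G) → ℝ) :=
  continuous_finsetSum _ fun w _ => ((mt_cont.comp (continuous_apply w)).sub continuous_const).norm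

variable [MeasurableSpace G] [BorelSpace G] (μ : Measure G) [IsProbabilityMeasure μ]

theorem exq (hG : IsClosed (G : Set (UU N))) (Q : Sys) (c : Q.P → ℝ) (β : ℝ) :
    Exq (Q.EX μ (we (G := G)) c β) := by
  have := compactG hG
  have : SecondCountableTopology G := scG
  have hS : Continuous fun U : Q.L → G => Real.exp (-(β * Q.S we c U)) :=
    Real.continuous_exp.comp (continuous_const.mul (S_cont Q c)).neg
  have hint : ∀ F : (Q.L → G) → ℝ, Continuous F →
      Integrable F (Measure.pi fun _ : Q.L => μ) := fun F hF =>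
    hF.integrable_of_hasCompactSupport (HasCompactSupport.of_compactSpace _)
  have hZ : 0 < Q.Z μ (we (G := G)) c β := by
    unfold Sys.Z
    exact integral_exp_pos (hint _ hS)
  refine ⟨?_, ?_, ?_, ?_⟩
  · intro F H hF hH
    unfold Sys.EX
    rw [← add_div]
    congr 1
    have h1 := integral_add (hint (fun U => F U * Real.exp (-(β * Q.S we c U))) (hF.mul hS))
      (hint (fun U => H U * Real.exp (-(β * Q.S we c U))) (hH.mul hS))
    rw [← h1]
    refine integral_congr_ae (ae_of_all _ fun U => ?_)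
    change (F U + H U) * _ = F U * _ + H U * _
    ring
  · intro c' F
    unfold Sys.EX
    rw [← mul_div_assoc, ← integral_const_mul]
    congr 1
    refine integral_congr_ae (ae_of_all _ fun U => ?_)
    change (c' * F U) * _ = c' * (F U * _)
    ring
  · intro F hF
    unfold Sys.EX
    exact div_nonneg (integral_nonneg fun U => mul_nonneg (hF U) (Real.exp_pos _).le) hZ.le
  · unfold Sys.EX
    rw [div_eq_one_iff_eq hZ.ne']
    unfold Sys.Z
    simp only [one_mul]

omit [MeasurableSpace G] [BorelSpace G] in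
lemma sum_ite_le {L : Type} [Fintype L] [DecidableEq L] (o : Option L) :
    ∑ w : L, (if o = some w then (1 : ℝ) else 0) ≤ 1 := by
  cases o with
  | none => simp
  | some v => simp

lemma D_sum (Q : Sys) (p : Q.P) : ∑ w, |Q.D p w| ≤ 4 := by
  have h : ∀ w, |Q.D p w| ≤ (if Q.wd p 0 = some w then 1 else 0) +
      (if Q.wd p 1 = some w then 1 else 0) + (if Q.wd p 2 = some w then 1 else 0) +
      (if Q.wd p 3 = some w then 1 else 0) := by
    intro w
    unfold Sys.D
    have h0 : (0 : ℝ) ≤ (if Q.wd p 0 = some w then 1 else 0) := by split_ifs <;> norm_num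
    have h1 : (0 : ℝ) ≤ (if Q.wd p 1 = some w then 1 else 0) := by split_ifs <;> norm_num
    have h2 : (0 : ℝ) ≤ (if Q.wd p 2 = some w then 1 else 0) := by split_ifs <;> norm_num
    have h3 : (0 : ℝ) ≤ (if Q.wd p 3 = some w then 1 else 0) := by split_ifs <;> norm_num
    rw [abs_le]
    constructor <;> linarith
  refine (Finset.sum_le_sum fun w _ => h w).trans ?_
  rw [Finset.sum_add_distrib, Finset.sum_add_distrib, Finset.sum_add_distrib]
  have h0 := sum_ite_le (Q.wd p 0)
  have h1 := sum_ite_le (Q.wd p 1)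
  have h2 := sum_ite_le (Q.wd p 2)
  have h3 := sum_ite_le (Q.wd p 3)
  linarith

end conc

/-- the arithmetic -/
theorem arith (C : ℝ) (hC : 1 ≤ C) (m : ℕ) (hm : 1 ≤ m) (β : ℝ) (hβ : 3 ≤ β) (n : ℕ) (s : ℝ)
    (hs : s = Real.sqrt (C * (m : ℝ) ^ 6 * Real.log β / β)) :
    C * (β * s ^ 3) + 8 * n * (m : ℝ) ^ 2 * (C * s + C * m * (β * s ^ 3)) ≤
      ((1 + 16 * n) * C ^ 3) * ((m : ℝ) * Real.log β) ^ 12 / Real.sqrt β := by
  have hL : 1 ≤ Real.log β := by
    rw [Real.le_log_iff_exp_le (by linarith)]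
    have := Real.exp_one_lt_d9
    linarith
  obtain ⟨L, hLd⟩ : ∃ L, L = Real.log β := ⟨_, rfl⟩
  rw [← hLd] at hL hs ⊢
  have hm' : (1 : ℝ) ≤ m := by exact_mod_cast hm
  obtain ⟨x, hx⟩ : ∃ x : ℝ, x = m := ⟨_, rfl⟩
  rw [← hx] at hm' hs ⊢
  have hβ0 : 0 < β := by linarith
  obtain ⟨q, hq⟩ : ∃ q, q = Real.sqrt β := ⟨_, rfl⟩
  have hq0 : 0 < q := by rw [hq]; exact Real.sqrt_pos.2 hβ0
  have hq2 : q ^ 2 = β := by rw [hq]; exact Real.sq_sqrt hβ0.le
  rw [← hq]
  have hn : (0 : ℝ) ≤ n := by positivity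
  have hs0 : 0 ≤ s := by rw [hs]; exact Real.sqrt_nonneg _
  have hs2 : s ^ 2 = C * x ^ 6 * L / β := by rw [hs]; exact Real.sq_sqrt (by positivity)
  have h1 : s ≤ C * x ^ 3 * L / q := by
    refine abs_le_of_sq_le_sq' (a := s) (b := C * x ^ 3 * L / q) ?_ (by positivity) |>.2
    rw [hs2, div_pow, hq2]
    refine div_le_div_of_nonneg_right ?_ hβ0.le
    have e : (C * x ^ 3 * L) ^ 2 = (C * x ^ 6 * L) * (C * L) := by ring
    rw [e]
    refine le_mul_of_one_le_right (by positivity) ?_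
    nlinarith
  have h2 : β * s ^ 3 ≤ C ^ 2 * x ^ 9 * L ^ 2 / q := by
    have e : β * s ^ 3 = (C * x ^ 6 * L) * s := by
      rw [pow_succ s 2, hs2]; field_simp
    rw [e]
    calc (C * x ^ 6 * L) * s ≤ (C * x ^ 6 * L) * (C * x ^ 3 * L / q) :=
          mul_le_mul_of_nonneg_left h1 (by positivity)
      _ = C ^ 2 * x ^ 9 * L ^ 2 / q := by ring
  have hx0 : 0 ≤ x := by linarith
  have hL0 : 0 ≤ L := by linarith
  have hC0 : 0 ≤ C := by linarith
  have k1 : x ^ 9 * L ^ 2 ≤ (x * L) ^ 12 := by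
    rw [mul_pow]
    exact mul_le_mul (pow_le_pow_right₀ hm' (by norm_num)) (pow_le_pow_right₀ hL (by norm_num))
      (by positivity) (by positivity)
  have k2 : x ^ 5 * L ≤ (x * L) ^ 12 := by
    rw [mul_pow]
    refine mul_le_mul (pow_le_pow_right₀ hm' (by norm_num)) ?_ (by positivity) (by positivity)
    exact le_self_pow₀ hL (by norm_num)
  have k3 : x ^ 12 * L ^ 2 ≤ (x * L) ^ 12 := by
    rw [mul_pow]
    exact mul_le_mul le_rfl (pow_le_pow_right₀ hL (by norm_num)) (by positivity) (by positivity)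
  have hC23 : C ^ 2 ≤ C ^ 3 := pow_le_pow_right₀ hC (by norm_num)
  calc C * (β * s ^ 3) + 8 * n * x ^ 2 * (C * s + C * x * (β * s ^ 3))
      ≤ C * (C ^ 2 * x ^ 9 * L ^ 2 / q) +
        8 * n * x ^ 2 * (C * (C * x ^ 3 * L / q) + C * x * (C ^ 2 * x ^ 9 * L ^ 2 / q)) := by
        gcongr
    _ = (C ^ 3 * (x ^ 9 * L ^ 2) + 8 * n * (C ^ 2 * (x ^ 5 * L) + C ^ 3 * (x ^ 12 * L ^ 2))) / q := by
        field_simp
    _ ≤ (C ^ 3 * (x * L) ^ 12 + 8 * n * (C ^ 3 * (x * L) ^ 12 + C ^ 3 * (x * L) ^ 12)) / q := by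
        gcongr
    _ = ((1 + 16 * n) * C ^ 3) * (x * L) ^ 12 / q := by ring

theorem t_EST : S_MOM → S_TAY → S_IBP → S_HINV → S_EST := by
  intro hmom htay hibp hhinv N n G hG _ _ μ _ _ B
  obtain ⟨C1, hC1, H1⟩ := hmom G hG μ
  obtain ⟨C2, hC2, H2⟩ := htay G hG B
  obtain ⟨C, hCd⟩ : ∃ C, C = max C1 C2 := ⟨_, rfl⟩
  have hC : 1 ≤ C := by rw [hCd]; exact le_max_of_le_left hC1
  have hCC1 : C1 ≤ C := by rw [hCd]; exact le_max_left _ _
  have hCC2 : C2 ≤ C := by rw [hCd]; exact le_max_right _ _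
  have hn0 : (0 : ℝ) ≤ n := by positivity
  refine ⟨(1 + 16 * n) * C ^ 3, 12, ?_, by norm_num, ?_⟩
  · exact one_le_mul_of_one_le_of_one_le (by linarith) (one_le_pow₀ hC)
  intro Q m hm hL hP x hx0 hx1 β hβ p
  have hm' : (1 : ℝ) ≤ m := by exact_mod_cast hm
  have hlog : 0 ≤ Real.log β := Real.log_nonneg (by linarith)
  obtain ⟨s, hs⟩ : ∃ s, s = Real.sqrt (C * (m : ℝ) ^ 6 * Real.log β / β) := ⟨_, rfl⟩
  have hs0 : 0 ≤ s := by rw [hs]; exact Real.sqrt_nonneg _
  have hss : Real.sqrt (C1 * (m : ℝ) ^ 6 * Real.log β / β) ≤ s := by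
    rw [hs]
    refine Real.sqrt_le_sqrt ?_
    gcongr
  have hE := exq μ hG Q (Q.cp x) β
  obtain ⟨hpd, hKb⟩ := (hhinv Q).2 x hx0 hx1
  obtain ⟨t1, t2, t3, t4⟩ : _ ∧ _ ∧ _ ∧ _ := by
    have := H2 Q m hm hL hP x hx0 hx1
    exact ⟨fun U => (this U).1, fun U => (this U).2.1, fun U => (this U).2.2.1,
      fun U => (this U).2.2.2⟩
  have hdet : IsUnit (Q.H (Q.cp x)).det := isUnit_iff_ne_zero.2 hpd.det_pos.ne'
  have hr0 : ∀ U : Q.L → G, 0 ≤ Q.r U := fun U => Finset.sum_nonneg fun w _ => norm_nonneg _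
  have hLm : ((Fintype.card Q.L : ℕ) : ℝ) ≤ m := by exact_mod_cast hL
  have hr1 : Q.EX μ we (Q.cp x) β (fun U : Q.L → G => Q.r U) ≤ s := by
    have h := H1 Q m hm hL hP x hx0 hx1 β hβ 1 (by norm_num)
    simp only [pow_one] at h
    exact h.trans hss
  have hr3 : Q.EX μ we (Q.cp x) β (fun U : Q.L → G => Q.r U ^ 3) ≤ s ^ 3 := by
    have h := H1 Q m hm hL hP x hx0 hx1 β hβ 3 (by norm_num)
    exact h.trans (pow_le_pow_left₀ (Real.sqrt_nonneg _) hss 3)
  have key := core hE (Q.H (Q.cp x)) (Q.H (Q.cp x))⁻¹ (Matrix.nonsing_inv_mul _ hdet) m hm' hLm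
    (fun i j => (hKb i j).trans hLm) (fun w a U => crd B (U w) a)
    (fun w a => dl B w a (Q.S we (Q.cp x)))
    (fun w w' a => dl B w a (fun U : Q.L → G => crd B (U w') a)) Q.r
    (fun U => we (Q.plq U p))
    (fun w a => (hibp G hG μ B Q (Q.cp x) β w a w a).2.2.2)
    (fun w a => (hibp G hG μ B Q (Q.cp x) β w a w a).2.2.1)
    (fun w w' a => (hibp G hG μ B Q (Q.cp x) β w a w' a).2.1)
    (r_cont Q) (we_cont.comp (plq_cont Q p)) C s β hC (by linarith) hs0 hr0
    (fun w a U => (t1 U w a).trans (by have := hr0 U; gcongr))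
    (fun w a U => t2 U w a)
    (fun w w' a U => by
      have h := t3 U w a w' a
      simp only [and_true] at h
      exact h.trans (by have := hr0 U; gcongr))
    (fun w w' a => (hibp G hG μ B Q (Q.cp x) β w a w' a).1)
    hr1 hr3 (fun w => Q.D p w) (D_sum Q p)
    (fun U => (t4 U p).trans (by have := hr0 U; gcongr))
  exact key.trans (arith C hC m hm β hβ n s hs)

end

end Pool.Agent.N899.BB.Est
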