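import Mathlib
import Pool.Agent.N899.BB.Stm

/-!
# The asymptotics of the partition function by interpolation (S_GAUSS), by helper674
-/

open MeasureTheory Matrix Filter Topology
open scoped Matrix.Norms.Frobenius
open Pool.Agent.N899.SB Pool.Agent.Y14.Wilson

namespace Pool.Agent.N899.BB.Gauss

noncomputable section

/-! ### Derivatives of partition functions -/

section abs

variable {Ω : Type*} [TopologicalSpace Ω] [CompactSpace Ω] [MeasurableSpace Ω]
  [OpensMeasurableSpace Ω] (P : Measure Ω) [IsProbabilityMeasure P]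

theorem int_of_cont {f : Ω → ℝ} (hf : Continuous f) : Integrable f P :=
  hf.integrable_of_hasCompactSupport (HasCompactSupport.of_compactSpace _)

theorem deriv_int {F F' : ℝ → Ω → ℝ} (hF : Continuous fun p : ℝ × Ω => F p.1 p.2)
    (hF' : Continuous fun p : ℝ × Ω => F' p.1 p.2)
    (h : ∀ ε ω, HasDerivAt (fun ε => F ε ω) (F' ε ω) ε) (ε₀ : ℝ) :
    HasDerivAt (fun ε => ∫ ω, F ε ω ∂P) (∫ ω, F' ε₀ ω ∂P) ε₀ := by
  have hc : ∀ ε, Continuous (F ε) := fun ε => hF.comp (Continuous.prodMk_right ε)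
  have hc' : ∀ ε, Continuous (F' ε) := fun ε => hF'.comp (Continuous.prodMk_right ε)
  obtain ⟨C, hC⟩ := ((isCompact_closedBall ε₀ (1 : ℝ)).prod
    (isCompact_univ (X := Ω))).exists_bound_of_continuousOn hF'.continuousOn
  refine (hasDerivAt_integral_of_dominated_loc_of_deriv_le
    (s := Metric.ball ε₀ 1) (bound := fun _ => C) (Metric.ball_mem_nhds ε₀ one_pos)
    (Filter.Eventually.of_forall fun ε => (hc ε).aestronglyMeasurable)
    (int_of_cont P (hc ε₀)) (hc' ε₀).aestronglyMeasurable
    (Filter.Eventually.of_forall fun ω ε hε => hC (ε, ω) ⟨Metric.ball_subset_closedBall hε,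
      Set.mem_univ _⟩) (integrable_const _)
    (Filter.Eventually.of_forall fun ω ε _ => h ε ω)).2

theorem log_deriv {A B : Ω → ℝ} (hA : Continuous A) (hB : Continuous B) (β x : ℝ) :
    0 < ∫ ω, Real.exp (-(β * (A ω + x * B ω))) ∂P ∧
    HasDerivAt (fun x => Real.log (∫ ω, Real.exp (-(β * (A ω + x * B ω))) ∂P))
      (-(β * ((∫ ω, B ω * Real.exp (-(β * (A ω + x * B ω))) ∂P) /
        ∫ ω, Real.exp (-(β * (A ω + x * B ω))) ∂P))) x := by
  have hc : Continuous fun ω => Real.exp (-(β * (A ω + x * B ω))) := by fun_prop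
  have hpos : 0 < ∫ ω, Real.exp (-(β * (A ω + x * B ω))) ∂P :=
    integral_exp_pos (int_of_cont P hc)
  refine ⟨hpos, ?_⟩
  have h1 := deriv_int P (F := fun x ω => Real.exp (-(β * (A ω + x * B ω))))
    (F' := fun x ω => -(β * (B ω * Real.exp (-(β * (A ω + x * B ω)))))) (by fun_prop)
    (by fun_prop) (fun ε ω => by
      have k1 : HasDerivAt (fun ε => -(β * (A ω + ε * B ω))) (-(β * (1 * B ω))) ε :=
        ((((hasDerivAt_id' ε).mul_const (B ω)).const_add (A ω)).const_mul β).neg
      exact k1.exp.congr_deriv (by ring)) x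
  have h2 := h1.log hpos.ne'
  refine h2.congr_deriv ?_
  rw [integral_neg, integral_const_mul]
  ring

end abs

/-! ### Derivatives of determinants -/

theorem det_deriv {J : Type*} [Fintype J] [DecidableEq J] (H0 H1 : Matrix J J ℝ) (x : ℝ)
    (hx : (H0 + x • H1).det ≠ 0) :
    HasDerivAt (fun y : ℝ => (H0 + y • H1).det)
      ((H0 + x • H1).det * trace ((H0 + x • H1)⁻¹ * H1)) x := by
  obtain ⟨M, hM⟩ : ∃ M, M = (H0 + x • H1)⁻¹ * H1 := ⟨_, rfl⟩
  have hu : IsUnit (H0 + x • H1).det := isUnit_iff_ne_zero.2 hx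
  have e1 : ∀ y : ℝ, H0 + y • H1 = (H0 + x • H1) * (1 + (y - x) • M) := by
    intro y
    rw [hM, mul_add, mul_one, mul_smul_comm, ← mul_assoc, Matrix.mul_nonsing_inv _ hu, one_mul,
      sub_smul]
    abel
  have e2 : (fun y : ℝ => (H0 + y • H1).det) =
      fun y : ℝ => (H0 + x • H1).det * (1 + (y - x) • M).det := by
    funext y
    rw [e1 y, det_mul]
  rw [e2, ← hM]
  obtain ⟨q, hq⟩ : ∃ q : Polynomial ℝ, ∀ r : ℝ, (1 + r • M).det = 1 + trace M * r +
      q.eval r * r ^ 2 := ⟨_, fun r => Matrix.det_one_add_smul r M⟩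
  have e3 : (fun y : ℝ => (H0 + x • H1).det * (1 + (y - x) • M).det) =
      fun y : ℝ => (H0 + x • H1).det * (1 + trace M * (y - x) +
        q.eval (y - x) * (y - x) ^ 2) := by
    funext y
    rw [hq]
  rw [e3]
  have h1 : HasDerivAt (fun y : ℝ => y - x) 1 x := (hasDerivAt_id' x).sub_const x
  have h2 : HasDerivAt (fun y : ℝ => q.eval (y - x)) ((q.derivative.eval (x - x)) * 1) x :=
    HasDerivAt.comp (h := fun y : ℝ => y - x) x (q.hasDerivAt (x - x)) h1
  have h3 := ((((h1.const_mul (trace M)).const_add 1).add (h2.mul (h1.pow 2))).const_mul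
    (H0 + x • H1).det)
  refine h3.congr_deriv ?_
  simp

/-! ### The interpolation -/

/-- one for the basic plaquettes -/
def cb (Q : Sys) : Q.P → ℝ := fun p => if ∃ w, Q.bp w = p then 1 else 0

/-- one for the other plaquettes -/
def cn (Q : Sys) : Q.P → ℝ := fun p => if ∃ w, Q.bp w = p then 0 else 1

theorem cp_eq (Q : Sys) (x : ℝ) (p : Q.P) : Q.cp x p = cb Q p + x * cn Q p := by
  unfold Sys.cp cb cn
  by_cases h : ∃ w, Q.bp w = p
  · rw [if_pos h, if_pos h, if_pos h]; ring
  · rw [if_neg h, if_neg h, if_neg h]; ring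

theorem cn_abs (Q : Sys) (p : Q.P) : |cn Q p| ≤ 1 := by
  unfold cn
  split_ifs <;> simp

theorem S_eq {G : Type} [Group G] (Q : Sys) (we : G → ℝ) (x : ℝ) (U : Q.L → G) :
    Q.S we (Q.cp x) U = Q.S we (cb Q) U + x * Q.S we (cn Q) U := by
  unfold Sys.S
  rw [Finset.mul_sum, ← Finset.sum_add_distrib]
  refine Finset.sum_congr rfl fun p _ => ?_
  rw [cp_eq]
  ring

theorem H_eq (Q : Sys) (x : ℝ) : Q.H (Q.cp x) = Q.H (cb Q) + x • Q.H (cn Q) := by
  ext w w'
  simp only [Sys.H, Matrix.add_apply, Matrix.smul_apply, smul_eq_mul]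
  rw [Finset.mul_sum, ← Finset.sum_add_distrib]
  refine Finset.sum_congr rfl fun p _ => ?_
  rw [cp_eq]
  ring

theorem tr_eq (Q : Sys) (M : Matrix Q.L Q.L ℝ) : trace (M * Q.H (cn Q)) =
    ∑ p, cn Q p * ∑ w, ∑ w', Q.D p w * M w w' * Q.D p w' := by
  simp only [Matrix.trace, Matrix.diag, Matrix.mul_apply, Sys.H, Finset.mul_sum]
  rw [Finset.sum_congr rfl fun w _ => Finset.sum_comm, Finset.sum_comm]
  refine Finset.sum_congr rfl fun p _ => Finset.sum_congr rfl fun w _ =>
    Finset.sum_congr rfl fun w' _ => ?_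
  ring

theorem cp_one (Q : Sys) : Q.cp 1 = fun _ => 1 := by
  funext p
  unfold Sys.cp
  split_ifs <;> rfl

/-! ### The group -/

section grp

variable {N : ℕ} {G : Subgroup (UU N)}

theorem sc_Mt (N : ℕ) : SecondCountableTopology (Mt N) :=
  inferInstanceAs (SecondCountableTopology (Fin N → Fin N → ℂ))

theorem compact_UU (N : ℕ) : CompactSpace (UU N) := by
  have h1 : IsCompact (Set.pi Set.univ fun _ : Fin N => Set.pi Set.univ fun _ : Fin N =>
      Metric.closedBall (0 : ℂ) 1) :=
    isCompact_univ_pi fun _ => isCompact_univ_pi fun _ => isCompact_closedBall _ _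
  have h3 : IsCompact (UU N : Set (Mt N)) := by
    refine IsCompact.of_isClosed_subset h1 ?_ ?_
    · have h2 : (UU N : Set (Mt N)) = {A | A * star A = 1} := by
        ext A
        exact Matrix.mem_unitaryGroup_iff
      rw [h2]
      exact isClosed_eq (continuous_id.mul continuous_star) continuous_const
    · intro A hA i _ j _
      rw [mem_closedBall_zero_iff]
      exact entry_norm_bound_of_unitary hA i j
  exact isCompact_iff_compactSpace.1 h3

theorem mt_cont : Continuous (mt : G → Mt N) := continuous_subtype_val.comp continuous_subtype_val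

theorem we_cont : Continuous (we : G → ℝ) := by
  have h1 : Continuous fun g : G => trace (1 - mt g) :=
    Continuous.matrix_trace (continuous_const.sub mt_cont)
  exact Complex.continuous_re.comp h1

theorem we_inv (g : G) : we g⁻¹ = we g := by
  have h1 : mt g⁻¹ = (mt g)ᴴ := rfl
  have h2 : (1 - mt g⁻¹ : Mt N) = (1 - mt g)ᴴ := by
    rw [h1, conjTranspose_sub, conjTranspose_one]
  unfold we
  rw [h2, trace_conjTranspose]
  simp

theorem ev_cont {G : Type} [Group G] [TopologicalSpace G] {L : Type} (o : Option L) :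
    Continuous fun U : L → G => ev U o := by
  cases o with
  | none => exact continuous_const
  | some w => exact continuous_apply w

theorem plq_cont {G : Type} [Group G] [TopologicalSpace G] [IsTopologicalGroup G] (Q : Sys)
    (p : Q.P) : Continuous fun U : Q.L → G => Q.plq U p :=
  (((ev_cont _).mul (ev_cont _)).mul (ev_cont _).inv).mul (ev_cont _).inv

theorem S_cont {G : Type} [Group G] [TopologicalSpace G] [IsTopologicalGroup G] (Q : Sys)
    {we : G → ℝ} (hwe : Continuous we) (c : Q.P → ℝ) : Continuous (Q.S we c) :=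
  continuous_finsetSum _ fun p _ => continuous_const.mul (hwe.comp (plq_cont Q p))

end grp

/-- A Haar probability measure is invariant under right multiplications. -/
lemma right_inv {H : Type*} [Group H] [TopologicalSpace H] [IsTopologicalGroup H]
    [CompactSpace H] [MeasurableSpace H] [BorelSpace H] (μ : Measure H)
    [IsProbabilityMeasure μ] [μ.IsHaarMeasure] : μ.IsMulRightInvariant := by
  refine ⟨fun g => ?_⟩
  have h1 : IsProbabilityMeasure (Measure.map (fun x => x * g) μ) :=
    Measure.isProbabilityMeasure_map (measurable_mul_const g).aemeasurable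
  exact Measure.isHaarMeasure_eq_of_isProbabilityMeasure _ _

/-- A Haar probability measure is invariant under the inversion. -/
lemma inv_inv' {H : Type*} [Group H] [TopologicalSpace H] [IsTopologicalGroup H]
    [CompactSpace H] [MeasurableSpace H] [BorelSpace H] (μ : Measure H)
    [IsProbabilityMeasure μ] [μ.IsHaarMeasure] : μ.IsInvInvariant := by
  have hr := right_inv μ
  refine ⟨?_⟩
  have h1 : IsProbabilityMeasure μ.inv :=
    Measure.isProbabilityMeasure_map measurable_inv.aemeasurable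
  have h2 : μ.inv.IsMulLeftInvariant := inferInstance
  have h3 : μ.inv.IsHaarMeasure :=
    Measure.isHaarMeasure_of_isCompact_nonempty_interior μ.inv Set.univ isCompact_univ
      (by simp) (by simp) (by simp)
  exact Measure.isHaarMeasure_eq_of_isProbabilityMeasure _ _

/-- the derivative of the interpolation -/
theorem F_deriv {G : Type} [Group G] [TopologicalSpace G] [IsTopologicalGroup G] [CompactSpace G]
    [SecondCountableTopology G] [MeasurableSpace G] [BorelSpace G] (μ : Measure G)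
    [IsProbabilityMeasure μ] {we : G → ℝ} (hwe : Continuous we) (Q : Sys) (β x : ℝ) :
    0 < Q.Z μ we (Q.cp x) β ∧
    HasDerivAt (fun x => Real.log (Q.Z μ we (Q.cp x) β))
      (-∑ p, cn Q p * (β * Q.EX μ we (Q.cp x) β (fun U => we (Q.plq U p)))) x := by
  have hZ : ∀ x, Q.Z μ we (Q.cp x) β = ∫ U : Q.L → G, Real.exp (-(β * (Q.S we (cb Q) U +
      x * Q.S we (cn Q) U))) ∂(Measure.pi fun _ => μ) := by
    intro x
    unfold Sys.Z
    simp only [S_eq]
  obtain ⟨h1, h2⟩ := log_deriv (Measure.pi fun _ : Q.L => μ) (S_cont Q hwe (cb Q))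
    (S_cont Q hwe (cn Q)) β x
  simp only [hZ]
  refine ⟨h1, h2.congr_deriv ?_⟩
  congr 1
  have h3 : ∫ U : Q.L → G, Q.S we (cn Q) U * Real.exp (-(β * (Q.S we (cb Q) U +
      x * Q.S we (cn Q) U))) ∂(Measure.pi fun _ => μ) =
      ∑ p, cn Q p * ∫ U : Q.L → G, we (Q.plq U p) * Real.exp (-(β * Q.S we (Q.cp x) U))
        ∂(Measure.pi fun _ => μ) := by
    simp only [S_eq]
    have h4 : ∀ p, cn Q p * ∫ U : Q.L → G, we (Q.plq U p) * Real.exp (-(β * (Q.S we (cb Q) U +
        x * Q.S we (cn Q) U))) ∂(Measure.pi fun _ => μ) =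
        ∫ U : Q.L → G, cn Q p * (we (Q.plq U p) * Real.exp (-(β * (Q.S we (cb Q) U +
        x * Q.S we (cn Q) U)))) ∂(Measure.pi fun _ => μ) := fun p => (integral_const_mul _ _).symm
    simp only [h4]
    rw [← integral_finsetSum]
    · refine integral_congr_ae (Eventually.of_forall fun U => ?_)
      show (∑ p, cn Q p * we (Q.plq U p)) * _ = _
      rw [Finset.sum_mul]
      exact Finset.sum_congr rfl fun p _ => by ring
    · intro p _
      apply int_of_cont
      have k1 := hwe.comp (plq_cont (G := G) Q p)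
      have k2 := S_cont Q hwe (cb Q)
      have k3 := S_cont Q hwe (cn Q)
      exact continuous_const.mul (k1.mul (Real.continuous_exp.comp
        (continuous_const.mul (k2.add (continuous_const.mul k3))).neg))
  rw [h3, Finset.sum_div, Finset.mul_sum]
  refine Finset.sum_congr rfl fun p _ => ?_
  unfold Sys.EX
  rw [hZ]
  ring

/-- GAUSS -/
theorem t_GAUSS : S_EST → S_HINV → S_BASE → S_GAUSS := by
  intro hEST hHINV hBASE N n G hG _ _ μ _ _ B
  obtain ⟨C, K, hC, hK, hE⟩ := hEST G hG μ B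
  have hcU := compact_UU N
  have hsM := sc_Mt N
  have hcG : CompactSpace G := isCompact_iff_compactSpace.1 (IsClosed.isCompact (X := UU N) hG)
  have hsG : SecondCountableTopology G := by
    have h00 : SecondCountableTopology (UU N) := TopologicalSpace.Subtype.secondCountableTopology _
    exact TopologicalSpace.Subtype.secondCountableTopology _
  have hri := right_inv μ
  have hii := inv_inv' μ
  refine ⟨C, K + 1, hC, by omega, fun Q m hm hL hP β hβ => ?_⟩
  obtain ⟨hdet0, hH⟩ := hHINV Q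
  have hmR : (1 : ℝ) ≤ m := by exact_mod_cast hm
  have hlog : 1 ≤ Real.log β := by
    rw [Real.le_log_iff_exp_le (by linarith)]
    have := Real.exp_one_lt_d9
    linarith
  have hml : 1 ≤ (m : ℝ) * Real.log β := one_le_mul_of_one_le_of_one_le hmR hlog
  obtain ⟨g, hg⟩ : ∃ g : ℝ → ℝ, g = fun x => Real.log (Q.Z μ we (Q.cp x) β) +
    (n : ℝ) / 2 * Real.log (Q.H (Q.cp x)).det := ⟨_, rfl⟩
  obtain ⟨b, hb⟩ : ∃ b : ℝ, b = C * ((m : ℝ) * Real.log β) ^ K / Real.sqrt β := ⟨_, rfl⟩
  have hb0 : 0 ≤ b := by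
    rw [hb]
    positivity
  obtain ⟨g', hg'⟩ : ∃ g' : ℝ → ℝ, g' = fun x => -∑ p, cn Q p *
    (β * Q.EX μ we (Q.cp x) β (fun U => we (Q.plq U p)) -
      n / 2 * ∑ w, ∑ w', Q.D p w * (Q.H (Q.cp x))⁻¹ w w' * Q.D p w') := ⟨_, rfl⟩
  have hder : ∀ x ∈ Set.Icc (0 : ℝ) 1, HasDerivAt g (g' x) x := by
    intro x hx
    obtain ⟨-, h1⟩ := F_deriv μ we_cont Q β x
    have hpd := (hH x hx.1 hx.2).1.det_pos
    rw [H_eq] at hpd
    have h2 := (det_deriv (Q.H (cb Q)) (Q.H (cn Q)) x hpd.ne').log hpd.ne'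
    rw [hg]
    have h3 : (fun x => Real.log (Q.Z μ we (Q.cp x) β) +
        (n : ℝ) / 2 * Real.log (Q.H (Q.cp x)).det) =
        fun x => Real.log (Q.Z μ we (Q.cp x) β) +
        (n : ℝ) / 2 * Real.log (Q.H (cb Q) + x • Q.H (cn Q)).det := by
      funext y
      rw [H_eq]
    rw [h3]
    refine (h1.add (h2.const_mul ((n : ℝ) / 2))).congr_deriv ?_
    rw [mul_div_assoc, mul_comm (det _) (_ / _), div_mul_cancel₀ _ hpd.ne', ← H_eq, tr_eq, hg']
    simp only [mul_sub, Finset.sum_sub_distrib, Finset.mul_sum, neg_sub]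
    rw [neg_add_eq_sub]
    congr 1
    refine Finset.sum_congr rfl fun p _ => Finset.sum_congr rfl fun w _ =>
      Finset.sum_congr rfl fun w' _ => ?_
    ring
  have hbd : ∀ x ∈ Set.Icc (0 : ℝ) 1, |g' x| ≤ m * b := by
    intro x hx
    rw [hg']
    simp only [abs_neg]
    calc |∑ p, cn Q p * (β * Q.EX μ we (Q.cp x) β (fun U => we (Q.plq U p)) -
          n / 2 * ∑ w, ∑ w', Q.D p w * (Q.H (Q.cp x))⁻¹ w w' * Q.D p w')|
        ≤ ∑ p : Q.P, |cn Q p * (β * Q.EX μ we (Q.cp x) β (fun U => we (Q.plq U p)) -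
          n / 2 * ∑ w, ∑ w', Q.D p w * (Q.H (Q.cp x))⁻¹ w w' * Q.D p w')| :=
          Finset.abs_sum_le_sum_abs _ _
      _ ≤ ∑ _p : Q.P, b := by
          refine Finset.sum_le_sum fun p _ => ?_
          rw [abs_mul]
          have h1 := hE Q m hm hL hP x hx.1 hx.2 β hβ p
          rw [← hb] at h1
          calc _ ≤ 1 * b := mul_le_mul (cn_abs Q p) h1 (abs_nonneg _) zero_le_one
            _ = b := one_mul b
      _ = Fintype.card Q.P * b := by
          rw [Finset.sum_const, Finset.card_univ, nsmul_eq_mul]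
      _ ≤ m * b := by
          have : (Fintype.card Q.P : ℝ) ≤ m := by exact_mod_cast hP
          exact mul_le_mul_of_nonneg_right this hb0
  have hmv := norm_image_sub_le_of_norm_deriv_le_segment_01' (f := g) (f' := g') (C := m * b)
    (fun x hx => (hder x hx).hasDerivWithinAt)
    (fun x hx => by rw [Real.norm_eq_abs]; exact hbd x ⟨hx.1, hx.2.le⟩)
  have g1 : g 1 = Real.log (Q.Z μ we (fun _ => 1) β) +
      (n : ℝ) / 2 * Real.log (Q.H fun _ => 1).det := by
    rw [hg]
    simp only [cp_one]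
  have g0 : g 0 = Fintype.card Q.L * Real.log (kap μ we β) := by
    rw [hg]
    simp only [hdet0, Real.log_one, mul_zero, add_zero]
    rw [hBASE G μ we we_cont we_inv Q β, Real.log_pow]
  rw [g1, g0, Real.norm_eq_abs] at hmv
  have e1 : Real.log (Q.Z μ we (fun _ => 1) β) - Fintype.card Q.L * Real.log (kap μ we β) +
      n / 2 * Real.log (Q.H fun _ => 1).det = Real.log (Q.Z μ we (fun _ => 1) β) +
      (n : ℝ) / 2 * Real.log (Q.H fun _ => 1).det -
      Fintype.card Q.L * Real.log (kap μ we β) := by ring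
  rw [e1]
  refine hmv.trans ?_
  rw [hb, pow_succ]
  have h5 : (m : ℝ) ≤ m * Real.log β := le_mul_of_one_le_right (by linarith) hlog
  have h6 : 0 ≤ C * ((m : ℝ) * Real.log β) ^ K / Real.sqrt β := by
    have : 0 ≤ C := by linarith
    have : 0 ≤ (m : ℝ) * Real.log β := by linarith
    positivity
  calc (m : ℝ) * (C * ((m : ℝ) * Real.log β) ^ K / Real.sqrt β)
      ≤ (m * Real.log β) * (C * ((m : ℝ) * Real.log β) ^ K / Real.sqrt β) :=
        mul_le_mul_of_nonneg_right h5 h6
    _ = C * (((m : ℝ) * Real.log β) ^ K * ((m : ℝ) * Real.log β)) / Real.sqrt β := by ring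

end

end Pool.Agent.N899.BB.Gauss
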