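import Mathlib
import Pool.Agent.N899.BB.Stm
import Pool.Agent.H906R3.YM.Conc

/-!
# Black body radiation of gluons: integration by parts
-/

open MeasureTheory Matrix
open scoped Matrix.Norms.Frobenius ContDiff

namespace Pool.Agent.N899.BB.Ibp

open Pool.Agent.Y14.Wilson Pool.Agent.H906R3

set_option linter.unusedSectionVars false

noncomputable section

variable {N n : ℕ} {G : Subgroup (UU N)}

/-- the data of the basis as a frame -/
def fr (B : LieBasis G n) : YM.Frame G n where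
  X := B.X
  ex := B.ex
  ex_eq := B.ex_eq
  orth := B.orth
  full := B.full

/-- the abstract data -/
def dat (B : LieBasis G n) : YM.LD G N n := (fr B).toLD

lemma mt_mul (g h : G) : mt (g * h) = mt g * mt h := rfl

lemma mt_one : mt (1 : G) = 1 := rfl

lemma mt_inv (g : G) : mt g⁻¹ = (mt g)ᴴ := rfl

variable {L : Type} [Fintype L] [DecidableEq L]

lemma shift_eq (B : LieBasis G n) (w : L) (a : Fin n) (t : ℝ) (U : L → G) :
    Function.update U w (B.ex a t * U w) = (dat B).shift w a t U := by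
  funext e
  unfold YM.LD.shift
  rw [Pi.mul_apply]
  by_cases h : e = w
  · subst h
    rw [Function.update_self, Pi.mulSingle_eq_same]
    rfl
  · rw [Function.update_of_ne h, Pi.mulSingle_eq_of_ne h, one_mul]

lemma dl_eq (B : LieBasis G n) (w : L) (a : Fin n) (F : (L → G) → ℝ) :
    dl B w a F = (dat B).dF w a F := by
  funext U
  unfold dl YM.LD.dF
  simp only [shift_eq]

lemma sm_ev (B : LieBasis G n) (o : Option L) :
    YM.SmM (dat B) (fun U : L → G => mt (ev U o)) := by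
  cases o with
  | none => exact YM.SmM.const _
  | some w => exact YM.SmM.link w

lemma sm_evi (B : LieBasis G n) (o : Option L) :
    YM.SmM (dat B) (fun U : L → G => mt (ev U o)⁻¹) := by
  simp only [mt_inv]
  exact (sm_ev B o).ct

lemma ip_one (M : Mt N) : YM.ip (1 : Mt N) M = (trace M).re := by
  rw [YM.ip_apply, conjTranspose_one, one_mul]

lemma sm_plq (B : LieBasis G n) (Q : Sys) (p : Q.P) :
    YM.SmM (dat B) (fun U : Q.L → G => 1 - mt (Q.plq U p)) := by
  unfold Sys.plq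
  simp only [mt_mul]
  exact (YM.SmM.const 1).sub ((((sm_ev B _).mul (sm_ev B _)).mul (sm_evi B _)).mul (sm_evi B _))

lemma we_mem (B : LieBasis G n) (Q : Sys) (p : Q.P) :
    (fun U : Q.L → G => we (Q.plq U p)) ∈ YM.Sm (dat B) Q.L := by
  have h : (fun U : Q.L → G => we (Q.plq U p)) = (YM.lin (YM.ip (1 : Mt N)) _ (sm_plq B Q p)).1 := by
    funext U
    rw [YM.lin_apply, ip_one]
    rfl
  rw [h]
  exact (YM.lin (YM.ip (1 : Mt N)) _ (sm_plq B Q p)).2

lemma S_mem (B : LieBasis G n) (Q : Sys) (c : Q.P → ℝ) :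
    (Q.S (G := G) we c) ∈ YM.Sm (dat B) Q.L := by
  have h : Q.S (G := G) we c = ∑ p, c p • (fun U : Q.L → G => we (Q.plq U p)) := by
    funext U
    rw [Finset.sum_apply]
    rfl
  rw [h]
  exact Subalgebra.sum_mem _ fun p _ => Subalgebra.smul_mem _ (we_mem B Q p) _

lemma crd_mem (B : LieBasis G n) (w : L) (b : Fin n) :
    (fun U : L → G => crd B (U w) b) ∈ YM.Sm (dat B) L :=
  (YM.lin (YM.ip (B.X b)) _ (YM.SmM.link (L := dat B) w)).2

lemma exp_mem (B : LieBasis G n) (Q : Sys) (c : Q.P → ℝ) (β : ℝ) :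
    (fun U : Q.L → G => Real.exp (-(β * Q.S we c U))) ∈ YM.Sm (dat B) Q.L := by
  obtain ⟨f, hf, h⟩ := S_mem B Q c
  refine ⟨fun M => Real.exp (-(β * f M)), ?_, fun U => by
    show Real.exp (-(β * Q.S we c U)) = Real.exp (-(β * f ((dat B).mat U)))
    rw [h U]⟩
  exact Real.contDiff_exp.comp (contDiff_const.mul hf).neg

lemma dF_exp (B : LieBasis G n) (Q : Sys) (c : Q.P → ℝ) (β : ℝ) (w : Q.L) (a : Fin n)
    (U : Q.L → G) :
    (dat B).dF w a (fun U : Q.L → G => Real.exp (-(β * Q.S we c U))) U =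
      -(β * (dat B).dF w a (Q.S we c) U) * Real.exp (-(β * Q.S we c U)) := by
  have h1 := YM.hasDerivAt_dF (S_mem B Q c) w a U 0
  rw [YM.LD.shift_zero] at h1
  have h2 := ((h1.const_mul β).fun_neg).exp
  rw [YM.LD.shift_zero] at h2
  have h3 := h2.deriv
  unfold YM.LD.dF at h3 ⊢
  rw [h3]
  ring

variable [CompactSpace G] [SecondCountableTopology G] [MeasurableSpace G] [BorelSpace G]
  (μ : Measure G) [IsProbabilityMeasure μ] [μ.IsHaarMeasure]

lemma ibp (B : LieBasis G n) (Q : Sys) (c : Q.P → ℝ) (β : ℝ) (w : Q.L) (a : Fin n)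
    (P : (Q.L → G) → ℝ) (hP : P ∈ YM.Sm (dat B) Q.L) :
    Q.EX μ we c β (dl B w a P) = β * Q.EX μ we c β (fun U => P U * dl B w a (Q.S we c) U) := by
  rw [dl_eq, dl_eq]
  have h0 := YM.I_D_zero (L := dat B) μ (w, a)
    ((⟨P, hP⟩ : YM.Sm (dat B) Q.L) * ⟨_, exp_mem B Q c β⟩)
  rw [Derivation.leibniz, map_add, smul_eq_mul, smul_eq_mul, YM.I_apply, YM.I_apply] at h0
  have e1 : ∀ U, ((⟨P, hP⟩ : YM.Sm (dat B) Q.L) * (dat B).Dv (w, a) ⟨_, exp_mem B Q c β⟩).1 U =
      -β * (P U * (dat B).dF w a (Q.S we c) U * Real.exp (-(β * Q.S we c U))) := by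
    intro U
    have h1 : ((⟨P, hP⟩ : YM.Sm (dat B) Q.L) * (dat B).Dv (w, a) ⟨_, exp_mem B Q c β⟩).1 U =
      P U * (dat B).dF w a (fun U : Q.L → G => Real.exp (-(β * Q.S we c U))) U := rfl
    rw [h1, dF_exp]
    ring
  have e2 : ∀ U, ((⟨_, exp_mem B Q c β⟩ : YM.Sm (dat B) Q.L) * (dat B).Dv (w, a) ⟨P, hP⟩).1 U =
      (dat B).dF w a P U * Real.exp (-(β * Q.S we c U)) := by
    intro U
    have h1 : ((⟨_, exp_mem B Q c β⟩ : YM.Sm (dat B) Q.L) * (dat B).Dv (w, a) ⟨P, hP⟩).1 U =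
      Real.exp (-(β * Q.S we c U)) * (dat B).dF w a P U := rfl
    rw [h1, mul_comm]
  simp only [e1, e2] at h0
  rw [integral_const_mul] at h0
  unfold Sys.EX
  have h3 : ∫ U : Q.L → G, (dat B).dF w a P U * Real.exp (-(β * Q.S we c U))
      ∂(Measure.pi fun _ => μ) =
      β * ∫ U : Q.L → G, P U * (dat B).dF w a (Q.S we c) U * Real.exp (-(β * Q.S we c U))
        ∂(Measure.pi fun _ => μ) := by
    linarith
  rw [h3, mul_div_assoc]

end

/-- **Integration by parts.** -/
theorem t_IBP : S_IBP := by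
  intro N n G hG _ _ μ _ _ B Q c β w a w' b
  have hc : CompactSpace G := by
    have h1 : IsCompact (G : Set (UU N)) := hG.isCompact
    exact isCompact_iff_compactSpace.1 h1
  have h00 : SecondCountableTopology (UU N) := TopologicalSpace.Subtype.secondCountableTopology _
  have hs : SecondCountableTopology G := TopologicalSpace.Subtype.secondCountableTopology _
  refine ⟨ibp μ B Q c β w a _ (crd_mem B w' b), ?_, ?_, YM.Sm_cont ⟨_, crd_mem B w' b⟩⟩
  · rw [dl_eq]
    exact YM.Sm_cont ⟨_, YM.dF_mem (crd_mem B w' b) w a⟩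
  · rw [dl_eq]
    exact YM.Sm_cont ⟨_, YM.dF_mem (S_mem B Q c) w a⟩

end Pool.Agent.N899.BB.Ibp
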