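import Mathlib
import Pool.Agent.N899.BB.Stm

/-!
# Isomorphic complexes
-/

open MeasureTheory

namespace Pool.Agent.N899.BB.Iso

open Pool.Agent.N899.BB

/-- the partition function is invariant under isomorphisms -/
theorem Z_eq (X Y : Cx) (I : BB.Iso X Y) (G : Type) [Group G] [MeasurableSpace G] (μ : Measure G)
    [IsProbabilityMeasure μ] (we : G → ℝ) (hwe : ∀ g, we g⁻¹ = we g) (β : ℝ) :
    X.Z μ we β = Y.Z μ we β := by
  unfold Cx.Z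
  have h := measurePreserving_piCongrLeft (α := fun _ : Y.E => G) (fun _ => μ) I.eE
  rw [← h.integral_comp' (fun V : Y.E → G => Real.exp (-(β * Y.S we V)))]
  congr 1
  funext U
  have h1 : ∀ e, (MeasurableEquiv.piCongrLeft (fun _ : Y.E => G) I.eE) U (I.eE e) = U e := by
    intro e
    exact Equiv.piCongrLeft_apply_apply (fun _ : Y.E => G) I.eE U e
  have h2 : Y.S we ((MeasurableEquiv.piCongrLeft (fun _ : Y.E => G) I.eE) U) = X.S we U := by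
    generalize (MeasurableEquiv.piCongrLeft (fun _ : Y.E => G) I.eE) U = V at h1
    unfold Cx.S
    rw [← Equiv.sum_comp I.eF]
    refine Finset.sum_congr rfl fun f _ => ?_
    unfold Cx.plq
    rcases I.face f with ⟨a1, a2, a3, a4⟩ | ⟨a1, a2, a3, a4⟩
    · rw [a1, a2, a3, a4, h1, h1, h1, h1]
    · rw [a1, a2, a3, a4, h1, h1, h1, h1, ← hwe]
      congr 1
      group
  rw [h2]

/-- the product with a graph -/
def prodIso (X Y : Cx) (Γ : Gr) (I : BB.Iso X Y) : BB.Iso (X.prod Γ) (Y.prod Γ) where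
  eV := Equiv.prodCongr I.eV (Equiv.refl _)
  eE := Equiv.sumCongr (Equiv.prodCongr I.eE (Equiv.refl _)) (Equiv.prodCongr I.eV (Equiv.refl _))
  eF := Equiv.sumCongr (Equiv.prodCongr I.eF (Equiv.refl _)) (Equiv.prodCongr I.eE (Equiv.refl _))
  src := by
    rintro (⟨e, a⟩ | ⟨x, α⟩)
    · exact Prod.ext (I.src e) rfl
    · rfl
  tgt := by
    rintro (⟨e, a⟩ | ⟨x, α⟩)
    · exact Prod.ext (I.tgt e) rfl
    · rfl
  face := by
    rintro (⟨f, a⟩ | ⟨e, α⟩)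
    · rcases I.face f with ⟨a1, a2, a3, a4⟩ | ⟨a1, a2, a3, a4⟩
      · left
        exact ⟨congrArg Sum.inl (Prod.ext a1 rfl), congrArg Sum.inl (Prod.ext a2 rfl),
          congrArg Sum.inl (Prod.ext a3 rfl), congrArg Sum.inl (Prod.ext a4 rfl)⟩
      · right
        exact ⟨congrArg Sum.inl (Prod.ext a1 rfl), congrArg Sum.inl (Prod.ext a2 rfl),
          congrArg Sum.inl (Prod.ext a3 rfl), congrArg Sum.inl (Prod.ext a4 rfl)⟩
    · left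
      exact ⟨rfl, congrArg Sum.inr (Prod.ext (I.tgt e) rfl), rfl,
        congrArg Sum.inr (Prod.ext (I.src e) rfl)⟩

/-- the map on the vertices -/
def sV (A B C : Type) : (A × B) × C ≃ (A × C) × B where
  toFun z := ((z.1.1, z.2), z.1.2)
  invFun z := ((z.1.1, z.2), z.1.2)
  left_inv _ := rfl
  right_inv _ := rfl

/-- the map on the edges: `E`, `V` the edges and vertices of the complex, `P`, `A` those of the first
graph, `Q`, `B` those of the second graph -/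
def sE (E V P A Q B : Type) :
    (((E × A) ⊕ (V × P)) × B) ⊕ ((V × A) × Q) ≃ (((E × B) ⊕ (V × Q)) × A) ⊕ ((V × B) × P) where
  toFun := Sum.elim (fun z => Sum.elim (fun w => Sum.inl (Sum.inl (w.1, z.2), w.2))
      (fun w => Sum.inr ((w.1, z.2), w.2)) z.1) (fun z => Sum.inl (Sum.inr (z.1.1, z.2), z.1.2))
  invFun := Sum.elim (fun z => Sum.elim (fun w => Sum.inl (Sum.inl (w.1, z.2), w.2))
      (fun w => Sum.inr ((w.1, z.2), w.2)) z.1) (fun z => Sum.inl (Sum.inr (z.1.1, z.2), z.1.2))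
  left_inv := by rintro (⟨(⟨e, a⟩ | ⟨x, α⟩), b⟩ | ⟨⟨x, a⟩, β⟩) <;> rfl
  right_inv := by rintro (⟨(⟨e, a⟩ | ⟨x, α⟩), b⟩ | ⟨⟨x, a⟩, β⟩) <;> rfl

/-- the map on the faces -/
def sF (F E V P A Q B : Type) :
    (((F × A) ⊕ (E × P)) × B) ⊕ (((E × A) ⊕ (V × P)) × Q) ≃
      (((F × B) ⊕ (E × Q)) × A) ⊕ (((E × B) ⊕ (V × Q)) × P) where
  toFun := Sum.elim (fun z => Sum.elim (fun w => Sum.inl (Sum.inl (w.1, z.2), w.2))
      (fun w => Sum.inr (Sum.inl (w.1, z.2), w.2)) z.1)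
    (fun z => Sum.elim (fun w => Sum.inl (Sum.inr (w.1, z.2), w.2))
      (fun w => Sum.inr (Sum.inr (w.1, z.2), w.2)) z.1)
  invFun := Sum.elim (fun z => Sum.elim (fun w => Sum.inl (Sum.inl (w.1, z.2), w.2))
      (fun w => Sum.inr (Sum.inl (w.1, z.2), w.2)) z.1)
    (fun z => Sum.elim (fun w => Sum.inl (Sum.inr (w.1, z.2), w.2))
      (fun w => Sum.inr (Sum.inr (w.1, z.2), w.2)) z.1)
  left_inv := by rintro (⟨(⟨f, a⟩ | ⟨e, α⟩), b⟩ | ⟨(⟨e, a⟩ | ⟨x, α⟩), β⟩) <;> rfl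
  right_inv := by rintro (⟨(⟨f, a⟩ | ⟨e, α⟩), b⟩ | ⟨(⟨e, a⟩ | ⟨x, α⟩), β⟩) <;> rfl

/-- the factors of a product can be exchanged -/
def swapIso (X : Cx) (Γ Γ' : Gr) : BB.Iso ((X.prod Γ).prod Γ') ((X.prod Γ').prod Γ) where
  eV := sV X.V Γ.V Γ'.V
  eE := sE X.E X.V Γ.E Γ.V Γ'.E Γ'.V
  eF := sF X.F X.E X.V Γ.E Γ.V Γ'.E Γ'.V
  src := by rintro (⟨(⟨e, a⟩ | ⟨x, α⟩), b⟩ | ⟨⟨x, a⟩, β⟩) <;> rfl
  tgt := by rintro (⟨(⟨e, a⟩ | ⟨x, α⟩), b⟩ | ⟨⟨x, a⟩, β⟩) <;> rfl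
  face := by
    rintro (⟨(⟨f, a⟩ | ⟨e, α⟩), b⟩ | ⟨(⟨e, a⟩ | ⟨x, α⟩), β⟩)
    · exact Or.inl ⟨rfl, rfl, rfl, rfl⟩
    · exact Or.inl ⟨rfl, rfl, rfl, rfl⟩
    · exact Or.inl ⟨rfl, rfl, rfl, rfl⟩
    · exact Or.inr ⟨rfl, rfl, rfl, rfl⟩

theorem t_ISO : S_ISO :=
  ⟨fun X Y I G _ _ μ _ we hwe β => Z_eq X Y I G μ we hwe β,
    fun X Y Γ I => ⟨prodIso X Y Γ I⟩, fun X Γ Γ' => ⟨swapIso X Γ Γ'⟩⟩

end Pool.Agent.N899.BB.Iso
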