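import Mathlib
import Pool.Agent.N899.BB.Stm
import Pool.Agent.Y614.AF.Ball
import Pool.Agent.Y16.AF.Prob1

/-!
# BB/LOW: crude lower bounds of partition functions from small balls
-/

set_option autoImplicit false

open MeasureTheory Matrix
open scoped Matrix.Norms.Frobenius
open Pool.Agent.N899.SB Pool.Agent.N899.BB
open Pool.Agent.Y14.Wilson (UU Mt mt)

namespace Pool.Agent.N899.BB.Low

section
variable {N : ℕ} {G : Subgroup (UU N)}

theorem mt_mul (g h : G) : mt (g * h) = mt g * mt h := rfl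

theorem mt_unit (g : G) : (mt g)ᴴ * mt g = 1 := (Unitary.mem_iff.1 (g : UU N).2).1

theorem mt_inv (g : G) : mt g⁻¹ = (mt g)ᴴ := rfl

theorem norm_lmul (g : G) (A : Mt N) : ‖mt g * A‖ = ‖A‖ :=
  Pool.Agent.Y614.AF.norm_umul _ _ (mt_unit g)

theorem norm_rmul (g : G) (A : Mt N) : ‖A * mt g‖ = ‖A‖ := by
  rw [← frobenius_norm_conjTranspose, conjTranspose_mul, ← mt_inv, norm_lmul,
    frobenius_norm_conjTranspose]

theorem we_eq (g : G) : we g = ‖mt g - 1‖ ^ 2 / 2 := by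
  rw [Pool.Agent.Y614.AF.nsq]
  have h1 : (mt g - 1)ᴴ * (mt g - 1) = (1 - mt g)ᴴ + (1 - mt g) := by
    rw [conjTranspose_sub, conjTranspose_sub, conjTranspose_one, sub_mul, mul_sub, mul_sub,
      mt_unit, mul_one, one_mul, one_mul]
    abel
  rw [h1, trace_add, trace_conjTranspose, Complex.add_re, Complex.star_def, Complex.conj_re]
  unfold we
  ring

theorem we_nonneg (g : G) : 0 ≤ we g := by
  rw [we_eq]
  positivity

theorem we_cont : Continuous (we : G → ℝ) := by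
  have h1 : Continuous (mt : G → Mt N) := continuous_subtype_val.comp continuous_subtype_val
  unfold we
  exact Complex.continuous_re.comp (Continuous.matrix_trace (continuous_const.sub h1))

theorem nrm_mul (g h : G) : ‖mt (g * h) - 1‖ ≤ ‖mt g - 1‖ + ‖mt h - 1‖ := by
  have h1 : mt (g * h) - 1 = mt g * (mt h - 1) + (mt g - 1) := by
    rw [mt_mul, mul_sub, mul_one]
    abel
  rw [h1]
  refine (norm_add_le _ _).trans ?_
  rw [norm_lmul, add_comm]

theorem nrm_inv (g : G) : ‖mt g⁻¹ - 1‖ = ‖mt g - 1‖ := by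
  have h1 : mt g⁻¹ - 1 = (mt g - 1)ᴴ := by
    rw [mt_inv, conjTranspose_sub, conjTranspose_one]
  rw [h1, frobenius_norm_conjTranspose]

theorem nrm_le (g : G) : ‖mt g - 1‖ ≤ 2 * ‖(1 : Mt N)‖ := by
  have h1 : ‖mt g‖ = ‖(1 : Mt N)‖ := by
    rw [← norm_lmul g 1, mul_one]
  calc ‖mt g - 1‖ ≤ ‖mt g‖ + ‖(1 : Mt N)‖ := norm_sub_le _ _
    _ = _ := by rw [h1]; ring

theorem we_lip (x y : G) : |we x - we y| ≤ 2 * ‖(1 : Mt N)‖ * ‖mt x - mt y‖ := by
  rw [we_eq, we_eq]
  have h1 : ‖mt x - 1‖ ^ 2 / 2 - ‖mt y - 1‖ ^ 2 / 2 =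
      (‖mt x - 1‖ - ‖mt y - 1‖) * ((‖mt x - 1‖ + ‖mt y - 1‖) / 2) := by ring
  have h2 : |‖mt x - 1‖ - ‖mt y - 1‖| ≤ ‖mt x - mt y‖ := by
    have := abs_norm_sub_norm_le (mt x - 1) (mt y - 1)
    rwa [sub_sub_sub_cancel_right] at this
  have h3 : |(‖mt x - 1‖ + ‖mt y - 1‖) / 2| ≤ 2 * ‖(1 : Mt N)‖ := by
    rw [abs_of_nonneg (by positivity)]
    have := nrm_le x
    have := nrm_le y
    linarith
  rw [h1, abs_mul, mul_comm]
  exact mul_le_mul h3 h2 (abs_nonneg _) (by positivity)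

theorem we_conj (P a g : G) :
    |we (a * (P * g * P⁻¹)) - we (a * g)| ≤ 4 * ‖(1 : Mt N)‖ * ‖mt P - 1‖ := by
  refine (we_lip _ _).trans ?_
  have h1 : mt (a * (P * g * P⁻¹)) - mt (a * g) =
      mt a * (((mt P - 1) * mt g - mt g * (mt P - 1)) * mt P⁻¹) := by
    have h2 : mt P * mt P⁻¹ = 1 := by
      rw [← mt_mul, mul_inv_cancel]
      rfl
    have h3 : ((mt P - 1) * mt g - mt g * (mt P - 1)) * mt P⁻¹ =
        mt P * mt g * mt P⁻¹ - mt g := by
      have h4 : (mt P - 1) * mt g - mt g * (mt P - 1) = mt P * mt g - mt g * mt P := by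
        rw [sub_mul, mul_sub, one_mul, mul_one]
        abel
      rw [h4, sub_mul, mul_assoc (mt g), h2, mul_one]
    rw [h3, mt_mul, mt_mul, mt_mul, mt_mul, mul_sub]
  rw [h1, norm_lmul, norm_rmul]
  have h5 : ‖(mt P - 1) * mt g - mt g * (mt P - 1)‖ ≤ 2 * ‖mt P - 1‖ := by
    refine (norm_sub_le _ _).trans ?_
    rw [norm_rmul, norm_lmul]
    linarith
  have h6 : 0 ≤ 2 * ‖(1 : Mt N)‖ := by positivity
  calc 2 * ‖(1 : Mt N)‖ * _ ≤ 2 * ‖(1 : Mt N)‖ * (2 * ‖mt P - 1‖) :=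
        mul_le_mul_of_nonneg_left h5 h6
    _ = _ := by ring

theorem plq_nrm (X : Cx) (U : X.E → G) {r : ℝ} (h : ∀ e, ‖mt (U e) - 1‖ ≤ r) (f : X.F) :
    ‖mt (X.plq U f) - 1‖ ≤ 4 * r := by
  unfold Cx.plq
  have h1 := nrm_mul (U (X.f1 f) * U (X.f2 f) * (U (X.f3 f))⁻¹) (U (X.f4 f))⁻¹
  have h2 := nrm_mul (U (X.f1 f) * U (X.f2 f)) (U (X.f3 f))⁻¹
  have h3 := nrm_mul (U (X.f1 f)) (U (X.f2 f))
  rw [nrm_inv] at h1 h2
  linarith [h (X.f1 f), h (X.f2 f), h (X.f3 f), h (X.f4 f)]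

end

theorem lowbd {Y : Type} [MeasurableSpace Y] (ν : Measure Y) [IsProbabilityMeasure ν]
    {f : Y → ℝ} (hf : Measurable f) (h0 : ∀ y, 0 ≤ f y) (h1 : ∀ y, f y ≤ 1) :
    (∀ (A : Set Y) (κ : ℝ), MeasurableSet A → (∀ y ∈ A, κ ≤ f y) →
      κ * ν.real A ≤ ∫ y, f y ∂ν) ∧ ∫ y, f y ∂ν ≤ 1 := by
  have hi : Integrable f ν := by
    refine Integrable.of_bound hf.aestronglyMeasurable 1 (Filter.Eventually.of_forall fun y => ?_)
    rw [Real.norm_of_nonneg (h0 y)]
    exact h1 y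
  constructor
  · intro A κ hA hκ
    calc κ * ν.real A = ∫ _ in A, κ ∂ν := by
          rw [setIntegral_const, smul_eq_mul, mul_comm]
      _ ≤ ∫ y in A, f y ∂ν :=
          setIntegral_mono_on (integrable_const κ).integrableOn hi.integrableOn hA hκ
      _ ≤ ∫ y, f y ∂ν := setIntegral_le_integral hi (Filter.Eventually.of_forall h0)
  · calc ∫ y, f y ∂ν ≤ ∫ _, (1 : ℝ) ∂ν := integral_mono hi (integrable_const 1) h1
      _ = 1 := by simp

theorem plq_cont {G : Type} [Group G] [TopologicalSpace G] [IsTopologicalGroup G] (X : Cx)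
    (f : X.F) : Continuous fun U : X.E → G => X.plq U f := by
  have h : ∀ e, Continuous fun U : X.E → G => U e := fun e => continuous_apply e
  unfold Cx.plq
  exact (((h _).mul (h _)).mul (h _).inv).mul (h _).inv

theorem S_cont {G : Type} [Group G] [TopologicalSpace G] [IsTopologicalGroup G] (X : Cx)
    {w : G → ℝ} (hw : Continuous w) : Continuous fun U : X.E → G => X.S w U := by
  unfold Cx.S
  exact continuous_finsetSum _ fun f _ => hw.comp (plq_cont X f)

theorem third {N : ℕ} {G : Subgroup (UU N)} [MeasurableSpace G] [BorelSpace G]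
    [CompactSpace G] [SecondCountableTopology G] (μ : Measure G) [IsProbabilityMeasure μ] {c : ℝ}
    {D : ℕ} (hc : 0 < c) {β r : ℝ} (hβ0 : 0 < β) (hr0 : 0 < r) (hr2 : r ^ 2 = 1 / β)
    (hBm : MeasurableSet {g : G | ‖mt g - 1‖ ≤ r})
    (hB : c * r ^ D ≤ μ.real {g : G | ‖mt g - 1‖ ≤ r}) (X : Cx) :
    Real.exp (-(8 * Fintype.card X.F)) * (c * r ^ D) ^ Fintype.card X.E ≤
      X.Z μ (we (G := G)) β ∧ X.Z μ (we (G := G)) β ≤ 1 := by
  have hSc : Continuous fun U : X.E → G => X.S we U := S_cont X we_cont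
  have hfm : Measurable fun U : X.E → G => Real.exp (-(β * X.S we U)) := by
    have h1 : Continuous fun U : X.E → G => Real.exp (-(β * X.S we U)) :=
      Real.continuous_exp.comp (hSc.const_mul β).neg
    exact h1.measurable
  have hS0 : ∀ U : X.E → G, 0 ≤ X.S we U := fun U =>
    Finset.sum_nonneg fun f _ => we_nonneg _
  have hle1 : ∀ U : X.E → G, Real.exp (-(β * X.S we U)) ≤ 1 := by
    intro U
    rw [Real.exp_le_one_iff]
    have := mul_nonneg hβ0.le (hS0 U)
    linarith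
  obtain ⟨h1, h2⟩ := lowbd (Measure.pi fun _ : X.E => μ) hfm (fun _ => (Real.exp_pos _).le) hle1
  refine ⟨?_, h2⟩
  have hbd : ∀ U ∈ Set.pi Set.univ fun _ : X.E => {g : G | ‖mt g - 1‖ ≤ r},
      Real.exp (-(8 * Fintype.card X.F)) ≤ Real.exp (-(β * X.S we U)) := by
    intro U hU
    apply Real.exp_le_exp.2
    have hU' : ∀ e, ‖mt (U e) - 1‖ ≤ r := fun e => hU e (Set.mem_univ e)
    have h4 : X.S we U ≤ Fintype.card X.F * (8 * (1 / β)) := by
      unfold Cx.S
      calc ∑ f, we (X.plq U f) ≤ ∑ _f : X.F, 8 * (1 / β) := by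
            refine Finset.sum_le_sum fun f _ => ?_
            rw [we_eq]
            have h5 := plq_nrm X U hU' f
            have h6 : ‖mt (X.plq U f) - 1‖ ^ 2 ≤ (4 * r) ^ 2 :=
              pow_le_pow_left₀ (norm_nonneg _) h5 2
            rw [mul_pow, hr2] at h6
            linarith
        _ = _ := by rw [Finset.sum_const, Finset.card_univ, nsmul_eq_mul]
    have h5 := mul_le_mul_of_nonneg_left h4 hβ0.le
    have h6 : β * (Fintype.card X.F * (8 * (1 / β))) = 8 * Fintype.card X.F := by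
      field_simp
    linarith
  have h3 := h1 (Set.pi Set.univ fun _ : X.E => {g : G | ‖mt g - 1‖ ≤ r})
    (Real.exp (-(8 * Fintype.card X.F))) (MeasurableSet.univ_pi fun _ => hBm) hbd
  have h4 : (Measure.pi fun _ : X.E => μ).real
      (Set.pi Set.univ fun _ : X.E => {g : G | ‖mt g - 1‖ ≤ r}) =
        μ.real {g : G | ‖mt g - 1‖ ≤ r} ^ Fintype.card X.E := by
    unfold Measure.real
    rw [Measure.pi_pi, ENNReal.toReal_prod, Finset.prod_const, Finset.card_univ]
  rw [h4] at h3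
  refine le_trans (mul_le_mul_of_nonneg_left ?_ (Real.exp_pos _).le) h3
  exact pow_le_pow_left₀ (by positivity) hB _

theorem first {N : ℕ} {G : Subgroup (UU N)} [MeasurableSpace G] [BorelSpace G]
    [CompactSpace G] [SecondCountableTopology G] (μ : Measure G) [IsProbabilityMeasure μ]
    {β r : ℝ} (hβ0 : 0 < β) (hr2 : r ^ 2 = 1 / β)
    (hBm : MeasurableSet {g : G | ‖mt g - 1‖ ≤ r}) :
    Real.exp (-(1 / 2)) * μ.real {g : G | ‖mt g - 1‖ ≤ r} ≤ kap μ (we (G := G)) β ∧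
      kap μ (we (G := G)) β ≤ 1 := by
  have hfm : Measurable fun g : G => Real.exp (-(β * we g)) := by
    have h1 : Continuous fun g : G => Real.exp (-(β * we g)) :=
      Real.continuous_exp.comp (we_cont.const_mul β).neg
    exact h1.measurable
  have hle1 : ∀ g : G, Real.exp (-(β * we g)) ≤ 1 := by
    intro g
    rw [Real.exp_le_one_iff]
    have := mul_nonneg hβ0.le (we_nonneg g)
    linarith
  obtain ⟨h1, h2⟩ := lowbd μ hfm (fun _ => (Real.exp_pos _).le) hle1
  refine ⟨?_, h2⟩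
  refine h1 {g : G | ‖mt g - 1‖ ≤ r} (Real.exp (-(1 / 2))) hBm ?_
  intro g hg
  apply Real.exp_le_exp.2
  have hg' : ‖mt g - 1‖ ≤ r := hg
  have h4 : ‖mt g - 1‖ ^ 2 ≤ r ^ 2 := pow_le_pow_left₀ (norm_nonneg _) hg' 2
  rw [hr2] at h4
  have h5 : β * ‖mt g - 1‖ ^ 2 ≤ β * (1 / β) := mul_le_mul_of_nonneg_left h4 hβ0.le
  rw [mul_one_div_cancel hβ0.ne'] at h5
  rw [we_eq]
  linarith

theorem t_LOW : S_LOW := by
  intro N G hG _ _ μ _ _
  obtain ⟨c, hc, D, hball⟩ := Pool.Agent.Y614.AF.af_ball G hG μ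
  have hcomp : CompactSpace G := Pool.Agent.Y16.AF.compactG hG
  have hsc : SecondCountableTopology G := Pool.Agent.Y16.AF.scG
  have hB : ∀ r : ℝ, 0 < r → r ≤ 1 → c * r ^ D ≤ μ.real {g : G | ‖mt g - 1‖ ≤ r} :=
    fun r h1 h2 => hball r h1 h2
  have hBm : ∀ r : ℝ, MeasurableSet {g : G | ‖mt g - 1‖ ≤ r} := by
    intro r
    have h1 : Continuous (mt : G → Mt N) := continuous_subtype_val.comp continuous_subtype_val
    exact (isClosed_le ((h1.sub continuous_const).norm) continuous_const).measurableSet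
  have hc1 : c ≤ 1 := by
    have h1 := hB 1 one_pos le_rfl
    rw [one_pow, mul_one] at h1
    exact h1.trans measureReal_le_one
  have hlc : 0 ≤ -Real.log c := by
    have := Real.log_nonpos hc.le hc1
    linarith
  set s : ℝ := ‖(1 : Mt N)‖ with hs
  have hs0 : 0 ≤ s := norm_nonneg _
  refine ⟨8 + -Real.log c + D + 4 * s, by
    have : (0 : ℝ) ≤ D := Nat.cast_nonneg D
    linarith, ?_⟩
  set C : ℝ := 8 + -Real.log c + D + 4 * s with hC
  intro β hβ
  have hD0 : (0 : ℝ) ≤ D := Nat.cast_nonneg D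
  have hβ0 : 0 < β := by linarith
  have hlog3 : 1 ≤ Real.log 3 := by
    rw [Real.le_log_iff_exp_le (by norm_num)]
    have := Real.exp_one_lt_d9
    linarith
  have hlogβ : 1 ≤ Real.log β := hlog3.trans (Real.log_le_log (by norm_num) hβ)
  -- the radius
  set r : ℝ := (Real.sqrt β)⁻¹ with hr
  have hsq1 : 1 ≤ Real.sqrt β := by
    rw [Real.one_le_sqrt]
    linarith
  have hr0 : 0 < r := by positivity
  have hr1 : r ≤ 1 := inv_le_one_of_one_le₀ hsq1
  have hr2 : r ^ 2 = 1 / β := by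
    rw [hr, inv_pow, Real.sq_sqrt hβ0.le, one_div]
  have hlogr : Real.log r = -(Real.log β / 2) := by
    rw [hr, Real.log_inv, Real.log_sqrt hβ0.le]
  refine ⟨?_, ?_, ?_⟩
  · -- one plaquette
    obtain ⟨h3, h2⟩ := first μ hβ0 hr2 (hBm r)
    refine ⟨?_, h2⟩
    have h4 : Real.exp (-(1 / 2)) * (c * r ^ D) ≤ kap μ (we (G := G)) β :=
      (mul_le_mul_of_nonneg_left (hB r hr0 hr1) (Real.exp_pos _).le).trans h3
    have h5 := Real.log_le_log (by positivity) h4
    rw [Real.log_mul (Real.exp_pos _).ne' (by positivity), Real.log_exp,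
      Real.log_mul hc.ne' (by positivity), Real.log_pow, hlogr] at h5
    nlinarith [mul_le_mul_of_nonneg_left hlogβ hlc, mul_le_mul_of_nonneg_left hlogβ hs0,
      mul_nonneg hD0 (by linarith : (0 : ℝ) ≤ Real.log β)]
  · intro m hm
    have hm1 : (1 : ℝ) ≤ m := by exact_mod_cast hm
    have hm0 : (0 : ℝ) < m := by linarith
    have hmβ : 3 ≤ m * β := by nlinarith
    have hmβ0 : 0 < m * β := by linarith
    have hlogm : 1 ≤ Real.log (m * β) := hlog3.trans (Real.log_le_log (by norm_num) hmβ)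
    have hρ0 : 0 < (m * β)⁻¹ := by positivity
    have hρ1 : (m * β)⁻¹ ≤ 1 := inv_le_one_of_one_le₀ (by linarith)
    have h1 := hB (m * β)⁻¹ hρ0 hρ1
    have h2 : 0 < c * (m * β)⁻¹ ^ D := by positivity
    refine ⟨{g : G | ‖mt g - 1‖ ≤ (m * β)⁻¹}, 4 * s * (m * β)⁻¹, hBm _, ?_, ?_,
      lt_of_lt_of_le h2 h1⟩
    · intro P hP a g
      refine (we_conj P a g).trans ?_
      have hP' : ‖mt P - 1‖ ≤ (m * β)⁻¹ := hP
      exact mul_le_mul_of_nonneg_left hP' (by positivity)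
    · have h3 : β * (m * (4 * s * (m * β)⁻¹)) = 4 * s := by
        field_simp
      rw [h3]
      have h4 : c * (m * β)⁻¹ ^ D * Real.exp (-(4 * s)) ≤
          μ.real {g : G | ‖mt g - 1‖ ≤ (m * β)⁻¹} * Real.exp (-(4 * s)) :=
        mul_le_mul_of_nonneg_right h1 (Real.exp_pos _).le
      have h5 := Real.log_le_log (by positivity) h4
      rw [Real.log_mul h2.ne' (Real.exp_pos _).ne', Real.log_exp,
        Real.log_mul hc.ne' (by positivity), Real.log_pow, Real.log_inv] at h5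
      nlinarith [mul_le_mul_of_nonneg_left hlogm hlc, mul_le_mul_of_nonneg_left hlogm hs0,
        mul_nonneg hD0 (by linarith : (0 : ℝ) ≤ Real.log (m * β))]
  · intro X
    obtain ⟨h5, h2⟩ := third μ hc hβ0 hr0 hr2 (hBm r) (hB r hr0 hr1) X
    refine ⟨?_, h2⟩
    have h6 := Real.log_le_log (by positivity) h5
    rw [Real.log_mul (Real.exp_pos _).ne' (by positivity), Real.log_exp, Real.log_pow,
      Real.log_mul hc.ne' (by positivity), Real.log_pow, hlogr] at h6
    refine le_trans ?_ h6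
    have hE : (0 : ℝ) ≤ Fintype.card X.E := Nat.cast_nonneg _
    have hF : (0 : ℝ) ≤ Fintype.card X.F := Nat.cast_nonneg _
    have hlb : 0 ≤ Real.log β := by linarith
    have e1 : (Fintype.card X.F : ℝ) * 8 ≤ Fintype.card X.F * (C * Real.log β) := by
      refine mul_le_mul_of_nonneg_left ?_ hF
      nlinarith
    have e2 : (Fintype.card X.E : ℝ) * (-Real.log c + D * (Real.log β / 2)) ≤
        Fintype.card X.E * (C * Real.log β) := by
      refine mul_le_mul_of_nonneg_left ?_ hE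
      nlinarith [mul_le_mul_of_nonneg_left hlogβ hlc, mul_nonneg hD0 hlb,
        mul_le_mul_of_nonneg_left hlogβ hs0]
    have e3 : -(C * (Fintype.card X.E + Fintype.card X.F) * Real.log β) =
        -(Fintype.card X.E * (C * Real.log β)) - Fintype.card X.F * (C * Real.log β) := by ring
    rw [e3]
    linarith

end Pool.Agent.N899.BB.Low
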