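import Mathlib
import Pool.Agent.N899.BB.Stm
import Pool.Agent.Y614.AF.Ball
import Pool.Agent.Y421.AF.Mom

/-!
# BB/MOM: moments of the size of the configuration
-/

set_option autoImplicit false

open MeasureTheory Matrix Filter Topology
open scoped Matrix.Norms.Frobenius
open Pool.Agent.Y14.Wilson

namespace Pool.Agent.N899.BB.Mom

noncomputable section

variable {N : ℕ} {G : Subgroup (UU N)}

/-! ### Norms -/

lemma mt_one : mt (1 : G) = 1 := rfl

lemma norm_sub_sq (g : G) : ‖mt g - 1‖ ^ 2 = 2 * we g := Pool.Agent.Y421.AF.norm_sub_sq g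

lemma norm_inv_sub (g : G) : ‖mt g⁻¹ - 1‖ = ‖mt g - 1‖ := Pool.Agent.Y421.AF.norm_inv_sub g

lemma norm_mul_sub (g h : G) : ‖mt (g * h) - 1‖ ≤ ‖mt g - 1‖ + ‖mt h - 1‖ :=
  Pool.Agent.Y421.AF.norm_mul_sub g h

lemma we_nonneg (g : G) : 0 ≤ we g := by
  have := norm_sub_sq g
  nlinarith [sq_nonneg ‖mt g - 1‖]

lemma mt_cont : Continuous (mt : G → Mt N) :=
  continuous_subtype_val.comp continuous_subtype_val

lemma we_cont : Continuous (we : G → ℝ) := by
  unfold we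
  exact Complex.continuous_re.comp (Continuous.matrix_trace (continuous_const.sub mt_cont))

/-! ### The action -/

variable (Q : Sys)

lemma cp_nonneg {x : ℝ} (hx : 0 ≤ x) (p : Q.P) : 0 ≤ Q.cp x p := by
  unfold Sys.cp
  split_ifs
  · exact zero_le_one
  · exact hx

lemma cp_le {x : ℝ} (hx : x ≤ 1) (p : Q.P) : Q.cp x p ≤ 1 := by
  unfold Sys.cp
  split_ifs
  · exact le_rfl
  · exact hx

lemma S_nonneg {x : ℝ} (hx : 0 ≤ x) (U : Q.L → G) : 0 ≤ Q.S we (Q.cp x) U :=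
  Finset.sum_nonneg fun p _ => mul_nonneg (cp_nonneg Q hx p) (we_nonneg _)

lemma ev_le {r : ℝ} (hr : 0 ≤ r) (U : Q.L → G) (hU : ∀ w, ‖mt (U w) - 1‖ ≤ r) (o : Option Q.L) :
    ‖mt (ev U o) - 1‖ ≤ r := by
  cases o with
  | none =>
    have : mt (ev U none) = (1 : Mt N) := rfl
    rw [this, sub_self, norm_zero]
    exact hr
  | some w => exact hU w

lemma plq_le {r : ℝ} (hr : 0 ≤ r) (U : Q.L → G) (hU : ∀ w, ‖mt (U w) - 1‖ ≤ r) (p : Q.P) :
    ‖mt (Q.plq U p) - 1‖ ≤ 4 * r := by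
  unfold Sys.plq
  have h := fun i => ev_le Q hr U hU (Q.wd p i)
  refine (norm_mul_sub _ _).trans ?_
  have a1 := norm_mul_sub (ev U (Q.wd p 0) * ev U (Q.wd p 1)) (ev U (Q.wd p 2))⁻¹
  have a2 := norm_mul_sub (ev U (Q.wd p 0)) (ev U (Q.wd p 1))
  rw [norm_inv_sub] at a1 ⊢
  have b0 := h 0
  have b1 := h 1
  have b2 := h 2
  have b3 := h 3
  linarith

lemma S_le {x : ℝ} (hx0 : 0 ≤ x) (hx : x ≤ 1) {r : ℝ} (hr : 0 ≤ r) {m : ℕ} (hm : Fintype.card Q.P ≤ m)
    (U : Q.L → G) (hU : ∀ w, ‖mt (U w) - 1‖ ≤ r) : Q.S we (Q.cp x) U ≤ 8 * m * r ^ 2 := by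
  unfold Sys.S
  have h : ∀ p : Q.P, Q.cp x p * we (Q.plq U p) ≤ 8 * r ^ 2 := by
    intro p
    have h1 := plq_le Q hr U hU p
    have h2 := norm_sub_sq (Q.plq U p)
    have h3 := norm_nonneg (mt (Q.plq U p) - 1)
    have h4 : we (Q.plq U p) ≤ 8 * r ^ 2 := by nlinarith
    exact (mul_le_of_le_one_left (we_nonneg _) (cp_le Q hx p)).trans h4
  refine (Finset.sum_le_sum fun p _ => h p).trans ?_
  rw [Finset.sum_const, Finset.card_univ, nsmul_eq_mul]
  have h5 : ((Fintype.card Q.P : ℕ) : ℝ) ≤ m := by exact_mod_cast hm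
  have h6 : 0 ≤ 8 * r ^ 2 := by positivity
  nlinarith

lemma ev_cont (o : Option Q.L) : Continuous fun U : Q.L → G => ev U o := by
  cases o with
  | none => exact continuous_const
  | some w => exact continuous_apply w

lemma plq_cont (p : Q.P) : Continuous fun U : Q.L → G => Q.plq U p := by
  unfold Sys.plq
  exact (((ev_cont Q _).mul (ev_cont Q _)).mul (ev_cont Q _).inv).mul (ev_cont Q _).inv

lemma S_cont (c : Q.P → ℝ) : Continuous (Q.S we c : (Q.L → G) → ℝ) := by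
  unfold Sys.S
  exact continuous_finsetSum _ fun p _ => continuous_const.mul (we_cont.comp (plq_cont Q p))

/-! ### Coercivity -/

lemma step (U : Q.L → G) (w : Q.L) :
    ‖mt (U w) - 1‖ ≤ ‖mt (Q.plq U (Q.bp w)) - 1‖ + ‖mt (ev U (Q.pr w)) - 1‖ := by
  rcases Q.bp_wd w with ⟨h0, h1, h2, h3⟩ | ⟨h0, h1, h2, h3⟩
  · have h4 : Q.plq U (Q.bp w) = ev U (Q.pr w) * (U w)⁻¹ := by
      unfold Sys.plq
      rw [h0, h1, h2, h3]
      simp [ev]
    have h5 : U w = (Q.plq U (Q.bp w))⁻¹ * ev U (Q.pr w) := by rw [h4]; group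
    calc ‖mt (U w) - 1‖ = ‖mt ((Q.plq U (Q.bp w))⁻¹ * ev U (Q.pr w)) - 1‖ := by rw [← h5]
      _ ≤ ‖mt (Q.plq U (Q.bp w))⁻¹ - 1‖ + ‖mt (ev U (Q.pr w)) - 1‖ := norm_mul_sub _ _
      _ = _ := by rw [norm_inv_sub]
  · have h4 : Q.plq U (Q.bp w) = U w * (ev U (Q.pr w))⁻¹ := by
      unfold Sys.plq
      rw [h0, h1, h2, h3]
      simp [ev]
    have h5 : U w = Q.plq U (Q.bp w) * ev U (Q.pr w) := by rw [h4]; group
    calc ‖mt (U w) - 1‖ = ‖mt (Q.plq U (Q.bp w) * ev U (Q.pr w)) - 1‖ := by rw [← h5]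
      _ ≤ _ := norm_mul_sub _ _

lemma chain (U : Q.L → G) : ∀ (k : ℕ) (w : Q.L), Q.rk w = k →
    ‖mt (U w) - 1‖ ≤ ‖mt (Q.plq U (Q.bp w)) - 1‖ +
      ∑ w' ∈ Finset.univ.filter (fun w' => Q.rk w' < k), ‖mt (Q.plq U (Q.bp w')) - 1‖ := by
  intro k
  induction k using Nat.strong_induction_on with
  | _ k ih =>
    intro w hw
    refine (step Q U w).trans (add_le_add le_rfl ?_)
    cases h : Q.pr w with
    | none =>
      have : mt (ev U (none : Option Q.L)) = (1 : Mt N) := rfl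
      rw [this, sub_self, norm_zero]
      exact Finset.sum_nonneg fun _ _ => norm_nonneg _
    | some w' =>
      have h1 : Q.rk w' < k := hw ▸ Q.rk_lt w w' h
      have h2 := ih (Q.rk w') h1 w' rfl
      change ‖mt (U w') - 1‖ ≤ _
      refine h2.trans ?_
      have h3 : w' ∉ Finset.univ.filter (fun v => Q.rk v < Q.rk w') := by simp
      rw [← Finset.sum_insert (f := fun v => ‖mt (Q.plq U (Q.bp v)) - 1‖) h3]
      refine Finset.sum_le_sum_of_subset_of_nonneg ?_ fun _ _ _ => norm_nonneg _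
      intro v hv
      rw [Finset.mem_filter]
      refine ⟨Finset.mem_univ _, ?_⟩
      rcases Finset.mem_insert.1 hv with hv | hv
      · rw [hv]; exact h1
      · exact (Finset.mem_filter.1 hv).2.trans h1

lemma link_le (U : Q.L → G) (w : Q.L) : ‖mt (U w) - 1‖ ≤ ∑ w', ‖mt (Q.plq U (Q.bp w')) - 1‖ := by
  refine (chain Q U (Q.rk w) w rfl).trans ?_
  have h3 : w ∉ Finset.univ.filter (fun v => Q.rk v < Q.rk w) := by simp
  rw [← Finset.sum_insert (f := fun v => ‖mt (Q.plq U (Q.bp v)) - 1‖) h3]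
  exact Finset.sum_le_sum_of_subset_of_nonneg (Finset.subset_univ _) fun _ _ _ => norm_nonneg _

lemma basic_le {x : ℝ} (hx : 0 ≤ x) (U : Q.L → G) :
    ∑ w, we (Q.plq U (Q.bp w)) ≤ Q.S we (Q.cp x) U := by
  unfold Sys.S
  rw [← Finset.sum_image (s := Finset.univ) (g := Q.bp) (f := fun p => we (Q.plq U p))
    (fun a _ b _ h => Q.bp_inj h)]
  calc ∑ p ∈ Finset.univ.image Q.bp, we (Q.plq U p) =
      ∑ p ∈ Finset.univ.image Q.bp, Q.cp x p * we (Q.plq U p) := by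
        refine Finset.sum_congr rfl fun p hp => ?_
        obtain ⟨w, -, hw⟩ := Finset.mem_image.1 hp
        have : Q.cp x p = 1 := if_pos ⟨w, hw⟩
        rw [this, one_mul]
    _ ≤ _ := Finset.sum_le_sum_of_subset_of_nonneg (Finset.subset_univ _) fun p _ _ =>
        mul_nonneg (cp_nonneg Q hx p) (we_nonneg _)

lemma r_sq {x : ℝ} (hx : 0 ≤ x) {m : ℕ} (hm : Fintype.card Q.L ≤ m) (U : Q.L → G) :
    Q.r U ^ 2 ≤ 2 * (m : ℝ) ^ 3 * Q.S we (Q.cp x) U := by
  set T := ∑ w', ‖mt (Q.plq U (Q.bp w')) - 1‖ with hT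
  have hT0 : 0 ≤ T := Finset.sum_nonneg fun _ _ => norm_nonneg _
  have hm' : ((Fintype.card Q.L : ℕ) : ℝ) ≤ m := by exact_mod_cast hm
  have hr0 : 0 ≤ Q.r U := Finset.sum_nonneg fun _ _ => norm_nonneg _
  have h1 : Q.r U ≤ m * T := by
    unfold Sys.r
    calc ∑ w, ‖mt (U w) - 1‖ ≤ ∑ _w : Q.L, T := Finset.sum_le_sum fun w _ => link_le Q U w
      _ = Fintype.card Q.L * T := by rw [Finset.sum_const, Finset.card_univ, nsmul_eq_mul]
      _ ≤ m * T := mul_le_mul_of_nonneg_right hm' hT0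
  have h2 : T ^ 2 ≤ m * ∑ w', ‖mt (Q.plq U (Q.bp w')) - 1‖ ^ 2 := by
    refine (sq_sum_le_card_mul_sum_sq (s := (Finset.univ : Finset Q.L))
      (f := fun w => ‖mt (Q.plq U (Q.bp w)) - 1‖)).trans ?_
    rw [Finset.card_univ]
    exact mul_le_mul_of_nonneg_right hm' (Finset.sum_nonneg fun _ _ => sq_nonneg _)
  have h3 : ∑ w', ‖mt (Q.plq U (Q.bp w')) - 1‖ ^ 2 ≤ 2 * Q.S we (Q.cp x) U := by
    simp only [norm_sub_sq]
    rw [← Finset.mul_sum]
    exact mul_le_mul_of_nonneg_left (basic_le Q hx U) (by norm_num)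
  have h4 : (0:ℝ) ≤ m := Nat.cast_nonneg m
  calc Q.r U ^ 2 ≤ (m * T) ^ 2 := pow_le_pow_left₀ hr0 h1 2
    _ = (m:ℝ) ^ 2 * T ^ 2 := by ring
    _ ≤ (m:ℝ) ^ 2 * (m * (2 * Q.S we (Q.cp x) U)) :=
        mul_le_mul_of_nonneg_left (h2.trans (mul_le_mul_of_nonneg_left h3 h4)) (by positivity)
    _ = _ := by ring

/-! ### The partition function -/

lemma Z_lower [MeasurableSpace G] [BorelSpace G] (μ : Measure G) [IsProbabilityMeasure μ]
    (c : ℝ) (hc : 0 < c) (D : ℕ)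
    (hcD : ∀ r : ℝ, 0 < r → r ≤ 1 → c * r ^ D ≤ (μ {g : G | ‖mt g - 1‖ ≤ r}).toReal)
    (m : ℕ) (hm1 : 1 ≤ m) (hmL : Fintype.card Q.L ≤ m) (hmP : Fintype.card Q.P ≤ m)
    {x : ℝ} (hx0 : 0 ≤ x) (hx1 : x ≤ 1) (β : ℝ) (hβ : 3 ≤ β) :
    Real.exp (-((8 + Real.log (min c 1)⁻¹ + D) * (m : ℝ) * Real.log β)) ≤
      ∫ U : Q.L → G, Real.exp (-(β * Q.S we (Q.cp x) U)) ∂(Measure.pi fun _ => μ) := by
  haveI : SecondCountableTopology G := Pool.Agent.Y421.AF.scG
  set c0 := min c 1 with hc0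
  have hc0p : 0 < c0 := lt_min hc one_pos
  have hc01 : c0 ≤ 1 := min_le_right _ _
  have hβ0 : 0 < β := by linarith
  set r := (Real.sqrt β)⁻¹ with hr
  have hsq : 0 < Real.sqrt β := Real.sqrt_pos.2 hβ0
  have hr0 : 0 < r := inv_pos.2 hsq
  have hr1 : r ≤ 1 := inv_le_one_of_one_le₀ (Real.one_le_sqrt.2 (by linarith))
  have hr2 : r ^ 2 = 1 / β := by rw [hr, inv_pow, Real.sq_sqrt hβ0.le, one_div]
  have hlog := Pool.Agent.Y421.AF.one_le_log hβ
  have hlr : Real.log r = -(1 / 2 * Real.log β) := by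
    rw [hr, Real.log_inv, Real.log_sqrt hβ0.le]; ring
  set b := {g : G | ‖mt g - 1‖ ≤ r} with hb
  have hbm : MeasurableSet b :=
    (isClosed_le (mt_cont.sub continuous_const).norm continuous_const).measurableSet
  set B : Set (Q.L → G) := Set.pi Set.univ fun _ => b with hB
  have hBm : MeasurableSet B := MeasurableSet.univ_pi fun _ => hbm
  have hcont : Continuous fun U : Q.L → G => Real.exp (-(β * Q.S we (Q.cp x) U)) :=
    Real.continuous_exp.comp (continuous_const.mul (S_cont Q _)).neg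
  have hint : Integrable (fun U : Q.L → G => Real.exp (-(β * Q.S we (Q.cp x) U)))
      (Measure.pi fun _ => μ) := by
    refine Integrable.mono' (integrable_const (1 : ℝ)) hcont.aestronglyMeasurable
      (Filter.Eventually.of_forall fun U => ?_)
    rw [Real.norm_eq_abs, Real.abs_exp]
    refine Real.exp_le_one_iff.2 ?_
    have := S_nonneg Q hx0 U
    nlinarith
  have h1 : ∫ U : Q.L → G, B.indicator (fun _ => Real.exp (-(8 * (m : ℝ)))) U
      ∂(Measure.pi fun _ => μ) ≤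
      ∫ U : Q.L → G, Real.exp (-(β * Q.S we (Q.cp x) U)) ∂(Measure.pi fun _ => μ) := by
    refine integral_mono ((integrable_const _).indicator hBm) hint fun U => ?_
    by_cases hU : U ∈ B
    · rw [Set.indicator_of_mem hU]
      refine Real.exp_le_exp.2 ?_
      have h2 := S_le Q hx0 hx1 hr0.le hmP U (fun w => hU w (Set.mem_univ w))
      rw [hr2] at h2
      have h3 : β * Q.S we (Q.cp x) U ≤ β * (8 * (m : ℝ) * (1 / β)) :=
        mul_le_mul_of_nonneg_left h2 hβ0.le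
      have h4 : β * (8 * (m : ℝ) * (1 / β)) = 8 * (m : ℝ) := by
        field_simp
      linarith
    · rw [Set.indicator_of_notMem hU]
      exact (Real.exp_pos _).le
  refine le_trans ?_ h1
  rw [integral_indicator_const _ hBm, smul_eq_mul]
  have h5 : (c0 * r ^ D) ^ m ≤ (Measure.pi fun _ : Q.L => μ).real B := by
    rw [Measure.real, hB, Measure.pi_pi, Finset.prod_const, Finset.card_univ, ENNReal.toReal_pow]
    have h6 : c0 * r ^ D ≤ (μ b).toReal :=
      (mul_le_mul_of_nonneg_right (min_le_left _ _) (by positivity)).trans (hcD r hr0 hr1)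
    have h7 : c0 * r ^ D ≤ 1 := by
      have := pow_le_one₀ hr0.le hr1 (n := D)
      nlinarith [pow_pos hr0 D]
    calc (c0 * r ^ D) ^ m ≤ (c0 * r ^ D) ^ (Fintype.card Q.L) :=
          pow_le_pow_of_le_one (by positivity) h7 hmL
      _ ≤ _ := pow_le_pow_left₀ (by positivity) h6 _
  refine le_trans ?_ (mul_le_mul_of_nonneg_right h5 (Real.exp_pos _).le)
  have h9 : c0 * r ^ D = Real.exp (Real.log c0 + D * Real.log r) := by
    rw [Real.exp_add, Real.exp_log hc0p, mul_comm (D : ℝ), Real.exp_mul, Real.exp_log hr0,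
      Real.rpow_natCast]
  rw [h9, ← Real.exp_nat_mul, ← Real.exp_add]
  refine Real.exp_le_exp.2 ?_
  rw [hlr, Real.log_inv]
  have hlc : Real.log c0 ≤ 0 := Real.log_nonpos hc0p.le hc01
  have hL : 0 < (m : ℝ) := by exact_mod_cast hm1
  have hD : (0:ℝ) ≤ D := Nat.cast_nonneg D
  nlinarith [mul_nonneg (mul_nonneg hL.le (neg_nonneg.2 hlc)) (sub_nonneg.2 hlog),
    mul_nonneg hL.le (sub_nonneg.2 hlog), mul_nonneg (mul_nonneg hL.le hD) (by linarith : 0 ≤ Real.log β)]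

theorem t_MOM : S_MOM := by
  intro N G hG _ _ μ _ _
  obtain ⟨c, hc, D, hcD⟩ := Pool.Agent.Y614.AF.af_ball G hG μ
  set C1 := 8 + Real.log (min c 1)⁻¹ + (D : ℝ) with hC1
  have hc0p : 0 < min c 1 := lt_min hc one_pos
  have hlc : 0 ≤ Real.log (min c 1)⁻¹ := by
    rw [Real.log_inv]
    have := Real.log_nonpos hc0p.le (min_le_right _ _)
    linarith
  have hC1' : 8 ≤ C1 := by
    have : (0 : ℝ) ≤ D := Nat.cast_nonneg D
    rw [hC1]; linarith
  refine ⟨36 * C1, by linarith, fun Q m hm1 hmL hmP x hx0 hx1 β hβ p hp => ?_⟩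
  have hlog := Pool.Agent.Y421.AF.one_le_log hβ
  have hmp : (1 : ℝ) ≤ m := by exact_mod_cast hm1
  have hm : 1 ≤ C1 * (m : ℝ) * Real.log β := by
    have h1 : 1 ≤ C1 * (m : ℝ) := by nlinarith
    nlinarith
  have hβ0 : 0 < β := by linarith
  have h := Pool.Agent.Y421.AF.abs_mom (Measure.pi fun _ : Q.L => μ) (Q.S we (Q.cp x) : (Q.L → G) → ℝ)
    Q.r β (2 * (m : ℝ) ^ 3) (C1 * (m : ℝ) * Real.log β) hβ0 (by positivity) hm
    (S_nonneg Q hx0) (fun U => Finset.sum_nonneg fun w _ => norm_nonneg _) (r_sq Q hx0 hmL)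
    (Z_lower Q μ c hc D hcD m hm1 hmL hmP hx0 hx1 β hβ) p hp
  refine h.trans (pow_le_pow_left₀ (Real.sqrt_nonneg _) (Real.sqrt_le_sqrt ?_) p)
  refine div_le_div_of_nonneg_right ?_ hβ0.le
  have h2 : (m:ℝ) ^ 4 ≤ (m:ℝ) ^ 6 := pow_le_pow_right₀ hmp (by norm_num)
  have h3 : 18 * (2 * (m : ℝ) ^ 3) * (C1 * (m : ℝ) * Real.log β) = 36 * C1 * (m:ℝ) ^ 4 * Real.log β := by ring
  rw [h3]
  have h4 : 0 ≤ 36 * C1 := by linarith
  exact mul_le_mul_of_nonneg_right (mul_le_mul_of_nonneg_left h2 h4) (by linarith)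

end

end Pool.Agent.N899.BB.Mom
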