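import Mathlib
import Pool.Agent.N899.BB.Stm
import Pool.Agent.N899.SB.Kit

/-!
# Closed and open chains of a kernel: `S_OPEN`
-/

set_option autoImplicit false
set_option linter.unusedSectionVars false

open MeasureTheory Pool.Agent.N899.SB Pool.Agent.N899.SB.Kit

namespace Pool.Agent.N899.BB.Open

noncomputable section

section main

variable {Y : Type} [TopologicalSpace Y] [CompactSpace Y] [SecondCountableTopology Y]
  [MeasurableSpace Y] [BorelSpace Y] (μ : Measure Y) [IsProbabilityMeasure μ] {k : Y → Y → ℝ}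
  {φ : Y → ℝ}

/-- the iterates of `k`, applied to `φ` -/
def pf (μ : Measure Y) (k : Y → Y → ℝ) (φ : Y → ℝ) : ℕ → Y → ℝ
  | 0 => φ
  | n + 1 => fun u => ∫ w, k u w * pf μ k φ n w ∂μ

lemma pf_cont (hk : Continuous (fun p : Y × Y => k p.1 p.2)) (hφ : Continuous φ) :
    ∀ n, Continuous (pf μ k φ n) := by
  intro n
  induction n with
  | zero => exact hφ
  | succ n ih =>
    simp only [pf]
    refine cont_int μ (fun u w => k u w * pf μ k φ n w) ?_
    exact hk.mul (ih.comp continuous_snd)

lemma int_pos (f : Y → ℝ) (hf : Continuous f) (hp : ∀ u, 0 < f u) : 0 < ∫ u, f u ∂μ := by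
  rw [integral_pos_iff_support_of_nonneg (fun w => (hp w).le) (intble μ f hf)]
  have : Function.support f = Set.univ := by
    ext w
    simp [(hp w).ne']
  rw [this, measure_univ]
  exact one_pos

lemma int_le_one (f : Y → ℝ) (hf : Continuous f) (hp : ∀ u, f u ≤ 1) : ∫ u, f u ∂μ ≤ 1 := by
  have h1 : ∫ _ : Y, (1 : ℝ) ∂μ = 1 := by simp
  calc ∫ u, f u ∂μ ≤ ∫ _ : Y, (1 : ℝ) ∂μ := integral_mono (intble μ f hf) (integrable_const _) hp
    _ = 1 := h1

lemma pf_pos (hk : Continuous (fun p : Y × Y => k p.1 p.2)) (hφ : Continuous φ)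
    (hp : ∀ u v, 0 < k u v) (hp' : ∀ u, 0 < φ u ∧ φ u ≤ 1) (hle : ∀ u v, k u v ≤ φ u * φ v) :
    ∀ n u, 0 < pf μ k φ n u ∧ pf μ k φ n u ≤ 1 := by
  intro n
  induction n with
  | zero => exact hp'
  | succ n ih =>
    intro u
    simp only [pf]
    have hc : Continuous fun w => k u w * pf μ k φ n w :=
      (hk.comp (Continuous.prodMk_right u)).mul (pf_cont μ hk hφ n)
    refine ⟨int_pos μ _ hc fun w => mul_pos (hp _ _) (ih w).1, int_le_one μ _ hc fun w => ?_⟩
    have h1 : k u w ≤ 1 := (hle u w).trans (mul_le_one₀ (hp' u).2 (hp' w).1.le (hp' w).2)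
    exact mul_le_one₀ h1 (ih w).1.le (ih w).2

/-- symmetry -/
lemma symK (hk : Continuous (fun p : Y × Y => k p.1 p.2)) (hs : ∀ u v, k u v = k v u)
    (f g : Y → ℝ) (hf : Continuous f) (hg : Continuous g) :
    ∫ u, (∫ w, k u w * f w ∂μ) * g u ∂μ = ∫ u, f u * (∫ w, k u w * g w ∂μ) ∂μ := by
  have e1 : ∀ u, (∫ w, k u w * f w ∂μ) * g u = ∫ w, k u w * f w * g u ∂μ := by
    intro u
    rw [integral_mul_const]
  have e2 : ∀ w, f w * (∫ u, k w u * g u ∂μ) = ∫ u, k u w * f w * g u ∂μ := by
    intro w
    rw [← integral_const_mul]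
    congr 1
    funext u
    rw [hs w u]
    ring
  simp only [e1]
  rw [swap μ (fun u w => k u w * f w * g u)
    ((hk.mul (hf.comp continuous_snd)).mul (hg.comp continuous_fst))]
  congr 1
  funext w
  rw [e2]

lemma pf_add (hk : Continuous (fun p : Y × Y => k p.1 p.2)) (hs : ∀ u v, k u v = k v u)
    (hφ : Continuous φ) : ∀ a b, ∫ u, pf μ k φ a u * pf μ k φ b u ∂μ =
      ∫ u, φ u * pf μ k φ (a + b) u ∂μ := by
  intro a
  induction a with
  | zero =>
    intro b
    rw [Nat.zero_add]
    rfl
  | succ a ih =>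
    intro b
    have h1 : ∫ u, pf μ k φ (a + 1) u * pf μ k φ b u ∂μ =
        ∫ u, pf μ k φ a u * pf μ k φ (b + 1) u ∂μ :=
      symK μ hk hs (pf μ k φ a) (pf μ k φ b) (pf_cont μ hk hφ a) (pf_cont μ hk hφ b)
    rw [h1, ih, show a + (b + 1) = a + 1 + b by omega]

/-- the iterates of `k` applied to `φ` in terms of the iterated kernels -/
lemma pf_kit (hk : Continuous (fun p : Y × Y => k p.1 p.2)) (hφ : Continuous φ) :
    ∀ n u, pf μ k φ (n + 1) u = ∫ v, kit μ k n u v * φ v ∂μ := by
  intro n
  induction n with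
  | zero =>
    intro u
    rfl
  | succ n ih =>
    intro u
    have h0 : pf μ k φ (n + 1 + 1) u = ∫ w, k u w * pf μ k φ (n + 1) w ∂μ := rfl
    rw [h0]
    simp only [ih]
    have e1 : ∀ w, k u w * ∫ v, kit μ k n w v * φ v ∂μ =
        ∫ v, k u w * kit μ k n w v * φ v ∂μ := by
      intro w
      rw [← integral_const_mul]
      congr 1
      funext v
      ring
    have e2 : ∀ v, kit μ k (n + 1) u v * φ v = ∫ w, k u w * kit μ k n w v * φ v ∂μ := by
      intro v
      rw [integral_mul_const]
      rfl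
    simp only [e1, e2]
    refine swap μ (fun w v => k u w * kit μ k n w v * φ v) ?_
    exact ((kit_cont' μ hk 0 continuous_const continuous_fst).mul
      (kit_cont' μ hk n continuous_fst continuous_snd)).mul (hφ.comp continuous_snd)

/-- cutting -/
lemma cut (hk : Continuous (fun p : Y × Y => k p.1 p.2)) (hφ : Continuous φ)
    (hle : ∀ u v, k u v ≤ φ u * φ v) (f g : Y → ℝ) (hf : Continuous f) (hg : Continuous g)
    (hf0 : ∀ u, 0 ≤ f u) (hg0 : ∀ u, 0 ≤ g u) :
    ∫ u, f u * (∫ w, k u w * g w ∂μ) ∂μ ≤ (∫ u, φ u * f u ∂μ) * ∫ u, φ u * g u ∂μ := by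
  rw [← integral_mul_const]
  refine integral_mono ?_ ?_ fun u => ?_
  · refine intble μ _ (hf.mul ?_)
    exact cont_int μ (fun u w => k u w * g w) (hk.mul (hg.comp continuous_snd))
  · exact intble μ _ ((hφ.mul hf).mul continuous_const)
  · show f u * (∫ w, k u w * g w ∂μ) ≤ φ u * f u * ∫ w, φ w * g w ∂μ
    rw [mul_comm (φ u) (f u), mul_assoc]
    refine mul_le_mul_of_nonneg_left ?_ (hf0 u)
    rw [← integral_const_mul]
    refine integral_mono ?_ ?_ fun w => ?_
    · exact intble μ _ ((hk.comp (Continuous.prodMk_right u)).mul hg)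
    · exact intble μ _ (continuous_const.mul (hφ.mul hg))
    · show k u w * g w ≤ φ u * (φ w * g w)
      calc k u w * g w ≤ (φ u * φ w) * g w := mul_le_mul_of_nonneg_right (hle u w) (hg0 w)
        _ = _ := by ring

/-- convexity -/
lemma conv (c : ℕ → ℝ) (h0 : c 0 ≤ 0) (hc : ∀ i, 2 * c (i + 1) ≤ c i + c (i + 2)) (r R : ℕ)
    (hr : 1 ≤ r) (hR : r ≤ R) : ((R : ℝ) / r) * c r ≤ c R := by
  have h1 : ∀ i : ℕ, c i ≤ i * (c (i + 1) - c i) := by
    intro i
    induction i with
    | zero => simpa using h0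
    | succ i ih =>
      have h2 := hc i
      push_cast
      have h3 : (i : ℝ) * (c (i + 1) - c i) ≤ i * (c (i + 2) - c (i + 1)) :=
        mul_le_mul_of_nonneg_left (by linarith) (Nat.cast_nonneg i)
      have e : i + 1 + 1 = i + 2 := rfl
      rw [e]
      linarith
  have h2 : ∀ n : ℕ, ((r + n : ℕ) : ℝ) / r * c r ≤ c (r + n) := by
    intro n
    have hr' : (0 : ℝ) < r := by exact_mod_cast hr
    induction n with
    | zero =>
      rw [Nat.add_zero, div_self hr'.ne', one_mul]
    | succ n ih =>
      have h3 := h1 (r + n)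
      have h4 : (0 : ℝ) < ((r + n : ℕ) : ℝ) := by positivity
      rw [div_mul_eq_mul_div, div_le_iff₀ hr'] at ih ⊢
      have e : r + (n + 1) = r + n + 1 := by omega
      rw [e]
      push_cast at h3 h4 ih ⊢
      have h5 : ((r : ℝ) + n) * ((r + n + 1) * c r) ≤ (r + n) * (c (r + n + 1) * r) := by
        nlinarith
      exact le_of_mul_le_mul_left h5 h4
  obtain ⟨n, rfl⟩ := Nat.exists_eq_add_of_le hR
  exact h2 n

end main

/-- `S_OPEN` -/
theorem t_OPEN : S_OPEN := by
  intro Y _ _ _ _ _ μ _ k φ hk hp hs hφ hp' hle o ho0 ho1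
  have hpc := pf_cont μ hk hφ
  have hpp := pf_pos μ hk hφ hp hp' hle
  have ho : ∀ m, o m = ∫ u, φ u * pf μ k φ m u ∂μ := by
    intro m
    cases m with
    | zero => exact ho0
    | succ m =>
      rw [ho1]
      congr 1
      funext u
      rw [pf_kit μ hk hφ, ← integral_const_mul]
      congr 1
      funext v
      ring
  have ho' : ∀ a b, ∫ u, pf μ k φ a u * pf μ k φ b u ∂μ = o (a + b) := by
    intro a b
    rw [ho, pf_add μ hk hs hφ]
  have hopos : ∀ m, 0 < o m ∧ o m ≤ 1 := by
    intro m
    rw [ho]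
    exact ⟨int_pos μ _ (hφ.mul (hpc m)) fun u => mul_pos (hp' u).1 (hpp m u).1,
      int_le_one μ _ (hφ.mul (hpc m)) fun u =>
        mul_le_one₀ (hp' u).2 (hpp m u).1.le (hpp m u).2⟩
  have htpos : ∀ l, 0 < trk μ k l := fun l =>
    int_pos μ _ (kit_cont' μ hk l continuous_id continuous_id) fun u => kit_pos μ hk hp l u u
  refine ⟨hopos, ?_, ?_⟩
  · intro r R hr hR
    obtain ⟨R', rfl⟩ : ∃ R', R = R' + 1 := ⟨R - 1, by omega⟩
    have h1 : o (2 * (R' + 1)) ≤ trk μ k (2 * (R' + 1) - 1) := by
      have e : 2 * (R' + 1) - 1 = R' + R' + 1 := by omega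
      rw [e, trk_eq μ hk hs, show 2 * (R' + 1) = (R' + 1) + (R' + 1) by omega, ← ho']
      refine integral_mono (intble μ _ ((hpc _).mul (hpc _))) ?_ fun u => ?_
      · exact intble μ _ (cont_int μ _ ((kit_cont' μ hk _ continuous_fst continuous_snd).mul
          (kit_cont' μ hk _ continuous_fst continuous_snd)))
      · show pf μ k φ (R' + 1) u * pf μ k φ (R' + 1) u ≤
          ∫ v, kit μ k R' u v * kit μ k R' u v ∂μ
        rw [pf_kit μ hk hφ, ← pow_two]
        have hkc : Continuous fun v => kit μ k R' u v :=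
          kit_cont' μ hk _ continuous_const continuous_id
        refine (cs μ (fun v => kit μ k R' u v) φ hkc hφ).trans ?_
        have h2 : ∫ v, φ v ^ 2 ∂μ ≤ 1 := int_le_one μ _ (hφ.pow 2) fun v =>
          pow_le_one₀ (hp' v).1.le (hp' v).2
        have h3 : 0 ≤ ∫ v, kit μ k R' u v ^ 2 ∂μ := integral_nonneg fun v => by positivity
        calc (∫ v, kit μ k R' u v ^ 2 ∂μ) * ∫ v, φ v ^ 2 ∂μ ≤
            (∫ v, kit μ k R' u v ^ 2 ∂μ) * 1 := mul_le_mul_of_nonneg_left h2 h3
          _ = ∫ v, kit μ k R' u v * kit μ k R' u v ∂μ := by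
            rw [mul_one]
            simp only [pow_two]
    refine le_trans ?_ (Real.log_le_log (hopos _).1 h1)
    refine conv (fun i => Real.log (o (2 * i))) ?_ ?_ r (R' + 1) hr hR
    · exact Real.log_nonpos (hopos _).1.le (hopos _).2
    · intro i
      show 2 * Real.log (o (2 * (i + 1))) ≤ Real.log (o (2 * i)) + Real.log (o (2 * (i + 2)))
      have h2 := cs μ (pf μ k φ i) (pf μ k φ (i + 2)) (hpc _) (hpc _)
      simp only [pow_two (pf μ k φ _ _)] at h2
      rw [ho', ho', ho', show i + (i + 2) = 2 * (i + 1) by omega,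
        show i + i = 2 * i by omega, show i + 2 + (i + 2) = 2 * (i + 2) by omega] at h2
      have h3 := Real.log_le_log (pow_pos (hopos _).1 2) h2
      rw [Real.log_mul (hopos _).1.ne' (hopos _).1.ne', Real.log_pow] at h3
      exact_mod_cast h3
  · intro l m
    have hcut : ∀ a b, o (a + b + 1) ≤ o a * o b := by
      intro a b
      have h1 := cut μ hk hφ hle (pf μ k φ a) (pf μ k φ b) (hpc a) (hpc b)
        (fun u => (hpp a u).1.le) (fun u => (hpp b u).1.le)
      rw [← ho, ← ho] at h1
      refine le_trans (le_of_eq ?_) h1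
      rw [show a + b + 1 = a + (b + 1) by omega, ← ho']
      rfl
    have htr : ∀ l, trk μ k l ≤ o l := by
      intro l
      cases l with
      | zero =>
        rw [ho0]
        exact integral_mono (intble μ _ (kit_cont' μ hk 0 continuous_id continuous_id))
          (intble μ _ (hφ.mul hφ)) fun u => hle u u
      | succ l =>
        rw [ho1]
        refine integral_mono (intble μ _ (kit_cont' μ hk _ continuous_id continuous_id)) ?_
          fun u => ?_
        · refine intble μ _ (cont_int μ (fun u v => φ u * kit μ k l u v * φ v) ?_)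
          exact ((hφ.comp continuous_fst).mul
            (kit_cont' μ hk l continuous_fst continuous_snd)).mul (hφ.comp continuous_snd)
        · show ∫ w, k u w * kit μ k l w u ∂μ ≤ ∫ v, φ u * kit μ k l u v * φ v ∂μ
          refine integral_mono ?_ ?_ fun w => ?_
          · exact intble μ _ ((kit_cont' μ hk 0 continuous_const continuous_id).mul
              (kit_cont' μ hk l continuous_id continuous_const))
          · exact intble μ _ ((continuous_const.mul
              (kit_cont' μ hk l continuous_const continuous_id)).mul hφ)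
          · show k u w * kit μ k l w u ≤ φ u * kit μ k l u w * φ w
            rw [kit_symm μ hk hs l u w]
            calc k u w * kit μ k l w u ≤ (φ u * φ w) * kit μ k l w u :=
                mul_le_mul_of_nonneg_right (hle u w) (kit_pos μ hk hp l w u).le
              _ = _ := by ring
    have hq : ∀ q l : ℕ, q * (m + 1) ≤ l + 1 → o l ≤ o m ^ q := by
      intro q
      induction q with
      | zero =>
        intro l _
        rw [pow_zero]
        exact (hopos l).2
      | succ q ih =>
        intro l hl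
        have hl' : q * (m + 1) + (m + 1) ≤ l + 1 := by
          rw [← Nat.succ_mul]
          exact hl
        rcases Nat.lt_or_ge m l with h | h
        · obtain ⟨b, rfl⟩ := Nat.exists_eq_add_of_lt h
          have h1 := ih b (by omega)
          calc o (m + b + 1) ≤ o m * o b := hcut m b
            _ ≤ o m * o m ^ q := mul_le_mul_of_nonneg_left h1 (hopos m).1.le
            _ = o m ^ (q + 1) := by rw [pow_succ']
        · have h1 : q * (m + 1) = 0 := by omega
          have h2 : q = 0 := by
            rcases Nat.mul_eq_zero.1 h1 with h2 | h2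
            · exact h2
            · omega
          have h3 : l = m := by omega
          rw [h2, h3, zero_add, pow_one]
    have h1 := hq ((l + 1) / (m + 1)) l (Nat.div_mul_le_self _ _)
    have h2 := Real.log_le_log (htpos l) ((htr l).trans h1)
    rw [Real.log_pow] at h2
    exact h2

end

end Pool.Agent.N899.BB.Open
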