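import Mathlib
import Pool.Agent.N899.BB.Stm

/-!
# The Stefan-Boltzmann constant
-/

open MeasureTheory Filter Topology Set Module

namespace Pool.Agent.N899.BB.Plat

noncomputable section

/-! ### The function `-log (1 - exp (-u))` -/

/-- the function `-log (1 - exp (-u))` -/
def g (u : ℝ) : ℝ := -Real.log (1 - Real.exp (-u))

/-- an upper bound of it -/
def G (u : ℝ) : ℝ := Real.exp (-(u / 2)) / u

lemma g_nonneg {u : ℝ} (hu : 0 ≤ u) : 0 ≤ g u := by
  unfold g
  have h1 : Real.exp (-u) ≤ 1 := Real.exp_le_one_iff.2 (by linarith)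
  have h2 := Real.exp_pos (-u)
  have := Real.log_nonpos (by linarith : 0 ≤ 1 - Real.exp (-u)) (by linarith)
  linarith

lemma exp_lt {u : ℝ} (hu : 0 < u) : 0 < 1 - Real.exp (-u) := by
  have : Real.exp (-u) < 1 := Real.exp_lt_one_iff.2 (by linarith)
  linarith

lemma g_anti {u v : ℝ} (hu : 0 < u) (huv : u ≤ v) : g v ≤ g u := by
  unfold g
  have h1 : Real.exp (-v) ≤ Real.exp (-u) := Real.exp_le_exp.2 (by linarith)
  have := Real.log_le_log (exp_lt hu) (by linarith : 1 - Real.exp (-u) ≤ 1 - Real.exp (-v))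
  linarith

lemma g_le {u : ℝ} (hu : 0 < u) : g u ≤ G u := by
  unfold g G
  have hp := exp_lt hu
  have h1 := Real.log_le_sub_one_of_pos (inv_pos.2 hp)
  rw [Real.log_inv] at h1
  refine h1.trans ?_
  set a := Real.exp (-(u / 2)) with ha
  have ha0 : 0 < a := Real.exp_pos _
  have haa : Real.exp (-u) = a * a := by
    rw [ha, ← Real.exp_add]
    congr 1
    ring
  have h2 : u / 2 ≤ Real.sinh (u / 2) := Real.self_le_sinh_iff.2 (by linarith)
  rw [Real.sinh_eq, ← ha] at h2
  have h3 : Real.exp (u / 2) = a⁻¹ := by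
    rw [ha, Real.exp_neg, inv_inv]
  rw [h3] at h2
  have h4 : u * a ≤ 1 - a * a := by
    have h5 : u ≤ a⁻¹ - a := by linarith
    calc u * a ≤ (a⁻¹ - a) * a := mul_le_mul_of_nonneg_right h5 ha0.le
      _ = 1 - a * a := by field_simp
  rw [haa] at hp ⊢
  have h6 : (1 - a * a)⁻¹ - 1 = a * a / (1 - a * a) := by
    have := hp.ne'
    rw [eq_div_iff this, sub_mul, inv_mul_cancel₀ this]
    ring
  rw [h6, div_le_div_iff₀ hp hu]
  nlinarith

lemma G_nonneg {u : ℝ} (hu : 0 ≤ u) : 0 ≤ G u := div_nonneg (Real.exp_pos _).le hu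

lemma g_zero : g 0 = 0 := by simp [g]

lemma g_meas : Measurable g := by
  unfold g
  fun_prop

lemma g_cont {u : ℝ} (hu : 0 < u) : ContinuousAt g u := by
  unfold g
  have := (exp_lt hu).ne'
  fun_prop (disch := assumption)

/-! ### One-dimensional integrals -/

lemma int_G (c : ℝ) (hc : 0 < c) :
    IntegrableOn (fun r : ℝ => r ^ 2 * G (c * r)) (Ioi 0) := by
  have h1 := integrableOn_rpow_mul_exp_neg_mul_rpow (p := 1) (s := 1) (b := c / 2) (by norm_num)
    one_pos (by positivity)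
  refine IntegrableOn.congr_fun (h1.const_mul (1 / c)) (fun r hr => ?_) measurableSet_Ioi
  have hr' : 0 < r := hr
  simp only [G, Real.rpow_one]
  have e : -(c / 2) * r = -(c * r / 2) := by ring
  rw [e]
  field_simp

lemma term (k : ℕ) : ∫ r in Ioi (0 : ℝ), r ^ 2 * (Real.exp (-(Real.pi * r)) ^ (k + 1) / (k + 1)) =
    2 / Real.pi ^ 3 * (1 / ((k : ℝ) + 1) ^ 4) := by
  have hk : (0 : ℝ) < (k : ℝ) + 1 := by positivity
  have h1 := Real.integral_rpow_mul_exp_neg_mul_Ioi (a := 3) (r := ((k : ℝ) + 1) * Real.pi)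
    (by norm_num) (by positivity)
  have h2 : ∀ r ∈ Ioi (0 : ℝ), r ^ 2 * (Real.exp (-(Real.pi * r)) ^ (k + 1) / (k + 1)) =
      1 / ((k : ℝ) + 1) * (r ^ ((3 : ℝ) - 1) * Real.exp (-(((k : ℝ) + 1) * Real.pi * r))) := by
    intro r _
    rw [← Real.exp_nat_mul]
    have e : ((k + 1 : ℕ) : ℝ) * -(Real.pi * r) = -(((k : ℝ) + 1) * Real.pi * r) := by
      push_cast
      ring
    rw [e]
    have e2 : r ^ ((3 : ℝ) - 1) = r ^ 2 := by
      rw [show (3 : ℝ) - 1 = ((2 : ℕ) : ℝ) by norm_num, Real.rpow_natCast]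
    rw [e2]
    ring
  rw [setIntegral_congr_fun measurableSet_Ioi h2, integral_const_mul, h1]
  have e3 : Real.Gamma 3 = 2 := by
    have := Real.Gamma_nat_eq_factorial 2
    rw [show ((2 : ℕ) : ℝ) + 1 = 3 by norm_num] at this
    rw [this]
    norm_num [Nat.factorial]
  have e4 : (1 / (((k : ℝ) + 1) * Real.pi)) ^ (3 : ℝ) = (1 / (((k : ℝ) + 1) * Real.pi)) ^ 3 := by
    rw [show (3 : ℝ) = ((3 : ℕ) : ℝ) by norm_num, Real.rpow_natCast]
  rw [e3, e4]
  have := Real.pi_pos
  field_simp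

lemma term_int (k : ℕ) : IntegrableOn
    (fun r : ℝ => r ^ 2 * (Real.exp (-(Real.pi * r)) ^ (k + 1) / (k + 1))) (Ioi 0) := by
  have hk : (0 : ℝ) < (k : ℝ) + 1 := by positivity
  have h1 := integrableOn_rpow_mul_exp_neg_mul_rpow (p := 1) (s := 2)
    (b := ((k : ℝ) + 1) * Real.pi) (by norm_num) one_pos (by positivity)
  refine IntegrableOn.congr_fun (h1.const_mul (1 / ((k : ℝ) + 1))) (fun r _ => ?_) measurableSet_Ioi
  simp only [Real.rpow_one]
  rw [← Real.exp_nat_mul]
  have e : ((k + 1 : ℕ) : ℝ) * -(Real.pi * r) = -(((k : ℝ) + 1) * Real.pi) * r := by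
    push_cast
    ring
  have e2 : r ^ (2 : ℝ) = r ^ 2 := by
    rw [show (2 : ℝ) = ((2 : ℕ) : ℝ) by norm_num, Real.rpow_natCast]
  rw [e, e2]
  ring

lemma zeta4 : HasSum (fun k : ℕ => 1 / ((k : ℝ) + 1) ^ 4) (Real.pi ^ 4 / 90) := by
  have h := hasSum_zeta_four
  have h2 := (hasSum_nat_add_iff' (f := fun n : ℕ => (1 : ℝ) / (n : ℝ) ^ 4) 1).2 h
  simpa using h2

/-- the integral in polar coordinates -/
lemma int_g : ∫ r in Ioi (0 : ℝ), r ^ 2 * g (Real.pi * r) = Real.pi / 45 := by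
  have hs : HasSum (fun k : ℕ => 2 / Real.pi ^ 3 * (1 / ((k : ℝ) + 1) ^ 4))
      (2 / Real.pi ^ 3 * (Real.pi ^ 4 / 90)) := zeta4.mul_left _
  have h1 := hasSum_integral_of_summable_integral_norm (μ := volume.restrict (Ioi (0 : ℝ)))
    (F := fun (k : ℕ) (r : ℝ) => r ^ 2 * (Real.exp (-(Real.pi * r)) ^ (k + 1) / (k + 1)))
    (fun k => term_int k) (by
      refine hs.summable.congr fun k => ?_
      rw [← term k]
      refine integral_congr_ae (Eventually.of_forall fun r => ?_)
      have : 0 ≤ r ^ 2 * (Real.exp (-(Real.pi * r)) ^ (k + 1) / ((k : ℝ) + 1)) := by positivity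
      simp only [Real.norm_of_nonneg this])
  simp only [term] at h1
  have h2 := h1.unique hs
  have h3 : ∀ r ∈ Ioi (0 : ℝ), (∑' k : ℕ, r ^ 2 * (Real.exp (-(Real.pi * r)) ^ (k + 1) / (k + 1))) =
      r ^ 2 * g (Real.pi * r) := by
    intro r hr
    have hr' : 0 < Real.pi * r := mul_pos Real.pi_pos hr
    have h4 : |Real.exp (-(Real.pi * r))| < 1 := by
      rw [abs_of_pos (Real.exp_pos _)]
      exact Real.exp_lt_one_iff.2 (by linarith)
    have h5 := (Real.hasSum_pow_div_log_of_abs_lt_one h4).mul_left (r ^ 2)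
    exact h5.tsum_eq
  rw [setIntegral_congr_fun measurableSet_Ioi h3] at h2
  rw [h2]
  have := Real.pi_pos
  field_simp
  norm_num

/-! ### Integrals over the space -/

/-- the Euclidean norm -/
def N (y : Fin 3 → ℝ) : ℝ := ‖(WithLp.toLp 2 y : EuclideanSpace ℝ (Fin 3))‖

lemma N_sq (y : Fin 3 → ℝ) : N y ^ 2 = ∑ i, y i ^ 2 := by
  unfold N
  rw [EuclideanSpace.norm_sq_eq]
  simp

lemma N_nonneg (y : Fin 3 → ℝ) : 0 ≤ N y := norm_nonneg _

lemma N_pos {y : Fin 3 → ℝ} (hy : y ≠ 0) : 0 < N y := by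
  unfold N
  rw [norm_pos_iff]
  intro h
  apply hy
  have := congrArg (WithLp.ofLp) h
  simpa using this

lemma N_cont : Continuous N := by
  unfold N
  fun_prop

lemma N_smul (t : ℝ) (y : Fin 3 → ℝ) : N (t • y) = |t| * N y := by
  unfold N
  rw [WithLp.toLp_smul, norm_smul, Real.norm_eq_abs]

lemma finrank_E : finrank ℝ (EuclideanSpace ℝ (Fin 3)) = 3 := by simp

/-- polar coordinates: integrability -/
lemma int_N {f : ℝ → ℝ} (hf : IntegrableOn (fun r : ℝ => r ^ 2 * f r) (Ioi 0)) :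
    Integrable fun y : Fin 3 → ℝ => f (N y) := by
  have h1 : Integrable (fun x : EuclideanSpace ℝ (Fin 3) => f ‖x‖) := by
    rw [integrable_fun_norm_addHaar, finrank_E]
    simpa using hf
  exact ((PiLp.volume_preserving_toLp (Fin 3)).integrable_comp_emb
    (MeasurableEquiv.toLp 2 (Fin 3 → ℝ)).measurableEmbedding).2 h1

/-- polar coordinates -/
lemma integral_N (f : ℝ → ℝ) : ∫ y : Fin 3 → ℝ, f (N y) =
    4 * Real.pi * ∫ r in Ioi (0 : ℝ), r ^ 2 * f r := by
  have h1 := (PiLp.volume_preserving_toLp (Fin 3)).integral_comp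
    (MeasurableEquiv.toLp 2 (Fin 3 → ℝ)).measurableEmbedding
    (fun x : EuclideanSpace ℝ (Fin 3) => f ‖x‖)
  have h2 := integral_fun_norm_addHaar (volume : Measure (EuclideanSpace ℝ (Fin 3))) f
  rw [finrank_E] at h2
  have h3 : (volume : Measure (EuclideanSpace ℝ (Fin 3))).real (Metric.ball 0 1) =
      Real.pi * 4 / 3 := by
    rw [Measure.real, EuclideanSpace.volume_ball_fin_three]
    rw [ENNReal.ofReal_one, one_pow, one_mul, ENNReal.toReal_ofReal (by positivity)]
  rw [h3] at h2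
  unfold N
  rw [h1, h2]
  simp only [smul_eq_mul, nsmul_eq_mul, Nat.add_one_sub_one]
  norm_num
  ring

/-! ### The octant -/

/-- the reflection with the signs `e` -/
def refl (e : Fin 3 → Bool) (y : Fin 3 → ℝ) : Fin 3 → ℝ := fun i => if e i then y i else -y i

lemma refl_mp (e : Fin 3 → Bool) : MeasurePreserving (refl e) := by
  have h : ∀ i, MeasurePreserving (fun t : ℝ => if e i then t else -t) := by
    intro i
    by_cases h : e i
    · simp only [h, if_true]
      exact MeasurePreserving.id _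
    · simp only [h]
      exact Measure.measurePreserving_neg _
  exact volume_preserving_pi h

lemma refl_N (e : Fin 3 → Bool) (y : Fin 3 → ℝ) : N (refl e y) = N y := by
  have h1 : N (refl e y) ^ 2 = N y ^ 2 := by
    rw [N_sq, N_sq]
    refine Finset.sum_congr rfl fun i _ => ?_
    unfold refl
    split_ifs <;> ring
  have h2 := N_nonneg (refl e y)
  have h3 := N_nonneg y
  nlinarith [sq_nonneg (N (refl e y) - N y), sq_nonneg (N (refl e y) + N y)]

/-- the open octant -/
def Oct : Set (Fin 3 → ℝ) := {y | ∀ i, 0 < y i}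

lemma Oct_meas : MeasurableSet Oct := by
  have : Oct = ⋂ i, {y : Fin 3 → ℝ | 0 < y i} := by
    ext y
    simp [Oct]
  rw [this]
  exact MeasurableSet.iInter fun i => measurableSet_lt measurable_const (measurable_pi_apply i)

lemma ind_prod (y : Fin 3 → ℝ) : Oct.indicator (1 : (Fin 3 → ℝ) → ℝ) y =
    ∏ i, if 0 < y i then (1 : ℝ) else 0 := by
  by_cases h : y ∈ Oct
  · rw [indicator_of_mem h]
    symm
    exact Finset.prod_eq_one fun i _ => if_pos (h i)
  · rw [indicator_of_notMem h]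
    simp only [Oct, mem_ofPred_eq, not_forall] at h
    obtain ⟨i, hi⟩ := h
    symm
    exact Finset.prod_eq_zero (Finset.mem_univ i) (if_neg hi)

lemma ind_sum (y : Fin 3 → ℝ) (hy : ∀ i, y i ≠ 0) :
    ∑ e : Fin 3 → Bool, Oct.indicator (1 : (Fin 3 → ℝ) → ℝ) (refl e y) = 1 := by
  have h := Finset.prod_univ_sum (fun _ : Fin 3 => (Finset.univ : Finset Bool))
    (fun i (b : Bool) => if 0 < (if b then y i else -y i) then (1 : ℝ) else 0)
  rw [Fintype.piFinset_univ] at h
  have h0 : ∑ e : Fin 3 → Bool, Oct.indicator (1 : (Fin 3 → ℝ) → ℝ) (refl e y) =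
      ∑ e : Fin 3 → Bool, ∏ i, if 0 < (if e i then y i else -y i) then (1 : ℝ) else 0 := by
    refine Finset.sum_congr rfl fun e _ => ?_
    rw [ind_prod]
    rfl
  rw [h0, ← h]
  refine Finset.prod_eq_one fun i _ => ?_
  rw [Fintype.sum_bool]
  simp only [if_true, Bool.false_eq_true, if_false]
  rcases lt_or_gt_of_ne (hy i) with h1 | h1
  · rw [if_neg (by linarith), if_pos (by linarith)]; norm_num
  · rw [if_pos h1, if_neg (by linarith)]; norm_num

lemma ae_ne : ∀ᵐ y : Fin 3 → ℝ, ∀ i, y i ≠ 0 := by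
  rw [ae_all_iff]
  intro i
  have := Measure.pi_hyperplane (fun _ : Fin 3 => (volume : Measure ℝ)) i 0
  rw [← volume_pi] at this
  rw [ae_iff]
  simpa using this

/-- the integral over the octant -/
lemma integral_Oct {f : ℝ → ℝ} (hf : Integrable fun y : Fin 3 → ℝ => f (N y)) :
    8 * ∫ y, Oct.indicator (fun y => f (N y)) y = ∫ y : Fin 3 → ℝ, f (N y) := by
  have h1 : ∀ e : Fin 3 → Bool, ∫ y, Oct.indicator (fun y => f (N y)) (refl e y) =
      ∫ y, Oct.indicator (fun y => f (N y)) y := by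
    intro e
    have hm : MeasurableEmbedding (refl e) := by
      have hinv : Function.Involutive (refl e) := by
        intro y
        funext i
        unfold refl
        by_cases h : e i <;> simp [h]
      exact (MeasurableEquiv.mk (hinv.toPerm) (refl_mp e).measurable
        (refl_mp e).measurable).measurableEmbedding
    exact (refl_mp e).integral_comp hm _
  have hi : ∀ e : Fin 3 → Bool, Integrable fun y => Oct.indicator (fun y => f (N y)) (refl e y) :=
    fun e => (refl_mp e).integrable_comp_of_integrable (hf.indicator Oct_meas)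
  have h2 : ∑ e : Fin 3 → Bool, ∫ y, Oct.indicator (fun y => f (N y)) (refl e y) =
      ∫ y : Fin 3 → ℝ, f (N y) := by
    rw [← integral_finsetSum _ fun e _ => hi e]
    refine integral_congr_ae (ae_ne.mono fun y hy => ?_)
    simp only
    have h3 : ∀ e : Fin 3 → Bool, Oct.indicator (fun y => f (N y)) (refl e y) =
        Oct.indicator (1 : (Fin 3 → ℝ) → ℝ) (refl e y) * f (N y) := by
      intro e
      by_cases h : refl e y ∈ Oct
      · rw [indicator_of_mem h, indicator_of_mem h, refl_N, Pi.one_apply, one_mul]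
      · rw [indicator_of_notMem h, indicator_of_notMem h, zero_mul]
    rw [Finset.sum_congr rfl fun e _ => h3 e, ← Finset.sum_mul, ind_sum y hy, one_mul]
  rw [← h2, Finset.sum_congr rfl fun e _ => h1 e, Finset.sum_const, Finset.card_univ]
  simp

/-! ### The integrand -/

/-- the eigenvalue of the Laplacian -/
def E (x : Fin 3 → ℝ) : ℝ := ∑ i, (2 - 2 * Real.cos (Real.pi * x i))

lemma E_cont : Continuous E := by
  unfold E
  fun_prop

lemma E_le (x : Fin 3 → ℝ) : E x ≤ 12 := by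
  unfold E
  calc _ ≤ ∑ _i : Fin 3, (4 : ℝ) :=
        Finset.sum_le_sum fun i _ => by linarith [Real.neg_one_le_cos (Real.pi * x i)]
    _ = 12 := by simp; norm_num

lemma E_nonneg (x : Fin 3 → ℝ) : 0 ≤ E x :=
  Finset.sum_nonneg fun i _ => by linarith [Real.cos_le_one (Real.pi * x i)]

lemma cos_half (a : ℝ) :
    2 - 2 * Real.cos (Real.pi * a) = (2 * Real.sin (Real.pi * a / 2)) ^ 2 := by
  have h := Real.cos_two_mul (Real.pi * a / 2)
  rw [Real.cos_sq', show 2 * (Real.pi * a / 2) = Real.pi * a by ring] at h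
  rw [h]
  ring

lemma E_ge {x : Fin 3 → ℝ} (hx : x ∈ Icc (0 : Fin 3 → ℝ) 1) : (2 * N x) ^ 2 ≤ E x := by
  rw [mul_pow, N_sq, Finset.mul_sum]
  refine Finset.sum_le_sum fun i _ => ?_
  have h0 : 0 ≤ x i := hx.1 i
  have h1 : x i ≤ 1 := hx.2 i
  have hpi := Real.pi_pos
  have h2 := Real.mul_le_sin (x := Real.pi * x i / 2) (by positivity) (by nlinarith)
  have h3 : 2 / Real.pi * (Real.pi * x i / 2) = x i := by field_simp
  rw [h3] at h2
  rw [cos_half]
  nlinarith

lemma om_ge {y : ℝ} (h0 : 0 ≤ y) (h1 : y ≤ 12) : Real.sqrt y / 5 ≤ om y := by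
  unfold om
  have h2 : Real.sqrt y ≤ Real.sqrt (y + y ^ 2 / 4) := Real.sqrt_le_sqrt (by nlinarith [sq_nonneg y])
  have h3 : Real.sqrt y ≤ 4 := Real.sqrt_le_iff.2 ⟨by norm_num, by linarith⟩
  have h4 := Real.sqrt_nonneg y
  have h5 : Real.log (1 + Real.sqrt y) ≤ Real.log (1 + y / 2 + Real.sqrt (y + y ^ 2 / 4)) :=
    Real.log_le_log (by linarith) (by linarith)
  refine le_trans ?_ h5
  have h6 := Real.one_sub_inv_le_log_of_pos (by linarith : 0 < 1 + Real.sqrt y)
  refine le_trans ?_ h6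
  have h7 : 1 - (1 + Real.sqrt y)⁻¹ = Real.sqrt y / (1 + Real.sqrt y) := by
    have : 1 + Real.sqrt y ≠ 0 := by positivity
    field_simp
    ring
  rw [h7]
  exact div_le_div_of_nonneg_left h4 (by linarith) (by linarith)

lemma om_E {x : Fin 3 → ℝ} (hx : x ∈ Icc (0 : Fin 3 → ℝ) 1) : 2 / 5 * N x ≤ om (E x) := by
  have h1 : 2 * N x ≤ Real.sqrt (E x) := Real.le_sqrt_of_sq_le (E_ge hx)
  have h2 := om_ge (E_nonneg x) (E_le x)
  linarith

lemma om_zero : om 0 = 0 := by simp [om]

lemma E_zero : E 0 = 0 := by simp [E]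

lemma plat_eq (s : ℕ) : plat s = 1 / (s : ℝ) * ∫ x in Icc (0 : Fin 3 → ℝ) 1, g (s * om (E x)) := by
  unfold plat g E
  rw [integral_neg]
  ring

/-- the rescaled integrand -/
def F (s : ℝ) (y : Fin 3 → ℝ) : ℝ :=
  (Icc (0 : Fin 3 → ℝ) (fun _ => s)).indicator (fun y => g (s * om (E (s⁻¹ • y)))) y

lemma F_meas (s : ℝ) : Measurable (F s) := by
  unfold F
  have h1 : Measurable fun y : Fin 3 → ℝ => E (s⁻¹ • y) :=
    (E_cont.comp (continuous_const_smul _)).measurable
  have h2 : Measurable om := by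
    unfold om
    fun_prop
  exact (g_meas.comp ((h2.comp h1).const_mul s)).indicator measurableSet_Icc

lemma mem_scale {s : ℝ} (hs : 0 < s) {y : Fin 3 → ℝ} (hy : y ∈ Icc (0 : Fin 3 → ℝ) (fun _ => s)) :
    s⁻¹ • y ∈ Icc (0 : Fin 3 → ℝ) 1 := by
  refine ⟨fun i => ?_, fun i => ?_⟩
  · have := hy.1 i
    simp only [Pi.zero_apply] at this
    simp only [Pi.zero_apply, Pi.smul_apply, smul_eq_mul]
    positivity
  · have := hy.2 i
    simp only [Pi.one_apply, Pi.smul_apply, smul_eq_mul]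
    simp only at this
    rw [inv_mul_le_iff₀ hs]
    linarith

lemma F_bd {s : ℝ} (hs : 0 < s) {y : Fin 3 → ℝ} (hy : y ∈ Icc (0 : Fin 3 → ℝ) (fun _ => s)) :
    2 / 5 * N y ≤ s * om (E (s⁻¹ • y)) := by
  have h1 := om_E (mem_scale hs hy)
  rw [N_smul, abs_of_pos (inv_pos.2 hs)] at h1
  calc 2 / 5 * N y = s * (2 / 5 * (s⁻¹ * N y)) := by field_simp
    _ ≤ _ := mul_le_mul_of_nonneg_left h1 hs.le

lemma F_nonneg {s : ℝ} (hs : 0 < s) (y : Fin 3 → ℝ) : 0 ≤ F s y := by
  unfold F
  refine indicator_nonneg (fun y hy => ?_) y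
  exact g_nonneg ((mul_nonneg (by norm_num) (N_nonneg y)).trans (F_bd hs hy))

lemma F_le {s : ℝ} (hs : 0 < s) (y : Fin 3 → ℝ) : F s y ≤ G (2 / 5 * N y) := by
  unfold F
  by_cases hy : y ∈ Icc (0 : Fin 3 → ℝ) (fun _ => s)
  · rw [indicator_of_mem hy]
    by_cases h0 : y = 0
    · subst h0
      rw [smul_zero, E_zero, om_zero, mul_zero, g_zero]
      exact G_nonneg (mul_nonneg (by norm_num) (N_nonneg _))
    · have h1 : 0 < 2 / 5 * N y := mul_pos (by norm_num) (N_pos h0)
      exact (g_anti h1 (F_bd hs hy)).trans (g_le h1)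
  · rw [indicator_of_notMem hy]
    exact G_nonneg (mul_nonneg (by norm_num) (N_nonneg _))

lemma G_int : Integrable fun y : Fin 3 → ℝ => G (2 / 5 * N y) :=
  int_N (f := fun r => G (2 / 5 * r)) (int_G (2 / 5) (by norm_num))

lemma F_integral (s : ℕ) (hs : 1 ≤ s) : ∫ y, F s y = (s : ℝ) ^ 4 * plat s := by
  have hs0 : (0 : ℝ) < s := by exact_mod_cast hs
  have h := Measure.integral_comp_smul (volume : Measure (Fin 3 → ℝ)) (F s) (s : ℝ)
  have h1 : ∀ x : Fin 3 → ℝ, F s ((s : ℝ) • x) =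
      (Icc (0 : Fin 3 → ℝ) 1).indicator (fun x => g (s * om (E x))) x := by
    intro x
    unfold F
    have e : (s : ℝ)⁻¹ • (s : ℝ) • x = x := by
      rw [smul_smul, inv_mul_cancel₀ hs0.ne', one_smul]
    by_cases hx : x ∈ Icc (0 : Fin 3 → ℝ) 1
    · rw [indicator_of_mem hx, indicator_of_mem, e]
      refine ⟨fun i => ?_, fun i => ?_⟩
      · have := hx.1 i
        simp only [Pi.zero_apply] at this
        simp only [Pi.zero_apply, Pi.smul_apply, smul_eq_mul]
        positivity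
      · have := hx.2 i
        simp only [Pi.one_apply] at this
        simp only [Pi.smul_apply, smul_eq_mul]
        nlinarith
    · rw [indicator_of_notMem hx, indicator_of_notMem]
      intro h2
      apply hx
      have := mem_scale hs0 h2
      rwa [e] at this
  simp only [h1] at h
  rw [integral_indicator measurableSet_Icc] at h
  have h2 : finrank ℝ (Fin 3 → ℝ) = 3 := by simp
  rw [h2, abs_of_pos (by positivity), smul_eq_mul] at h
  rw [plat_eq, h]
  field_simp

/-! ### The limit -/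

lemma lim_sin (a : ℝ) : Tendsto (fun t : ℝ => t⁻¹ * (2 * Real.sin (Real.pi * (t * a) / 2)))
    (𝓝[>] 0) (𝓝 (Real.pi * a)) := by
  have h1 : HasDerivAt (fun t : ℝ => 2 * Real.sin (Real.pi * (t * a) / 2)) (Real.pi * a) 0 := by
    have h2 : HasDerivAt (fun t : ℝ => Real.pi * (t * a) / 2) (Real.pi * a / 2) 0 := by
      have := (((hasDerivAt_id (0 : ℝ)).mul_const a).const_mul Real.pi).div_const 2
      simpa using this
    have h3 := (h2.sin).const_mul 2
    convert! h3 using 1
    simp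
    ring
  have h4 := h1.tendsto_slope_zero
  simp only [zero_add, zero_mul, mul_zero, zero_div, Real.sin_zero, sub_zero, smul_eq_mul] at h4
  exact h4.mono_left (nhdsWithin_mono _ fun x hx => ne_of_gt hx)

lemma lim_E (y : Fin 3 → ℝ) : Tendsto (fun t : ℝ => E (t • y) / t ^ 2) (𝓝[>] 0)
    (𝓝 ((Real.pi * N y) ^ 2)) := by
  have h1 : (Real.pi * N y) ^ 2 = ∑ i, (Real.pi * y i) ^ 2 := by
    rw [mul_pow, N_sq, Finset.mul_sum]
    exact Finset.sum_congr rfl fun i _ => by ring
  have h2 : ∀ t : ℝ, E (t • y) / t ^ 2 =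
      ∑ i, (t⁻¹ * (2 * Real.sin (Real.pi * (t * y i) / 2))) ^ 2 := by
    intro t
    unfold E
    rw [Finset.sum_div]
    refine Finset.sum_congr rfl fun i _ => ?_
    rw [cos_half, Pi.smul_apply, smul_eq_mul, mul_pow t⁻¹, inv_pow]
    ring
  rw [h1]
  simp only [h2]
  exact tendsto_finsetSum _ fun i _ => (lim_sin (y i)).pow 2

lemma lim_om {y : Fin 3 → ℝ} : Tendsto (fun t : ℝ => t⁻¹ * om (E (t • y)))
    (𝓝[>] 0) (𝓝 (Real.pi * N y)) := by
  have hid : Tendsto (fun t : ℝ => t) (𝓝[>] 0) (𝓝 0) := tendsto_nhdsWithin_of_tendsto_nhds tendsto_id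
  have hE := lim_E y
  have hpos : ∀ᶠ t : ℝ in 𝓝[>] 0, 0 < t := self_mem_nhdsWithin
  have hE0 : Tendsto (fun t : ℝ => E (t • y)) (𝓝[>] 0) (𝓝 0) := by
    have h1 := hE.mul (hid.pow 2)
    simp only [ne_eq, OfNat.ofNat_ne_zero, not_false_eq_true, zero_pow, mul_zero] at h1
    refine h1.congr' (hpos.mono fun t ht => ?_)
    have := ht.ne'
    field_simp
  set w : ℝ → ℝ := fun t => E (t • y) / 2 + Real.sqrt (E (t • y) + E (t • y) ^ 2 / 4) with hw
  have hw0 : ∀ t, 0 ≤ w t := fun t => add_nonneg (by linarith [E_nonneg (t • y)])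
    (Real.sqrt_nonneg _)
  have hwt : Tendsto (fun t => w t / t) (𝓝[>] 0) (𝓝 (Real.pi * N y)) := by
    have h1 : Tendsto (fun t : ℝ => E (t • y) / t ^ 2 * (t / 2)) (𝓝[>] 0) (𝓝 0) := by
      have := hE.mul (hid.div_const 2)
      simpa using this
    have h2 : Tendsto (fun t : ℝ => Real.sqrt (E (t • y) / t ^ 2 * (1 + E (t • y) / 4)))
        (𝓝[>] 0) (𝓝 (Real.pi * N y)) := by
      have h3 := (hE.mul ((hE0.div_const 4).const_add 1)).sqrt
      have h4 : Real.sqrt ((Real.pi * N y) ^ 2 * (1 + 0 / 4)) = Real.pi * N y := by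
        rw [zero_div, add_zero, mul_one, Real.sqrt_sq (mul_nonneg Real.pi_pos.le (N_nonneg y))]
      rwa [h4] at h3
    have h5 := h1.add h2
    rw [zero_add] at h5
    refine h5.congr' (hpos.mono fun t ht => ?_)
    have ht' := ht.ne'
    have h6 : Real.sqrt (E (t • y) / t ^ 2 * (1 + E (t • y) / 4)) =
        Real.sqrt (E (t • y) + E (t • y) ^ 2 / 4) / t := by
      have h7 : E (t • y) / t ^ 2 * (1 + E (t • y) / 4) =
          (E (t • y) + E (t • y) ^ 2 / 4) / t ^ 2 := by
        field_simp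
      rw [h7, Real.sqrt_div' _ (sq_nonneg t), Real.sqrt_sq ht.le]
    rw [h6]
    simp only [hw]
    field_simp
  have hw1 : Tendsto w (𝓝[>] 0) (𝓝 0) := by
    have h1 := hwt.mul hid
    rw [mul_zero] at h1
    refine h1.congr' (hpos.mono fun t ht => ?_)
    have := ht.ne'
    field_simp
  have hom : ∀ t, om (E (t • y)) = Real.log (1 + w t) := by
    intro t
    unfold om
    simp only [hw, add_assoc]
  have hlow : Tendsto (fun t => w t / t * (1 + w t)⁻¹) (𝓝[>] 0) (𝓝 (Real.pi * N y)) := by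
    have h1 := (hw1.const_add 1).inv₀ (by norm_num)
    have h2 := hwt.mul h1
    simpa using h2
  refine tendsto_of_tendsto_of_tendsto_of_le_of_le' hlow hwt (hpos.mono fun t ht => ?_)
    (hpos.mono fun t ht => ?_)
  · have h0 := hw0 t
    have h1 := Real.one_sub_inv_le_log_of_pos (by linarith : 0 < 1 + w t)
    have h2 : w t / t * (1 + w t)⁻¹ = t⁻¹ * (1 - (1 + w t)⁻¹) := by
      have h3 : 1 + w t ≠ 0 := by linarith
      have h4 := ht.ne'
      field_simp
      ring
    rw [h2, hom]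
    exact mul_le_mul_of_nonneg_left h1 (inv_nonneg.2 ht.le)
  · have h0 := hw0 t
    have h1 := Real.log_le_sub_one_of_pos (by linarith : 0 < 1 + w t)
    rw [hom, div_eq_inv_mul]
    exact mul_le_mul_of_nonneg_left (by linarith) (inv_nonneg.2 ht.le)

lemma lim_F : ∀ᵐ y : Fin 3 → ℝ, Tendsto (fun s : ℕ => F s y) atTop
    (𝓝 (Oct.indicator (fun y => g (Real.pi * N y)) y)) := by
  refine ae_ne.mono fun y hy => ?_
  by_cases h : y ∈ Oct
  · rw [indicator_of_mem h]
    have hN : 0 < N y := N_pos fun h0 => hy 0 (by rw [h0]; rfl)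
    have h1 : Tendsto (fun s : ℕ => (s : ℝ)⁻¹) atTop (𝓝[>] 0) :=
      tendsto_inv_atTop_nhdsGT_zero.comp tendsto_natCast_atTop_atTop
    have h2 := (lim_om (y := y)).comp h1
    have h3 := (g_cont (mul_pos Real.pi_pos hN)).tendsto.comp h2
    refine h3.congr' ?_
    have h4 : ∀ᶠ s : ℕ in atTop, ∀ i, y i ≤ s := by
      rw [eventually_all]
      intro i
      exact tendsto_natCast_atTop_atTop.eventually_ge_atTop (y i)
    refine h4.mono fun s hs => ?_
    have h5 : y ∈ Icc (0 : Fin 3 → ℝ) (fun _ => (s : ℝ)) := ⟨fun i => (h i).le, hs⟩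
    simp only [Function.comp, inv_inv, F]
    rw [indicator_of_mem h5]
  · rw [indicator_of_notMem h]
    simp only [Oct, mem_ofPred_eq, not_forall, not_lt] at h
    obtain ⟨i, hi⟩ := h
    have h1 : y i < 0 := lt_of_le_of_ne hi (hy i)
    have h2 : ∀ s : ℕ, F s y = 0 := by
      intro s
      unfold F
      rw [indicator_of_notMem]
      intro h3
      have := h3.1 i
      simp only [Pi.zero_apply] at this
      linarith
    simp only [h2]
    exact tendsto_const_nhds

theorem t_PLAT : S_PLAT := by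
  constructor
  · refine ⟨max 1 (∫ y : Fin 3 → ℝ, G (2 / 5 * N y)), le_max_left _ _, fun s hs => ?_⟩
    have hs0 : (0 : ℝ) < s := by exact_mod_cast hs
    have h1 := F_integral s hs
    have h2 : 0 ≤ ∫ y, F s y := integral_nonneg fun y => F_nonneg hs0 y
    have h3 : ∫ y, F s y ≤ ∫ y : Fin 3 → ℝ, G (2 / 5 * N y) :=
      integral_mono_of_nonneg (Eventually.of_forall fun y => F_nonneg hs0 y) G_int
        (Eventually.of_forall fun y => F_le hs0 y)
    rw [h1] at h2 h3
    have hs4 : (0 : ℝ) < (s : ℝ) ^ 4 := by positivity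
    refine ⟨?_, ?_⟩
    · by_contra hcon
      push Not at hcon
      have := mul_neg_of_pos_of_neg hs4 hcon
      linarith
    · rw [le_div_iff₀ hs4]
      calc plat s * (s : ℝ) ^ 4 = (s : ℝ) ^ 4 * plat s := mul_comm _ _
        _ ≤ _ := h3.trans (le_max_right _ _)
  · have h1 := tendsto_integral_of_dominated_convergence (μ := volume)
      (F := fun (s : ℕ) (y : Fin 3 → ℝ) => F ((s + 1 : ℕ) : ℝ) y)
      (f := fun y => Oct.indicator (fun y => g (Real.pi * N y)) y)
      (fun y => G (2 / 5 * N y)) (fun s => (F_meas _).aestronglyMeasurable) G_int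
      (fun s => Eventually.of_forall fun y => by
        have hs0 : (0 : ℝ) < ((s + 1 : ℕ) : ℝ) := by positivity
        rw [Real.norm_of_nonneg (F_nonneg hs0 y)]
        exact F_le hs0 y)
      (lim_F.mono fun y hy => hy.comp (tendsto_add_atTop_nat 1))
    have hgi : IntegrableOn (fun r : ℝ => r ^ 2 * g (Real.pi * r)) (Ioi 0) := by
      refine Integrable.mono' (int_G Real.pi Real.pi_pos)
        ((measurable_id.pow_const 2).mul
          (g_meas.comp (measurable_id.const_mul Real.pi))).aestronglyMeasurable ?_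
      refine (ae_restrict_iff' measurableSet_Ioi).2 (Eventually.of_forall fun r hr => ?_)
      have hr' : 0 < Real.pi * r := mul_pos Real.pi_pos hr
      change ‖r ^ 2 * g (Real.pi * r)‖ ≤ r ^ 2 * G (Real.pi * r)
      rw [Real.norm_of_nonneg (mul_nonneg (sq_nonneg r) (g_nonneg hr'.le))]
      exact mul_le_mul_of_nonneg_left (g_le hr') (sq_nonneg r)
    have h2 := integral_Oct (f := fun r => g (Real.pi * r))
      (int_N (f := fun r => g (Real.pi * r)) hgi)
    rw [integral_N (fun r => g (Real.pi * r)), int_g] at h2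
    have h3 : ∫ y, Oct.indicator (fun y => g (Real.pi * N y)) y = Real.pi ^ 2 / 90 := by
      linarith [h2]
    rw [h3] at h1
    have h4 : Tendsto (fun s : ℕ => (((s + 1 : ℕ)) : ℝ) ^ 4 * plat (s + 1)) atTop
        (𝓝 (Real.pi ^ 2 / 90)) :=
      h1.congr fun s => F_integral (s + 1) (by omega)
    exact (tendsto_add_atTop_iff_nat (f := fun s : ℕ => (s : ℝ) ^ 4 * plat s) 1).1 h4

end

end Pool.Agent.N899.BB.Plat
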