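import Mathlib
import Pool.Agent.N899.BB.Stm

set_option autoImplicit false
set_option linter.dupNamespace false

/-!
# Black body radiation of gluons: Riemann sums (S_RIEM), written by helper26
-/

open MeasureTheory Filter Topology Set

namespace Pool.Agent.N899.BB.Riem

noncomputable section

/-! ### The frequency -/

theorem om_arg_pos {x : ℝ} (hx : 0 ≤ x) : 1 ≤ 1 + x / 2 + Real.sqrt (x + x ^ 2 / 4) := by
  have := Real.sqrt_nonneg (x + x ^ 2 / 4)
  linarith

theorem om_mono {x y : ℝ} (hx : 0 ≤ x) (hxy : x ≤ y) : om x ≤ om y := by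
  unfold om
  apply Real.log_le_log
  · have := om_arg_pos hx
    linarith
  · have h1 : Real.sqrt (x + x ^ 2 / 4) ≤ Real.sqrt (y + y ^ 2 / 4) := by
      apply Real.sqrt_le_sqrt
      nlinarith
    linarith

theorem om_nonneg {x : ℝ} (hx : 0 ≤ x) : 0 ≤ om x := Real.log_nonneg (om_arg_pos hx)

theorem om_zero : om 0 = 0 := by
  simp [om]

theorem om_ge {x : ℝ} (hx : 0 < x) : Real.sqrt x / (1 + Real.sqrt x) ≤ om x := by
  have hs : 0 < Real.sqrt x := Real.sqrt_pos.mpr hx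
  have h1 : Real.log (1 + Real.sqrt x) ≤ om x := by
    unfold om
    apply Real.log_le_log (by linarith)
    have h2 : Real.sqrt x ≤ Real.sqrt (x + x ^ 2 / 4) := by
      apply Real.sqrt_le_sqrt
      have := sq_nonneg x
      linarith
    linarith
  have h3 := Real.one_sub_inv_le_log_of_pos (show (0 : ℝ) < 1 + Real.sqrt x by linarith)
  have h4 : 1 - (1 + Real.sqrt x)⁻¹ = Real.sqrt x / (1 + Real.sqrt x) := by
    field_simp
    ring
  linarith

theorem om_pos {x : ℝ} (hx : 0 < x) : 0 < om x := by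
  have hs : 0 < Real.sqrt x := Real.sqrt_pos.mpr hx
  have := om_ge hx
  have h2 : 0 < Real.sqrt x / (1 + Real.sqrt x) := by positivity
  linarith

theorem om_le {x : ℝ} (hx : 0 ≤ x) (hx' : x ≤ 12) : om x ≤ 13 := by
  unfold om
  have h1 := Real.log_le_sub_one_of_pos
    (show (0 : ℝ) < 1 + x / 2 + Real.sqrt (x + x ^ 2 / 4) by
      have := om_arg_pos hx
      linarith)
  have h2 : Real.sqrt (x + x ^ 2 / 4) ≤ 7 := by
    rw [Real.sqrt_le_left (by norm_num)]
    nlinarith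
  linarith

/-! ### The summand as a function of the energy -/

/-- `-log (1 - exp (-(s om e)))` -/
def FF (s e : ℝ) : ℝ := -Real.log (1 - Real.exp (-(s * om e)))

theorem FF_nonneg {s e : ℝ} (hs : 0 ≤ s) (he : 0 ≤ e) : 0 ≤ FF s e := by
  unfold FF
  have h1 : 0 ≤ s * om e := mul_nonneg hs (om_nonneg he)
  have h2 : Real.exp (-(s * om e)) ≤ 1 := Real.exp_le_one_iff.mpr (by linarith)
  have h3 := Real.exp_pos (-(s * om e))
  have h4 := Real.log_nonpos (show 0 ≤ 1 - Real.exp (-(s * om e)) by linarith) (by linarith)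
  linarith

theorem FF_zero (s : ℝ) : FF s 0 = 0 := by
  simp [FF, om_zero]

theorem FF_anti {s e e' : ℝ} (hs : 0 < s) (he : 0 < e) (hee : e ≤ e') : FF s e' ≤ FF s e := by
  unfold FF
  have h1 : 0 < s * om e := mul_pos hs (om_pos he)
  have h2 : Real.exp (-(s * om e)) < 1 := Real.exp_lt_one_iff.mpr (by linarith)
  have h3 : s * om e ≤ s * om e' := mul_le_mul_of_nonneg_left (om_mono he.le hee) hs.le
  have h4 : Real.exp (-(s * om e')) ≤ Real.exp (-(s * om e)) := Real.exp_le_exp.mpr (by linarith)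
  have h5 := Real.log_le_log (show 0 < 1 - Real.exp (-(s * om e)) by linarith)
    (show 1 - Real.exp (-(s * om e)) ≤ 1 - Real.exp (-(s * om e')) by linarith)
  linarith

theorem FF_le {s e : ℝ} (hs : 1 ≤ s) (he : 0 < e) : FF s e ≤ Real.log (2 + 1 / Real.sqrt e) := by
  unfold FF
  have hse : 0 < Real.sqrt e := Real.sqrt_pos.mpr he
  have hu : 0 < om e := om_pos he
  have hu2 := om_ge he
  have h1 : om e ≤ s * om e := by nlinarith
  have h2 : Real.exp (-(s * om e)) ≤ 1 / (1 + om e) := by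
    rw [Real.exp_neg, ← one_div]
    apply one_div_le_one_div_of_le (by linarith)
    have := Real.add_one_le_exp (s * om e)
    linarith
  have h3 : om e / (1 + om e) ≤ 1 - Real.exp (-(s * om e)) := by
    have : om e / (1 + om e) = 1 - 1 / (1 + om e) := by
      field_simp
      ring
    linarith
  have h4 : 0 < om e / (1 + om e) := by positivity
  have h5 := Real.log_le_log h4 h3
  have h6 : -Real.log (om e / (1 + om e)) = Real.log ((1 + om e) / om e) := by
    rw [← Real.log_inv, inv_div]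
  have h7 : Real.log ((1 + om e) / om e) ≤ Real.log (2 + 1 / Real.sqrt e) := by
    apply Real.log_le_log (by positivity)
    have h8 : 1 / om e ≤ 1 + 1 / Real.sqrt e := by
      have h9 : 1 + 1 / Real.sqrt e = 1 / (Real.sqrt e / (1 + Real.sqrt e)) := by
        field_simp
        ring
      rw [h9]
      exact one_div_le_one_div_of_le (by positivity) hu2
    have h10 : (1 + om e) / om e = 1 / om e + 1 := by
      field_simp
    rw [h10]
    linarith
  linarith

/-! ### The energy -/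

/-- one coordinate -/
def e1 (t : ℝ) : ℝ := 2 - 2 * Real.cos (Real.pi * t)

theorem e1_ge {t : ℝ} (h0 : 0 ≤ t) (h1 : t ≤ 1) : 4 * t ^ 2 ≤ e1 t := by
  unfold e1
  have hpi := Real.pi_pos
  have h2 : Real.cos (Real.pi * t) = 1 - 2 * Real.sin (Real.pi * t / 2) ^ 2 := by
    have := Real.cos_two_mul (Real.pi * t / 2)
    have h3 := Real.sin_sq_add_cos_sq (Real.pi * t / 2)
    have h4 : 2 * (Real.pi * t / 2) = Real.pi * t := by ring
    rw [h4] at this
    rw [this]
    linarith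
  have h3 := Real.mul_le_sin (x := Real.pi * t / 2) (by positivity) (by nlinarith)
  have h4 : 2 / Real.pi * (Real.pi * t / 2) = t := by
    field_simp
  rw [h4] at h3
  rw [h2]
  nlinarith

theorem e1_nonneg (t : ℝ) : 0 ≤ e1 t := by
  unfold e1
  have := Real.cos_le_one (Real.pi * t)
  linarith

theorem e1_le (t : ℝ) : e1 t ≤ 4 := by
  unfold e1
  have := Real.neg_one_le_cos (Real.pi * t)
  linarith

theorem e1_mono {t u : ℝ} (h0 : 0 ≤ t) (htu : t ≤ u) (h1 : u ≤ 1) : e1 t ≤ e1 u := by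
  unfold e1
  have hpi := Real.pi_pos
  have := Real.cos_le_cos_of_nonneg_of_le_pi (x := Real.pi * t) (y := Real.pi * u) (by positivity)
    (by nlinarith) (by nlinarith)
  linarith

/-- the energy -/
def EE (x : Fin 3 → ℝ) : ℝ := ∑ i, (2 - 2 * Real.cos (Real.pi * x i))

theorem EE_eq (x : Fin 3 → ℝ) : EE x = ∑ i, e1 (x i) := rfl

theorem EE_nonneg (x : Fin 3 → ℝ) : 0 ≤ EE x := by
  rw [EE_eq]
  exact Finset.sum_nonneg (fun i _ => e1_nonneg _)

theorem EE_le (x : Fin 3 → ℝ) : EE x ≤ 12 := by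
  rw [EE_eq]
  calc ∑ i, e1 (x i) ≤ ∑ _i : Fin 3, (4 : ℝ) := Finset.sum_le_sum (fun i _ => e1_le _)
    _ = 12 := by simp; norm_num

theorem EE_mono {x y : Fin 3 → ℝ} (h0 : 0 ≤ x) (hxy : x ≤ y) (h1 : y ≤ 1) : EE x ≤ EE y := by
  rw [EE_eq, EE_eq]
  exact Finset.sum_le_sum (fun i _ => e1_mono (h0 i) (hxy i) (h1 i))

theorem EE_ge {x : Fin 3 → ℝ} (h0 : 0 ≤ x) (h1 : x ≤ 1) (i : Fin 3) : 4 * x i ^ 2 ≤ EE x := by
  rw [EE_eq]
  calc 4 * x i ^ 2 ≤ e1 (x i) := e1_ge (h0 i) (h1 i)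
    _ ≤ ∑ i, e1 (x i) := Finset.single_le_sum (f := fun i => e1 (x i))
        (fun i _ => e1_nonneg _) (Finset.mem_univ i)

/-- the integrand -/
def f (s : ℝ) (x : Fin 3 → ℝ) : ℝ := FF s (EE x)

theorem f_nonneg {s : ℝ} (hs : 1 ≤ s) (x : Fin 3 → ℝ) : 0 ≤ f s x :=
  FF_nonneg (by linarith) (EE_nonneg x)

theorem f_le {s : ℝ} (hs : 1 ≤ s) {x : Fin 3 → ℝ} (h0 : 0 ≤ x) (h1 : x ≤ 1) {i : Fin 3}
    (hi : 0 < x i) : f s x ≤ Real.log 3 - Real.log (x i) := by
  have hE := EE_ge h0 h1 i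
  have hEpos : 0 < EE x := by
    have : 0 < 4 * x i ^ 2 := by positivity
    linarith
  have h2 := FF_le hs hEpos
  have h3 : 2 * x i ≤ Real.sqrt (EE x) := by
    apply Real.le_sqrt_of_sq_le
    nlinarith
  have h4 : Real.log (2 + 1 / Real.sqrt (EE x)) ≤ Real.log (3 / x i) := by
    apply Real.log_le_log (by positivity)
    have h5 : 1 / Real.sqrt (EE x) ≤ 1 / (2 * x i) :=
      one_div_le_one_div_of_le (by positivity) h3
    have h6 : 2 + 1 / (2 * x i) ≤ 3 / x i := by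
      rw [show 2 + 1 / (2 * x i) = (4 * x i + 1) / (2 * x i) by field_simp; ring,
        div_le_div_iff₀ (by positivity) hi]
      have : x i ≤ 1 := h1 i
      nlinarith
    linarith
  rw [Real.log_div (by norm_num) hi.ne'] at h4
  exact h2.trans h4

theorem f_anti {s : ℝ} (hs : 1 ≤ s) {x y : Fin 3 → ℝ} (h0 : 0 ≤ x) (hxy : x ≤ y) (h1 : y ≤ 1)
    {i : Fin 3} (hi : 0 < x i) : f s y ≤ f s x := by
  have hE := EE_ge h0 (hxy.trans h1) i
  have hEpos : 0 < EE x := by
    have : 0 < 4 * x i ^ 2 := by positivity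
    linarith
  exact FF_anti (by linarith) hEpos (EE_mono h0 hxy h1)

theorem f_meas (s : ℝ) : Measurable (f s) := by
  unfold f FF EE om
  fun_prop

/-! ### Integrals -/

/-- the dominating function -/
def GG (x : Fin 3 → ℝ) : ℝ := Real.log 3 - Real.log (x 0)

/-- the factors of the dominating function -/
def gg : Fin 3 → ℝ → ℝ := ![fun t => Real.log 3 - Real.log t, fun _ => 1, fun _ => 1]

theorem GG_eq (x : Fin 3 → ℝ) : GG x = ∏ i, gg i (x i) := by
  rw [Fin.prod_univ_three]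
  simp [GG, gg]

theorem gg_int {c : ℝ} (hc : 0 < c) (i : Fin 3) :
    Integrable (gg i) (volume.restrict (Ioc 0 c)) := by
  have h1 : Integrable (fun t : ℝ => Real.log 3 - Real.log t) (volume.restrict (Ioc 0 c)) := by
    have h2 : IntervalIntegrable (fun t : ℝ => Real.log 3 - Real.log t) volume 0 c :=
      intervalIntegrable_const.sub intervalIntegral.intervalIntegrable_log'
    exact (intervalIntegrable_iff_integrableOn_Ioc_of_le hc.le).mp h2
  fin_cases i
  · exact h1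
  · exact integrable_const _
  · exact integrable_const _

theorem restr (c : ℝ) : (volume : Measure (Fin 3 → ℝ)).restrict (univ.pi fun _ => Ioc 0 c) =
    Measure.pi (fun _ : Fin 3 => (volume : Measure ℝ).restrict (Ioc 0 c)) := by
  rw [volume_pi]
  exact Measure.restrict_pi_pi (fun _ : Fin 3 => (volume : Measure ℝ)) (fun _ => Ioc 0 c)

theorem GG_int {c : ℝ} (hc : 0 < c) : IntegrableOn GG (univ.pi fun _ => Ioc 0 c) volume := by
  unfold IntegrableOn
  rw [restr]
  have : GG = fun x => ∏ i, gg i (x i) := funext GG_eq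
  rw [this]
  exact Integrable.fintype_prod (fun i => gg_int hc i)

theorem GG_val {c : ℝ} (hc : 0 < c) : ∫ x in (univ.pi fun _ => Ioc 0 c), GG x =
    c ^ 3 * (Real.log 3 + 1 - Real.log c) := by
  rw [restr]
  have : GG = fun x => ∏ i, gg i (x i) := funext GG_eq
  rw [this, integral_fintype_prod_eq_prod, Fin.prod_univ_three]
  have h1 : ∫ t in Ioc 0 c, (Real.log 3 - Real.log t) = c * (Real.log 3 + 1 - Real.log c) := by
    rw [← intervalIntegral.integral_of_le hc.le, intervalIntegral.integral_sub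
      intervalIntegrable_const intervalIntegral.intervalIntegrable_log', integral_log]
    simp
    ring
  have h2 : ∫ _t in Ioc (0 : ℝ) c, (1 : ℝ) = c := by
    simp [hc.le]
  have e0 : gg 0 = fun t => Real.log 3 - Real.log t := rfl
  have e1 : gg 1 = fun _ => 1 := rfl
  have e2 : gg 2 = fun _ => 1 := rfl
  rw [e0, e1, e2, h1, h2]
  ring

/-- the Ioc cube and the Icc cube -/
theorem cube_ae (c : ℝ) : ((univ.pi fun _ => Ioc 0 c) : Set (Fin 3 → ℝ)) =ᵐ[volume]
    Icc (0 : Fin 3 → ℝ) (fun _ => c) := by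
  rw [volume_pi]
  exact Measure.univ_pi_Ioc_ae_eq_Icc (μ := fun _ : Fin 3 => (volume : Measure ℝ))
    (f := fun _ => 0) (g := fun _ => c)

theorem cube_ae' (c : ℝ) : ((univ.pi fun _ => Ico 0 c) : Set (Fin 3 → ℝ)) =ᵐ[volume]
    Icc (0 : Fin 3 → ℝ) (fun _ => c) := by
  rw [volume_pi]
  exact Measure.univ_pi_Ico_ae_eq_Icc (μ := fun _ : Fin 3 => (volume : Measure ℝ))
    (f := fun _ => 0) (g := fun _ => c)

theorem f_le_GG {s : ℝ} (hs : 1 ≤ s) {c : ℝ} (hc : c ≤ 1) {x : Fin 3 → ℝ}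
    (hx : x ∈ (univ.pi fun _ => Ioc 0 c : Set (Fin 3 → ℝ))) : f s x ≤ GG x := by
  rw [mem_univ_pi] at hx
  exact f_le hs (fun i => (hx i).1.le) (fun i => (hx i).2.trans hc) (hx 0).1

theorem meas_cube (c : ℝ) : MeasurableSet (univ.pi fun _ => Ioc 0 c : Set (Fin 3 → ℝ)) :=
  MeasurableSet.univ_pi (fun _ => measurableSet_Ioc)

theorem f_int {s : ℝ} (hs : 1 ≤ s) {c : ℝ} (hc0 : 0 < c) (hc : c ≤ 1) :
    IntegrableOn (f s) (univ.pi fun _ => Ioc 0 c : Set (Fin 3 → ℝ)) volume := by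
  apply Integrable.mono' (GG_int hc0) (f_meas s).aestronglyMeasurable
  rw [ae_restrict_iff' (meas_cube c)]
  apply Eventually.of_forall
  intro x hx
  rw [Real.norm_eq_abs, abs_of_nonneg (f_nonneg hs x)]
  exact f_le_GG hs hc hx

theorem f_int' {s : ℝ} (hs : 1 ≤ s) : IntegrableOn (f s) (Icc (0 : Fin 3 → ℝ) 1) volume :=
  (f_int hs one_pos le_rfl).congr_set_ae (cube_ae 1).symm

theorem int_f_le {s : ℝ} (hs : 1 ≤ s) {c : ℝ} (hc0 : 0 < c) (hc : c ≤ 1) :
    ∫ x in Icc (0 : Fin 3 → ℝ) (fun _ => c), f s x ≤ c ^ 3 * (Real.log 3 + 1 - Real.log c) := by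
  rw [← GG_val hc0, ← setIntegral_congr_set (cube_ae c)]
  exact setIntegral_mono_on (f_int hs hc0 hc) (GG_int hc0) (meas_cube c)
    (fun x hx => f_le_GG hs hc hx)

/-- the integral over the cube -/
def II (s : ℝ) : ℝ := ∫ x in Icc (0 : Fin 3 → ℝ) 1, f s x

theorem II_nonneg {s : ℝ} (hs : 1 ≤ s) : 0 ≤ II s :=
  setIntegral_nonneg measurableSet_Icc (fun x _ => f_nonneg hs x)

theorem II_le {s : ℝ} (hs : 1 ≤ s) : II s ≤ Real.log 3 + 1 := by
  have := int_f_le hs one_pos le_rfl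
  simp only [one_pow, Real.log_one, sub_zero, one_mul] at this
  exact this

theorem plat_eq {s : ℕ} (hs : 1 ≤ s) : (s : ℝ) * plat s = II s := by
  have h1 : (s : ℝ) ≠ 0 := by
    have : 0 < s := hs
    positivity
  unfold plat II f FF EE
  rw [integral_neg]
  field_simp

/-! ### Cells -/

/-- the coordinates of a grid point -/
def cc {n : ℕ} (k : Fin (n + 1) × Fin (n + 1) × Fin (n + 1)) : Fin 3 → ℕ := ![k.1, k.2.1, k.2.2]

theorem cc_inj {n : ℕ} {k k' : Fin (n + 1) × Fin (n + 1) × Fin (n + 1)} (h : cc k = cc k') :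
    k = k' := by
  have h0 := congrFun h 0
  have h1 := congrFun h 1
  have h2 := congrFun h 2
  simp only [cc, Matrix.cons_val_zero, Matrix.cons_val_one, Matrix.cons_val] at h0 h1 h2
  exact Prod.ext (Fin.ext h0) (Prod.ext (Fin.ext h1) (Fin.ext h2))

theorem cc_le {n : ℕ} (k : Fin (n + 1) × Fin (n + 1) × Fin (n + 1)) (i : Fin 3) : cc k i ≤ n := by
  fin_cases i
  · exact Nat.lt_succ_iff.mp k.1.2
  · exact Nat.lt_succ_iff.mp k.2.1.2
  · exact Nat.lt_succ_iff.mp k.2.2.2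

/-- the grid point -/
def gp {n : ℕ} (k : Fin (n + 1) × Fin (n + 1) × Fin (n + 1)) : Fin 3 → ℝ :=
  fun i => (cc k i : ℝ) / (n + 1)

theorem gp_nonneg {n : ℕ} (k : Fin (n + 1) × Fin (n + 1) × Fin (n + 1)) : 0 ≤ gp k := by
  intro i
  unfold gp
  show 0 ≤ (cc k i : ℝ) / (n + 1)
  positivity

theorem gp_le {n : ℕ} (k : Fin (n + 1) × Fin (n + 1) × Fin (n + 1)) : gp k ≤ 1 := by
  intro i
  show (cc k i : ℝ) / (n + 1) ≤ 1
  rw [div_le_one (by positivity)]
  have : (cc k i : ℝ) ≤ n := by exact_mod_cast cc_le k i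
  linarith

theorem lam3_eq {n : ℕ} (k : Fin (n + 1) × Fin (n + 1) × Fin (n + 1)) :
    lam3 n k = EE (gp k) := by
  unfold lam3 lam EE gp
  rw [Fin.sum_univ_three]
  simp only [cc, Matrix.cons_val_zero, Matrix.cons_val_one, Matrix.cons_val]
  simp only [mul_div_assoc]

/-- the cell above the grid point -/
def QQ {n : ℕ} (k : Fin (n + 1) × Fin (n + 1) × Fin (n + 1)) : Set (Fin 3 → ℝ) :=
  univ.pi fun i => Ico ((cc k i : ℝ) / (n + 1)) (((cc k i : ℝ) + 1) / (n + 1))

/-- the cell below the grid point -/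
def PP {n : ℕ} (k : Fin (n + 1) × Fin (n + 1) × Fin (n + 1)) : Set (Fin 3 → ℝ) :=
  univ.pi fun i => Ioc (((cc k i : ℝ) - 1) / (n + 1)) ((cc k i : ℝ) / (n + 1))

theorem QQ_meas {n : ℕ} (k : Fin (n + 1) × Fin (n + 1) × Fin (n + 1)) : MeasurableSet (QQ k) :=
  MeasurableSet.univ_pi (fun _ => measurableSet_Ico)

theorem PP_meas {n : ℕ} (k : Fin (n + 1) × Fin (n + 1) × Fin (n + 1)) : MeasurableSet (PP k) :=
  MeasurableSet.univ_pi (fun _ => measurableSet_Ioc)

theorem QQ_vol {n : ℕ} (k : Fin (n + 1) × Fin (n + 1) × Fin (n + 1)) :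
    volume.real (QQ k) = (1 / ((n : ℝ) + 1)) ^ 3 := by
  unfold QQ Measure.real
  rw [Real.volume_pi_Ico_toReal, Fin.prod_univ_three]
  · ring
  · intro i
    show (cc k i : ℝ) / (n + 1) ≤ ((cc k i : ℝ) + 1) / (n + 1)
    gcongr
    linarith

theorem PP_vol {n : ℕ} (k : Fin (n + 1) × Fin (n + 1) × Fin (n + 1)) :
    volume.real (PP k) = (1 / ((n : ℝ) + 1)) ^ 3 := by
  unfold PP Measure.real
  rw [Real.volume_pi_Ioc_toReal, Fin.prod_univ_three]
  · ring
  · intro i
    show ((cc k i : ℝ) - 1) / (n + 1) ≤ (cc k i : ℝ) / (n + 1)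
    gcongr
    linarith

theorem QQ_disj {n : ℕ} {k k' : Fin (n + 1) × Fin (n + 1) × Fin (n + 1)} (h : k ≠ k') :
    Disjoint (QQ k) (QQ k') := by
  rw [Set.disjoint_left]
  intro x hx hx'
  apply h
  apply cc_inj
  funext i
  unfold QQ at hx hx'
  rw [mem_univ_pi] at hx hx'
  obtain ⟨h1, h2⟩ := hx i
  obtain ⟨h3, h4⟩ := hx' i
  have hn : (0 : ℝ) < n + 1 := by positivity
  have h5 := h1.trans_lt h4
  have h6 := h3.trans_lt h2
  rw [div_lt_div_iff_of_pos_right hn] at h5 h6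
  have h7 : cc k i < cc k' i + 1 := by exact_mod_cast h5
  have h8 : cc k' i < cc k i + 1 := by exact_mod_cast h6
  omega

theorem PP_disj {n : ℕ} {k k' : Fin (n + 1) × Fin (n + 1) × Fin (n + 1)} (h : k ≠ k') :
    Disjoint (PP k) (PP k') := by
  rw [Set.disjoint_left]
  intro x hx hx'
  apply h
  apply cc_inj
  funext i
  unfold PP at hx hx'
  rw [mem_univ_pi] at hx hx'
  obtain ⟨h1, h2⟩ := hx i
  obtain ⟨h3, h4⟩ := hx' i
  have hn : (0 : ℝ) < n + 1 := by positivity
  have h5 := h1.trans_le h4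
  have h6 := h3.trans_le h2
  rw [div_lt_div_iff_of_pos_right hn] at h5 h6
  have h7 : (cc k i : ℝ) < cc k' i + 1 := by linarith
  have h8 : (cc k' i : ℝ) < cc k i + 1 := by linarith
  have h9 : cc k i < cc k' i + 1 := by exact_mod_cast h7
  have h10 : cc k' i < cc k i + 1 := by exact_mod_cast h8
  omega

theorem QQ_sub {n : ℕ} (k : Fin (n + 1) × Fin (n + 1) × Fin (n + 1)) {x : Fin 3 → ℝ}
    (hx : x ∈ QQ k) : gp k ≤ x ∧ x ≤ 1 := by
  unfold QQ at hx
  rw [mem_univ_pi] at hx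
  constructor
  · intro i
    exact (hx i).1
  · intro i
    refine (hx i).2.le.trans ?_
    show ((cc k i : ℝ) + 1) / (n + 1) ≤ 1
    rw [div_le_one (by positivity)]
    have : (cc k i : ℝ) ≤ n := by exact_mod_cast cc_le k i
    linarith

theorem PP_sub {n : ℕ} (k : Fin (n + 1) × Fin (n + 1) × Fin (n + 1)) (hk : ∀ i, 1 ≤ cc k i)
    {x : Fin 3 → ℝ} (hx : x ∈ PP k) : x ≤ gp k ∧ ∀ i, 0 < x i := by
  unfold PP at hx
  rw [mem_univ_pi] at hx
  constructor
  · intro i
    exact (hx i).2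
  · intro i
    refine lt_of_le_of_lt ?_ (hx i).1
    have : (1 : ℝ) ≤ cc k i := by exact_mod_cast hk i
    apply div_nonneg
    · linarith
    · positivity

theorem QQ_union (n : ℕ) : (⋃ k ∈ (Finset.univ : Finset (Fin (n + 1) × Fin (n + 1) × Fin (n + 1))),
    QQ k) = (univ.pi fun _ => Ico 0 1 : Set (Fin 3 → ℝ)) := by
  have hn : (0 : ℝ) < n + 1 := by positivity
  ext x
  simp only [Finset.mem_univ, iUnion_true, mem_iUnion, mem_univ_pi]
  constructor
  · rintro ⟨k, hk⟩ i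
    unfold QQ at hk
    rw [mem_univ_pi] at hk
    refine ⟨(gp_nonneg k i).trans (hk i).1, (hk i).2.trans_le ?_⟩
    rw [div_le_one (by positivity)]
    have : (cc k i : ℝ) ≤ n := by exact_mod_cast cc_le k i
    linarith
  · intro hx
    have hfl : ∀ i, ⌊(n + 1 : ℝ) * x i⌋₊ < n + 1 := by
      intro i
      rw [Nat.floor_lt (mul_nonneg hn.le (hx i).1)]
      push_cast
      nlinarith [(hx i).2]
    refine ⟨(⟨_, hfl 0⟩, ⟨_, hfl 1⟩, ⟨_, hfl 2⟩), ?_⟩
    unfold QQ
    rw [mem_univ_pi]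
    have hcc : ∀ i, cc ((⟨_, hfl 0⟩, ⟨_, hfl 1⟩, ⟨_, hfl 2⟩) :
        Fin (n + 1) × Fin (n + 1) × Fin (n + 1)) i = ⌊(n + 1 : ℝ) * x i⌋₊ := by
      intro i
      fin_cases i <;> rfl
    intro i
    rw [hcc i]
    constructor
    · rw [div_le_iff₀ hn, mul_comm (x i)]
      exact Nat.floor_le (mul_nonneg hn.le (hx i).1)
    · rw [lt_div_iff₀ hn, mul_comm (x i)]
      exact Nat.lt_floor_add_one _

/-- the integral is the sum over the cells -/
theorem II_sum {s : ℝ} (hs : 1 ≤ s) (n : ℕ) :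
    II s = ∑ k : Fin (n + 1) × Fin (n + 1) × Fin (n + 1), ∫ x in QQ k, f s x := by
  rw [← integral_biUnion_finset _ (fun k _ => QQ_meas k)
    (fun k _ k' _ h => QQ_disj h) (fun k _ => ?_), QQ_union]
  · unfold II
    exact (setIntegral_congr_set (cube_ae' 1)).symm
  · refine (f_int' hs).mono_set ?_
    intro x hx
    exact ⟨(gp_nonneg k).trans (QQ_sub k hx).1, (QQ_sub k hx).2⟩

/-- the value at the grid points -/
def gv {n : ℕ} (s : ℝ) (k : Fin (n + 1) × Fin (n + 1) × Fin (n + 1)) : ℝ := f s (gp k)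

theorem gv_nonneg {n : ℕ} {s : ℝ} (hs : 1 ≤ s) (k : Fin (n + 1) × Fin (n + 1) × Fin (n + 1)) :
    0 ≤ gv s k := f_nonneg hs _

/-- upper cells -/
theorem QQ_int_le {n : ℕ} {s : ℝ} (hs : 1 ≤ s) {k : Fin (n + 1) × Fin (n + 1) × Fin (n + 1)}
    (hk : k ≠ 0) : ∫ x in QQ k, f s x ≤ (1 / ((n : ℝ) + 1)) ^ 3 * gv s k := by
  obtain ⟨i, hi⟩ : ∃ i, 0 < cc k i := by
    by_contra hcon
    push Not at hcon
    apply hk
    apply cc_inj
    funext i
    have h1 := hcon i
    have h2 : cc (0 : Fin (n + 1) × Fin (n + 1) × Fin (n + 1)) i = 0 := by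
      fin_cases i <;> rfl
    omega
  have hgi : 0 < gp k i := by
    unfold gp
    have : (0 : ℝ) < cc k i := by exact_mod_cast hi
    positivity
  have hint : IntegrableOn (f s) (QQ k) volume := by
    refine (f_int' hs).mono_set ?_
    intro x hx
    exact ⟨(gp_nonneg k).trans (QQ_sub k hx).1, (QQ_sub k hx).2⟩
  have hfin : volume (QQ k) ≠ ⊤ := by
    intro h
    have h1 := QQ_vol k
    unfold Measure.real at h1
    rw [h] at h1
    simp only [ENNReal.toReal_top] at h1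
    have : (0 : ℝ) < (1 / ((n : ℝ) + 1)) ^ 3 := by positivity
    linarith
  calc ∫ x in QQ k, f s x ≤ ∫ _x in QQ k, gv s k :=
        setIntegral_mono_on hint (integrableOn_const hfin) (QQ_meas k)
          (fun x hx => f_anti hs (gp_nonneg k) (QQ_sub k hx).1 (QQ_sub k hx).2 hgi)
    _ = (1 / ((n : ℝ) + 1)) ^ 3 * gv s k := by
        rw [setIntegral_const, QQ_vol, smul_eq_mul]

/-- lower cells -/
theorem PP_int_ge {n : ℕ} {s : ℝ} (hs : 1 ≤ s) {k : Fin (n + 1) × Fin (n + 1) × Fin (n + 1)}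
    (hk : ∀ i, 1 ≤ cc k i) : (1 / ((n : ℝ) + 1)) ^ 3 * gv s k ≤ ∫ x in PP k, f s x := by
  have hint : IntegrableOn (f s) (PP k) volume := by
    refine (f_int' hs).mono_set ?_
    intro x hx
    exact ⟨fun i => ((PP_sub k hk hx).2 i).le, (PP_sub k hk hx).1.trans (gp_le k)⟩
  have hfin : volume (PP k) ≠ ⊤ := by
    intro h
    have h1 := PP_vol k
    unfold Measure.real at h1
    rw [h] at h1
    simp only [ENNReal.toReal_top] at h1
    have : (0 : ℝ) < (1 / ((n : ℝ) + 1)) ^ 3 := by positivity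
    linarith
  calc (1 / ((n : ℝ) + 1)) ^ 3 * gv s k = ∫ _x in PP k, gv s k := by
        rw [setIntegral_const, PP_vol, smul_eq_mul]
    _ ≤ ∫ x in PP k, f s x :=
        setIntegral_mono_on (integrableOn_const hfin) hint (PP_meas k)
          (fun x hx => f_anti hs (fun i => ((PP_sub k hk hx).2 i).le) (PP_sub k hk hx).1
            (gp_le k) ((PP_sub k hk hx).2 0))

/-- the interior grid points -/
def TT (n : ℕ) : Finset (Fin (n + 1) × Fin (n + 1) × Fin (n + 1)) :=
  Finset.univ.filter (fun k => ∀ i, 1 ≤ cc k i)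

theorem sum_TT_le {s : ℝ} (hs : 1 ≤ s) (n : ℕ) :
    ∑ k ∈ TT n, gv s k ≤ ((n : ℝ) + 1) ^ 3 * II s := by
  have hk : ∀ k ∈ TT n, ∀ i, 1 ≤ cc k i := fun k hk => (Finset.mem_filter.mp hk).2
  have hint : ∀ k ∈ TT n, IntegrableOn (f s) (PP k) volume := by
    intro k hkT
    refine (f_int' hs).mono_set ?_
    intro x hx
    exact ⟨fun i => ((PP_sub k (hk k hkT) hx).2 i).le, (PP_sub k (hk k hkT) hx).1.trans (gp_le k)⟩
  have h1 : ∑ k ∈ TT n, (1 / ((n : ℝ) + 1)) ^ 3 * gv s k ≤ II s := by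
    calc ∑ k ∈ TT n, (1 / ((n : ℝ) + 1)) ^ 3 * gv s k ≤ ∑ k ∈ TT n, ∫ x in PP k, f s x :=
          Finset.sum_le_sum (fun k hkT => PP_int_ge hs (hk k hkT))
      _ = ∫ x in ⋃ k ∈ TT n, PP k, f s x :=
          (integral_biUnion_finset _ (fun k _ => PP_meas k) (fun k _ k' _ h => PP_disj h)
            hint).symm
      _ ≤ II s := by
          refine setIntegral_mono_set (f_int' hs) (Eventually.of_forall (fun x => f_nonneg hs x)) ?_
          apply LE.le.eventuallyLE
          intro x hx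
          simp only [mem_iUnion] at hx
          obtain ⟨k, hkT, hx⟩ := hx
          exact ⟨fun i => ((PP_sub k (hk k hkT) hx).2 i).le,
            (PP_sub k (hk k hkT) hx).1.trans (gp_le k)⟩
  rw [← Finset.mul_sum] at h1
  have hn : (0 : ℝ) < (n : ℝ) + 1 := by positivity
  rw [one_div, inv_pow, inv_mul_le_iff₀ (by positivity)] at h1
  exact h1

/-- the cell at the origin -/
theorem QQ_zero (s : ℝ) (hs : 1 ≤ s) (n : ℕ) :
    ((n : ℝ) + 1) ^ 3 * ∫ x in QQ (0 : Fin (n + 1) × Fin (n + 1) × Fin (n + 1)), f s x ≤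
      Real.log 3 + 1 + Real.log (n + 1) := by
  have hn : (0 : ℝ) < (n : ℝ) + 1 := by positivity
  have h1 : QQ (0 : Fin (n + 1) × Fin (n + 1) × Fin (n + 1)) =
      (univ.pi fun _ => Ico 0 (1 / ((n : ℝ) + 1)) : Set (Fin 3 → ℝ)) := by
    unfold QQ
    congr 1
    funext i
    have h2 : cc (0 : Fin (n + 1) × Fin (n + 1) × Fin (n + 1)) i = 0 := by
      fin_cases i <;> rfl
    rw [h2]
    simp
  rw [h1, setIntegral_congr_set (cube_ae' _)]
  have h3 := int_f_le hs (show 0 < 1 / ((n : ℝ) + 1) by positivity)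
    (by rw [div_le_one hn]; linarith [Nat.cast_nonneg (α := ℝ) n])
  calc ((n : ℝ) + 1) ^ 3 * ∫ x in Icc (0 : Fin 3 → ℝ) (fun _ => 1 / ((n : ℝ) + 1)), f s x
      ≤ ((n : ℝ) + 1) ^ 3 * ((1 / ((n : ℝ) + 1)) ^ 3 *
          (Real.log 3 + 1 - Real.log (1 / ((n : ℝ) + 1)))) := by
        gcongr
    _ = Real.log 3 + 1 + Real.log (n + 1) := by
        rw [one_div, Real.log_inv]
        field_simp
        ring

/-- lower bound of the sum -/
theorem sum_ge {s : ℝ} (hs : 1 ≤ s) (n : ℕ) :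
    ((n : ℝ) + 1) ^ 3 * II s - (Real.log 3 + 1 + Real.log (n + 1)) ≤
      ∑ k ∈ Finset.univ.erase (0 : Fin (n + 1) × Fin (n + 1) × Fin (n + 1)), gv s k := by
  have hn : (0 : ℝ) < (n : ℝ) + 1 := by positivity
  have h0 := QQ_zero s hs n
  rw [II_sum hs n, ← Finset.add_sum_erase _ _
    (Finset.mem_univ (0 : Fin (n + 1) × Fin (n + 1) × Fin (n + 1))), mul_add]
  have h1 : ((n : ℝ) + 1) ^ 3 * ∑ k ∈ Finset.univ.erase
      (0 : Fin (n + 1) × Fin (n + 1) × Fin (n + 1)), ∫ x in QQ k, f s x ≤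
      ∑ k ∈ Finset.univ.erase (0 : Fin (n + 1) × Fin (n + 1) × Fin (n + 1)), gv s k := by
    rw [Finset.mul_sum]
    apply Finset.sum_le_sum
    intro k hk
    have h2 := QQ_int_le hs (Finset.ne_of_mem_erase hk)
    calc ((n : ℝ) + 1) ^ 3 * ∫ x in QQ k, f s x ≤
        ((n : ℝ) + 1) ^ 3 * ((1 / ((n : ℝ) + 1)) ^ 3 * gv s k) := by gcongr
      _ = gv s k := by
        field_simp
  linarith

/-- the bound of one value -/
theorem gv_le {n : ℕ} {s : ℝ} (hs : 1 ≤ s) (k : Fin (n + 1) × Fin (n + 1) × Fin (n + 1)) :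
    gv s k ≤ Real.log 3 + Real.log (n + 1) := by
  have hn : (0 : ℝ) < (n : ℝ) + 1 := by positivity
  have hlogn : 0 ≤ Real.log ((n : ℝ) + 1) :=
    Real.log_nonneg (by linarith [Nat.cast_nonneg (α := ℝ) n])
  have hlog3 : 0 ≤ Real.log 3 := Real.log_nonneg (by norm_num)
  by_cases hk : ∃ i, 0 < cc k i
  · obtain ⟨i, hi⟩ := hk
    have hci : (1 : ℝ) ≤ cc k i := by exact_mod_cast hi
    have hgi : 0 < gp k i := by
      unfold gp
      positivity
    have h1 := f_le hs (gp_nonneg k) (gp_le k) hgi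
    have h2 : -Real.log (gp k i) ≤ Real.log (n + 1) := by
      unfold gp
      rw [Real.log_div (by positivity) hn.ne']
      have := Real.log_nonneg hci
      linarith
    unfold gv
    linarith
  · push Not at hk
    have h1 : gp k = 0 := by
      funext i
      have : cc k i = 0 := by have := hk i; omega
      unfold gp
      rw [this]
      simp
    unfold gv f
    rw [h1]
    have h2 : EE 0 = 0 := by simp [EE]
    rw [h2, FF_zero]
    linarith

/-! ### Assembly -/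

theorem card_nT (n : ℕ) : ((Finset.univ.filter
    (fun k : Fin (n + 1) × Fin (n + 1) × Fin (n + 1) => ¬ ∀ i, 1 ≤ cc k i)).card : ℝ) ≤
      3 * ((n : ℝ) + 1) ^ 2 := by
  have hsub : Finset.univ.filter
      (fun k : Fin (n + 1) × Fin (n + 1) × Fin (n + 1) => ¬ ∀ i, 1 ≤ cc k i) ⊆
      (({0} : Finset (Fin (n + 1))) ×ˢ (Finset.univ : Finset (Fin (n + 1) × Fin (n + 1)))) ∪
      ((Finset.univ : Finset (Fin (n + 1))) ×ˢ (({0} : Finset (Fin (n + 1))) ×ˢ
        (Finset.univ : Finset (Fin (n + 1))))) ∪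
      ((Finset.univ : Finset (Fin (n + 1))) ×ˢ ((Finset.univ : Finset (Fin (n + 1))) ×ˢ
        ({0} : Finset (Fin (n + 1))))) := by
    intro k hk
    rw [Finset.mem_filter] at hk
    have hk2 := hk.2
    push Not at hk2
    obtain ⟨i, hi⟩ := hk2
    simp only [Finset.mem_union, Finset.mem_product, Finset.mem_singleton, Finset.mem_univ,
      and_true, true_and]
    fin_cases i
    · left; left
      apply Fin.ext
      have : (k.1 : ℕ) < 1 := hi
      simp only [Fin.val_zero]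
      omega
    · left; right
      apply Fin.ext
      have : (k.2.1 : ℕ) < 1 := hi
      simp only [Fin.val_zero]
      omega
    · right
      apply Fin.ext
      have : (k.2.2 : ℕ) < 1 := hi
      simp only [Fin.val_zero]
      omega
  have h1 := (Finset.card_le_card hsub).trans
    ((Finset.card_union_le _ _).trans (Nat.add_le_add_right (Finset.card_union_le _ _) _))
  simp only [Finset.card_product, Finset.card_singleton, Finset.card_univ, Fintype.card_prod,
    Fintype.card_fin, one_mul, mul_one] at h1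
  have h2 : (n + 1) * (n + 1) + (n + 1) * (n + 1) + (n + 1) * (n + 1) = 3 * (n + 1) ^ 2 := by ring
  rw [h2] at h1
  exact_mod_cast h1

theorem pol_TT {n : ℕ} {k : Fin (n + 1) × Fin (n + 1) × Fin (n + 1)} (hk : ∀ i, 1 ≤ cc k i) :
    pol n k = 2 := by
  have h0 : k.1 ≠ 0 := by
    intro h
    have h1 : 1 ≤ (k.1 : ℕ) := hk 0
    rw [h] at h1
    simp at h1
  have h1 : k.2.1 ≠ 0 := by
    intro h
    have h1 : 1 ≤ (k.2.1 : ℕ) := hk 1
    rw [h] at h1
    simp at h1
  have h2 : k.2.2 ≠ 0 := by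
    intro h
    have h1 : 1 ≤ (k.2.2 : ℕ) := hk 2
    rw [h] at h1
    simp at h1
  simp [pol, h0, h1, h2]

theorem pol_le {n : ℕ} (k : Fin (n + 1) × Fin (n + 1) × Fin (n + 1)) : pol n k ≤ 2 := by
  unfold pol
  omega

theorem bbr_eq (n s : ℕ) : bbr n s =
    ∑ k : Fin (n + 1) × Fin (n + 1) × Fin (n + 1), (pol n k : ℝ) * gv (s : ℝ) k := by
  unfold bbr gv f FF
  apply Finset.sum_congr rfl
  intro k _
  rw [lam3_eq]

theorem t_RIEM : S_RIEM := by
  refine ⟨208, by norm_num, ?_⟩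
  intro n s hn hs
  have hs' : (1 : ℝ) ≤ (s : ℝ) := by exact_mod_cast hs
  have hn' : (1 : ℝ) ≤ (n : ℝ) := by exact_mod_cast hn
  have hN : (0 : ℝ) < (n : ℝ) + 1 := by positivity
  refine ⟨?_, ?_, ?_, ?_⟩
  · -- vac nonneg
    unfold vac
    apply Finset.sum_nonneg
    intro k _
    rw [lam3_eq]
    exact mul_nonneg (Nat.cast_nonneg _) (om_nonneg (EE_nonneg _))
  · -- vac upper bound
    unfold vac
    calc ∑ k : Fin (n + 1) × Fin (n + 1) × Fin (n + 1), (pol n k : ℝ) * om (lam3 n k)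
        ≤ ∑ _k : Fin (n + 1) × Fin (n + 1) × Fin (n + 1), (26 : ℝ) := by
          apply Finset.sum_le_sum
          intro k _
          rw [lam3_eq]
          have h1 := om_le (EE_nonneg (gp k)) (EE_le (gp k))
          have h2 := om_nonneg (EE_nonneg (gp k))
          have h3 : (pol n k : ℝ) ≤ 2 := by exact_mod_cast pol_le k
          have h4 : (0 : ℝ) ≤ (pol n k : ℝ) := Nat.cast_nonneg _
          nlinarith
      _ = 26 * ((n : ℝ) + 1) ^ 3 := by
          rw [Finset.sum_const, Finset.card_univ]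
          simp only [Fintype.card_prod, Fintype.card_fin, nsmul_eq_mul]
          push_cast
          ring
      _ ≤ 26 * (2 * (n : ℝ)) ^ 3 := by
          gcongr
          linarith
      _ = 208 * (n : ℝ) ^ 3 := by ring
  · -- bbr nonneg
    rw [bbr_eq]
    exact Finset.sum_nonneg (fun k _ => mul_nonneg (Nat.cast_nonneg _) (gv_nonneg hs' k))
  · -- Riemann sum
    rw [plat_eq hs]
    have hI0 := II_nonneg hs'
    have hI1 := II_le hs'
    have hlog3 : Real.log 3 ≤ 2 := by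
      have := Real.log_le_sub_one_of_pos (show (0 : ℝ) < 3 by norm_num)
      linarith
    have hlog30 : 0 ≤ Real.log 3 := Real.log_nonneg (by norm_num)
    have hL0 : 0 ≤ Real.log (n : ℝ) := Real.log_nonneg hn'
    have hLN : Real.log ((n : ℝ) + 1) ≤ 1 + Real.log n := by
      have h1 : Real.log ((n : ℝ) + 1) ≤ Real.log (2 * n) :=
        Real.log_le_log hN (by linarith)
      rw [Real.log_mul (by norm_num) (by positivity)] at h1
      have h2 := Real.log_le_sub_one_of_pos (show (0 : ℝ) < 2 by norm_num)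
      linarith
    have hLN0 : 0 ≤ Real.log ((n : ℝ) + 1) := Real.log_nonneg (by linarith)
    -- the sums
    obtain ⟨T, hT⟩ : ∃ T, T = ∑ k ∈ TT n, gv (s : ℝ) k := ⟨_, rfl⟩
    obtain ⟨B, hB⟩ : ∃ B, B = ∑ k ∈ Finset.univ.filter
      (fun k : Fin (n + 1) × Fin (n + 1) × Fin (n + 1) => ¬ ∀ i, 1 ≤ cc k i), gv (s : ℝ) k :=
        ⟨_, rfl⟩
    have hTB : ∑ k : Fin (n + 1) × Fin (n + 1) × Fin (n + 1), gv (s : ℝ) k = T + B := by
      rw [hT, hB]
      unfold TT
      rw [Finset.sum_filter_add_sum_filter_not]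
    have hBle : B ≤ 3 * ((n : ℝ) + 1) ^ 2 * (Real.log 3 + Real.log (n + 1)) := by
      rw [hB]
      calc _ ≤ ∑ _k ∈ Finset.univ.filter (fun k : Fin (n + 1) × Fin (n + 1) × Fin (n + 1) =>
            ¬ ∀ i, 1 ≤ cc k i), (Real.log 3 + Real.log (n + 1)) :=
            Finset.sum_le_sum (fun k _ => gv_le hs' k)
        _ ≤ _ := by
            rw [Finset.sum_const, nsmul_eq_mul]
            exact mul_le_mul_of_nonneg_right (card_nT n) (by linarith)
    have hB0 : 0 ≤ B := by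
      rw [hB]
      exact Finset.sum_nonneg (fun k _ => gv_nonneg hs' k)
    have hTle : T ≤ ((n : ℝ) + 1) ^ 3 * II s := by
      rw [hT]
      exact sum_TT_le hs' n
    have hTge : ((n : ℝ) + 1) ^ 3 * II s - (Real.log 3 + 1 + Real.log (n + 1)) ≤ T + B := by
      rw [← hTB]
      refine (sum_ge hs' n).trans ?_
      exact Finset.sum_le_sum_of_subset_of_nonneg (Finset.erase_subset _ _)
        (fun k _ _ => gv_nonneg hs' k)
    have hbu : bbr n s ≤ 2 * (T + B) := by
      rw [bbr_eq, ← hTB, Finset.mul_sum]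
      apply Finset.sum_le_sum
      intro k _
      have h3 : (pol n k : ℝ) ≤ 2 := by exact_mod_cast pol_le k
      exact mul_le_mul_of_nonneg_right h3 (gv_nonneg hs' k)
    have hbl : 2 * T ≤ bbr n s := by
      rw [bbr_eq, hT, Finset.mul_sum]
      calc ∑ k ∈ TT n, 2 * gv (s : ℝ) k = ∑ k ∈ TT n, (pol n k : ℝ) * gv (s : ℝ) k := by
            apply Finset.sum_congr rfl
            intro k hk
            rw [pol_TT (Finset.mem_filter.mp hk).2]
            norm_num
        _ ≤ _ := Finset.sum_le_sum_of_subset_of_nonneg (Finset.subset_univ _)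
            (fun k _ _ => mul_nonneg (Nat.cast_nonneg _) (gv_nonneg hs' k))
    -- numbers
    have e1 : ((n : ℝ) + 1) ^ 3 * II s = (n : ℝ) ^ 3 * II s +
        (3 * (n : ℝ) ^ 2 + 3 * n + 1) * II s := by ring
    have e2 : 0 ≤ (3 * (n : ℝ) ^ 2 + 3 * n + 1) * II s := by positivity
    have e3 : (3 * (n : ℝ) ^ 2 + 3 * n + 1) * II s ≤ 21 * (n : ℝ) ^ 2 := by
      have h1 : 3 * (n : ℝ) ^ 2 + 3 * n + 1 ≤ 7 * (n : ℝ) ^ 2 := by nlinarith
      have h2 : II (s : ℝ) ≤ 3 := by linarith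
      calc _ ≤ 7 * (n : ℝ) ^ 2 * 3 := by gcongr
        _ = 21 * (n : ℝ) ^ 2 := by ring
    have e4 : B ≤ 36 * ((n : ℝ) ^ 2 * (1 + Real.log n)) := by
      refine hBle.trans ?_
      calc 3 * ((n : ℝ) + 1) ^ 2 * (Real.log 3 + Real.log (n + 1)) ≤
          3 * (2 * (n : ℝ)) ^ 2 * (2 + (1 + Real.log n)) := by
            gcongr
            linarith
        _ ≤ 36 * ((n : ℝ) ^ 2 * (1 + Real.log n)) := by
            have h9 := mul_nonneg (sq_nonneg (n : ℝ)) hL0
            nlinarith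
    have e5 : (n : ℝ) ^ 2 ≤ (n : ℝ) ^ 2 * (1 + Real.log n) := by
      nlinarith [mul_nonneg (sq_nonneg (n : ℝ)) hL0]
    have e6 : Real.log 3 + 1 + Real.log (n + 1) ≤ 4 * ((n : ℝ) ^ 2 * (1 + Real.log n)) := by
      have h1 : (1 : ℝ) ≤ (n : ℝ) ^ 2 := by nlinarith
      have h2 : (1 + Real.log n) ≤ (n : ℝ) ^ 2 * (1 + Real.log n) := by nlinarith
      linarith
    have e7 : 0 ≤ (n : ℝ) ^ 2 * (1 + Real.log n) := by positivity
    rw [abs_le]
    constructor <;> nlinarith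

end

end Pool.Agent.N899.BB.Riem
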