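import Mathlib
import Pool.Agent.N899.BB.Stm

/-!
# Spanning trees with base faces for the boxes
-/

set_option autoImplicit false

open Pool.Agent.N899.BB

namespace Pool.Agent.N899.BB.Rt1

noncomputable section

/-- the tree of a point -/
def ptRt : Rt pt where
  root := ()
  tree := Empty.elim
  pe := fun _ => none
  pe_root := rfl
  pe_some := fun v hv => absurd (@Subsingleton.elim Unit _ v ()) hv
  pe_tree := fun e => e.elim
  rV := fun _ => 0
  rV_lt := fun e => e.elim
  bf := fun e => e.elim
  rE := fun _ => 0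
  bf3 := fun e => e.elim
  bf2 := fun e => e.elim
  bf4 := fun e => e.elim
  bf1 := fun e => e.elim

section prod

variable {Y : Cx} (R : Rt Y) (m : ℕ)

/-- the edges of the tree of the product -/
def tr : (Y.prod (path m)).E → Bool :=
  Sum.elim (fun e : Y.E × Fin (m + 1) => decide (e.2 = 0) && R.tree e.1)
    (fun _ : Y.V × Fin m => true)

/-- the parent edge -/
def ped : (Y.prod (path m)).V → Option (Y.prod (path m)).E :=
  fun v : Y.V × Fin (m + 1) =>
    if h : v.2 = 0 then (R.pe v.1).map (fun e => Sum.inl (e, (0 : Fin (m + 1))))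
    else some (Sum.inr (v.1, v.2.pred h))

/-- the rank of the vertices -/
def rv : (Y.prod (path m)).V → ℕ := fun v : Y.V × Fin (m + 1) => R.rV v.1 + (v.2 : ℕ)

/-- the rank of the edges -/
def re : (Y.prod (path m)).E → ℕ :=
  Sum.elim (fun e : Y.E × Fin (m + 1) => R.rE e.1 + (e.2 : ℕ)) (fun _ : Y.V × Fin m => 0)

lemma tree_of {e : Y.E} {k : Fin (m + 1)} (h : tr R m (Sum.inl (e, k)) = false) (hk : k = 0) :
    R.tree e = false := by
  simpa [tr, hk] using h

/-- the base face -/
def bface : (e : (Y.prod (path m)).E) → tr R m e = false → (Y.prod (path m)).F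
  | Sum.inl e, h => if hk : (e.2 : Fin (m + 1)) = (0 : Fin (m + 1)) then Sum.inl (R.bf e.1 (tree_of R m h hk), (0 : Fin (m + 1)))
      else Sum.inr (e.1, Fin.pred (e.2 : Fin (m + 1)) hk)
  | Sum.inr _, h => absurd h (by simp [tr])

/-- the tree of the product with a path -/
def prodRt : Rt (Y.prod (path m)) where
  root := (R.root, (0 : Fin (m + 1)))
  tree := tr R m
  pe := ped R m
  pe_root := by
    show (if h : (0 : Fin (m + 1)) = 0 then _ else _) = none
    rw [dif_pos rfl, R.pe_root]
    rfl
  pe_some := by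
    rintro ⟨v, k⟩ hv
    change Fin (m + 1) at k
    by_cases hk : k = 0
    · subst hk
      have hv' : v ≠ R.root := by
        rintro rfl
        exact hv rfl
      obtain ⟨e, h1, h2, h3⟩ := R.pe_some v hv'
      refine ⟨Sum.inl (e, (0 : Fin (m + 1))), ?_, ?_, ?_⟩
      · show (if h : (0 : Fin (m + 1)) = 0 then _ else _) = _
        rw [dif_pos rfl, h1]
        rfl
      · show (decide ((0 : Fin (m + 1)) = 0) && R.tree e) = true
        simp [h2]
      · show (Y.tgt e, (0 : Fin (m + 1))) = _
        rw [h3]
        rfl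
    · refine ⟨Sum.inr (v, k.pred hk), ?_, rfl, ?_⟩
      · show (if h : k = 0 then _ else _) = _
        rw [dif_neg hk]
      · show (v, (k.pred hk).succ) = (v, k)
        rw [Fin.succ_pred]
  pe_tree := by
    rintro (⟨e, k⟩ | ⟨v, k⟩) h
    · change Fin (m + 1) at k
      have h' : (decide (k = 0) && R.tree e) = true := h
      rw [Bool.and_eq_true, decide_eq_true_iff] at h'
      obtain ⟨rfl, h2⟩ := h'
      show (if h : (0 : Fin (m + 1)) = 0 then
        (R.pe (Y.tgt e)).map (fun e => Sum.inl (e, (0 : Fin (m + 1)))) else _) = _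
      rw [dif_pos rfl, R.pe_tree e h2]
      rfl
    · change Fin m at k
      show (if h : k.succ = 0 then _ else some (Sum.inr (v, k.succ.pred h))) = _
      rw [dif_neg (Fin.succ_ne_zero k)]
      simp only [Fin.pred_succ]
      rfl
  rV := rv R m
  rV_lt := by
    rintro (⟨e, k⟩ | ⟨v, k⟩) h
    · change Fin (m + 1) at k
      have h' : (decide (k = 0) && R.tree e) = true := h
      rw [Bool.and_eq_true, decide_eq_true_iff] at h'
      show R.rV (Y.src e) + (k : ℕ) < R.rV (Y.tgt e) + (k : ℕ)
      exact Nat.add_lt_add_right (R.rV_lt e h'.2) _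
    · change Fin m at k
      show R.rV v + ((Fin.castSucc k : Fin (m + 1)) : ℕ) < R.rV v + ((Fin.succ k : Fin (m + 1)) : ℕ)
      simp
  bf := bface R m
  rE := re R m
  bf3 := by
    rintro (⟨e, k⟩ | ⟨v, k⟩) h
    · change Fin (m + 1) at k
      by_cases hk : k = 0
      · subst hk
        show (Y.prod (path m)).f3 (if hk : (0 : Fin (m + 1)) = 0 then
          Sum.inl (R.bf e (tree_of R m h hk), (0 : Fin (m + 1))) else
            Sum.inr (e, Fin.pred (0 : Fin (m + 1)) hk)) = _
        rw [dif_pos rfl]
        show Sum.inl (Y.f3 (R.bf e _), (0 : Fin (m + 1))) = _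
        rw [R.bf3]
        rfl
      · show (Y.prod (path m)).f3 (if hk : k = 0 then
          Sum.inl (R.bf e (tree_of R m h hk), (0 : Fin (m + 1))) else
            Sum.inr (e, k.pred hk)) = _
        rw [dif_neg hk]
        show Sum.inl (e, (k.pred hk).succ) = _
        rw [Fin.succ_pred]
        rfl
    · exact absurd h (by simp [tr])
  bf2 := by
    rintro (⟨e, k⟩ | ⟨v, k⟩) h
    · change Fin (m + 1) at k
      by_cases hk : k = 0
      · subst hk
        show tr R m ((Y.prod (path m)).f2 (if hk : (0 : Fin (m + 1)) = 0 then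
          Sum.inl (R.bf e (tree_of R m h hk), (0 : Fin (m + 1))) else
            Sum.inr (e, Fin.pred (0 : Fin (m + 1)) hk))) = _
        rw [dif_pos rfl]
        show (decide ((0 : Fin (m + 1)) = 0) && R.tree (Y.f2 (R.bf e _))) = true
        rw [R.bf2]
        simp
      · show tr R m ((Y.prod (path m)).f2 (if hk : k = 0 then
          Sum.inl (R.bf e (tree_of R m h hk), (0 : Fin (m + 1))) else
            Sum.inr (e, k.pred hk))) = _
        rw [dif_neg hk]
        rfl
    · exact absurd h (by simp [tr])
  bf4 := by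
    rintro (⟨e, k⟩ | ⟨v, k⟩) h
    · change Fin (m + 1) at k
      by_cases hk : k = 0
      · subst hk
        show tr R m ((Y.prod (path m)).f4 (if hk : (0 : Fin (m + 1)) = 0 then
          Sum.inl (R.bf e (tree_of R m h hk), (0 : Fin (m + 1))) else
            Sum.inr (e, Fin.pred (0 : Fin (m + 1)) hk))) = _
        rw [dif_pos rfl]
        show (decide ((0 : Fin (m + 1)) = 0) && R.tree (Y.f4 (R.bf e _))) = true
        rw [R.bf4]
        simp
      · show tr R m ((Y.prod (path m)).f4 (if hk : k = 0 then
          Sum.inl (R.bf e (tree_of R m h hk), (0 : Fin (m + 1))) else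
            Sum.inr (e, k.pred hk))) = _
        rw [dif_neg hk]
        rfl
    · exact absurd h (by simp [tr])
  bf1 := by
    rintro (⟨e, k⟩ | ⟨v, k⟩) h
    · change Fin (m + 1) at k
      by_cases hk : k = 0
      · subst hk
        show tr R m ((Y.prod (path m)).f1 (if hk : (0 : Fin (m + 1)) = 0 then
          Sum.inl (R.bf e (tree_of R m h hk), (0 : Fin (m + 1))) else
            Sum.inr (e, Fin.pred (0 : Fin (m + 1)) hk))) = false →
          re R m ((Y.prod (path m)).f1 (if hk : (0 : Fin (m + 1)) = 0 then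
          Sum.inl (R.bf e (tree_of R m h hk), (0 : Fin (m + 1))) else
            Sum.inr (e, Fin.pred (0 : Fin (m + 1)) hk))) < _
        rw [dif_pos rfl]
        intro h1
        have h2 : R.tree (Y.f1 (R.bf e (tree_of R m h rfl))) = false := by
          have h3 : (decide ((0 : Fin (m + 1)) = 0) && R.tree (Y.f1 (R.bf e _))) = false := h1
          simpa using h3
        show R.rE (Y.f1 (R.bf e _)) + ((0 : Fin (m + 1)) : ℕ) < R.rE e + ((0 : Fin (m + 1)) : ℕ)
        exact Nat.add_lt_add_right (R.bf1 e _ h2) _
      · show tr R m ((Y.prod (path m)).f1 (if hk : k = 0 then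
          Sum.inl (R.bf e (tree_of R m h hk), (0 : Fin (m + 1))) else
            Sum.inr (e, k.pred hk))) = false →
          re R m ((Y.prod (path m)).f1 (if hk : k = 0 then
          Sum.inl (R.bf e (tree_of R m h hk), (0 : Fin (m + 1))) else
            Sum.inr (e, k.pred hk))) < _
        rw [dif_neg hk]
        intro _
        show R.rE e + ((Fin.castSucc (k.pred hk) : Fin (m + 1)) : ℕ) < R.rE e + (k : ℕ)
        apply Nat.add_lt_add_left
        have h4 : (k : ℕ) ≠ 0 := fun h5 => hk (Fin.ext h5)
        simp only [Fin.val_castSucc, Fin.val_pred]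
        omega
    · exact absurd h (by simp [tr])

end prod

lemma cardV (X : Cx) (m : ℕ) :
    Fintype.card (X.prod (path m)).V = Fintype.card X.V * (m + 1) := by
  show Fintype.card (X.V × Fin (m + 1)) = _
  rw [Fintype.card_prod, Fintype.card_fin]

lemma cardE (X : Cx) (m : ℕ) :
    Fintype.card (X.prod (path m)).E = Fintype.card X.E * (m + 1) + Fintype.card X.V * m := by
  show Fintype.card ((X.E × Fin (m + 1)) ⊕ (X.V × Fin m)) = _
  rw [Fintype.card_sum, Fintype.card_prod, Fintype.card_prod, Fintype.card_fin, Fintype.card_fin]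

lemma cardF (X : Cx) (m : ℕ) :
    Fintype.card (X.prod (path m)).F = Fintype.card X.F * (m + 1) + Fintype.card X.E * m := by
  show Fintype.card ((X.F × Fin (m + 1)) ⊕ (X.E × Fin m)) = _
  rw [Fintype.card_sum, Fintype.card_prod, Fintype.card_prod, Fintype.card_fin, Fintype.card_fin]

lemma cardVpt : Fintype.card pt.V = 1 := by
  show Fintype.card Unit = 1
  exact Fintype.card_unit

lemma cardEpt : Fintype.card pt.E = 0 := by
  show Fintype.card Empty = 0
  exact Fintype.card_empty

lemma cardFpt : Fintype.card pt.F = 0 := by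
  show Fintype.card Empty = 0
  exact Fintype.card_empty

theorem t_RT : S_RT := by
  refine ⟨⟨ptRt⟩, fun Y m ⟨R⟩ => ⟨prodRt R m⟩, fun n =>
    ⟨prodRt (prodRt (prodRt ptRt n) n) n⟩, fun n => ⟨?_, ?_⟩⟩
  · have h1 := cardE ((pt.prod (path n)).prod (path n)) n
    have h2 := cardE (pt.prod (path n)) n
    have h3 := cardE pt n
    have h4 := cardV (pt.prod (path n)) n
    have h5 := cardV pt n
    have h6 := cardVpt
    have h7 := cardEpt
    rw [h6] at h5 h3
    rw [h7] at h3
    rw [h5] at h4 h2
    rw [h3] at h2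
    rw [h4, h2] at h1
    rw [box, h1]
    ring
  · have h1 := cardF ((pt.prod (path n)).prod (path n)) n
    have h8 := cardF (pt.prod (path n)) n
    have h9 := cardF pt n
    have h2 := cardE (pt.prod (path n)) n
    have h3 := cardE pt n
    have h5 := cardV pt n
    have h6 := cardVpt
    have h7 := cardEpt
    have h10 := cardFpt
    rw [h6] at h5 h3
    rw [h7] at h3 h9
    rw [h10] at h9
    rw [h5] at h2
    rw [h3] at h2 h8
    rw [h9] at h8
    rw [h8, h2] at h1
    rw [box, h1]
    ring

end

end Pool.Agent.N899.BB.Rt1
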