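import Mathlib
import Pool.Agent.N899.BB.Stm

/-! Real sequences: subadditive and convex (adaptation of `SB/Seq.lean`). -/

namespace Pool.Agent.N899.BB.Seq3

open MeasureTheory Pool.Agent.N899.SB Pool.Agent.N899.BB Filter Topology

theorem t_SEQ3 : S_SEQ3 := by
  intro b C hsub hconv hlow
  set u : ℕ → ℝ := fun i => if i = 0 then 0 else b i with hu
  have hu1 : ∀ i, 1 ≤ i → u i = b i := fun i hi => if_neg (by omega)
  have hsubu : Subadditive u := by
    intro m n
    rcases Nat.eq_zero_or_pos m with hm | hm
    · subst hm; simp [hu]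
    · rcases Nat.eq_zero_or_pos n with hn | hn
      · subst hn; simp [hu]
      · rw [hu1 _ hm, hu1 _ hn, hu1 _ (by omega)]
        exact hsub m n hm hn
  have hbdd : BddBelow (Set.range fun n => u n / n) := by
    refine ⟨min (-C) 0, ?_⟩
    rintro _ ⟨n, rfl⟩
    rcases Nat.eq_zero_or_pos n with hn | hn
    · subst hn; simp
    · have hn' : (0 : ℝ) < n := by exact_mod_cast hn
      refine (min_le_left _ _).trans ?_
      change -C ≤ u n / n
      rw [hu1 n hn, le_div_iff₀ hn']
      linarith [hlow n hn]
  have hlim := hsubu.tendsto_lim hbdd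
  set κ := hsubu.lim with hκ
  have hF0 : ∀ i : ℕ, 1 ≤ i → 0 ≤ b i - i * κ := by
    intro i hi
    have hi' : (0 : ℝ) < i := by exact_mod_cast hi
    have h := hsubu.lim_le_div hbdd (n := i) (by omega)
    rw [hu1 i hi, le_div_iff₀ hi'] at h
    linarith
  -- the increments are nonpositive
  have hinc : ∀ i : ℕ, 1 ≤ i → b (i + 1) - b i ≤ κ := by
    intro i hi
    by_contra hcon
    push Not at hcon
    set d := b (i + 1) - b i - κ with hd
    have hdpos : 0 < d := by linarith
    have h1 : ∀ j : ℕ, b (i + 1) - b i ≤ b (i + j + 1) - b (i + j) := by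
      intro j
      induction j with
      | zero => simp
      | succ j ih =>
        have := hconv (i + j) (by omega)
        have e1 : i + (j + 1) + 1 = i + j + 2 := by ring
        have e2 : i + (j + 1) = i + j + 1 := by ring
        rw [e1, e2]
        linarith
    have h2 : ∀ j : ℕ, b i + j * (κ + d) ≤ b (i + j) := by
      intro j
      induction j with
      | zero => simp
      | succ j ih =>
        have := h1 j
        have e2 : i + (j + 1) = i + j + 1 := by ring
        rw [e2]
        push_cast
        linarith
    have h3 := (hlim.eventually (gt_mem_nhds (show κ < κ + d / 2 by linarith)))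
    rw [eventually_atTop] at h3
    obtain ⟨N, hN⟩ := h3
    have h4 := hN (i + (N + i)) (by omega)
    rw [hu1 _ (by omega)] at h4
    have hpos : (0 : ℝ) < ((i + (N + i) : ℕ) : ℝ) := by
      have : 0 < i + (N + i) := by omega
      exact_mod_cast this
    rw [div_lt_iff₀ hpos] at h4
    have h5 := h2 (N + i)
    have h6 := hF0 i hi
    push_cast at h4 h5
    have hN0 : (0 : ℝ) ≤ N := Nat.cast_nonneg N
    nlinarith
  have hanti : ∀ i j : ℕ, 1 ≤ i → i ≤ j → b j - j * κ ≤ b i - i * κ := by
    intro i j hi hij
    induction j, hij using Nat.le_induction with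
    | base => exact le_rfl
    | succ j hj ih =>
      have := hinc j (by omega)
      push_cast
      linarith
  refine ⟨κ, ?_, ?_⟩
  · refine hlim.congr' ?_
    filter_upwards [eventually_ge_atTop 1] with i hi
    rw [hu1 i hi]
  · intro i j hi hij
    have hi' : (0 : ℝ) < i := by exact_mod_cast hi
    have hj' : (0 : ℝ) < j := by
      have : 0 < j := by omega
      exact_mod_cast this
    have h1 := hF0 j (by omega)
    have h2 := hanti i j hi hij.le
    have h3 : κ ≤ b j / j := by
      rw [le_div_iff₀ hj']
      linarith
    refine ⟨by linarith, ?_⟩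
    have h4 : b j / j ≤ b i / j + κ * (1 - (i : ℝ) / j) := by
      rw [div_le_iff₀ hj']
      have h5 : (b i / j + κ * (1 - (i : ℝ) / j)) * j = b i + κ * (j - i) := by
        field_simp
      rw [h5]
      linarith
    have h6 : (b i / i - κ) * (1 - (i : ℝ) / j) = b i / i - b i / j - κ * (1 - (i : ℝ) / j) := by
      field_simp
    rw [h6]
    linarith

end Pool.Agent.N899.BB.Seq3
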