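import Mathlib
import Pool.Agent.N899.BB.Stm
import Pool.Agent.N899.BB.Stm2

/-!
# Black body radiation of gluons: the transfer matrix, products with cycles and paths
-/

set_option autoImplicit false

open MeasureTheory
open Pool.Agent.N899.SB

namespace Pool.Agent.N899.BB.Sl

section cont

variable {G : Type} [Group G] [TopologicalSpace G] [IsTopologicalGroup G]

theorem continuous_S (X : Cx) (we : G → ℝ) (hwe : Continuous we) :
    Continuous (fun U : X.E → G => X.S we U) := by
  unfold Cx.S Cx.plq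
  refine continuous_finsetSum _ fun f _ => ?_
  exact hwe.comp (by fun_prop)

theorem continuous_tm (X : Cx) (we : G → ℝ) (hwe : Continuous we) :
    Continuous (fun p : (X.E → G) × (X.V → G) × (X.E → G) => X.tm we p.1 p.2.1 p.2.2) := by
  unfold Cx.tm
  refine continuous_finsetSum _ fun e _ => ?_
  exact hwe.comp (by fun_prop)

/-- the integrand of the transfer matrix -/
noncomputable def hh (X : Cx) (we : G → ℝ) (β : ℝ) (u : X.E → G) (W : X.V → G) (v : X.E → G) : ℝ :=
  Real.exp (-(β * (1 / 2 * X.S we u + 1 / 2 * X.S we v + X.tm we u W v)))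

theorem continuous_hh (X : Cx) (we : G → ℝ) (hwe : Continuous we) (β : ℝ) :
    Continuous (fun p : (X.E → G) × (X.V → G) × (X.E → G) => hh X we β p.1 p.2.1 p.2.2) := by
  have h1 := continuous_S X we hwe
  have h2 := continuous_tm X we hwe
  refine Real.continuous_exp.comp (Continuous.neg (continuous_const.mul ?_))
  exact ((continuous_const.mul (h1.comp continuous_fst)).add
    (continuous_const.mul (h1.comp (continuous_snd.comp continuous_snd)))).add h2

theorem continuous_phi (X : Cx) (we : G → ℝ) (hwe : Continuous we) (β : ℝ) :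
    Continuous (X.φ we β : (X.E → G) → ℝ) :=
  Real.continuous_exp.comp
    (Continuous.neg (continuous_const.mul (continuous_const.mul (continuous_S X we hwe))))

end cont

theorem tm_inv {G : Type} [Group G] (X : Cx) (we : G → ℝ)
    (hinv : ∀ g, we g⁻¹ = we g) (hconj : ∀ g h, we (h * g * h⁻¹) = we g)
    (u v : X.E → G) (W : X.V → G) : X.tm we u W⁻¹ v = X.tm we v W u := by
  unfold Cx.tm
  refine Finset.sum_congr rfl fun e _ => ?_
  rw [← hinv, ← hconj _ (W (X.src e))]
  congr 1
  simp only [Pi.inv_apply]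
  group

theorem t_KX : S_KX := by
  intro G _ _ _ _ _ _ _ μ _ _ we hwe hinv hconj hpos X β hβ
  have hc := continuous_hh X we hwe β
  have hS : ∀ u : X.E → G, 0 ≤ X.S we u := fun u => Finset.sum_nonneg fun f _ => hpos _
  have hint : ∀ u v : X.E → G, Integrable (fun W : X.V → G => hh X we β u W v)
      (Measure.pi fun _ => μ) := by
    intro u v
    have h0 : Continuous (fun W : X.V → G => (u, W, v)) := by fun_prop
    exact (hc.comp h0).integrable_of_hasCompactSupport (HasCompactSupport.of_compactSpace _)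
  refine ⟨?_, ?_, ?_, continuous_phi X we hwe β, ?_, ?_⟩
  · have hc' : Continuous (fun p : ((X.E → G) × (X.E → G)) × (X.V → G) =>
        hh X we β p.1.1 p.2 p.1.2) := hc.comp (g := fun p : (X.E → G) × (X.V → G) × (X.E → G) =>
          hh X we β p.1 p.2.1 p.2.2) (f := fun p : ((X.E → G) × (X.E → G)) × (X.V → G) =>
            (p.1.1, p.2, p.1.2)) (by fun_prop)
    have := continuous_parametric_integral_of_continuous (μ := Measure.pi fun _ : X.V => μ)
      (f := fun (p : (X.E → G) × (X.E → G)) (W : X.V → G) => hh X we β p.1 W p.2) hc'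
      isCompact_univ
    simp only [Measure.restrict_univ] at this
    exact this
  · intro u v
    exact integral_exp_pos (hint u v)
  · intro u v
    unfold Cx.k
    rw [← integral_inv_eq_self]
    refine integral_congr_ae (Filter.Eventually.of_forall fun W => ?_)
    simp only
    rw [tm_inv X we hinv hconj]
    congr 1
    ring
  · intro u
    refine ⟨Real.exp_pos _, Real.exp_le_one_iff.2 ?_⟩
    have := mul_nonneg hβ (hS u)
    nlinarith [hS u]
  · intro u v
    have h1 : ∀ W : X.V → G, hh X we β u W v ≤ X.φ we β u * X.φ we β v := by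
      intro W
      unfold hh Cx.φ
      rw [← Real.exp_add]
      refine Real.exp_le_exp.2 ?_
      have h2 : 0 ≤ β * X.tm we u W v :=
        mul_nonneg hβ (Finset.sum_nonneg fun e _ => hpos _)
      nlinarith
    calc X.k μ we β u v = ∫ W : X.V → G, hh X we β u W v ∂(Measure.pi fun _ => μ) := rfl
      _ ≤ ∫ _W : X.V → G, X.φ we β u * X.φ we β v ∂(Measure.pi fun _ => μ) :=
        integral_mono (hint u v) (integrable_const _) h1
      _ = X.φ we β u * X.φ we β v := by simp

section prod

variable {G : Type} [Group G]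

/-- the action of a product -/
theorem S_prod (X : Cx) (Γ : Gr) (we : G → ℝ) (U : (X.prod Γ).E → G) :
    (X.prod Γ).S we U = ∑ v : Γ.V, X.S we (fun e => U (Sum.inl (e, v))) +
      ∑ ε : Γ.E, X.tm we (fun e => U (Sum.inl (e, Γ.src ε))) (fun v => U (Sum.inr (v, ε)))
        (fun e => U (Sum.inl (e, Γ.tgt ε))) := by
  have h : (X.prod Γ).S we U = ∑ f : (X.F × Γ.V) ⊕ (X.E × Γ.E), we ((X.prod Γ).plq U f) := rfl
  rw [h, Fintype.sum_sum_type, Fintype.sum_prod_type_right, Fintype.sum_prod_type_right]
  rfl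

theorem exp_prod {ι : Type} (s : Finset ι) (β : ℝ) (f : ι → ℝ) :
    Real.exp (-(β * ∑ i ∈ s, f i)) = ∏ i ∈ s, Real.exp (-(β * f i)) := by
  rw [Finset.mul_sum, ← Finset.sum_neg_distrib, Real.exp_sum]

theorem exp_cyc (X : Cx) (t : ℕ) (we : G → ℝ) (β : ℝ) (U : (X.prod (cyc (t + 1))).E → G) :
    Real.exp (-(β * (X.prod (cyc (t + 1))).S we U)) = ∏ τ : ZMod (t + 1),
      hh X we β (fun e => U (Sum.inl (e, τ))) (fun v => U (Sum.inr (v, τ)))
        (fun e => U (Sum.inl (e, τ + 1))) := by
  have h1 : (X.prod (cyc (t + 1))).S we U = ∑ τ : ZMod (t + 1),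
      (1 / 2 * X.S we (fun e => U (Sum.inl (e, τ))) +
        1 / 2 * X.S we (fun e => U (Sum.inl (e, τ + 1))) +
        X.tm we (fun e => U (Sum.inl (e, τ))) (fun v => U (Sum.inr (v, τ)))
          (fun e => U (Sum.inl (e, τ + 1)))) := by
    rw [S_prod, Finset.sum_add_distrib, Finset.sum_add_distrib, ← Finset.mul_sum,
      ← Finset.mul_sum]
    have h2 : ∑ τ : ZMod (t + 1), X.S we (fun e => U (Sum.inl (e, τ + 1))) =
        ∑ τ : ZMod (t + 1), X.S we (fun e => U (Sum.inl (e, τ))) :=
      Equiv.sum_comp (Equiv.addRight (1 : ZMod (t + 1)))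
        (fun τ => X.S we (fun e => U (Sum.inl (e, τ))))
    rw [h2]
    have h3 : ∀ a b : ℝ, a + b = 1 / 2 * a + 1 / 2 * a + b := fun a b => by ring
    exact h3 _ _
  rw [h1, exp_prod]
  rfl

theorem sum_path (m : ℕ) (s : Fin (m + 2) → ℝ) :
    ∑ i, s i = 1 / 2 * s 0 + ∑ τ : Fin (m + 1), (1 / 2 * s τ.castSucc + 1 / 2 * s τ.succ) +
      1 / 2 * s (Fin.last (m + 1)) := by
  have h1 := Fin.sum_univ_castSucc s
  have h2 := Fin.sum_univ_succ s
  rw [Finset.sum_add_distrib, ← Finset.mul_sum, ← Finset.mul_sum]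
  linarith

theorem exp_path (X : Cx) (m : ℕ) (we : G → ℝ) (β : ℝ) (U : (X.prod (path (m + 1))).E → G) :
    Real.exp (-(β * (X.prod (path (m + 1))).S we U)) =
      X.φ we β (fun e => U (Sum.inl (e, (0 : Fin (m + 2))))) *
      (∏ τ : Fin (m + 1), hh X we β (fun e => U (Sum.inl (e, τ.castSucc)))
        (fun v => U (Sum.inr (v, τ))) (fun e => U (Sum.inl (e, τ.succ)))) *
      X.φ we β (fun e => U (Sum.inl (e, Fin.last (m + 1)))) := by
  have h1 : (X.prod (path (m + 1))).S we U =
      1 / 2 * X.S we (fun e => U (Sum.inl (e, (0 : Fin (m + 2))))) +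
      ∑ τ : Fin (m + 1), (1 / 2 * X.S we (fun e => U (Sum.inl (e, τ.castSucc))) +
        1 / 2 * X.S we (fun e => U (Sum.inl (e, τ.succ))) +
        X.tm we (fun e => U (Sum.inl (e, τ.castSucc))) (fun v => U (Sum.inr (v, τ)))
          (fun e => U (Sum.inl (e, τ.succ)))) +
      1 / 2 * X.S we (fun e => U (Sum.inl (e, Fin.last (m + 1)))) := by
    rw [S_prod]
    have h2 := sum_path m (fun i : Fin (m + 2) => X.S we (fun e => U (Sum.inl (e, i))))
    have h3 : ∑ v : (path (m + 1)).V, X.S we (fun e => U (Sum.inl (e, v))) =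
      ∑ i : Fin (m + 2), X.S we (fun e => U (Sum.inl (e, i))) := rfl
    rw [h3, h2, Finset.sum_add_distrib (f := fun τ : Fin (m + 1) =>
      (1 / 2 * X.S we (fun e => U (Sum.inl (e, τ.castSucc))) +
        1 / 2 * X.S we (fun e => U (Sum.inl (e, τ.succ)))))]
    have h4 : ∀ a b c d : ℝ, a + b + c + d = a + (b + d) + c := fun a b c d => by ring
    exact h4 _ _ _ _
  rw [h1]
  unfold Cx.φ
  have h5 : ∀ a b c : ℝ, -(β * (a + b + c)) = -(β * a) + -(β * b) + -(β * c) :=
    fun a b c => by ring
  rw [h5, Real.exp_add, Real.exp_add, exp_prod]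
  rfl

end prod

/-- the edges of the product with one point -/
def e0 (X : Cx) : X.E ≃ (X.prod (path 0)).E where
  toFun e := Sum.inl (e, (0 : Fin 1))
  invFun := Sum.elim (fun e => e.1) (fun e => Fin.elim0 (show Fin 0 from e.2))
  left_inv _ := rfl
  right_inv := by
    rintro (⟨e, t⟩ | ⟨v, t⟩)
    · have : t = (0 : Fin 1) := Subsingleton.elim (α := Fin 1) _ _
      subst this
      rfl
    · exact Fin.elim0 (show Fin 0 from t)

theorem t_SL : S_SLG → S_SL := by
  intro hslg G _ _ _ _ _ _ _ μ _ we hwe X β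
  obtain ⟨ha, hb⟩ := hslg G μ X (hh X we β) (continuous_hh X we hwe β)
  refine ⟨fun t => ?_, ?_, fun m => ?_⟩
  · unfold Cx.Z
    rw [← show trk (X.M μ) (fun u v => ∫ W : X.V → G, hh X we β u W v
      ∂(Measure.pi fun _ => μ)) t = trk (X.M μ) (X.k μ we β) t from rfl, ← ha t]
    exact integral_congr_ae (Filter.Eventually.of_forall fun U => exp_cyc X t we β U)
  · have h1 := (measurePreserving_piCongrLeft (fun _ : (X.prod (path 0)).E => μ)
      (e0 X)).integral_comp' (f := MeasurableEquiv.piCongrLeft (fun _ => G) (e0 X))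
      (fun U => Real.exp (-(β * (X.prod (path 0)).S we U)))
    unfold Cx.Z
    rw [← h1]
    refine integral_congr_ae (Filter.Eventually.of_forall fun u => ?_)
    simp only
    have h2 : (X.prod (path 0)).S we (MeasurableEquiv.piCongrLeft (fun _ => G) (e0 X) u) =
        X.S we u := by
      rw [S_prod]
      have h3 : ∀ e : X.E, (MeasurableEquiv.piCongrLeft (fun _ => G) (e0 X) u)
          (Sum.inl (e, (0 : Fin 1))) = u e := fun e =>
        MeasurableEquiv.piCongrLeft_apply_apply (β := fun _ => G) (e0 X) u e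
      have h4 : ∀ (f : (path 0).V → ℝ), ∑ v, f v = f (0 : Fin 1) := fun f =>
        Fin.sum_univ_one f
      have h5 : ∀ (f : (path 0).E → ℝ), ∑ v, f v = 0 := fun f =>
        Fin.sum_univ_zero (M := ℝ) f
      rw [h4, h5, add_zero]
      exact congrArg (X.S we) (funext h3)
    rw [h2]
    unfold Cx.φ
    rw [← Real.exp_add]
    congr 1
    ring
  · unfold Cx.Z
    have h1 := hb m (X.φ we β) (continuous_phi X we hwe β)
    refine Eq.trans ?_ h1
    exact integral_congr_ae (Filter.Eventually.of_forall fun U => exp_path X m we β U)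

end Pool.Agent.N899.BB.Sl
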