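import Mathlib
import Pool.Agent.N899.BB.Stm2
import Pool.Agent.N899.SB.Ring

/-!
# Decomposition of path integrals over `X × Γ` into slices
(helper833 for the project BB of helper899)
-/

set_option autoImplicit false

open MeasureTheory Pool.Agent.N899.SB Pool.Agent.N899.SB.Ring

namespace Pool.Agent.N899.BB.Slg

section psi

variable {G : Type} {X : Cx} {Γ : Gr}

/-- the configuration with the links `V` in the slices and the links `W` between the slices -/
def psi (z : (Γ.V → (X.E → G)) × (Γ.E → (X.V → G))) : (X.prod Γ).E → G :=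
  Sum.elim (fun e => z.1 e.2 e.1) (fun e => z.2 e.2 e.1)

lemma psi_inl (z : (Γ.V → (X.E → G)) × (Γ.E → (X.V → G))) (e : X.E) (τ : Γ.V) :
    psi z (Sum.inl (e, τ)) = z.1 τ e := rfl

lemma psi_inr (z : (Γ.V → (X.E → G)) × (Γ.E → (X.V → G))) (v : X.V) (τ : Γ.E) :
    psi z (Sum.inr (v, τ)) = z.2 τ v := rfl

variable [TopologicalSpace G] [SecondCountableTopology G] [MeasurableSpace G] [BorelSpace G]

omit [SecondCountableTopology G] [MeasurableSpace G] [BorelSpace G] in
lemma psi_cont :
    Continuous (psi : (Γ.V → (X.E → G)) × (Γ.E → (X.V → G)) → ((X.prod Γ).E → G)) := by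
  refine continuous_pi fun q => ?_
  rcases q with ⟨e, t⟩ | ⟨v, t⟩
  · change Continuous fun z : (Γ.V → (X.E → G)) × (Γ.E → (X.V → G)) => z.1 t e
    fun_prop
  · change Continuous fun z : (Γ.V → (X.E → G)) × (Γ.E → (X.V → G)) => z.2 t v
    fun_prop

/-- the decomposition of the measure -/
lemma map_psi (μ : Measure G) [IsProbabilityMeasure μ] :
    Measure.map (psi : (Γ.V → (X.E → G)) × (Γ.E → (X.V → G)) → ((X.prod Γ).E → G))
      ((Measure.pi fun _ => Measure.pi fun _ => μ).prod (Measure.pi fun _ => Measure.pi fun _ => μ)) =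
      Measure.pi fun _ => μ := by
  refine (Measure.pi_eq fun s hs => ?_).symm
  have hm : Measurable (psi : (Γ.V → (X.E → G)) × (Γ.E → (X.V → G)) → ((X.prod Γ).E → G)) :=
    psi_cont.measurable
  rw [Measure.map_apply hm (MeasurableSet.univ_pi hs)]
  have hpre : (psi : (Γ.V → (X.E → G)) × (Γ.E → (X.V → G)) → ((X.prod Γ).E → G)) ⁻¹'
      (Set.univ.pi s) =
      (Set.univ.pi fun τ : Γ.V => Set.univ.pi fun e : X.E => s (Sum.inl (e, τ))) ×ˢ
      (Set.univ.pi fun τ : Γ.E => Set.univ.pi fun v : X.V => s (Sum.inr (v, τ))) := by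
    ext z
    simp only [Set.mem_preimage, Set.mem_pi, Set.mem_univ, true_implies, Set.mem_prod]
    constructor
    · intro h
      exact ⟨fun τ e => h (Sum.inl (e, τ)), fun τ v => h (Sum.inr (v, τ))⟩
    · rintro ⟨h1, h2⟩ (⟨e, τ⟩ | ⟨v, τ⟩)
      · exact h1 τ e
      · exact h2 τ v
  rw [hpre, Measure.prod_prod, Measure.pi_pi, Measure.pi_pi]
  simp only [Measure.pi_pi]
  change _ = ∏ i : (X.E × Γ.V) ⊕ (X.V × Γ.E), μ (s i)
  rw [Fintype.prod_sum_type, Fintype.prod_prod_type_right, Fintype.prod_prod_type_right]

lemma integral_psi [CompactSpace G] (μ : Measure G) [IsProbabilityMeasure μ]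
    (F : ((X.prod Γ).E → G) → ℝ) (hF : Continuous F) :
    ∫ U, F U ∂(Measure.pi fun _ => μ) =
      ∫ V : Γ.V → (X.E → G), ∫ W : Γ.E → (X.V → G), F (psi (V, W))
        ∂(Measure.pi fun _ => Measure.pi fun _ => μ) ∂(Measure.pi fun _ => Measure.pi fun _ => μ) := by
  rw [← map_psi, integral_map psi_cont.measurable.aemeasurable
    hF.measurable.aestronglyMeasurable]
  exact integral_prod _ (integrable_cont _ _ (hF.comp psi_cont))

end psi

section chain

variable {Y : Type} [TopologicalSpace Y] [CompactSpace Y]
  [SecondCountableTopology Y] [MeasurableSpace Y] [BorelSpace Y] (μ : Measure Y)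
  [IsProbabilityMeasure μ]

/-- the path integral over the path -/
theorem chain (k : Y → Y → ℝ) (hk : Continuous (fun p : Y × Y => k p.1 p.2)) (g : Y → ℝ)
    (hg : Continuous g) : ∀ (m : ℕ) (f : Y → ℝ), Continuous f →
    ∫ V : Fin (m + 2) → Y, f (V 0) * (∏ τ : Fin (m + 1), k (V τ.castSucc) (V τ.succ)) *
      g (V (Fin.last (m + 1))) ∂(Measure.pi fun _ => μ) =
    ∫ u, ∫ v, f u * kit μ k m u v * g v ∂μ ∂μ := by
  intro m
  induction m with
  | zero =>
    intro f hf
    have hc : Continuous fun V : Fin 2 → Y => f (V 0) * (∏ τ : Fin 1,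
        k (V τ.castSucc) (V τ.succ)) * g (V (Fin.last 1)) := by
      refine Continuous.mul (Continuous.mul (hf.comp (continuous_apply 0)) ?_)
        (hg.comp (continuous_apply _))
      refine continuous_finsetProd _ fun τ _ => ?_
      have hq : Continuous fun V : Fin 2 → Y => (V τ.castSucc, V τ.succ) :=
        (continuous_apply _).prodMk (continuous_apply _)
      exact hk.comp hq
    rw [integral_cons μ 1 _ hc]
    refine integral_congr_ae (Filter.Eventually.of_forall fun u => ?_)
    beta_reduce
    have hc' : Continuous fun V : Fin 1 → Y => f ((Fin.cons u V : Fin 2 → Y) 0) *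
        (∏ τ : Fin 1, k ((Fin.cons u V : Fin 2 → Y) τ.castSucc) ((Fin.cons u V : Fin 2 → Y) τ.succ)) *
        g ((Fin.cons u V : Fin 2 → Y) (Fin.last 1)) := by
      refine hc.comp (continuous_pi fun i => ?_)
      refine Fin.cases ?_ (fun j => ?_) i
      · simpa using continuous_const
      · simpa using continuous_apply j
    rw [integral_cons μ 0 _ hc']
    refine integral_congr_ae (Filter.Eventually.of_forall fun v => ?_)
    beta_reduce
    have h1 : ∀ V : Fin 0 → Y, f ((Fin.cons u (Fin.cons v V : Fin 1 → Y) : Fin 2 → Y) 0) *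
        (∏ τ : Fin 1, k ((Fin.cons u (Fin.cons v V : Fin 1 → Y) : Fin 2 → Y) τ.castSucc)
          ((Fin.cons u (Fin.cons v V : Fin 1 → Y) : Fin 2 → Y) τ.succ)) *
        g ((Fin.cons u (Fin.cons v V : Fin 1 → Y) : Fin 2 → Y) (Fin.last 1)) =
        f u * k u v * g v := by
      intro V
      rw [Fin.prod_univ_one]
      rfl
    simp only [h1]
    simp [kit]
  | succ m ih =>
    intro f hf
    have hc : Continuous fun V : Fin (m + 3) → Y => f (V 0) * (∏ τ : Fin (m + 2),
        k (V τ.castSucc) (V τ.succ)) * g (V (Fin.last (m + 2))) := by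
      refine Continuous.mul (Continuous.mul (hf.comp (continuous_apply 0)) ?_)
        (hg.comp (continuous_apply _))
      refine continuous_finsetProd _ fun τ _ => ?_
      have hq : Continuous fun V : Fin (m + 3) → Y => (V τ.castSucc, V τ.succ) :=
        (continuous_apply _).prodMk (continuous_apply _)
      exact hk.comp hq
    rw [integral_cons μ (m + 2) _ hc]
    refine integral_congr_ae (Filter.Eventually.of_forall fun u => ?_)
    beta_reduce
    have h1 : ∀ V : Fin (m + 2) → Y, f ((Fin.cons u V : Fin (m + 3) → Y) 0) *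
        (∏ τ : Fin (m + 2), k ((Fin.cons u V : Fin (m + 3) → Y) τ.castSucc)
          ((Fin.cons u V : Fin (m + 3) → Y) τ.succ)) *
        g ((Fin.cons u V : Fin (m + 3) → Y) (Fin.last (m + 2))) =
        (fun w => f u * k u w) (V 0) *
          (∏ τ : Fin (m + 1), k (V τ.castSucc) (V τ.succ)) * g (V (Fin.last (m + 1))) := by
      intro V
      rw [Fin.prod_univ_succ]
      have e1 : ∀ τ : Fin (m + 1), k ((Fin.cons u V : Fin (m + 3) → Y) τ.succ.castSucc)
          ((Fin.cons u V : Fin (m + 3) → Y) τ.succ.succ) = k (V τ.castSucc) (V τ.succ) := by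
        intro τ
        rw [← Fin.succ_castSucc, Fin.cons_succ, Fin.cons_succ]
      simp only [e1]
      have e2 : (Fin.cons u V : Fin (m + 3) → Y) (Fin.last (m + 2)) = V (Fin.last (m + 1)) := by
        rw [← Fin.succ_last, Fin.cons_succ]
      rw [e2, Fin.castSucc_zero, Fin.cons_zero, Fin.cons_succ]
      ring
    simp only [h1]
    have hcu : Continuous (fun w => f u * k u w) :=
      (hk.comp (continuous_const.prodMk continuous_id)).const_mul (f u)
    rw [ih (fun w => f u * k u w) hcu]
    -- Fubini
    have hkm := continuous_kit μ k hk m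
    have hI : Integrable (Function.uncurry fun w v : Y => f u * k u w * kit μ k m w v * g v)
        (μ.prod μ) := by
      refine integrable_cont (μ.prod μ) _ ?_
      exact ((hcu.comp continuous_fst).mul hkm).mul (hg.comp continuous_snd)
    rw [integral_integral_swap hI]
    refine integral_congr_ae (Filter.Eventually.of_forall fun v => ?_)
    change ∫ w, f u * k u w * kit μ k m w v * g v ∂μ =
      f u * (∫ w, k u w * kit μ k m w v ∂μ) * g v
    rw [← integral_const_mul, ← integral_mul_const]
    refine integral_congr_ae (Filter.Eventually.of_forall fun w => ?_)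
    simp only
    ring

omit [MeasurableSpace Y] [BorelSpace Y] in
/-- the kernel of one step is continuous -/
theorem continuous_step {Z : Type} [TopologicalSpace Z] [CompactSpace Z]
    [SecondCountableTopology Z] [MeasurableSpace Z] [BorelSpace Z] (ν : Measure Z)
    [IsProbabilityMeasure ν] (h : Y → Z → Y → ℝ)
    (hh : Continuous (fun p : Y × Z × Y => h p.1 p.2.1 p.2.2)) :
    Continuous (fun p : Y × Y => ∫ W, h p.1 W p.2 ∂ν) := by
  have hc : Continuous (fun q : (Y × Y) × Z => h q.1.1 q.2 q.1.2) :=
    hh.comp ((continuous_fst.comp continuous_fst).prodMk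
      (continuous_snd.prodMk (continuous_snd.comp continuous_fst)))
  obtain ⟨C, hC⟩ := isCompact_univ.exists_bound_of_continuousOn hc.continuousOn
  refine continuous_of_dominated (μ := ν)
    (F := fun (p : Y × Y) (w : Z) => h p.1 w p.2) (bound := fun _ => C)
    (fun p => ?_) (fun p => ?_) (integrable_const C) ?_
  · exact (hc.comp (continuous_const.prodMk continuous_id)
      : Continuous fun w : Z => h p.1 w p.2).measurable.aestronglyMeasurable
  · exact Filter.Eventually.of_forall fun w => hC (p, w) (Set.mem_univ _)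
  · exact Filter.Eventually.of_forall fun w => hc.comp (continuous_id.prodMk continuous_const)

end chain

theorem t_SLG : S_SLG := by
  intro G _ _ _ _ _ _ _ μ _ X h hh
  have hk := continuous_step (Y := X.E → G) (Measure.pi fun _ : X.V => μ) h hh
  refine ⟨fun t => ?_, fun m f hf => ?_⟩
  · -- the cycle
    have hF : Continuous fun U : (X.prod (cyc (t + 1))).E → G => ∏ τ : ZMod (t + 1),
        h (fun e => U (Sum.inl (e, τ))) (fun v => U (Sum.inr (v, τ)))
          (fun e => U (Sum.inl (e, τ + 1))) := by
      refine continuous_finsetProd _ fun τ _ => ?_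
      have hq : Continuous fun U : (X.prod (cyc (t + 1))).E → G =>
          ((fun e => U (Sum.inl (e, τ)) : X.E → G), (fun v => U (Sum.inr (v, τ)) : X.V → G),
            (fun e => U (Sum.inl (e, τ + 1)) : X.E → G)) :=
        (continuous_pi fun e => continuous_apply _).prodMk
          ((continuous_pi fun v => continuous_apply _).prodMk
            (continuous_pi fun e => continuous_apply _))
      exact hh.comp hq
    rw [integral_psi μ _ hF]
    have h1 := ring_one (X.M μ) (fun u v => ∫ W : X.V → G, h u W v ∂(Measure.pi fun _ => μ)) hk t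
    rw [← h1]
    refine integral_congr_ae (Filter.Eventually.of_forall fun V => ?_)
    exact integral_fintype_prod_eq_prod (fun (τ : ZMod (t + 1)) (w : X.V → G) =>
      h (V τ) w (V (τ + 1)))
  · -- the path
    have hF : Continuous fun U : (X.prod (path (m + 1))).E → G =>
        f (fun e => U (Sum.inl (e, (0 : Fin (m + 2))))) *
        (∏ τ : Fin (m + 1), h (fun e => U (Sum.inl (e, τ.castSucc))) (fun v => U (Sum.inr (v, τ)))
          (fun e => U (Sum.inl (e, τ.succ)))) *
        f (fun e => U (Sum.inl (e, Fin.last (m + 1)))) := by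
      refine Continuous.mul (Continuous.mul ?_ ?_) ?_
      · exact hf.comp (continuous_pi fun e => continuous_apply _)
      · refine continuous_finsetProd _ fun τ _ => ?_
        have hq : Continuous fun U : (X.prod (path (m + 1))).E → G =>
            ((fun e => U (Sum.inl (e, τ.castSucc)) : X.E → G),
              (fun v => U (Sum.inr (v, τ)) : X.V → G),
              (fun e => U (Sum.inl (e, τ.succ)) : X.E → G)) :=
          (continuous_pi fun e => continuous_apply _).prodMk
            ((continuous_pi fun v => continuous_apply _).prodMk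
              (continuous_pi fun e => continuous_apply _))
        exact hh.comp hq
      · exact hf.comp (continuous_pi fun e => continuous_apply _)
    rw [integral_psi μ _ hF]
    have h1 := chain (X.M μ) (fun u v => ∫ W : X.V → G, h u W v ∂(Measure.pi fun _ => μ)) hk f hf
      m f hf
    rw [← h1]
    refine integral_congr_ae (Filter.Eventually.of_forall fun V => ?_)
    change ∫ W : Fin (m + 1) → (X.V → G), f (V (0 : Fin (m + 2))) *
        (∏ τ : Fin (m + 1), h (V τ.castSucc) (W τ) (V τ.succ)) * f (V (Fin.last (m + 1)))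
        ∂(Measure.pi fun _ => Measure.pi fun _ => μ) = _
    rw [integral_mul_const, integral_const_mul]
    congr 2
    exact integral_fintype_prod_eq_prod (fun (τ : Fin (m + 1)) (w : X.V → G) =>
      h (V τ.castSucc) w (V τ.succ))

end Pool.Agent.N899.BB.Slg
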