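import Mathlib
import Pool.Agent.N899.BB.Stm

/-!
# The spectrum of the box (subtask BB/SPEC)
-/

open Matrix Pool.Agent.N899.BB
open scoped Kronecker

namespace Pool.Agent.N899.BB.Spec

noncomputable section

/-- diagonalization lemma from distinct eigenvalues -/
lemma diag_of_eigen {ι : Type} [Fintype ι] [DecidableEq ι] (A : Matrix ι ι ℝ) (lamb : ι → ℝ)
    (hl : Function.Injective lamb) (v : ι → ι → ℝ) (hv : ∀ k, v k ≠ 0)
    (he : ∀ k, A *ᵥ (v k) = lamb k • v k) :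
    ∃ P : Matrix ι ι ℝ, P.det ≠ 0 ∧ A * P = P * diagonal lamb := by
  refine ⟨(Matrix.of v)ᵀ, ?_, ?_⟩
  · have hli : LinearIndependent ℝ v := by
      refine Module.End.eigenvectors_linearIndependent' (Matrix.toLin' A) lamb hl v ?_
      intro k
      refine ⟨?_, hv k⟩
      rw [Module.End.mem_eigenspace_iff]
      simpa using he k
    have h2 : IsUnit (Matrix.of v) := by
      rw [← Matrix.linearIndependent_rows_iff_isUnit]
      exact hli
    have h3 := (Matrix.isUnit_iff_isUnit_det _).1 h2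
    rw [Matrix.det_transpose]
    exact h3.ne_zero
  · ext i k
    have h := congrFun (he k) i
    rw [Matrix.mul_diagonal]
    simp only [Matrix.mul_apply, Matrix.mulVec, dotProduct, Matrix.transpose_apply,
      Matrix.of_apply, Pi.smul_apply, smul_eq_mul] at h ⊢
    rw [h, mul_comm]

lemma det_kron {J ι : Type} [Fintype J] [DecidableEq J] [Fintype ι] [DecidableEq ι]
    (A : Matrix J J ℝ) (B : Matrix ι ι ℝ) (lamb : ι → ℝ) (P : Matrix ι ι ℝ) (hP : P.det ≠ 0)
    (hB : B * P = P * diagonal lamb) (x : ℝ) :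
    (x • (1 : Matrix (J × ι) (J × ι) ℝ) + (A ⊗ₖ (1 : Matrix ι ι ℝ) + (1 : Matrix J J ℝ) ⊗ₖ B)).det =
      ∏ k, ((x + lamb k) • (1 : Matrix J J ℝ) + A).det := by
  have h1 : (x • (1 : Matrix (J × ι) (J × ι) ℝ) +
      (A ⊗ₖ (1 : Matrix ι ι ℝ) + (1 : Matrix J J ℝ) ⊗ₖ B)) * ((1 : Matrix J J ℝ) ⊗ₖ P) =
      ((1 : Matrix J J ℝ) ⊗ₖ P) * (x • (1 : Matrix (J × ι) (J × ι) ℝ) +
      (A ⊗ₖ (1 : Matrix ι ι ℝ) + (1 : Matrix J J ℝ) ⊗ₖ (diagonal lamb))) := by
    simp only [add_mul, mul_add, ← Matrix.mul_kronecker_mul, one_mul, mul_one, hB, smul_mul_assoc,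
      mul_smul_comm]
  have h2 : ((1 : Matrix J J ℝ) ⊗ₖ P).det ≠ 0 := by
    rw [Matrix.det_kronecker]
    simp [hP]
  have h3 := congrArg Matrix.det h1
  rw [Matrix.det_mul, Matrix.det_mul, mul_comm] at h3
  have h4 := mul_left_cancel₀ h2 h3
  rw [h4]
  have h5 : (x • (1 : Matrix (J × ι) (J × ι) ℝ) +
      (A ⊗ₖ (1 : Matrix ι ι ℝ) + (1 : Matrix J J ℝ) ⊗ₖ (diagonal lamb))) =
      blockDiagonal (fun k => (x + lamb k) • (1 : Matrix J J ℝ) + A) := by
    ext ⟨i, k⟩ ⟨j, l⟩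
    simp only [Matrix.add_apply, Matrix.smul_apply, Matrix.kroneckerMap_apply,
      Matrix.blockDiagonal_apply, Matrix.one_apply, Matrix.diagonal_apply, Prod.mk.injEq,
      smul_eq_mul]
    by_cases hk : k = l
    · by_cases hi : i = j
      · simp [hk, hi]; ring
      · simp [hk, hi]
    · simp [hk]
  rw [h5, Matrix.det_blockDiagonal]

/-- the incidence matrix of the path -/
def gp (n : ℕ) : Matrix (Fin n) (Fin (n + 1)) ℝ := fun e v =>
  (if e.succ = v then 1 else 0) - (if e.castSucc = v then 1 else 0)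

lemma gp_mulVec (n : ℕ) (f : Fin (n + 1) → ℝ) (e : Fin n) :
    (gp n *ᵥ f) e = f e.succ - f e.castSucc := by
  simp [Matrix.mulVec, dotProduct, gp, sub_mul, Finset.sum_sub_distrib]

lemma gpT_mulVec (n : ℕ) (s : ℕ → ℝ) (h0 : s 0 = 0) (h1 : s (n + 1) = 0) (i : Fin (n + 1)) :
    ((gp n)ᵀ *ᵥ (fun e : Fin n => s (e + 1))) i = s i - s (i + 1) := by
  simp only [Matrix.mulVec, dotProduct, gp, Matrix.transpose_apply, sub_mul,
    Finset.sum_sub_distrib, ite_mul, one_mul, zero_mul]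
  congr 1
  · refine Fin.cases ?_ (fun j => ?_) i
    · simp [h0]
    · rw [Finset.sum_eq_single j]
      · simp
      · intro b _ hb
        simp [hb]
      · simp
  · refine Fin.lastCases ?_ (fun j => ?_) i
    · rw [Fin.val_last, h1]
      apply Finset.sum_eq_zero
      intro b _
      rw [if_neg]
      exact (Fin.castSucc_lt_last b).ne
    · rw [Finset.sum_eq_single j]
      · simp
      · intro b _ hb
        simp [hb]
      · simp

lemma th_mem (n : ℕ) (k : Fin (n + 1)) :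
    Real.pi * k / (n + 1) ∈ Set.Icc 0 Real.pi := by
  have hk : (k : ℝ) ≤ n := by exact_mod_cast Nat.lt_succ_iff.1 k.2
  have hpi := Real.pi_pos
  constructor
  · positivity
  · rw [div_le_iff₀ (by positivity)]
    nlinarith

lemma lam_inj (n : ℕ) : Function.Injective (lam n) := by
  intro a b h
  unfold lam at h
  have h1 : Real.cos (Real.pi * a / (n + 1)) = Real.cos (Real.pi * b / (n + 1)) := by linarith
  have h2 := Real.injOn_cos (th_mem n a) (th_mem n b) h1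
  have hpi := Real.pi_pos
  field_simp at h2
  have h3 : (a : ℕ) = b := by exact_mod_cast h2
  exact Fin.ext h3

lemma sin_end (n : ℕ) (k : Fin (n + 1)) :
    Real.sin (Real.pi * k / (n + 1) * ((n + 1 : ℕ) : ℝ)) = 0 := by
  have : Real.pi * k / (n + 1) * ((n + 1 : ℕ) : ℝ) = ((k : ℕ) : ℝ) * Real.pi := by
    push_cast
    field_simp
  rw [this]
  exact Real.sin_nat_mul_pi _

lemma ex0 (n : ℕ) : ∃ P : Matrix (Fin (n + 1)) (Fin (n + 1)) ℝ, P.det ≠ 0 ∧
    ((gp n)ᵀ * gp n) * P = P * diagonal (lam n) := by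
  refine diag_of_eigen _ (lam n) (lam_inj n)
    (fun k j => Real.cos (Real.pi * k / (n + 1) * ((j : ℕ) + 1 / 2))) ?_ ?_
  · intro k h
    have h1 := congrFun h 0
    simp only [Fin.val_zero, Nat.cast_zero, zero_add, Pi.zero_apply] at h1
    have h2 : 0 < Real.cos (Real.pi * k / (n + 1) * (1 / 2)) := by
      apply Real.cos_pos_of_mem_Ioo
      have h3 := th_mem n k
      have hk : (k : ℝ) < n + 1 := by exact_mod_cast k.2
      have hpi := Real.pi_pos
      have h4 : Real.pi * k / (n + 1) < Real.pi := by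
        rw [div_lt_iff₀ (by positivity)]
        nlinarith
      constructor
      · linarith [h3.1]
      · linarith
    exact h2.ne' h1
  · intro k
    rw [← Matrix.mulVec_mulVec]
    set θ : ℝ := Real.pi * k / (n + 1) with hθ
    set s : ℕ → ℝ := fun j => -2 * Real.sin (θ * j) * Real.sin (θ / 2) with hs
    have e1 : (gp n *ᵥ fun j : Fin (n + 1) => Real.cos (θ * ((j : ℕ) + 1 / 2))) =
        fun e : Fin n => s (e + 1) := by
      funext e
      rw [gp_mulVec]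
      simp only [Fin.val_succ, Fin.val_castSucc, hs]
      push_cast
      have e2 : θ * ((e : ℕ) + 1 + 1 / 2) = θ * ((e : ℕ) + 1) + θ / 2 := by ring
      have e3 : θ * ((e : ℕ) + 1 / 2) = θ * ((e : ℕ) + 1) - θ / 2 := by ring
      rw [e2, e3, Real.cos_add, Real.cos_sub]
      ring
    rw [e1]
    funext i
    rw [gpT_mulVec n s (by simp [hs]) (by
      simp only [hs]
      rw [hθ, sin_end]
      simp)]
    simp only [hs, Pi.smul_apply, smul_eq_mul, lam]
    rw [← hθ]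
    push_cast
    have e2 : θ * ((i : ℕ) + 1) = θ * ((i : ℕ) + 1 / 2) + θ / 2 := by ring
    have e3 : θ * ((i : ℕ) : ℝ) = θ * ((i : ℕ) + 1 / 2) - θ / 2 := by ring
    have e4 : Real.cos θ = 1 - 2 * Real.sin (θ / 2) ^ 2 := by
      have := Real.cos_sq' (θ / 2)
      have h5 := Real.cos_two_mul (θ / 2)
      have h6 : 2 * (θ / 2) = θ := by ring
      rw [h6] at h5
      linarith
    rw [e2, e3, Real.sin_add, Real.sin_sub, e4]
    ring

lemma ex1 (n : ℕ) : ∃ P : Matrix (Fin n) (Fin n) ℝ, P.det ≠ 0 ∧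
    (gp n * (gp n)ᵀ) * P = P * diagonal (fun k : Fin n => lam n k.succ) := by
  refine diag_of_eigen _ _ ((lam_inj n).comp (Fin.succ_injective n))
    (fun k j => Real.sin (Real.pi * (k.succ : Fin (n + 1)) / (n + 1) * (((j : ℕ) + 1 : ℕ) : ℝ)))
    ?_ ?_
  · intro k h
    have hn : 0 < n := by have := k.2; omega
    have h1 := congrFun h ⟨0, hn⟩
    simp only [Pi.zero_apply, zero_add, Nat.cast_one, mul_one] at h1
    have h2 : 0 < Real.sin (Real.pi * (k.succ : Fin (n + 1)) / (n + 1)) := by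
      apply Real.sin_pos_of_pos_of_lt_pi
      · have hpi := Real.pi_pos
        have : (0 : ℝ) < ((k.succ : Fin (n + 1)) : ℕ) := by
          rw [Fin.val_succ]; positivity
        positivity
      · have hk : (((k.succ : Fin (n + 1)) : ℕ) : ℝ) < n + 1 := by exact_mod_cast k.succ.2
        have hpi := Real.pi_pos
        rw [div_lt_iff₀ (by positivity)]
        nlinarith
    exact h2.ne' h1
  · intro k
    rw [← Matrix.mulVec_mulVec]
    set θ : ℝ := Real.pi * (k.succ : Fin (n + 1)) / (n + 1) with hθ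
    set s : ℕ → ℝ := fun j => Real.sin (θ * j) with hs
    have e1 : ((gp n)ᵀ *ᵥ fun j : Fin n => Real.sin (θ * (((j : ℕ) + 1 : ℕ) : ℝ))) =
        fun i : Fin (n + 1) => s i - s (i + 1) := by
      funext i
      rw [← gpT_mulVec n s (by simp [hs]) (by
        simp only [hs]
        rw [hθ, sin_end])]
    rw [e1]
    funext e
    rw [gp_mulVec]
    simp only [hs, Pi.smul_apply, smul_eq_mul, lam, Fin.val_succ, Fin.val_castSucc]
    rw [show Real.pi * (((k : ℕ) + 1 : ℕ) : ℝ) / (n + 1) = θ by rw [hθ, Fin.val_succ]]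
    push_cast
    have e2 : θ * ((e : ℕ) + 1 + 1) = θ * ((e : ℕ) + 1) + θ := by ring
    have e3 : θ * ((e : ℕ) : ℝ) = θ * ((e : ℕ) + 1) - θ := by ring
    rw [e2, e3, Real.sin_add, Real.sin_sub]
    ring

/-- the incidence matrix of a graph -/
def gd (Γ : Gr) : Matrix Γ.E Γ.V ℝ := fun e v =>
  (if Γ.tgt e = v then 1 else 0) - (if Γ.src e = v then 1 else 0)

lemma d0_prod (X : Cx) (Γ : Gr) : (X.prod Γ).d0 =
    Matrix.fromRows (X.d0 ⊗ₖ (1 : Matrix Γ.V Γ.V ℝ)) ((1 : Matrix X.V X.V ℝ) ⊗ₖ gd Γ) := by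
  ext e v
  obtain ⟨v, b⟩ := v
  rcases e with ⟨e, c⟩ | ⟨w, ε⟩
  · simp only [Cx.d0, Cx.prod, Sum.elim_inl, Matrix.fromRows_apply_inl,
      Matrix.kroneckerMap_apply, Matrix.one_apply, Prod.mk.injEq]
    by_cases hc : c = b
    · simp [hc]
    · simp [hc]
  · simp only [Cx.d0, Cx.prod, Sum.elim_inr, Matrix.fromRows_apply_inr,
      Matrix.kroneckerMap_apply, Matrix.one_apply, Prod.mk.injEq, gd]
    by_cases hc : w = v
    · simp [hc]
    · simp [hc]

lemma D_prod (X : Cx) (Γ : Gr) : (X.prod Γ).D =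
    Matrix.fromBlocks (X.D ⊗ₖ (1 : Matrix Γ.V Γ.V ℝ)) 0 (-((1 : Matrix X.E X.E ℝ) ⊗ₖ gd Γ))
      (X.d0 ⊗ₖ (1 : Matrix Γ.E Γ.E ℝ)) := by
  ext f e
  rcases f with ⟨f, b⟩ | ⟨f, b⟩ <;> rcases e with ⟨e, c⟩ | ⟨v, ε⟩
  · simp only [Cx.D, Cx.prod, Sum.elim_inl, Matrix.fromBlocks_apply₁₁,
      Matrix.kroneckerMap_apply, Matrix.one_apply, Prod.mk.injEq, Sum.inl.injEq]
    by_cases hc : b = c
    · simp [hc]
    · simp [hc]
  · simp only [Cx.D, Cx.prod, Sum.elim_inl, Matrix.fromBlocks_apply₁₂]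
    simp
  · simp only [Cx.D, Cx.prod, Sum.elim_inr, Matrix.fromBlocks_apply₂₁,
      Matrix.kroneckerMap_apply, Matrix.one_apply, Prod.mk.injEq, Sum.inl.injEq,
      Matrix.neg_apply, gd]
    by_cases hc : f = e
    · simp [hc]
    · simp [hc]
  · simp only [Cx.D, Cx.prod, Sum.elim_inr, Matrix.fromBlocks_apply₂₂,
      Matrix.kroneckerMap_apply, Matrix.one_apply, Prod.mk.injEq, Sum.inr.injEq, Cx.d0]
    by_cases hc : b = ε
    · simp [hc]
    · simp [hc]

section abs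

variable {E V F W H : Type} [Fintype E] [DecidableEq E] [Fintype V] [DecidableEq V] [Fintype F]
  [DecidableEq F] [Fintype W] [DecidableEq W] [Fintype H] [DecidableEq H]

lemma L0_abs (A : Matrix E V ℝ) (B : Matrix F W ℝ) :
    (Matrix.fromRows (A ⊗ₖ (1 : Matrix W W ℝ)) ((1 : Matrix V V ℝ) ⊗ₖ B))ᵀ *
      Matrix.fromRows (A ⊗ₖ (1 : Matrix W W ℝ)) ((1 : Matrix V V ℝ) ⊗ₖ B) =
    (Aᵀ * A) ⊗ₖ (1 : Matrix W W ℝ) + (1 : Matrix V V ℝ) ⊗ₖ (Bᵀ * B) := by
  rw [Matrix.transpose_fromRows, Matrix.fromCols_mul_fromRows]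
  simp only [← Matrix.kroneckerMap_transpose, ← Matrix.mul_kronecker_mul, Matrix.transpose_one,
    Matrix.one_mul]

lemma L1_abs (A : Matrix E V ℝ) (B : Matrix F W ℝ) (D : Matrix H E ℝ) :
    (Matrix.fromBlocks (D ⊗ₖ (1 : Matrix W W ℝ)) 0 (-((1 : Matrix E E ℝ) ⊗ₖ B))
      (A ⊗ₖ (1 : Matrix F F ℝ)))ᵀ *
      Matrix.fromBlocks (D ⊗ₖ (1 : Matrix W W ℝ)) 0 (-((1 : Matrix E E ℝ) ⊗ₖ B))
      (A ⊗ₖ (1 : Matrix F F ℝ)) +
      Matrix.fromRows (A ⊗ₖ (1 : Matrix W W ℝ)) ((1 : Matrix V V ℝ) ⊗ₖ B) *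
      (Matrix.fromRows (A ⊗ₖ (1 : Matrix W W ℝ)) ((1 : Matrix V V ℝ) ⊗ₖ B))ᵀ =
    Matrix.fromBlocks ((Dᵀ * D + A * Aᵀ) ⊗ₖ (1 : Matrix W W ℝ) +
      (1 : Matrix E E ℝ) ⊗ₖ (Bᵀ * B)) 0 0
      ((Aᵀ * A) ⊗ₖ (1 : Matrix F F ℝ) + (1 : Matrix V V ℝ) ⊗ₖ (B * Bᵀ)) := by
  rw [Matrix.transpose_fromRows, Matrix.fromRows_mul_fromCols, Matrix.fromBlocks_transpose,
    Matrix.fromBlocks_multiply, Matrix.fromBlocks_add]
  simp only [← Matrix.kroneckerMap_transpose, Matrix.transpose_neg, Matrix.transpose_one,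
    Matrix.transpose_zero, Matrix.zero_mul, Matrix.mul_zero, Matrix.neg_mul, Matrix.mul_neg,
    neg_neg, zero_add, ← Matrix.mul_kronecker_mul, Matrix.one_mul, Matrix.mul_one, neg_add_cancel,
    Matrix.add_kronecker]
  congr 1
  abel

lemma det_abs (x : ℝ) (A : Matrix E E ℝ) (B : Matrix F F ℝ) :
    (x • (1 : Matrix (E ⊕ F) (E ⊕ F) ℝ) + Matrix.fromBlocks A 0 0 B).det =
      (x • (1 : Matrix E E ℝ) + A).det * (x • (1 : Matrix F F ℝ) + B).det := by
  rw [← Matrix.fromBlocks_one, Matrix.fromBlocks_smul, Matrix.fromBlocks_add]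
  simp only [smul_zero, add_zero]
  rw [Matrix.det_fromBlocks_zero₂₁]

end abs

lemma L0_prod (X : Cx) (Γ : Gr) : (X.prod Γ).L0 =
    X.L0 ⊗ₖ (1 : Matrix Γ.V Γ.V ℝ) + (1 : Matrix X.V X.V ℝ) ⊗ₖ ((gd Γ)ᵀ * gd Γ) := by
  unfold Cx.L0
  rw [d0_prod]
  exact L0_abs X.d0 (gd Γ)

lemma L1_prod (X : Cx) (Γ : Gr) : (X.prod Γ).L1 =
    Matrix.fromBlocks (X.L1 ⊗ₖ (1 : Matrix Γ.V Γ.V ℝ) +
      (1 : Matrix X.E X.E ℝ) ⊗ₖ ((gd Γ)ᵀ * gd Γ)) 0 0
      (X.L0 ⊗ₖ (1 : Matrix Γ.E Γ.E ℝ) + (1 : Matrix X.V X.V ℝ) ⊗ₖ (gd Γ * (gd Γ)ᵀ)) := by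
  unfold Cx.L1 Cx.L0
  rw [d0_prod, D_prod]
  exact L1_abs X.d0 (gd Γ) X.D

/-- the characteristic polynomials -/
def p0 (X : Cx) (x : ℝ) : ℝ := (x • (1 : Matrix X.V X.V ℝ) + X.L0).det

def p1 (X : Cx) (x : ℝ) : ℝ := (x • (1 : Matrix X.E X.E ℝ) + X.L1).det

lemma gd_path (n : ℕ) : gd (path n) = gp n := rfl

lemma p0_prod (X : Cx) (n : ℕ) (x : ℝ) :
    p0 (X.prod (path n)) x = ∏ k, p0 X (x + lam n k) := by
  unfold p0
  rw [L0_prod, gd_path]
  obtain ⟨P, hP, h⟩ := ex0 n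
  exact det_kron X.L0 _ (lam n) P hP h x

lemma p1_prod (X : Cx) (n : ℕ) (x : ℝ) :
    p1 (X.prod (path n)) x = (∏ k, p1 X (x + lam n k)) * ∏ k : Fin n, p0 X (x + lam n k.succ) := by
  unfold p1 p0
  rw [L1_prod, gd_path]
  obtain ⟨P, hP, h⟩ := ex0 n
  obtain ⟨Q, hQ, h'⟩ := ex1 n
  have e1 := det_kron X.L1 _ (lam n) P hP h x
  have e2 := det_kron X.L0 _ (fun k : Fin n => lam n k.succ) Q hQ h' x
  rw [← e1, ← e2]
  exact det_abs x _ _

lemma p0_pt (x : ℝ) : p0 pt x = x := by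
  unfold p0
  have : Unique pt.V := inferInstanceAs (Unique Unit)
  have h : pt.L0 default default = 0 := by
    unfold Cx.L0
    rw [Matrix.mul_apply]
    have : IsEmpty pt.E := inferInstanceAs (IsEmpty Empty)
    exact Finset.sum_of_isEmpty _
  rw [Matrix.det_unique]
  simp [h]

lemma p1_pt (x : ℝ) : p1 pt x = 1 := by
  unfold p1
  have : IsEmpty pt.E := inferInstanceAs (IsEmpty Empty)
  exact Matrix.det_isEmpty

lemma prod_succ (n : ℕ) (f : Fin (n + 1) → ℝ) :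
    ∏ k : Fin n, f k.succ = ∏ k : Fin (n + 1), f k ^ (1 - (if k = 0 then 1 else 0)) := by
  rw [Fin.prod_univ_succ]
  simp [Fin.succ_ne_zero]

theorem t_SPEC : S_SPEC := by
  intro n x
  have h1 : ∀ x, p0 (pt.prod (path n)) x = ∏ k, (x + lam n k) := by
    intro x
    rw [p0_prod]
    simp only [p0_pt]
  have h2 : ∀ x, p0 ((pt.prod (path n)).prod (path n)) x =
      ∏ k, ∏ k', (x + lam n k + lam n k') := by
    intro x
    rw [p0_prod]
    simp only [h1]
  have g1 : ∀ x, p1 (pt.prod (path n)) x =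
      ∏ k : Fin (n + 1), (x + lam n k) ^ (1 - (if k = 0 then 1 else 0)) := by
    intro x
    rw [p1_prod]
    simp only [p0_pt, p1_pt, Finset.prod_const_one, one_mul]
    exact prod_succ n (fun k => x + lam n k)
  have g2 : ∀ x, p1 ((pt.prod (path n)).prod (path n)) x =
      ∏ k, ∏ k', (x + lam n k + lam n k') ^
        ((1 - (if k' = 0 then 1 else 0)) + (1 - (if k = 0 then 1 else 0))) := by
    intro x
    rw [p1_prod]
    simp only [g1, h1]
    rw [prod_succ n (fun k => ∏ k', (x + lam n k + lam n k')), ← Finset.prod_mul_distrib]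
    refine Finset.prod_congr rfl fun k _ => ?_
    rw [← Finset.prod_pow, ← Finset.prod_mul_distrib]
    refine Finset.prod_congr rfl fun k' _ => ?_
    rw [pow_add]
  have h3 : ∀ x, p0 (box n) x = ∏ k, ∏ k', ∏ k'', (x + lam n k + lam n k' + lam n k'') := by
    intro x
    unfold box
    rw [p0_prod]
    simp only [h2]
  have g3 : ∀ x, p1 (box n) x = ∏ k, ∏ k', ∏ k'', (x + lam n k + lam n k' + lam n k'') ^
        ((1 - (if k'' = 0 then 1 else 0)) + (1 - (if k' = 0 then 1 else 0)) +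
          (1 - (if k = 0 then 1 else 0))) := by
    intro x
    unfold box
    rw [p1_prod]
    simp only [g2, h2]
    rw [prod_succ n (fun k => ∏ k', ∏ k'', (x + lam n k + lam n k' + lam n k'')),
      ← Finset.prod_mul_distrib]
    refine Finset.prod_congr rfl fun k _ => ?_
    rw [← Finset.prod_pow, ← Finset.prod_mul_distrib]
    refine Finset.prod_congr rfl fun k' _ => ?_
    rw [← Finset.prod_pow, ← Finset.prod_mul_distrib]
    refine Finset.prod_congr rfl fun k'' _ => ?_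
    rw [pow_add _ _ (1 - (if k = 0 then 1 else 0))]
  constructor
  · have := h3 x
    unfold p0 at this
    rw [this, Fintype.prod_prod_type]
    refine Finset.prod_congr rfl fun k _ => ?_
    rw [Fintype.prod_prod_type]
    refine Finset.prod_congr rfl fun k' _ => ?_
    refine Finset.prod_congr rfl fun k'' _ => ?_
    unfold lam3
    ring
  · have := g3 x
    unfold p1 at this
    rw [this, Fintype.prod_prod_type]
    refine Finset.prod_congr rfl fun k _ => ?_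
    rw [Fintype.prod_prod_type]
    refine Finset.prod_congr rfl fun k' _ => ?_
    refine Finset.prod_congr rfl fun k'' _ => ?_
    unfold lam3
    have e : ((1 - (if k'' = 0 then 1 else 0)) + (1 - (if k' = 0 then 1 else 0)) +
          (1 - (if k = 0 then 1 else 0)) : ℕ) = 3 - ((if k = 0 then 1 else 0) +
          (if k' = 0 then 1 else 0) + (if k'' = 0 then 1 else 0)) := by
      split_ifs <;> rfl
    simp only [e]
    congr 1
    ring

end

end Pool.Agent.N899.BB.Spec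

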