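import Mathlib
import Pool.Agent.N899.BB.Stm

/-!
# BB/SYSR: the system of plaquettes after gauge fixing
-/

open MeasureTheory Matrix
open Pool.Agent.N899.BB

namespace Pool.Agent.N899.BB.Sysr

noncomputable section

variable {Y : Cx} (R : Rt Y) (t : ℕ) [NeZero t]

/-- the links which are not fixed -/
abbrev LL : Type := {e : (Y.prod (cyc t)).E // R.fixed e = false}

/-- the letter of a link -/
def opt (e : (Y.prod (cyc t)).E) : Option (LL R t) :=
  if h : R.fixed e = false then some ⟨e, h⟩ else none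

theorem opt_some {e : (Y.prod (cyc t)).E} (h : R.fixed e = false) : opt R t e = some ⟨e, h⟩ := by
  simp only [opt, h, dif_pos]

theorem opt_none {e : (Y.prod (cyc t)).E} (h : R.fixed e = true) : opt R t e = none := by
  simp only [opt, h]; rfl

theorem opt_eq {e : (Y.prod (cyc t)).E} {w : LL R t} : opt R t e = some w ↔ e = w.1 := by
  unfold opt
  split_ifs with h
  · constructor
    · intro h'
      have := Option.some.inj h'
      rw [← this]
    · rintro rfl
      rfl
  · constructor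
    · intro h'; cases h'
    · rintro rfl
      exact absurd w.2 h

theorem fixed_inl (e : Y.E) (τ : (cyc t).V) :
    R.fixed (Γ := cyc t) (Sum.inl (e, τ)) = R.tree e := rfl

theorem fixed_inr (v : Y.V) (τ : (cyc t).E) :
    R.fixed (Γ := cyc t) (Sum.inr (v, τ)) = decide (v = R.root) := rfl

/-- the edge of the tree with the given target -/
def e0 (v : Y.V) (h : v ≠ R.root) : Y.E := Classical.choose (R.pe_some v h)

theorem e0_pe (v : Y.V) (h : v ≠ R.root) : R.pe v = some (e0 R v h) :=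
  (Classical.choose_spec (R.pe_some v h)).1

theorem e0_tree (v : Y.V) (h : v ≠ R.root) : R.tree (e0 R v h) = true :=
  (Classical.choose_spec (R.pe_some v h)).2.1

theorem e0_tgt (v : Y.V) (h : v ≠ R.root) : Y.tgt (e0 R v h) = v :=
  (Classical.choose_spec (R.pe_some v h)).2.2

theorem ne_root {v : Y.V} {τ : (cyc t).E}
    (h : R.fixed (Γ := cyc t) (Sum.inr (v, τ)) = false) : v ≠ R.root := by
  rw [fixed_inr] at h
  exact of_decide_eq_false h

/-- the basic plaquette -/
def bp : LL R t → (Y.prod (cyc t)).F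
  | ⟨Sum.inl (e, τ), h⟩ => Sum.inl (R.bf e h, τ)
  | ⟨Sum.inr (v, τ), h⟩ => Sum.inr (e0 R v (ne_root R t h), τ)

/-- the previous link -/
def pr : LL R t → Option (LL R t)
  | ⟨Sum.inl (e, τ), h⟩ => opt R t (Sum.inl (Y.f1 (R.bf e h), τ))
  | ⟨Sum.inr (v, τ), h⟩ => opt R t (Sum.inr (Y.src (e0 R v (ne_root R t h)), τ))

/-- the rank -/
def rk : LL R t → ℕ
  | ⟨Sum.inl (e, _), _⟩ => R.rE e
  | ⟨Sum.inr (v, _), _⟩ => R.rV v

/-- the letters -/
def wd (f : (Y.prod (cyc t)).F) : Fin 4 → Option (LL R t) :=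
  ![opt R t ((Y.prod (cyc t)).f1 f), opt R t ((Y.prod (cyc t)).f2 f),
    opt R t ((Y.prod (cyc t)).f3 f), opt R t ((Y.prod (cyc t)).f4 f)]

theorem rk_lt (w w' : LL R t) (h : pr R t w = some w') : rk R t w' < rk R t w := by
  obtain ⟨w, hw⟩ := w
  rcases w with ⟨e, τ⟩ | ⟨v, τ⟩
  · have h2 := (opt_eq R t).1 h
    obtain ⟨w', hw'⟩ := w'
    dsimp only at h2
    subst h2
    exact R.bf1 e hw hw'
  · have h2 := (opt_eq R t).1 h
    obtain ⟨w', hw'⟩ := w'
    dsimp only at h2
    subst h2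
    have h3 := R.rV_lt _ (e0_tree R v (ne_root R t hw))
    rw [e0_tgt] at h3
    exact h3

theorem bp_inj : Function.Injective (bp R t) := by
  rintro ⟨w, hw⟩ ⟨w', hw'⟩ h
  rcases w with ⟨e, τ⟩ | ⟨v, τ⟩ <;> rcases w' with ⟨e', τ'⟩ | ⟨v', τ'⟩
  · have h1 : (R.bf e hw, τ) = (R.bf e' hw', τ') := Sum.inl.inj h
    have h2 := congrArg Prod.fst h1
    have h3 := congrArg Prod.snd h1
    dsimp only at h2 h3
    have h4 : e = e' := by
      rw [← R.bf3 e hw, ← R.bf3 e' hw', h2]
    subst h4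
    subst h3
    rfl
  · cases h
  · cases h
  · have h1 : (e0 R v (ne_root R t hw), τ) = (e0 R v' (ne_root R t hw'), τ') := Sum.inr.inj h
    have h2 := congrArg Prod.fst h1
    have h3 := congrArg Prod.snd h1
    dsimp only at h2 h3
    have h4 : v = v' := by
      rw [← e0_tgt R v (ne_root R t hw), ← e0_tgt R v' (ne_root R t hw'), h2]
    subst h4
    subst h3
    rfl

theorem bp_wd (w : LL R t) :
    (wd R t (bp R t w) 0 = pr R t w ∧ wd R t (bp R t w) 1 = none ∧
      wd R t (bp R t w) 2 = some w ∧ wd R t (bp R t w) 3 = none) ∨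
    (wd R t (bp R t w) 0 = none ∧ wd R t (bp R t w) 1 = some w ∧
      wd R t (bp R t w) 2 = none ∧ wd R t (bp R t w) 3 = pr R t w) := by
  obtain ⟨w, hw⟩ := w
  rcases w with ⟨e, τ⟩ | ⟨v, τ⟩
  · left
    refine ⟨rfl, ?_, ?_, ?_⟩
    · exact opt_none R t (e := Sum.inl (Y.f2 (R.bf e hw), τ)) (R.bf2 e hw)
    · refine (opt_eq R t (e := Sum.inl (Y.f3 (R.bf e hw), τ))).2 ?_
      exact congrArg (fun e' => (Sum.inl (e', τ) : (Y.prod (cyc t)).E)) (R.bf3 e hw)
    · exact opt_none R t (e := Sum.inl (Y.f4 (R.bf e hw), τ)) (R.bf4 e hw)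
  · right
    refine ⟨?_, ?_, ?_, rfl⟩
    · exact opt_none R t (e := Sum.inl (e0 R v (ne_root R t hw), τ))
        (e0_tree R v (ne_root R t hw))
    · refine (opt_eq R t (e := Sum.inr (Y.tgt (e0 R v (ne_root R t hw)), τ))).2 ?_
      exact congrArg (fun v' => (Sum.inr (v', τ) : (Y.prod (cyc t)).E))
        (e0_tgt R v (ne_root R t hw))
    · exact opt_none R t (e := Sum.inl (e0 R v (ne_root R t hw), (cyc t).tgt τ))
        (e0_tree R v (ne_root R t hw))

/-- the system -/
def Q : Sys where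
  L := LL R t
  P := (Y.prod (cyc t)).F
  wd := wd R t
  bp := bp R t
  pr := pr R t
  rk := rk R t
  rk_lt := rk_lt R t
  bp_inj := bp_inj R t
  bp_wd := bp_wd R t

/-! ### cardinality -/

/-- the equivalence between the links -/
def eqL : LL R t ≃ ({e : Y.E // R.tree e = false} × ZMod t) ⊕ ({v : Y.V // v ≠ R.root} × ZMod t) where
  toFun := fun
    | ⟨Sum.inl (e, τ), h⟩ => Sum.inl (⟨e, h⟩, τ)
    | ⟨Sum.inr (v, τ), h⟩ => Sum.inr (⟨v, ne_root R t h⟩, τ)
  invFun := fun
    | Sum.inl (e, τ) => ⟨Sum.inl (e.1, τ), e.2⟩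
    | Sum.inr (v, τ) => ⟨Sum.inr (v.1, τ), decide_eq_false v.2⟩
  left_inv := by
    rintro ⟨w, hw⟩
    rcases w with ⟨e, τ⟩ | ⟨v, τ⟩ <;> rfl
  right_inv := by
    rintro (⟨e, τ⟩ | ⟨v, τ⟩) <;> rfl

/-- the equivalence between the edges of the tree and the vertices -/
def eqT : {v : Y.V // v ≠ R.root} ≃ {e : Y.E // ¬ R.tree e = false} where
  toFun := fun v => ⟨e0 R v.1 v.2, by rw [e0_tree]; simp⟩
  invFun := fun e => ⟨Y.tgt e.1, fun h => by
    have h1 : R.tree e.1 = true := by simpa using e.2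
    have h2 := R.pe_tree e.1 h1
    rw [h, R.pe_root] at h2
    cases h2⟩
  left_inv := fun v => Subtype.ext (e0_tgt R v.1 v.2)
  right_inv := fun e => by
    apply Subtype.ext
    have h1 : R.tree e.1 = true := by simpa using e.2
    have h2 := R.pe_tree e.1 h1
    have h3 : Y.tgt e.1 ≠ R.root := fun h => by
      rw [h, R.pe_root] at h2
      cases h2
    have h4 := e0_pe R (Y.tgt e.1) h3
    rw [h2] at h4
    exact (Option.some.inj h4).symm

theorem card_L : Fintype.card (LL R t) = t * Fintype.card Y.E := by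
  rw [Fintype.card_congr (eqL R t), Fintype.card_sum, Fintype.card_prod, Fintype.card_prod,
    ZMod.card, Fintype.card_congr (eqT R), ← add_mul, mul_comm]
  congr 1
  exact (Fintype.card_congr (Equiv.sumCompl (fun e : Y.E => R.tree e = false))).symm.trans
    Fintype.card_sum |>.symm

theorem card_F : Fintype.card (Y.prod (cyc t)).F = t * (Fintype.card Y.F + Fintype.card Y.E) := by
  change Fintype.card ((Y.F × ZMod t) ⊕ (Y.E × ZMod t)) = _
  rw [Fintype.card_sum, Fintype.card_prod, Fintype.card_prod, ZMod.card, ← add_mul, mul_comm]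

/-! ### the Hessian -/

theorem Q_D (f : (Y.prod (cyc t)).F) (w : LL R t) :
    (Q R t).D f w = (Y.prod (cyc t)).D f w.1 := by
  unfold Sys.D Cx.D
  change (if opt R t ((Y.prod (cyc t)).f1 f) = some w then (1 : ℝ) else 0) +
    (if opt R t ((Y.prod (cyc t)).f2 f) = some w then (1 : ℝ) else 0) -
    (if opt R t ((Y.prod (cyc t)).f3 f) = some w then (1 : ℝ) else 0) -
    (if opt R t ((Y.prod (cyc t)).f4 f) = some w then (1 : ℝ) else 0) = _
  simp only [opt_eq]

theorem Q_H : (Q R t).H (fun _ => 1) = R.hess (cyc t) := by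
  ext w w'
  unfold Sys.H Rt.hess
  refine Finset.sum_congr rfl fun f _ => ?_
  rw [one_mul]
  exact congrArg₂ (· * ·) (Q_D R t f w) (Q_D R t f w')

/-! ### the partition function -/

section ev

variable {G : Type} [Group G]

theorem ev_opt (U : (Y.prod (cyc t)).E → G) (e : (Y.prod (cyc t)).E) :
    ev (fun w : LL R t => U w.1) (opt R t e) = R.fix U e := by
  unfold opt Rt.fix
  by_cases h : R.fixed e = false
  · rw [dif_pos h, if_neg (by rw [h]; simp)]
    rfl
  · rw [dif_neg h, if_pos (by simpa using h)]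
    rfl

theorem Q_S (U : (Y.prod (cyc t)).E → G) (we : G → ℝ) :
    (Q R t).S we (fun _ => 1) (fun w : LL R t => U w.1) = (Y.prod (cyc t)).S we (R.fix U) := by
  unfold Sys.S Cx.S
  refine Finset.sum_congr rfl fun f _ => ?_
  rw [one_mul]
  congr 1
  unfold Sys.plq Cx.plq
  change ev (fun w : LL R t => U w.1) (opt R t ((Y.prod (cyc t)).f1 f)) *
    ev (fun w : LL R t => U w.1) (opt R t ((Y.prod (cyc t)).f2 f)) *
    (ev (fun w : LL R t => U w.1) (opt R t ((Y.prod (cyc t)).f3 f)))⁻¹ *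
    (ev (fun w : LL R t => U w.1) (opt R t ((Y.prod (cyc t)).f4 f)))⁻¹ = _
  simp only [ev_opt]

end ev

theorem int_restrict {G : Type} [MeasurableSpace G] (μ : Measure G) [IsProbabilityMeasure μ]
    (F : (LL R t → G) → ℝ) :
    ∫ U : (Y.prod (cyc t)).E → G, F (fun w : LL R t => U w.1) ∂(Measure.pi fun _ => μ) =
      ∫ U : LL R t → G, F U ∂(Measure.pi fun _ => μ) := by
  have h := measurePreserving_piEquivPiSubtypeProd (ι := (Y.prod (cyc t)).E) (fun _ => μ)
    (fun e => R.fixed e = false)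
  have h1 := h.integral_comp' (fun z => F z.1)
  have h2 := integral_fun_fst (μ := (Measure.pi fun _ : LL R t => μ))
    (ν := (Measure.pi fun _ : {e : (Y.prod (cyc t)).E // ¬ R.fixed e = false} => μ)) F
  rw [probReal_univ, one_smul] at h2
  exact h1.trans h2

theorem t_SYSR : S_SYSR := by
  intro Y R t _
  refine ⟨Q R t, card_L R t, card_F t, ?_, ?_⟩
  · rw [Q_H]
    rfl
  · intro G _ _ μ _ we β
    unfold Sys.Z Rt.Z
    have h := int_restrict R t μ
      (fun U => Real.exp (-(β * (Q R t).S we (fun _ => 1) U)))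
    refine Eq.trans h.symm ?_
    refine integral_congr_ae (Filter.Eventually.of_forall fun U => ?_)
    change Real.exp (-(β * (Q R t).S we (fun _ => 1) (fun w : LL R t => U w.1))) = _
    rw [Q_S]

end

end Pool.Agent.N899.BB.Sysr
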