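import Mathlib
import Pool.Agent.N899.BB.Stm
import Pool.Agent.Y274.YMTan

/-!
# Taylor expansions of plaquettes and of the gradient (written by helper891)
-/

set_option autoImplicit false

open MeasureTheory Matrix Filter Topology
open scoped Matrix.Norms.Frobenius
open Pool.Agent.N899.SB Pool.Agent.Y14.Wilson

namespace Pool.Agent.N899.BB.Tay

open Pool.Agent.N899.BB

noncomputable section

variable {N n : ℕ} {G : Subgroup (UU N)}

/-! ### The norm -/

theorem norm_sq (A : Mt N) : ‖A‖ ^ 2 = ∑ i, ∑ j, ‖A i j‖ ^ 2 := by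
  rw [frobenius_norm_def, ← Real.sqrt_eq_rpow, Real.sq_sqrt]
  · refine Finset.sum_congr rfl fun i _ => Finset.sum_congr rfl fun j _ => ?_
    exact Real.rpow_natCast _ 2
  · exact Finset.sum_nonneg fun i _ => Finset.sum_nonneg fun j _ => Real.rpow_nonneg (norm_nonneg _) _

theorem tr_eq (A B : Mt N) : (trace (Aᴴ * B)).re = ∑ j, ∑ i, (star (A i j) * B i j).re := by
  rw [trace, Complex.re_sum]
  refine Finset.sum_congr rfl fun j _ => ?_
  rw [diag_apply, mul_apply, Complex.re_sum]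
  rfl

theorem nsq (A : Mt N) : ‖A‖ ^ 2 = (trace (Aᴴ * A)).re := by
  rw [norm_sq, tr_eq, Finset.sum_comm]
  refine Finset.sum_congr rfl fun i _ => Finset.sum_congr rfl fun j _ => ?_
  rw [Complex.star_def, ← Complex.normSq_eq_conj_mul_self, Complex.ofReal_re,
    Complex.normSq_eq_norm_sq]

theorem ip_le (A B : Mt N) : |(trace (Aᴴ * B)).re| ≤ ‖A‖ * ‖B‖ := by
  have h1 : |(trace (Aᴴ * B)).re| ≤ ∑ x : Fin N × Fin N, ‖A x.2 x.1‖ * ‖B x.2 x.1‖ := by
    rw [tr_eq, ← Fintype.sum_prod_type' (f := fun j i => (star (A i j) * B i j).re)]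
    refine (Finset.abs_sum_le_sum_abs _ _).trans (Finset.sum_le_sum fun x _ => ?_)
    refine (Complex.abs_re_le_norm _).trans ?_
    rw [norm_mul, norm_star]
  have h2 := Finset.sum_mul_sq_le_sq_mul_sq (Finset.univ : Finset (Fin N × Fin N))
    (fun x => ‖A x.2 x.1‖) (fun x => ‖B x.2 x.1‖)
  have e : ∀ M : Mt N, ∑ x : Fin N × Fin N, ‖M x.2 x.1‖ ^ 2 = ‖M‖ ^ 2 := by
    intro M
    rw [norm_sq, Finset.sum_comm, ← Fintype.sum_prod_type' (f := fun j i => ‖M i j‖ ^ 2)]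
  rw [e, e, ← mul_pow] at h2
  refine h1.trans ?_
  exact le_of_sq_le_sq h2 (by positivity)

/-! ### The group -/

theorem mt_mul (g h : G) : mt (g * h) = mt g * mt h := rfl

theorem mt_one : mt (1 : G) = 1 := rfl

theorem mt_inv (g : G) : mt g⁻¹ = (mt g)ᴴ := rfl

theorem mt_mul_ct (g : G) : mt g * (mt g)ᴴ = 1 := by
  rw [← mt_inv, ← mt_mul, mul_inv_cancel, mt_one]

theorem ct_mul_mt (g : G) : (mt g)ᴴ * mt g = 1 := by
  rw [← mt_inv, ← mt_mul, inv_mul_cancel, mt_one]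

theorem norm_mul_mt (A : Mt N) (g : G) : ‖A * mt g‖ = ‖A‖ := by
  have h : ‖A * mt g‖ ^ 2 = ‖A‖ ^ 2 := by
    rw [nsq, nsq, conjTranspose_mul, trace_mul_comm]
    rw [← mul_assoc, mul_assoc A, mt_mul_ct, mul_one, trace_mul_comm]
  exact (sq_eq_sq₀ (norm_nonneg _) (norm_nonneg _)).mp h

theorem norm_mt_mul_sub (g h : G) : ‖mt (g * h) - 1‖ ≤ ‖mt g - 1‖ + ‖mt h - 1‖ := by
  have e : mt (g * h) - 1 = (mt g - 1) * mt h + (mt h - 1) := by
    rw [mt_mul]; noncomm_ring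
  rw [e]
  refine (norm_add_le _ _).trans ?_
  rw [norm_mul_mt]

theorem norm_mt_inv_sub (g : G) : ‖mt g⁻¹ - 1‖ = ‖mt g - 1‖ := by
  rw [mt_inv, ← frobenius_norm_conjTranspose (mt g - 1), conjTranspose_sub, conjTranspose_one]

theorem norm_four (a b c d : G) (r : ℝ) (ha : ‖mt a - 1‖ ≤ r) (hb : ‖mt b - 1‖ ≤ r)
    (hc : ‖mt c - 1‖ ≤ r) (hd : ‖mt d - 1‖ ≤ r) :
    ‖mt a * mt b * mt c * mt d - 1 - ((mt a - 1) + (mt b - 1) + (mt c - 1) + (mt d - 1))‖ ≤
      6 * r ^ 2 := by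
  have hr : 0 ≤ r := (norm_nonneg _).trans ha
  have e : mt a * mt b * mt c * mt d - 1 - ((mt a - 1) + (mt b - 1) + (mt c - 1) + (mt d - 1)) =
      (mt a - 1) * (mt (b * (c * d)) - 1) + (mt b - 1) * (mt (c * d) - 1) +
        (mt c - 1) * (mt d - 1) := by
    rw [mt_mul, mt_mul]; noncomm_ring
  rw [e]
  have h1 : ‖mt (c * d) - 1‖ ≤ 2 * r := (norm_mt_mul_sub c d).trans (by linarith)
  have h2 : ‖mt (b * (c * d)) - 1‖ ≤ 3 * r := (norm_mt_mul_sub b _).trans (by linarith)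
  have h3 : ‖(mt a - 1) * (mt (b * (c * d)) - 1)‖ ≤ r * (3 * r) :=
    (norm_mul_le _ _).trans (mul_le_mul ha h2 (norm_nonneg _) hr)
  have h4 : ‖(mt b - 1) * (mt (c * d) - 1)‖ ≤ r * (2 * r) :=
    (norm_mul_le _ _).trans (mul_le_mul hb h1 (norm_nonneg _) hr)
  have h5 : ‖(mt c - 1) * (mt d - 1)‖ ≤ r * r :=
    (norm_mul_le _ _).trans (mul_le_mul hc hd (norm_nonneg _) hr)
  refine (norm_add₃_le).trans ?_
  nlinarith

theorem skewX (B : LieBasis G n) (a : Fin n) : (B.X a)ᴴ = -B.X a :=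
  Pool.Agent.Y274.YMTan.skew (G := G) (B.X a) fun t => ⟨B.ex a t, B.ex_eq a t⟩

theorem normX (B : LieBasis G n) (a : Fin n) : ‖B.X a‖ = 1 := by
  have h : ‖B.X a‖ ^ 2 = 1 ^ 2 := by
    rw [nsq, B.orth, if_pos rfl, one_pow]
  exact (sq_eq_sq₀ (norm_nonneg _) zero_le_one).mp h

theorem trX (B : LieBasis G n) (a : Fin n) : (trace (B.X a)ᴴ).re = 0 := by
  have h1 : (trace (B.X a)ᴴ).re = (trace (B.X a)).re := by
    rw [trace_conjTranspose, Complex.star_def, Complex.conj_re]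
  have h2 : (trace (B.X a)ᴴ).re = -(trace (B.X a)).re := by
    rw [skewX, trace_neg, Complex.neg_re]
  linarith

theorem crd_eq (B : LieBasis G n) (g : G) (a : Fin n) :
    crd B g a = (trace ((B.X a)ᴴ * (mt g - 1))).re := by
  rw [mul_sub, mul_one, trace_sub, Complex.sub_re, trX, sub_zero]
  rfl

theorem crd_one (B : LieBasis G n) (a : Fin n) : crd B (1 : G) a = 0 := by
  rw [crd_eq, mt_one, sub_self, mul_zero, trace_zero, Complex.zero_re]

theorem crd_inv (B : LieBasis G n) (g : G) (a : Fin n) : crd B g⁻¹ a = -crd B g a := by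
  have h : (trace ((B.X a)ᴴ * (mt g)ᴴ)).re = (trace (B.X a * mt g)).re := by
    rw [← conjTranspose_mul, trace_conjTranspose, Complex.star_def, Complex.conj_re,
      trace_mul_comm]
  rw [crd, crd, mt_inv, h, skewX, neg_mul, trace_neg, Complex.neg_re, neg_neg]

theorem crd_le (B : LieBasis G n) (g : G) (a : Fin n) : |crd B g a| ≤ ‖mt g - 1‖ := by
  rw [crd_eq]
  refine (ip_le _ _).trans ?_
  rw [normX, one_mul]

/-- The expansion of the summand. -/
theorem four_le (B : LieBasis G n) (a : Fin n) (g1 g2 g3 g4 : G) (r : ℝ)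
    (h1 : ‖mt g1 - 1‖ ≤ r) (h2 : ‖mt g2 - 1‖ ≤ r) (h3 : ‖mt g3 - 1‖ ≤ r)
    (h4 : ‖mt g4 - 1‖ ≤ r) :
    |(trace ((B.X a)ᴴ * (mt g1 * mt g2 * mt g3 * mt g4))).re -
      (crd B g1 a + crd B g2 a + crd B g3 a + crd B g4 a)| ≤ 6 * r ^ 2 := by
  have e : (trace ((B.X a)ᴴ * (mt g1 * mt g2 * mt g3 * mt g4))).re -
      (crd B g1 a + crd B g2 a + crd B g3 a + crd B g4 a) =
      (trace ((B.X a)ᴴ * (mt g1 * mt g2 * mt g3 * mt g4 - 1 -
        ((mt g1 - 1) + (mt g2 - 1) + (mt g3 - 1) + (mt g4 - 1))))).re := by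
    rw [crd_eq, crd_eq, crd_eq, crd_eq]
    simp only [mul_sub (B.X a)ᴴ, mul_add (B.X a)ᴴ, mul_one, trace_add, trace_sub, Complex.add_re,
      Complex.sub_re, trX]
    ring
  rw [e]
  refine (ip_le _ _).trans ?_
  rw [normX, one_mul]
  exact norm_four _ _ _ _ r h1 h2 h3 h4

/-! ### Energy -/

theorem we_eq (g : G) : we g = 1 / 2 * ‖mt g - 1‖ ^ 2 := by
  unfold we
  rw [nsq, conjTranspose_sub, conjTranspose_one]
  have e : ((mt g)ᴴ - 1) * (mt g - 1) = (1 - mt g) + (1 - (mt g)ᴴ) := by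
    have : ((mt g)ᴴ - 1) * (mt g - 1) = (mt g)ᴴ * mt g - mt g - (mt g)ᴴ + 1 := by noncomm_ring
    rw [this, ct_mul_mt]
    abel
  rw [e, trace_add, Complex.add_re]
  have e2 : (trace (1 - (mt g)ᴴ)).re = (trace (1 - mt g)).re := by
    rw [← conjTranspose_one, ← conjTranspose_sub, trace_conjTranspose, Complex.star_def,
      Complex.conj_re, conjTranspose_one]
  rw [e2]
  ring

theorem norm_span (B : LieBasis G n) (s : Fin n → ℝ) : ‖∑ a, s a • B.X a‖ ^ 2 = ∑ a, s a ^ 2 := by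
  rw [nsq, conjTranspose_sum, Finset.sum_mul, trace_sum, Complex.re_sum]
  refine Finset.sum_congr rfl fun a _ => ?_
  rw [Finset.mul_sum, trace_sum, Complex.re_sum]
  have h1 : ∀ b, (trace ((s a • B.X a)ᴴ * s b • B.X b)).re = if a = b then s a * s b else 0 := by
    intro b
    rw [conjTranspose_smul, smul_mul_assoc, mul_smul_comm, trace_smul, trace_smul, star_trivial,
      Complex.real_smul, Complex.real_smul, Complex.re_ofReal_mul, Complex.re_ofReal_mul, B.orth]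
    split_ifs <;> ring
  rw [Finset.sum_congr rfl fun b _ => h1 b, Finset.sum_ite_eq]
  simp [sq]

/-! ### Letters -/

theorem single_le (Q : Sys) (U : Q.L → G) (w : Q.L) : ‖mt (U w) - 1‖ ≤ Q.r U :=
  Finset.single_le_sum (f := fun w => ‖mt (U w) - 1‖) (fun _ _ => norm_nonneg _)
    (Finset.mem_univ w)

theorem r_nonneg (Q : Sys) (U : Q.L → G) : 0 ≤ Q.r U :=
  Finset.sum_nonneg fun _ _ => norm_nonneg _

theorem ev_le (Q : Sys) (U : Q.L → G) (o : Option Q.L) : ‖mt (ev U o) - 1‖ ≤ Q.r U := by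
  cases o with
  | none =>
    show ‖mt (1 : G) - 1‖ ≤ _
    rw [mt_one, sub_self, norm_zero]
    exact r_nonneg Q U
  | some w => exact single_le Q U w

theorem ev_inv_le (Q : Sys) (U : Q.L → G) (o : Option Q.L) : ‖mt (ev U o)⁻¹ - 1‖ ≤ Q.r U := by
  rw [norm_mt_inv_sub]; exact ev_le Q U o

theorem sum_ev (B : LieBasis G n) (Q : Sys) (U : Q.L → G) (o : Option Q.L) (a : Fin n) :
    ∑ w, (if o = some w then (1 : ℝ) else 0) * crd B (U w) a = crd B (ev U o) a := by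
  cases o with
  | none =>
    simp only [ev, crd_one]
    refine Finset.sum_eq_zero fun w _ => ?_
    simp
  | some w0 =>
    simp only [ev, Option.some.injEq, ite_mul, one_mul, zero_mul]
    rw [Finset.sum_ite_eq]
    simp

theorem sum_D (B : LieBasis G n) (Q : Sys) (U : Q.L → G) (p : Q.P) (a : Fin n) :
    ∑ w, Q.D p w * crd B (U w) a = crd B (ev U (Q.wd p 0)) a + crd B (ev U (Q.wd p 1)) a +
      crd B (ev U (Q.wd p 2))⁻¹ a + crd B (ev U (Q.wd p 3))⁻¹ a := by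
  unfold Sys.D
  simp only [sub_mul, add_mul, Finset.sum_sub_distrib, Finset.sum_add_distrib, sum_ev, crd_inv]
  ring

theorem mt_plq (Q : Sys) (U : Q.L → G) (p : Q.P) : mt (Q.plq U p) =
    mt (ev U (Q.wd p 0)) * mt (ev U (Q.wd p 1)) * mt (ev U (Q.wd p 2))⁻¹ *
      mt (ev U (Q.wd p 3))⁻¹ := rfl

/-! ### (d) -/

theorem part_d (hG : IsClosed (G : Set (UU N))) (B : LieBasis G n) : ∃ C : ℝ, 0 ≤ C ∧
    ∀ (Q : Sys) (U : Q.L → G) (p : Q.P),
    |we (Q.plq U p) - 1 / 2 * ∑ a, (∑ w, Q.D p w * crd B (U w) a) ^ 2| ≤ C * Q.r U ^ 3 := by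
  obtain ⟨C, hC, h⟩ := Pool.Agent.Y274.YMTan.tangent G hG B.X B.orth
    (fun a t => ⟨B.ex a t, B.ex_eq a t⟩) B.full
  have h' : ∀ g : G, ‖mt g - 1 - ∑ a, crd B g a • B.X a‖ ≤ C * ‖mt g - 1‖ ^ 2 := h
  refine ⟨1 / 2 * ((6 + 4 * C) * (4 + 4 * n)), by positivity, fun Q U p => ?_⟩
  obtain ⟨r, hr⟩ : ∃ r, r = Q.r U := ⟨_, rfl⟩
  have hr0 : 0 ≤ r := by rw [hr]; exact r_nonneg Q U
  obtain ⟨g0, hg0⟩ : ∃ g, g = ev U (Q.wd p 0) := ⟨_, rfl⟩
  obtain ⟨g1, hg1⟩ : ∃ g, g = ev U (Q.wd p 1) := ⟨_, rfl⟩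
  obtain ⟨g2, hg2⟩ : ∃ g, g = (ev U (Q.wd p 2))⁻¹ := ⟨_, rfl⟩
  obtain ⟨g3, hg3⟩ : ∃ g, g = (ev U (Q.wd p 3))⁻¹ := ⟨_, rfl⟩
  have l0 : ‖mt g0 - 1‖ ≤ r := by rw [hg0, hr]; exact ev_le Q U _
  have l1 : ‖mt g1 - 1‖ ≤ r := by rw [hg1, hr]; exact ev_le Q U _
  have l2 : ‖mt g2 - 1‖ ≤ r := by rw [hg2, hr]; exact ev_inv_le Q U _
  have l3 : ‖mt g3 - 1‖ ≤ r := by rw [hg3, hr]; exact ev_inv_le Q U _
  have hplq : mt (Q.plq U p) = mt g0 * mt g1 * mt g2 * mt g3 := by
    rw [mt_plq, hg0, hg1, hg2, hg3]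
  have hs : ∀ a, ∑ w, Q.D p w * crd B (U w) a =
      crd B g0 a + crd B g1 a + crd B g2 a + crd B g3 a := by
    intro a
    rw [sum_D, hg0, hg1, hg2, hg3]
  obtain ⟨s, hs'⟩ : ∃ s : Fin n → ℝ, s = fun a =>
    crd B g0 a + crd B g1 a + crd B g2 a + crd B g3 a := ⟨_, rfl⟩
  have hs2 : ∑ a, (∑ w, Q.D p w * crd B (U w) a) ^ 2 = ‖∑ a, s a • B.X a‖ ^ 2 := by
    rw [norm_span]
    refine Finset.sum_congr rfl fun a _ => ?_
    rw [hs, hs']
  rw [we_eq, hs2, hplq, ← hr]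
  obtain ⟨V, hV⟩ : ∃ V, V = mt g0 * mt g1 * mt g2 * mt g3 - 1 := ⟨_, rfl⟩
  obtain ⟨Y, hY⟩ : ∃ Y, Y = ∑ a, s a • B.X a := ⟨_, rfl⟩
  rw [← hV, ← hY]
  have hVn : ‖V‖ ≤ 4 * r := by
    have h1 : V = mt (g0 * (g1 * (g2 * g3))) - 1 := by
      rw [hV, mt_mul, mt_mul, mt_mul]
      noncomm_ring
    rw [h1]
    have k1 := norm_mt_mul_sub g0 (g1 * (g2 * g3))
    have k2 := norm_mt_mul_sub g1 (g2 * g3)
    have k3 := norm_mt_mul_sub g2 g3
    linarith
  have hYn : ‖Y‖ ≤ 4 * n * r := by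
    rw [hY]
    refine (norm_sum_le _ _).trans ?_
    have h1 : ∀ a ∈ (Finset.univ : Finset (Fin n)), ‖s a • B.X a‖ ≤ 4 * r := by
      intro a _
      rw [norm_smul, normX, mul_one, Real.norm_eq_abs, hs']
      have k0 := (crd_le B g0 a).trans l0
      have k1 := (crd_le B g1 a).trans l1
      have k2 := (crd_le B g2 a).trans l2
      have k3 := (crd_le B g3 a).trans l3
      rw [abs_le] at k0 k1 k2 k3 ⊢
      constructor <;> linarith [k0.1, k0.2, k1.1, k1.2, k2.1, k2.2, k3.1, k3.2]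
    refine (Finset.sum_le_sum h1).trans ?_
    rw [Finset.sum_const, Finset.card_univ, Fintype.card_fin, nsmul_eq_mul]
    apply le_of_eq
    ring
  have hVY : ‖V - Y‖ ≤ (6 + 4 * C) * r ^ 2 := by
    have e : V - Y = (mt g0 * mt g1 * mt g2 * mt g3 - 1 -
        ((mt g0 - 1) + (mt g1 - 1) + (mt g2 - 1) + (mt g3 - 1))) +
        ((mt g0 - 1 - ∑ a, crd B g0 a • B.X a) + (mt g1 - 1 - ∑ a, crd B g1 a • B.X a) +
        (mt g2 - 1 - ∑ a, crd B g2 a • B.X a) + (mt g3 - 1 - ∑ a, crd B g3 a • B.X a)) := by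
      have e1 : Y = ∑ a, crd B g0 a • B.X a + ∑ a, crd B g1 a • B.X a +
          ∑ a, crd B g2 a • B.X a + ∑ a, crd B g3 a • B.X a := by
        rw [hY, hs']
        simp only [add_smul, Finset.sum_add_distrib]
      rw [hV, e1]
      abel
    have k : ∀ g : G, ‖mt g - 1‖ ≤ r → ‖mt g - 1 - ∑ a, crd B g a • B.X a‖ ≤ C * r ^ 2 := by
      intro g hg
      refine (h' g).trans ?_
      gcongr
    rw [e]
    refine (norm_add_le _ _).trans ?_
    have h1 := norm_four g0 g1 g2 g3 r l0 l1 l2 l3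
    have h2 : ‖(mt g0 - 1 - ∑ a, crd B g0 a • B.X a) + (mt g1 - 1 - ∑ a, crd B g1 a • B.X a) +
        (mt g2 - 1 - ∑ a, crd B g2 a • B.X a) + (mt g3 - 1 - ∑ a, crd B g3 a • B.X a)‖ ≤
        4 * (C * r ^ 2) := by
      refine (norm_add_le _ _).trans ?_
      have k3 := k g3 l3
      have k012 := norm_add₃_le (a := mt g0 - 1 - ∑ a, crd B g0 a • B.X a)
        (b := mt g1 - 1 - ∑ a, crd B g1 a • B.X a) (c := mt g2 - 1 - ∑ a, crd B g2 a • B.X a)
      have k0 := k g0 l0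
      have k1 := k g1 l1
      have k2 := k g2 l2
      linarith
    linarith
  have hdiff : |‖V‖ - ‖Y‖| ≤ (6 + 4 * C) * r ^ 2 := (abs_norm_sub_norm_le V Y).trans hVY
  have e : 1 / 2 * ‖V‖ ^ 2 - 1 / 2 * ‖Y‖ ^ 2 = 1 / 2 * ((‖V‖ - ‖Y‖) * (‖V‖ + ‖Y‖)) := by ring
  rw [e, abs_mul, abs_mul, abs_of_pos (by norm_num : (0 : ℝ) < 1 / 2),
    abs_of_nonneg (by positivity : 0 ≤ ‖V‖ + ‖Y‖)]
  have hsum : ‖V‖ + ‖Y‖ ≤ (4 + 4 * n) * r := by linarith
  calc 1 / 2 * (|‖V‖ - ‖Y‖| * (‖V‖ + ‖Y‖))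
      ≤ 1 / 2 * (((6 + 4 * C) * r ^ 2) * ((4 + 4 * n) * r)) := by
        gcongr
    _ = _ := by ring

/-! ### Derivatives -/

/-- real part of the trace -/
def rt (N : ℕ) : Mt N →ₗ[ℝ] ℝ where
  toFun M := (trace M).re
  map_add' A B := by rw [trace_add, Complex.add_re]
  map_smul' c A := by
    rw [trace_smul, Complex.real_smul, Complex.re_ofReal_mul]
    rfl

theorem rt_apply (M : Mt N) : rt N M = (trace M).re := rfl

theorem rt_comm (A B : Mt N) : rt N (A * B) = rt N (B * A) := by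
  rw [rt_apply, rt_apply, trace_mul_comm]

theorem rt_deriv {f : ℝ → Mt N} {f' : Mt N} {t : ℝ} (h : HasDerivAt f f' t) :
    HasDerivAt (fun t => (trace (f t)).re) (rt N f') t :=
  (LinearMap.toContinuousLinearMap (rt N)).hasFDerivAt.comp_hasDerivAt t h

theorem exp_deriv (X : Mt N) : HasDerivAt (fun t : ℝ => NormedSpace.exp (t • X)) X 0 := by
  have h2 := hasDerivAt_exp_smul_const (𝕂 := ℝ) X (0 : ℝ)
  rwa [zero_smul, NormedSpace.exp_zero, one_mul] at h2

section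

variable (B : LieBasis G n) {L : Type} [DecidableEq L] (U : L → G) (w : L) (a : Fin n)

/-- the moved configuration -/
def mv (t : ℝ) : L → G := Function.update U w (B.ex a t * U w)

theorem ex_zero : B.ex a 0 = 1 := by
  have h : mt (B.ex a 0) = mt (1 : G) := by
    rw [B.ex_eq, zero_smul, NormedSpace.exp_zero, mt_one]
  exact Subtype.ext (Subtype.ext h)

theorem mv_zero : mv B U w a 0 = U := by
  unfold mv
  rw [ex_zero, one_mul, Function.update_eq_self]

theorem letter (o : Option L) : HasDerivAt (fun t => mt (ev (mv B U w a t) o))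
    (if o = some w then B.X a * mt (ev U o) else 0) 0 := by
  by_cases ho : o = some w
  · subst ho
    rw [if_pos rfl]
    have h1 : (fun t => mt (ev (mv B U w a t) (some w))) =
        fun t => NormedSpace.exp (t • B.X a) * Pool.Agent.Y14.Wilson.mt (U w) := by
      funext t
      show mt (mv B U w a t w) = _
      unfold mv
      rw [Function.update_self, mt_mul, B.ex_eq]
    rw [h1]
    exact (exp_deriv (B.X a)).mul_const _
  · rw [if_neg ho]
    have h1 : (fun t => mt (ev (mv B U w a t) o)) = fun _ => mt (ev U o) := by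
      funext t
      cases o with
      | none => rfl
      | some w' =>
        show mt (mv B U w a t w') = mt (U w')
        unfold mv
        rw [Function.update_of_ne]
        intro h
        exact ho (by rw [h])
    rw [h1]
    exact hasDerivAt_const _ _

theorem letter_inv (o : Option L) : HasDerivAt (fun t => mt (ev (mv B U w a t) o)⁻¹)
    (if o = some w then -(mt (ev U o)⁻¹ * B.X a) else 0) 0 := by
  by_cases ho : o = some w
  · subst ho
    rw [if_pos rfl]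
    have h1 : (fun t => mt (ev (mv B U w a t) (some w))⁻¹) =
        fun t => mt (U w)⁻¹ * NormedSpace.exp (t • (-B.X a)) := by
      funext t
      show mt (mv B U w a t w)⁻¹ = _
      unfold mv
      rw [Function.update_self, _root_.mul_inv_rev, mt_mul, mt_inv (B.ex a t), B.ex_eq,
        ← Matrix.exp_conjTranspose, conjTranspose_smul, skewX, star_trivial]
    rw [h1]
    have h2 := (exp_deriv (-B.X a)).const_mul (mt (U w)⁻¹)
    refine h2.congr_deriv ?_
    rw [mul_neg]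
    rfl
  · rw [if_neg ho]
    have h1 : (fun t => mt (ev (mv B U w a t) o)⁻¹) = fun _ => mt (ev U o)⁻¹ := by
      funext t
      cases o with
      | none => rfl
      | some w' =>
        show mt (mv B U w a t w')⁻¹ = mt (U w')⁻¹
        unfold mv
        rw [Function.update_of_ne]
        intro h
        exact ho (by rw [h])
    rw [h1]
    exact hasDerivAt_const _ _

end

/-- the derivative of the energy of a plaquette -/
theorem plq_deriv (B : LieBasis G n) (Q : Sys) (U : Q.L → G) (w : Q.L) (a : Fin n) (p : Q.P) :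
    ∃ d : ℝ, HasDerivAt (fun t => we (Q.plq (mv B U w a t) p)) d 0 ∧
      |d - Q.D p w * ∑ w', Q.D p w' * crd B (U w') a| ≤ 24 * Q.r U ^ 2 := by
  obtain ⟨X, hX⟩ : ∃ X, X = B.X a := ⟨_, rfl⟩
  have hXs : Xᴴ = -X := by rw [hX]; exact skewX B a
  have d0 := letter B U w a (Q.wd p 0)
  have d1 := letter B U w a (Q.wd p 1)
  have d2 := letter_inv B U w a (Q.wd p 2)
  have d3 := letter_inv B U w a (Q.wd p 3)
  have dd := ((d0.fun_mul d1).fun_mul d2).fun_mul d3
  have dd2 := rt_deriv (dd.const_sub (1 : Mt N))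
  simp only [mv_zero] at dd2
  refine ⟨_, dd2, ?_⟩
  rw [sum_D]
  clear dd2 dd d0 d1 d2 d3
  unfold Sys.D
  rw [← hX]
  obtain ⟨r, hr⟩ : ∃ r, r = Q.r U := ⟨_, rfl⟩
  have hr0 : 0 ≤ r := by rw [hr]; exact r_nonneg Q U
  obtain ⟨g0, hg0⟩ : ∃ g, g = ev U (Q.wd p 0) := ⟨_, rfl⟩
  obtain ⟨g1, hg1⟩ : ∃ g, g = ev U (Q.wd p 1) := ⟨_, rfl⟩
  obtain ⟨g2, hg2⟩ : ∃ g, g = (ev U (Q.wd p 2))⁻¹ := ⟨_, rfl⟩
  obtain ⟨g3, hg3⟩ : ∃ g, g = (ev U (Q.wd p 3))⁻¹ := ⟨_, rfl⟩
  have l0 : ‖mt g0 - 1‖ ≤ r := by rw [hg0, hr]; exact ev_le Q U _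
  have l1 : ‖mt g1 - 1‖ ≤ r := by rw [hg1, hr]; exact ev_le Q U _
  have l2 : ‖mt g2 - 1‖ ≤ r := by rw [hg2, hr]; exact ev_inv_le Q U _
  have l3 : ‖mt g3 - 1‖ ≤ r := by rw [hg3, hr]; exact ev_inv_le Q U _
  rw [← hr]
  simp only [← hg0, ← hg1, ← hg2, ← hg3]
  obtain ⟨s, hs⟩ : ∃ s, s = crd B g0 a + crd B g1 a + crd B g2 a + crd B g3 a := ⟨_, rfl⟩
  rw [← hs]
  have t0 : |rt N (-(X * mt g0 * mt g1 * mt g2 * mt g3)) - s| ≤ 6 * r ^ 2 := by
    have h := four_le B a g0 g1 g2 g3 r l0 l1 l2 l3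
    rw [← hX, hXs, ← hs] at h
    have e : -(X * mt g0 * mt g1 * mt g2 * mt g3) =
      -X * (mt g0 * mt g1 * mt g2 * mt g3) := by noncomm_ring
    rw [e]
    exact h
  have t1 : |rt N (-(mt g0 * (X * mt g1) * mt g2 * mt g3)) - s| ≤ 6 * r ^ 2 := by
    have h := four_le B a g1 g2 g3 g0 r l1 l2 l3 l0
    rw [← hX, hXs, show crd B g1 a + crd B g2 a + crd B g3 a + crd B g0 a = s by
      rw [hs]; ring] at h
    have e : -(mt g0 * (X * mt g1) * mt g2 * mt g3) =
      mt g0 * (-X * (mt g1 * mt g2 * mt g3)) := by noncomm_ring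
    rw [e, rt_comm]
    have e2 : -X * (mt g1 * mt g2 * mt g3) * mt g0 = -X * (mt g1 * mt g2 * mt g3 * mt g0) := by
      noncomm_ring
    rw [e2]
    exact h
  have t2 : |rt N (-(mt g0 * mt g1 * -(mt g2 * X) * mt g3)) + s| ≤ 6 * r ^ 2 := by
    have h := four_le B a g3 g0 g1 g2 r l3 l0 l1 l2
    rw [← hX, hXs, show crd B g3 a + crd B g0 a + crd B g1 a + crd B g2 a = s by
      rw [hs]; ring] at h
    have e : -(mt g0 * mt g1 * -(mt g2 * X) * mt g3) =
      (mt g0 * mt g1 * mt g2) * (X * mt g3) := by noncomm_ring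
    rw [e, rt_comm]
    have e2 : X * mt g3 * (mt g0 * mt g1 * mt g2) = -(-X * (mt g3 * mt g0 * mt g1 * mt g2)) := by
      noncomm_ring
    rw [e2, map_neg, ← abs_neg, neg_add, neg_neg, ← sub_eq_add_neg]
    exact h
  have t3 : |rt N (-(mt g0 * mt g1 * mt g2 * -(mt g3 * X))) + s| ≤ 6 * r ^ 2 := by
    have h := four_le B a g0 g1 g2 g3 r l0 l1 l2 l3
    rw [← hX, hXs, ← hs] at h
    have e : -(mt g0 * mt g1 * mt g2 * -(mt g3 * X)) =
      (mt g0 * mt g1 * mt g2 * mt g3) * X := by noncomm_ring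
    rw [e, rt_comm]
    have e2 : X * (mt g0 * mt g1 * mt g2 * mt g3) =
      -(-X * (mt g0 * mt g1 * mt g2 * mt g3)) := by
      noncomm_ring
    rw [e2, map_neg, ← abs_neg, neg_add, neg_neg, ← sub_eq_add_neg]
    exact h
  have key : rt N (-((((if Q.wd p 0 = some w then X * mt g0 else 0) * mt g1 +
      mt g0 * (if Q.wd p 1 = some w then X * mt g1 else 0)) * mt g2 +
      mt g0 * mt g1 * (if Q.wd p 2 = some w then -(mt g2 * X) else 0)) * mt g3 +
      mt g0 * mt g1 * mt g2 * (if Q.wd p 3 = some w then -(mt g3 * X) else 0))) =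
      (if Q.wd p 0 = some w then (1 : ℝ) else 0) *
        rt N (-(X * mt g0 * mt g1 * mt g2 * mt g3)) +
      (if Q.wd p 1 = some w then (1 : ℝ) else 0) *
        rt N (-(mt g0 * (X * mt g1) * mt g2 * mt g3)) +
      (if Q.wd p 2 = some w then (1 : ℝ) else 0) *
        rt N (-(mt g0 * mt g1 * -(mt g2 * X) * mt g3)) +
      (if Q.wd p 3 = some w then (1 : ℝ) else 0) *
        rt N (-(mt g0 * mt g1 * mt g2 * -(mt g3 * X))) := by
    have hi : ∀ (c : Prop) [Decidable c] (Y : Mt N),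
        (if c then Y else 0) = (if c then (1 : ℝ) else 0) • Y := by
      intro c _ Y
      split_ifs
      · rw [one_smul]
      · rw [zero_smul]
    rw [hi (Q.wd p 0 = some w), hi (Q.wd p 1 = some w), hi (Q.wd p 2 = some w),
      hi (Q.wd p 3 = some w)]
    generalize (if Q.wd p 0 = some w then (1 : ℝ) else 0) = c0
    generalize (if Q.wd p 1 = some w then (1 : ℝ) else 0) = c1
    generalize (if Q.wd p 2 = some w then (1 : ℝ) else 0) = c2
    generalize (if Q.wd p 3 = some w then (1 : ℝ) else 0) = c3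
    simp only [smul_mul_assoc, mul_smul_comm, add_mul, neg_add, ← smul_neg, map_add, map_smul,
      smul_eq_mul]
  rw [key]
  have hite : ∀ (c : Prop) [Decidable c], (0 : ℝ) ≤ (if c then (1 : ℝ) else 0) ∧
      (if c then (1 : ℝ) else 0) ≤ (1 : ℝ) := by
    intro c _
    split_ifs <;> norm_num
  obtain ⟨a0, b0⟩ := hite (Q.wd p 0 = some w)
  obtain ⟨a1, b1⟩ := hite (Q.wd p 1 = some w)
  obtain ⟨a2, b2⟩ := hite (Q.wd p 2 = some w)
  obtain ⟨a3, b3⟩ := hite (Q.wd p 3 = some w)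
  generalize (if Q.wd p 0 = some w then (1 : ℝ) else 0) = c0 at *
  generalize (if Q.wd p 1 = some w then (1 : ℝ) else 0) = c1 at *
  generalize (if Q.wd p 2 = some w then (1 : ℝ) else 0) = c2 at *
  generalize (if Q.wd p 3 = some w then (1 : ℝ) else 0) = c3 at *
  generalize rt N (-(X * mt g0 * mt g1 * mt g2 * mt g3)) = T0 at *
  generalize rt N (-(mt g0 * (X * mt g1) * mt g2 * mt g3)) = T1 at *
  generalize rt N (-(mt g0 * mt g1 * -(mt g2 * X) * mt g3)) = T2 at *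
  generalize rt N (-(mt g0 * mt g1 * mt g2 * -(mt g3 * X))) = T3 at *
  have e : c0 * T0 + c1 * T1 + c2 * T2 + c3 * T3 - (c0 + c1 - c2 - c3) * s =
      c0 * (T0 - s) + c1 * (T1 - s) + c2 * (T2 + s) + c3 * (T3 + s) := by ring
  rw [e]
  have k : ∀ c T : ℝ, 0 ≤ c → c ≤ 1 → |T| ≤ 6 * r ^ 2 → |c * T| ≤ 6 * r ^ 2 := by
    intro c T hc hc1 hT
    rw [abs_mul, abs_of_nonneg hc]
    calc c * |T| ≤ 1 * |T| := by gcongr
      _ ≤ _ := by rw [one_mul]; exact hT
  have k0 := k c0 _ a0 b0 t0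
  have k1 := k c1 _ a1 b1 t1
  have k2 := k c2 _ a2 b2 t2
  have k3 := k c3 _ a3 b3 t3
  refine (abs_add_le _ _).trans ?_
  have h3 := abs_add_three (c0 * (T0 - s)) (c1 * (T1 - s)) (c2 * (T2 + s))
  linarith

theorem t_TAY : S_TAY := by
  intro N n G hG B
  obtain ⟨C, hC, hd⟩ := part_d hG B
  refine ⟨C + 24, by linarith, fun Q m hm hL hP x hx0 hx1 U => ⟨?_, ?_, ?_, ?_⟩⟩
  · intro w a
    choose d hd1 hd2 using fun p => plq_deriv B Q U w a p
    have hcp : ∀ p, 0 ≤ Q.cp x p ∧ Q.cp x p ≤ 1 := by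
      intro p
      unfold Sys.cp
      split_ifs
      · norm_num
      · exact ⟨hx0, hx1⟩
    have h1 : dl B w a (Q.S we (Q.cp x)) U = ∑ p, Q.cp x p * d p := by
      unfold dl
      have h2 : HasDerivAt (fun t => Q.S we (Q.cp x) (mv B U w a t)) (∑ p, Q.cp x p * d p) 0 := by
        unfold Sys.S
        exact HasDerivAt.fun_sum fun p _ => (hd1 p).const_mul _
      exact h2.deriv
    have h2 : ∑ w', Q.H (Q.cp x) w w' * crd B (U w') a =
        ∑ p, Q.cp x p * (Q.D p w * ∑ w', Q.D p w' * crd B (U w') a) := by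
      unfold Sys.H
      simp only [Finset.sum_mul, Finset.mul_sum]
      rw [Finset.sum_comm]
      refine Finset.sum_congr rfl fun p _ => Finset.sum_congr rfl fun w' _ => ?_
      ring
    rw [h1, h2, ← Finset.sum_sub_distrib]
    refine (Finset.abs_sum_le_sum_abs _ _).trans ?_
    have h3 : ∀ p ∈ (Finset.univ : Finset Q.P), |Q.cp x p * d p - Q.cp x p *
        (Q.D p w * ∑ w', Q.D p w' * crd B (U w') a)| ≤ 24 * Q.r U ^ 2 := by
      intro p _
      rw [← mul_sub, abs_mul, abs_of_nonneg (hcp p).1]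
      calc Q.cp x p * |d p - Q.D p w * ∑ w', Q.D p w' * crd B (U w') a|
          ≤ 1 * (24 * Q.r U ^ 2) := by
            gcongr
            · exact (hcp p).2
            · exact hd2 p
        _ = _ := one_mul _
    refine (Finset.sum_le_sum h3).trans ?_
    rw [Finset.sum_const, Finset.card_univ, nsmul_eq_mul]
    have h4 : ((Fintype.card Q.P : ℕ) : ℝ) ≤ m := by exact_mod_cast hP
    calc ((Fintype.card Q.P : ℕ) : ℝ) * (24 * Q.r U ^ 2) ≤ m * (24 * Q.r U ^ 2) := by gcongr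
      _ = 24 * m * Q.r U ^ 2 := by ring
      _ ≤ (C + 24) * m * Q.r U ^ 2 := by
        gcongr
        linarith
  · intro w a
    exact (crd_le B _ _).trans (single_le Q U w)
  · intro w a w' b
    have hr := r_nonneg Q U
    by_cases hw : w = w'
    · subst hw
      have h1 : HasDerivAt (fun t => crd B (mv B U w a t w) b)
          (rt N ((B.X b)ᴴ * (B.X a * mt (U w)))) 0 := by
        have h2 := (letter B U w a (some w)).const_mul ((B.X b)ᴴ)
        rw [if_pos rfl] at h2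
        exact rt_deriv h2
      have h2 : dl B w a (fun U : Q.L → G => crd B (U w) b) U =
          rt N ((B.X b)ᴴ * (B.X a * mt (U w))) := h1.deriv
      have h3 : (if w = w ∧ a = b then (1 : ℝ) else 0) = (trace ((B.X b)ᴴ * B.X a)).re := by
        rw [B.orth]
        by_cases h : a = b
        · rw [if_pos ⟨rfl, h⟩, if_pos h.symm]
        · rw [if_neg (fun h' => h h'.2), if_neg (fun h' => h h'.symm)]
      rw [h2, h3, rt_apply]
      have h4 : (trace ((B.X b)ᴴ * (B.X a * mt (U w)))).re - (trace ((B.X b)ᴴ * B.X a)).re =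
          (trace ((B.X b)ᴴ * (B.X a * (mt (U w) - 1)))).re := by
        rw [mul_sub, mul_sub, mul_one, trace_sub, Complex.sub_re]
      rw [h4]
      refine (ip_le _ _).trans ?_
      rw [normX, one_mul]
      refine (norm_mul_le _ _).trans ?_
      rw [normX, one_mul]
      refine (single_le Q U w).trans ?_
      nlinarith
    · have h1 : dl B w a (fun U : Q.L → G => crd B (U w') b) U = 0 := by
        unfold dl
        have h2 : (fun t => crd B (Function.update U w (B.ex a t * U w) w') b) =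
            fun _ => crd B (U w') b := by
          funext t
          rw [Function.update_of_ne (fun h => hw h.symm)]
        rw [h2, deriv_const]
      rw [h1, if_neg (fun h => hw h.1), sub_zero, abs_zero]
      positivity
  · intro p
    refine (hd Q U p).trans ?_
    have hr := r_nonneg Q U
    gcongr
    linarith

end

end Pool.Agent.N899.BB.Tay
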