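import Mathlib
import Pool.Agent.N899.BB.Stm

/-!
# Torus and box (three applications of reflection positivity)
-/

open MeasureTheory
open Pool.Agent.N899.SB

namespace Pool.Agent.N899.BB.Tb

noncomputable section

/-- composition of isomorphisms -/
theorem iso_trans {X Y Z : Cx} (h1 : Nonempty (Iso X Y)) (h2 : Nonempty (Iso Y Z)) :
    Nonempty (Iso X Z) := by
  obtain ⟨i⟩ := h1
  obtain ⟨j⟩ := h2
  refine ⟨⟨i.eV.trans j.eV, i.eE.trans j.eE, i.eF.trans j.eF, ?_, ?_, ?_⟩⟩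
  · intro e
    simp only [Equiv.trans_apply]
    rw [j.src, i.src]
  · intro e
    simp only [Equiv.trans_apply]
    rw [j.tgt, i.tgt]
  · intro f
    simp only [Equiv.trans_apply]
    rcases i.face f with ⟨a1, a2, a3, a4⟩ | ⟨a1, a2, a3, a4⟩ <;>
    rcases j.face (i.eF f) with ⟨b1, b2, b3, b4⟩ | ⟨b1, b2, b3, b4⟩
    · left
      exact ⟨by rw [b1, a1], by rw [b2, a2], by rw [b3, a3], by rw [b4, a4]⟩
    · right
      exact ⟨by rw [b1, a4], by rw [b2, a3], by rw [b3, a2], by rw [b4, a1]⟩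
    · right
      exact ⟨by rw [b1, a1], by rw [b2, a2], by rw [b3, a3], by rw [b4, a4]⟩
    · left
      exact ⟨by rw [b1, a4], by rw [b2, a3], by rw [b3, a2], by rw [b4, a1]⟩

/-- one direction -/
theorem one_dir (hKX : S_KX) (hSL : S_SL) (hO : S_OPEN)
    (G : Type) [Group G] [TopologicalSpace G] [IsTopologicalGroup G]
    [CompactSpace G] [SecondCountableTopology G] [MeasurableSpace G] [BorelSpace G]
    (μ : Measure G) [IsProbabilityMeasure μ] [μ.IsInvInvariant] (we : G → ℝ) (hc : Continuous we)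
    (hi : ∀ g, we g⁻¹ = we g) (hcj : ∀ g h, we (h * g * h⁻¹) = we g) (h0 : ∀ g, 0 ≤ we g) (β : ℝ)
    (hβ : 0 ≤ β) (X : Cx) :
    (∀ m, 0 < (X.prod (path m)).Z μ we β ∧ (X.prod (path m)).Z μ we β ≤ 1) ∧
    (∀ (R r : ℕ) [NeZero (2 * R)], 1 ≤ r → r ≤ R →
      ((R : ℝ) / r) * Real.log ((X.prod (path (2 * r))).Z μ we β) ≤
        Real.log ((X.prod (cyc (2 * R))).Z μ we β)) ∧
    ∀ (l m : ℕ) [NeZero l], Real.log ((X.prod (cyc l)).Z μ we β) ≤
      ((l / (m + 1) : ℕ) : ℝ) * Real.log ((X.prod (path m)).Z μ we β) := by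
  obtain ⟨k1, k2, k3, k4, k5, k6⟩ := hKX G μ we hc hi hcj h0 X β hβ
  obtain ⟨s1, s2, s3⟩ := hSL G μ we hc X β
  obtain ⟨o1, o2, o3⟩ := hO (X.E → G) (X.M μ) (X.k μ we β) (X.φ we β) k1 k2 k3 k4 k5 k6
    (fun m => (X.prod (path m)).Z μ we β) s2 s3
  refine ⟨o1, ?_, ?_⟩
  · intro R r hR hr hrR
    obtain ⟨R', rfl⟩ : ∃ R', R = R' + 1 := ⟨R - 1, by omega⟩
    have h := o2 r (R' + 1) hr hrR
    have e : 2 * (R' + 1) - 1 = 2 * R' + 1 := by omega
    rw [e, ← s1 (2 * R' + 1)] at h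
    exact h
  · intro l m hl
    obtain ⟨l', rfl⟩ : ∃ l', l = l' + 1 := ⟨l - 1, by have := hl.out; omega⟩
    have h := o3 l' m
    rw [← s1 l'] at h
    exact h

theorem t_TB : S_ISO → S_KX → S_SL → S_OPEN → S_TB := by
  intro hI hKX hSL hO
  obtain ⟨i1, i2, i3⟩ := hI
  intro G _ _ _ _ _ _ _ μ _ _ we hc hi hcj h0 β hβ s _
  have D := fun X : Cx => one_dir hKX hSL hO G μ we hc hi hcj h0 β hβ X
  have Zeq : ∀ X Y : Cx, Nonempty (Iso X Y) → X.Z μ we β = Y.Z μ we β := by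
    rintro X Y ⟨i⟩
    exact i1 X Y i G μ we hi β
  have pr : ∀ (X Y : Cx) (Γ : Gr), Nonempty (Iso X Y) → Nonempty (Iso (X.prod Γ) (Y.prod Γ)) := by
    rintro X Y Γ ⟨i⟩
    exact i2 X Y Γ i
  -- two general isomorphisms
  have J2 : ∀ (X : Cx) (C P : Gr),
      Nonempty (Iso (((X.prod C).prod P).prod P) (((X.prod P).prod P).prod C)) := by
    intro X C P
    exact iso_trans (pr _ _ P (i3 X C P)) (i3 _ C P)
  have J3 : ∀ (X : Cx) (C P : Gr), Nonempty (Iso ((((X.prod C).prod P).prod P).prod P)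
      ((((X.prod P).prod P).prod P).prod C)) := by
    intro X C P
    exact iso_trans (pr _ _ P (J2 X C P)) (i3 _ C P)
  refine ⟨?_, ?_⟩
  · intro R r hR hr hrR
    have hq : (0 : ℝ) ≤ (R : ℝ) / r := by positivity
    have A1 := (D (((pt.prod (cyc s)).prod (cyc (2 * R))).prod (cyc (2 * R)))).2.1 R r hr hrR
    rw [Zeq _ _ (i3 ((pt.prod (cyc s)).prod (cyc (2 * R))) (cyc (2 * R)) (path (2 * r)))] at A1
    have A2 := (D (((pt.prod (cyc s)).prod (cyc (2 * R))).prod (path (2 * r)))).2.1 R r hr hrR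
    rw [Zeq _ _ (J2 (pt.prod (cyc s)) (cyc (2 * R)) (path (2 * r)))] at A2
    have A3 := (D (((pt.prod (cyc s)).prod (path (2 * r))).prod (path (2 * r)))).2.1 R r hr hrR
    rw [Zeq _ _ (J3 pt (cyc s) (path (2 * r)))] at A3
    calc ((R : ℝ) / r) ^ 3 * Real.log (((box (2 * r)).prod (cyc s)).Z μ we β)
        = (R : ℝ) / r * ((R : ℝ) / r * ((R : ℝ) / r *
            Real.log (((box (2 * r)).prod (cyc s)).Z μ we β))) := by ring
      _ ≤ (R : ℝ) / r * ((R : ℝ) / r * Real.log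
            (((((pt.prod (cyc s)).prod (path (2 * r))).prod (path (2 * r))).prod
              (cyc (2 * R))).Z μ we β)) :=
          mul_le_mul_of_nonneg_left (mul_le_mul_of_nonneg_left A3 hq) hq
      _ ≤ (R : ℝ) / r * Real.log
            (((((pt.prod (cyc s)).prod (cyc (2 * R))).prod (path (2 * r))).prod
              (cyc (2 * R))).Z μ we β) := mul_le_mul_of_nonneg_left A2 hq
      _ ≤ _ := A1
  · intro l m hl
    have hq : (0 : ℝ) ≤ ((l / (m + 1) : ℕ) : ℝ) := by positivity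
    have A1 := (D (((pt.prod (cyc s)).prod (cyc l)).prod (cyc l))).2.2 l m
    rw [Zeq _ _ (i3 ((pt.prod (cyc s)).prod (cyc l)) (cyc l) (path m))] at A1
    have A2 := (D (((pt.prod (cyc s)).prod (cyc l)).prod (path m))).2.2 l m
    rw [Zeq _ _ (J2 (pt.prod (cyc s)) (cyc l) (path m))] at A2
    have A3 := (D (((pt.prod (cyc s)).prod (path m)).prod (path m))).2.2 l m
    rw [Zeq _ _ (J3 pt (cyc s) (path m))] at A3
    calc Real.log ((torus l s).Z μ we β)
        ≤ ((l / (m + 1) : ℕ) : ℝ) * Real.log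
            (((((pt.prod (cyc s)).prod (cyc l)).prod (path m)).prod (cyc l)).Z μ we β) := A1
      _ ≤ ((l / (m + 1) : ℕ) : ℝ) * (((l / (m + 1) : ℕ) : ℝ) * Real.log
            (((((pt.prod (cyc s)).prod (path m)).prod (path m)).prod (cyc l)).Z μ we β)) :=
          mul_le_mul_of_nonneg_left A2 hq
      _ ≤ ((l / (m + 1) : ℕ) : ℝ) * (((l / (m + 1) : ℕ) : ℝ) * (((l / (m + 1) : ℕ) : ℝ) *
            Real.log (((box m).prod (cyc s)).Z μ we β))) :=
          mul_le_mul_of_nonneg_left (mul_le_mul_of_nonneg_left A3 hq) hq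
      _ = ((l / (m + 1) : ℕ) : ℝ) ^ 3 * Real.log (((box m).prod (cyc s)).Z μ we β) := by ring

end

end Pool.Agent.N899.BB.Tb
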