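import Mathlib
import Pool.Agent.N899.BB.Stm

/-!
# The torus of the standard Wilson action is a product complex
-/

open MeasureTheory
open Pool.Agent.N899.SB

namespace Pool.Agent.N899.BB.Tor

noncomputable section

set_option linter.unusedSectionVars false

section sums

variable {G : Type} [Group G]

theorem S_prod (X : Cx) (Γ : Gr) (we : G → ℝ) (U : (X.prod Γ).E → G) :
    (X.prod Γ).S we U = ∑ τ : Γ.V, X.S we (fun e => U (Sum.inl (e, τ))) +
      ∑ e : X.E, ∑ ε : Γ.E, we (U (Sum.inl (e, Γ.src ε)) * U (Sum.inr (X.tgt e, ε)) *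
        (U (Sum.inl (e, Γ.tgt ε)))⁻¹ * (U (Sum.inr (X.src e, ε)))⁻¹) := by
  unfold Cx.S
  rw [show (∑ f : (X.prod Γ).F, we ((X.prod Γ).plq U f)) =
    ∑ f : (X.F × Γ.V) ⊕ (X.E × Γ.E), we ((X.prod Γ).plq U f) from rfl]
  rw [Fintype.sum_sum_type, Fintype.sum_prod_type, Fintype.sum_prod_type, Finset.sum_comm]
  rfl

theorem sumE (X : Cx) (Γ : Gr) (f : (X.prod Γ).E → ℝ) :
    ∑ e, f e = ∑ e : X.E, ∑ τ : Γ.V, f (Sum.inl (e, τ)) +
      ∑ v : X.V, ∑ ε : Γ.E, f (Sum.inr (v, ε)) := by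
  exact (Fintype.sum_sum_type (α₁ := X.E × Γ.V) (α₂ := X.V × Γ.E) (f := f)).trans
    (congrArg₂ (· + ·) (Fintype.sum_prod_type _) (Fintype.sum_prod_type _))

theorem sumV (X : Cx) (Γ : Gr) (f : (X.prod Γ).V → ℝ) :
    ∑ v, f v = ∑ v : X.V, ∑ τ : Γ.V, f (v, τ) := by
  exact Fintype.sum_prod_type (α₁ := X.V) (α₂ := Γ.V) (f := f)

theorem ptV (f : pt.V → ℝ) : ∑ v : pt.V, f v = f () := by
  exact Fintype.sum_unique (ι := Unit) f

theorem ptE (f : pt.E → ℝ) : ∑ v : pt.E, f v = 0 := by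
  exact Fintype.sum_empty (ι := Empty) f

theorem ptS (we : G → ℝ) (U : pt.E → G) : pt.S we U = 0 := by
  unfold Cx.S
  rw [show (∑ v : pt.F, we (pt.plq U v)) = ∑ v : Empty, we (pt.plq U v) from rfl]
  simp

end sums

variable {l s : ℕ} [NeZero l] [NeZero s]

/-- the point with the given coordinates -/
def cv (τ : ZMod s) (x y z : ZMod l) : St 3 l s := (![x, y, z], τ)

/-- the vertices -/
def eV : (torus l s).V ≃ St 3 l s where
  toFun v := cv v.1.1.1.2 v.1.1.2 v.1.2 v.2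
  invFun x := (((((), x.2), x.1 0), x.1 1), x.1 2)
  left_inv := by
    rintro ⟨⟨⟨⟨⟨⟩, τ⟩, x⟩, y⟩, z⟩
    rfl
  right_inv := by
    rintro ⟨v, τ⟩
    refine Prod.ext ?_ rfl
    funext i
    fin_cases i <;> rfl

/-- the link of an edge -/
def lk : (torus l s).E → St 3 l s × Fin 4
  | .inr v => (cv v.1.1.1.2 v.1.1.2 v.1.2 v.2, 2)
  | .inl (.inr v, z) => (cv v.1.1.2 v.1.2 v.2 z, 1)
  | .inl (.inl (.inr v, y), z) => (cv v.1.2 v.2 y z, 0)
  | .inl (.inl (.inl (.inr v, x), y), z) => (cv v.2 x y z, 3)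
  | .inl (.inl (.inl (.inl v, _), _), _) => v.1.elim

/-- the edge of a link -/
def kl (p : St 3 l s × Fin 4) : (torus l s).E :=
  if p.2 = 0 then .inl (.inl (.inr (((), p.1.2), p.1.1 0), p.1.1 1), p.1.1 2) else
  if p.2 = 1 then .inl (.inr ((((), p.1.2), p.1.1 0), p.1.1 1), p.1.1 2) else
  if p.2 = 2 then .inr (((((), p.1.2), p.1.1 0), p.1.1 1), p.1.1 2) else
  .inl (.inl (.inl (.inr ((), p.1.2), p.1.1 0), p.1.1 1), p.1.1 2)

/-- the edges -/
def eE : (torus l s).E ≃ St 3 l s × Fin 4 where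
  toFun := lk
  invFun := kl
  left_inv := by
    rintro (⟨(⟨(⟨(⟨⟨⟩, τ⟩ | ⟨⟨⟩, τ⟩), x⟩ | ⟨⟨⟨⟩, τ⟩, x⟩), y⟩ | ⟨⟨⟨⟨⟩, τ⟩, x⟩, y⟩), z⟩ |
      ⟨⟨⟨⟨⟨⟩, τ⟩, x⟩, y⟩, z⟩) <;> rfl
  right_inv := by
    rintro ⟨⟨v, τ⟩, i⟩
    have hv : (![v 0, v 1, v 2] : Fin 3 → ZMod l) = v := by
      funext i
      fin_cases i <;> rfl
    fin_cases i
    · change ((![v 0, v 1, v 2], τ), (0 : Fin 4)) = _
      rw [hv]
      rfl
    · change ((![v 0, v 1, v 2], τ), (1 : Fin 4)) = _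
      rw [hv]
      rfl
    · change ((![v 0, v 1, v 2], τ), (2 : Fin 4)) = _
      rw [hv]
      rfl
    · change ((![v 0, v 1, v 2], τ), (3 : Fin 4)) = _
      rw [hv]
      rfl

theorem ev0 (τ : ZMod s) (x y z : ZMod l) :
    cv τ x y z + SB.ev 3 l s 0 = cv τ (x + 1) y z := by
  have : SB.ev 3 l s 0 = (Pi.single 0 1, 0) := by
    unfold SB.ev
    exact Fin.lastCases_castSucc (i := (0 : Fin 3)) ..
  rw [this]
  refine Prod.ext ?_ (add_zero _)
  funext i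
  fin_cases i
  · change x + _ = _
    simp [cv]
  · change y + _ = _
    simp [cv]
  · change z + _ = _
    simp [cv]

theorem ev1 (τ : ZMod s) (x y z : ZMod l) :
    cv τ x y z + SB.ev 3 l s 1 = cv τ x (y + 1) z := by
  have : SB.ev 3 l s 1 = (Pi.single 1 1, 0) := by
    unfold SB.ev
    exact Fin.lastCases_castSucc (i := (1 : Fin 3)) ..
  rw [this]
  refine Prod.ext ?_ (add_zero _)
  funext i
  fin_cases i
  · change x + _ = _
    simp [cv]
  · change y + _ = _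
    simp [cv]
  · change z + _ = _
    simp [cv]

theorem ev2 (τ : ZMod s) (x y z : ZMod l) :
    cv τ x y z + SB.ev 3 l s 2 = cv τ x y (z + 1) := by
  have : SB.ev 3 l s 2 = (Pi.single 2 1, 0) := by
    unfold SB.ev
    exact Fin.lastCases_castSucc (i := (2 : Fin 3)) ..
  rw [this]
  refine Prod.ext ?_ (add_zero _)
  funext i
  fin_cases i
  · change x + _ = _
    simp [cv]
  · change y + _ = _
    simp [cv]
  · change z + _ = _
    simp [cv]

theorem ev3 (τ : ZMod s) (x y z : ZMod l) :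
    cv τ x y z + SB.ev 3 l s 3 = cv (τ + 1) x y z := by
  have : SB.ev 3 l s 3 = (0, 1) := by
    unfold SB.ev
    exact Fin.lastCases_last ..
  rw [this]
  refine Prod.ext (add_zero _) rfl

variable {G : Type} [Group G]

/-- the action in coordinates -/
theorem ac_eq (we : G → ℝ) (U : St 3 l s × Fin 4 → G) :
    ac we (SB.ev 3 l s) U = ∑ τ : ZMod s, ∑ x : ZMod l, ∑ y : ZMod l, ∑ z : ZMod l,
      (we (pq (SB.ev 3 l s) U (cv τ x y z) 0 1) + we (pq (SB.ev 3 l s) U (cv τ x y z) 0 2) +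
      we (pq (SB.ev 3 l s) U (cv τ x y z) 0 3) + we (pq (SB.ev 3 l s) U (cv τ x y z) 1 2) +
      we (pq (SB.ev 3 l s) U (cv τ x y z) 1 3) + we (pq (SB.ev 3 l s) U (cv τ x y z) 2 3)) := by
  unfold ac
  rw [← (eV (l := l) (s := s)).sum_comp]
  unfold torus
  rw [sumV, sumV, sumV, sumV, ptV]
  refine Finset.sum_congr rfl fun τ _ => Finset.sum_congr rfl fun x _ =>
    Finset.sum_congr rfl fun y _ => Finset.sum_congr rfl fun z _ => ?_
  change (∑ i : Fin 4, ∑ j : Fin 4,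
    if i < j then we (pq (SB.ev 3 l s) U (cv τ x y z) i j) else 0) = _
  simp only [Fin.sum_univ_four]
  simp only [show ¬ ((0 : Fin 4) < 0) by decide, show (0 : Fin 4) < 1 by decide,
    show (0 : Fin 4) < 2 by decide, show (0 : Fin 4) < 3 by decide,
    show ¬ ((1 : Fin 4) < 0) by decide, show ¬ ((1 : Fin 4) < 1) by decide,
    show (1 : Fin 4) < 2 by decide, show (1 : Fin 4) < 3 by decide,
    show ¬ ((2 : Fin 4) < 0) by decide, show ¬ ((2 : Fin 4) < 1) by decide,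
    show ¬ ((2 : Fin 4) < 2) by decide, show (2 : Fin 4) < 3 by decide,
    show ¬ ((3 : Fin 4) < 0) by decide, show ¬ ((3 : Fin 4) < 1) by decide,
    show ¬ ((3 : Fin 4) < 2) by decide, show ¬ ((3 : Fin 4) < 3) by decide, if_true, if_false]
  ring

theorem reorder (f : ZMod s → ZMod l → ZMod l → ZMod l → ℝ) :
    ∑ z, ∑ y, ∑ τ, ∑ x, f τ x y z = ∑ τ, ∑ x, ∑ y, ∑ z, f τ x y z := by
  calc ∑ z, ∑ y, ∑ τ, ∑ x, f τ x y z = ∑ z, ∑ τ, ∑ y, ∑ x, f τ x y z :=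
        Finset.sum_congr rfl fun z _ => Finset.sum_comm
    _ = ∑ τ, ∑ z, ∑ y, ∑ x, f τ x y z := Finset.sum_comm
    _ = ∑ τ, ∑ z, ∑ x, ∑ y, f τ x y z := Finset.sum_congr rfl fun τ _ =>
        Finset.sum_congr rfl fun z _ => Finset.sum_comm
    _ = ∑ τ, ∑ x, ∑ z, ∑ y, f τ x y z := Finset.sum_congr rfl fun τ _ => Finset.sum_comm
    _ = ∑ τ, ∑ x, ∑ y, ∑ z, f τ x y z := Finset.sum_congr rfl fun τ _ =>
        Finset.sum_congr rfl fun x _ => Finset.sum_comm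

theorem reorder2 (f : ZMod s → ZMod l → ZMod l → ZMod l → ℝ) :
    ∑ z, ∑ τ, ∑ x, ∑ y, f τ x y z = ∑ τ, ∑ x, ∑ y, ∑ z, f τ x y z := by
  calc ∑ z, ∑ τ, ∑ x, ∑ y, f τ x y z = ∑ τ, ∑ z, ∑ x, ∑ y, f τ x y z := Finset.sum_comm
    _ = ∑ τ, ∑ x, ∑ z, ∑ y, f τ x y z := Finset.sum_congr rfl fun τ _ => Finset.sum_comm
    _ = ∑ τ, ∑ x, ∑ y, ∑ z, f τ x y z := Finset.sum_congr rfl fun τ _ =>
        Finset.sum_congr rfl fun x _ => Finset.sum_comm

/-- the plaquette with the given corners and directions -/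
def P4 (we : G → ℝ) (U : St 3 l s × Fin 4 → G) (i j : Fin 4) (a b c : St 3 l s) : ℝ :=
  we (U (a, i) * U (b, j) * (U (c, i))⁻¹ * (U (a, j))⁻¹)

theorem P4_symm (we : G → ℝ) (hw : ∀ g, we g⁻¹ = we g) (U : St 3 l s × Fin 4 → G) (i j : Fin 4)
    (a b c : St 3 l s) : P4 we U i j a b c = P4 we U j i a c b := by
  unfold P4
  rw [← hw]
  congr 1
  group

theorem S_eq (we : G → ℝ) (hw : ∀ g, we g⁻¹ = we g) (U : St 3 l s × Fin 4 → G) :
    (torus l s).S we (fun e => U (lk e)) = ac we (SB.ev 3 l s) U := by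
  rw [ac_eq]
  unfold torus
  simp only [S_prod, sumE, sumV, ptS, ptE, ptV, Finset.sum_const_zero, zero_add]
  change (∑ z : ZMod l, ((∑ y : ZMod l, ∑ τ : ZMod s, ∑ x : ZMod l,
      P4 we U 3 0 (cv τ x y z) (cv (τ + 1) x y z) (cv τ (x + 1) y z)) +
    ((∑ τ : ZMod s, ∑ x : ZMod l, ∑ y : ZMod l,
      P4 we U 3 1 (cv τ x y z) (cv (τ + 1) x y z) (cv τ x (y + 1) z)) +
    ∑ τ : ZMod s, ∑ x : ZMod l, ∑ y : ZMod l,
      P4 we U 0 1 (cv τ x y z) (cv τ (x + 1) y z) (cv τ x (y + 1) z)))) +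
    (((∑ τ : ZMod s, ∑ x : ZMod l, ∑ y : ZMod l, ∑ z : ZMod l,
      P4 we U 3 2 (cv τ x y z) (cv (τ + 1) x y z) (cv τ x y (z + 1))) +
    (∑ τ : ZMod s, ∑ x : ZMod l, ∑ y : ZMod l, ∑ z : ZMod l,
      P4 we U 0 2 (cv τ x y z) (cv τ (x + 1) y z) (cv τ x y (z + 1)))) +
    ∑ τ : ZMod s, ∑ x : ZMod l, ∑ y : ZMod l, ∑ z : ZMod l,
      P4 we U 1 2 (cv τ x y z) (cv τ x (y + 1) z) (cv τ x y (z + 1))) =
    ∑ τ : ZMod s, ∑ x : ZMod l, ∑ y : ZMod l, ∑ z : ZMod l,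
      (P4 we U 0 1 (cv τ x y z) (cv τ x y z + SB.ev 3 l s 0) (cv τ x y z + SB.ev 3 l s 1) +
      P4 we U 0 2 (cv τ x y z) (cv τ x y z + SB.ev 3 l s 0) (cv τ x y z + SB.ev 3 l s 2) +
      P4 we U 0 3 (cv τ x y z) (cv τ x y z + SB.ev 3 l s 0) (cv τ x y z + SB.ev 3 l s 3) +
      P4 we U 1 2 (cv τ x y z) (cv τ x y z + SB.ev 3 l s 1) (cv τ x y z + SB.ev 3 l s 2) +
      P4 we U 1 3 (cv τ x y z) (cv τ x y z + SB.ev 3 l s 1) (cv τ x y z + SB.ev 3 l s 3) +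
      P4 we U 2 3 (cv τ x y z) (cv τ x y z + SB.ev 3 l s 2) (cv τ x y z + SB.ev 3 l s 3))
  simp only [ev0, ev1, ev2, ev3, Finset.sum_add_distrib]
  rw [reorder, reorder2, reorder2]
  simp only [P4_symm we hw U 3]
  ring

theorem t_TOR : S_TOR := by
  intro G _ _ μ _ we hw l s _ _ β
  unfold prt Cx.Z
  have hm := measurePreserving_piCongrLeft (fun _ : (torus l s).E => μ) (eE (l := l) (s := s)).symm
  rw [← hm.integral_comp' (g := fun U : (torus l s).E → G =>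
    Real.exp (-(β * (torus l s).S we U)))]
  refine integral_congr_ae (Filter.Eventually.of_forall fun U => ?_)
  have h1 : (torus l s).S we (MeasurableEquiv.piCongrLeft (fun _ => G) (eE (l := l) (s := s)).symm U) =
      ac we (SB.ev 3 l s) U := by
    rw [← S_eq we hw U]
    congr 1
    funext e
    obtain ⟨a, rfl⟩ := (eE (l := l) (s := s)).symm.surjective e
    rw [MeasurableEquiv.coe_piCongrLeft]
    refine (Equiv.piCongrLeft_apply_apply (fun _ : (torus l s).E => G)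
      (eE (l := l) (s := s)).symm U a).trans ?_
    exact congrArg U ((eE (l := l) (s := s)).apply_symm_apply a).symm
  simp only
  rw [h1]

end

end Pool.Agent.N899.BB.Tor
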