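import Mathlib
import Pool.Agent.N899.BB.Stm

/-!
# Gauge fixing on a tree in all time slices
-/

open MeasureTheory
open Pool.Agent.N899.SB

namespace Pool.Agent.N899.BB.Tree

noncomputable section

variable {G : Type} [Group G]

/-- gauge transformation -/
def gau {X : Cx} (g : X.V → G) (U : X.E → G) : X.E → G :=
  fun e => g (X.src e) * U e * (g (X.tgt e))⁻¹

theorem plq_gau {X : Cx} (g : X.V → G) (U : X.E → G) (f : X.F) :
    X.plq (gau g U) f = g (X.src (X.f1 f)) * X.plq U f * (g (X.src (X.f1 f)))⁻¹ := by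
  unfold Cx.plq gau
  rw [X.h2 f, X.h3 f, X.h4 f, X.h1 f]
  group

theorem S_gau {X : Cx} {we : G → ℝ} (hw : ∀ g h, we (h * g * h⁻¹) = we g) (g : X.V → G)
    (U : X.E → G) : X.S we (gau g U) = X.S we U := by
  unfold Cx.S
  refine Finset.sum_congr rfl fun f _ => ?_
  rw [plq_gau, hw]

/-- recursion along the tree -/
def gk {Y : Cx} (R : Rt Y) (u : Y.E → G) : ℕ → Y.V → G
  | 0 => fun _ => 1
  | k + 1 => fun v => match R.pe v with
    | none => 1
    | some e => gk R u k (Y.src e) * u e

theorem pe_spec {Y : Cx} (R : Rt Y) {v : Y.V} {e : Y.E} (h : R.pe v = some e) :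
    R.tree e = true ∧ Y.tgt e = v := by
  have hv : v ≠ R.root := by
    rintro rfl
    rw [R.pe_root] at h
    cases h
  obtain ⟨e', h1, h2, h3⟩ := R.pe_some v hv
  rw [h] at h1
  cases h1
  exact ⟨h2, h3⟩

theorem gk_none {Y : Cx} (R : Rt Y) (u : Y.E → G) (k : ℕ) {v : Y.V} (h : R.pe v = none) :
    gk R u (k + 1) v = 1 := by
  change (match R.pe v with
    | none => 1
    | some e => gk R u k (Y.src e) * u e) = 1
  rw [h]

theorem gk_some {Y : Cx} (R : Rt Y) (u : Y.E → G) (k : ℕ) {v : Y.V} {e : Y.E}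
    (h : R.pe v = some e) : gk R u (k + 1) v = gk R u k (Y.src e) * u e := by
  change (match R.pe v with
    | none => 1
    | some e => gk R u k (Y.src e) * u e) = _
  rw [h]

theorem gk_stable {Y : Cx} (R : Rt Y) (u : Y.E → G) :
    ∀ (k : ℕ) (v : Y.V), R.rV v < k → gk R u (k + 1) v = gk R u k v := by
  intro k
  induction k with
  | zero => intro v h; omega
  | succ k ih =>
    intro v hv
    rcases hp : R.pe v with _ | e
    · rw [gk_none R u _ hp, gk_none R u _ hp]
    · obtain ⟨h1, h2⟩ := pe_spec R hp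
      have h3 := R.rV_lt e h1
      rw [h2] at h3
      rw [gk_some R u _ hp, gk_some R u _ hp, ih (Y.src e) (by omega)]

theorem exists_gauge {Y : Cx} (R : Rt Y) (u : Y.E → G) :
    ∃ g : Y.V → G, g R.root = 1 ∧
      ∀ e, R.tree e = true → g (Y.src e) * u e * (g (Y.tgt e))⁻¹ = 1 := by
  refine ⟨gk R u (Finset.univ.sup R.rV + 1), ?_, ?_⟩
  · exact gk_none R u _ R.pe_root
  · intro e he
    have h1 : R.rV (Y.tgt e) < Finset.univ.sup R.rV + 1 :=
      Nat.lt_succ_of_le (Finset.le_sup (f := R.rV) (Finset.mem_univ _))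
    rw [← gk_stable R u _ (Y.tgt e) h1, gk_some R u _ (R.pe_tree e he)]
    exact mul_inv_cancel _

/-- the gauge of a configuration of one slice -/
def g1 {Y : Cx} (R : Rt Y) (u : Y.E → G) : Y.V → G := (exists_gauge R u).choose

/-- the links of the tree in one slice -/
def sl {Y : Cx} (R : Rt Y) {Γ : Gr} (U : (Y.prod Γ).E → G) (t : Γ.V) : Y.E → G :=
  fun e => if R.tree e = true then U (Sum.inl (e, t)) else 1

/-- the gauge of a configuration -/
def gg {Y : Cx} (R : Rt Y) {Γ : Gr} (U : (Y.prod Γ).E → G) : (Y.prod Γ).V → G :=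
  fun (p : Y.V × Γ.V) => g1 R (sl R U p.2) p.1

theorem gg_root {Y : Cx} (R : Rt Y) {Γ : Gr} (U : (Y.prod Γ).E → G) (t : Γ.V) :
    gg R U (R.root, t) = 1 :=
  (exists_gauge R (sl R U t)).choose_spec.1

theorem gg_tree {Y : Cx} (R : Rt Y) {Γ : Gr} (U : (Y.prod Γ).E → G) (e : Y.E)
    (he : R.tree e = true) (t : Γ.V) :
    gg R U (Y.src e, t) * U (Sum.inl (e, t)) * (gg R U (Y.tgt e, t))⁻¹ = 1 := by
  have h := (exists_gauge R (sl R U t)).choose_spec.2 e he
  have h' : sl R U t e = U (Sum.inl (e, t)) := if_pos he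
  rw [h'] at h
  exact h

theorem gg_congr {Y : Cx} (R : Rt Y) {Γ : Gr} {U U' : (Y.prod Γ).E → G}
    (h : ∀ e t, R.tree e = true → U (Sum.inl (e, t)) = U' (Sum.inl (e, t))) : gg R U = gg R U' := by
  have h0 : ∀ t, sl R U t = sl R U' t := by
    intro t
    funext e
    unfold sl
    split_ifs with he
    · exact h e t he
    · rfl
  refine funext fun (p : Y.V × Γ.V) => ?_
  change g1 R (sl R U p.2) p.1 = g1 R (sl R U' p.2) p.1
  rw [h0]

theorem gau_fixr {Y : Cx} (R : Rt Y) {Γ : Gr} (U : (Y.prod Γ).E → G) :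
    gau (gg R U) (fixr R.root U) = R.fix (gau (gg R U) U) := by
  funext e
  rcases e with ⟨e, t⟩ | ⟨v, ε⟩
  · by_cases he : R.tree e = true
    · have h1 : R.fixed (Γ := Γ) (Sum.inl (e, t)) = true := he
      unfold Rt.fix
      rw [if_pos h1]
      exact gg_tree R U e he t
    · have h1 : ¬ R.fixed (Γ := Γ) (Sum.inl (e, t)) = true := he
      unfold Rt.fix
      rw [if_neg h1]
      rfl
  · by_cases hv : v = R.root
    · subst hv
      have h1 : R.fixed (Γ := Γ) (Sum.inr (R.root, ε)) = true := decide_eq_true rfl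
      unfold Rt.fix
      rw [if_pos h1]
      change gg R U (R.root, Γ.src ε) * (if R.root = R.root then 1 else U (Sum.inr (R.root, ε))) *
        (gg R U (R.root, Γ.tgt ε))⁻¹ = 1
      rw [gg_root, gg_root, if_pos rfl]
      simp
    · have h1 : ¬ R.fixed (Γ := Γ) (Sum.inr (v, ε)) = true := by
        change ¬ decide (v = R.root) = true
        simpa using hv
      unfold Rt.fix
      rw [if_neg h1]
      change gg R U (v, Γ.src ε) * (if v = R.root then 1 else U (Sum.inr (v, ε))) *
        (gg R U (v, Γ.tgt ε))⁻¹ = gg R U (v, Γ.src ε) * U (Sum.inr (v, ε)) *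
        (gg R U (v, Γ.tgt ε))⁻¹
      rw [if_neg hv]

/-- the links of the tree -/
def tr {Y : Cx} (R : Rt Y) (Γ : Gr) : (Y.prod Γ).E → Prop :=
  Sum.elim (fun e => R.tree e.1 = true) (fun _ => False)

instance {Y : Cx} (R : Rt Y) (Γ : Gr) : DecidablePred (tr R Γ) := fun e => by
  rcases e with ⟨e, t⟩ | ⟨v, ε⟩
  · exact inferInstanceAs (Decidable (R.tree e = true))
  · exact inferInstanceAs (Decidable False)

theorem fix_congr {Y : Cx} (R : Rt Y) {Γ : Gr} {U U' : (Y.prod Γ).E → G}
    (h : ∀ e, ¬ tr R Γ e → U e = U' e) : R.fix U = R.fix U' := by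
  funext e
  unfold Rt.fix
  split_ifs with he
  · rfl
  · refine h e ?_
    rcases e with ⟨e, t⟩ | ⟨v, ε⟩
    · exact he
    · exact fun h => h

section meas

variable [TopologicalSpace G] [IsTopologicalGroup G]

theorem continuous_S {X : Cx} {we : G → ℝ} (hw : Continuous we) :
    Continuous (fun U : X.E → G => X.S we U) := by
  unfold Cx.S Cx.plq
  fun_prop

omit [IsTopologicalGroup G] in
theorem continuous_fixr {Y : Cx} {Γ : Gr} (ρ : Y.V) :
    Continuous (fun U : (Y.prod Γ).E → G => fixr ρ U) := by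
  refine continuous_pi fun e => ?_
  rcases e with ⟨e, t⟩ | ⟨v, ε⟩
  · exact continuous_apply _
  · change Continuous fun U : (Y.prod Γ).E → G => if v = ρ then (1 : G) else U (Sum.inr (v, ε))
    split_ifs
    · exact continuous_const
    · exact continuous_apply _

omit [IsTopologicalGroup G] in
theorem continuous_fix {Y : Cx} (R : Rt Y) {Γ : Gr} :
    Continuous (fun U : (Y.prod Γ).E → G => R.fix U) := by
  refine continuous_pi fun e => ?_
  unfold Rt.fix
  split_ifs
  · exact continuous_const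
  · exact continuous_apply _

variable [CompactSpace G] [SecondCountableTopology G] [MeasurableSpace G] [BorelSpace G]
  (μ : Measure G) [IsProbabilityMeasure μ]

/-- If the function on the configurations depends, up to translations of the links outside the
tree, only on the links outside the tree, then ... -/
theorem key [μ.IsMulLeftInvariant] [μ.IsMulRightInvariant] {ι : Type} [Fintype ι]
    (p : ι → Prop) [DecidablePred p] (f f' : (ι → G) → ℝ) (hf : Continuous f)
    (hf' : Continuous f')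
    (a b : (ι → G) → ι → G)
    (ha : ∀ U U', (∀ i, p i → U i = U' i) → a U = a U' ∧ b U = b U')
    (h1 : ∀ U, f U = f' (fun i => a U i * U i * b U i))
    (h2 : ∀ U U', (∀ i, ¬ p i → U i = U' i) → f' U = f' U') :
    ∫ U, f U ∂(Measure.pi fun _ : ι => μ) = ∫ U, f' U ∂(Measure.pi fun _ : ι => μ) := by
  classical
  have hint : ∀ F : (ι → G) → ℝ, Continuous F → Integrable F (Measure.pi fun _ : ι => μ) :=
    fun F hF => hF.integrable_of_hasCompactSupport (HasCompactSupport.of_compactSpace _)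
  have hp := measurePreserving_piEquivPiSubtypeProd (fun _ : ι => μ) p
  set E := MeasurableEquiv.piEquivPiSubtypeProd (fun _ : ι => G) p with hE
  have hred : ∀ F : (ι → G) → ℝ, Continuous F →
      ∫ U, F U ∂(Measure.pi fun _ : ι => μ) =
        ∫ x, ∫ y, F (E.symm (x, y)) ∂(Measure.pi fun _ : {i // ¬ p i} => μ)
          ∂(Measure.pi fun _ : Subtype p => μ) := by
    intro F hF
    have e1 := hp.integral_comp' (fun z => F (E.symm z))
    simp only [MeasurableEquiv.symm_apply_apply] at e1
    rw [e1, integral_prod]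
    exact (hp.symm.integrable_comp_emb E.symm.measurableEmbedding).2 (hint F hF)
  have hx : ∀ x y i (h : p i), E.symm (x, y) i = x ⟨i, h⟩ := by
    intro x y i h
    change (if h : p i then x ⟨i, h⟩ else y ⟨i, h⟩) = x ⟨i, h⟩
    rw [dif_pos h]
  have hy : ∀ x y i (h : ¬ p i), E.symm (x, y) i = y ⟨i, h⟩ := by
    intro x y i h
    change (if h : p i then x ⟨i, h⟩ else y ⟨i, h⟩) = y ⟨i, h⟩
    rw [dif_neg h]
  rw [hred f hf, hred f' hf']
  refine integral_congr_ae (Filter.Eventually.of_forall fun x => ?_)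
  change ∫ y, f (E.symm (x, y)) ∂(Measure.pi fun _ : {i // ¬ p i} => μ) =
    ∫ y, f' (E.symm (x, y)) ∂(Measure.pi fun _ : {i // ¬ p i} => μ)
  set A : {i // ¬ p i} → G := fun i => a (E.symm (x, 1)) i
  set B : {i // ¬ p i} → G := fun i => b (E.symm (x, 1)) i
  have e2 : ∀ y, f (E.symm (x, y)) = f' (E.symm (x, A * (y * B))) := by
    intro y
    rw [h1]
    refine h2 _ _ fun i hi => ?_
    have h3 := ha (E.symm (x, y)) (E.symm (x, 1)) (fun i hi => by rw [hx _ _ _ hi, hx _ _ _ hi])
    rw [hy _ _ _ hi, hy _ _ _ hi, h3.1, h3.2, mul_assoc]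
    rfl
  simp_rw [e2]
  have e3 := integral_mul_left_eq_self (μ := Measure.pi fun _ : {i // ¬ p i} => μ)
    (fun y => f' (E.symm (x, y * B))) A
  have e4 := integral_mul_right_eq_self (μ := Measure.pi fun _ : {i // ¬ p i} => μ)
    (fun y => f' (E.symm (x, y))) B
  simp only [mul_assoc] at e3
  rw [e3, e4]

end meas

theorem t_TREE : S_TREE := by
  intro G _ _ _ _ _ _ _ μ _ _ _ we hw hc Y R Γ β
  unfold Cx.Z1 Rt.Z
  refine key μ (tr R Γ) _ _ ?_ ?_ (fun U e => gg R U ((Y.prod Γ).src e))
    (fun U e => (gg R U ((Y.prod Γ).tgt e))⁻¹) ?_ ?_ ?_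
  · exact Real.continuous_exp.comp
      ((continuous_const.mul ((continuous_S hw).comp (continuous_fixr R.root))).neg)
  · exact Real.continuous_exp.comp
      ((continuous_const.mul ((continuous_S hw).comp (continuous_fix R))).neg)
  · intro U U' h
    have h' : gg R U = gg R U' := gg_congr R fun e t he => h (Sum.inl (e, t)) he
    simp only [h']
    exact ⟨trivial, trivial⟩
  · intro U
    change _ = Real.exp (-(β * (Y.prod Γ).S we (R.fix (gau (gg R U) U))))
    rw [← gau_fixr, S_gau hc]
  · intro U U' h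
    rw [fix_congr R h]

end

end Pool.Agent.N899.BB.Tree
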