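import Mathlib
import Pool.Agent.N899.BB.Asm3
import Pool.Agent.N899.BB.Iso
import Pool.Agent.N899.BB.Slg
import Pool.Agent.N899.BB.Sl
import Pool.Agent.N899.BB.Open
import Pool.Agent.N899.BB.Tb
import Pool.Agent.N899.BB.Tor
import Pool.Agent.N899.BB.Dia
import Pool.Agent.N899.BB.Tree
import Pool.Agent.N899.BB.Rt
import Pool.Agent.N899.BB.Sysr
import Pool.Agent.N899.BB.Mom
import Pool.Agent.N899.BB.Tay
import Pool.Agent.N899.BB.Ibp
import Pool.Agent.N899.BB.Hinv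
import Pool.Agent.N899.BB.Base
import Pool.Agent.N899.BB.Est
import Pool.Agent.N899.BB.Gauss
import Pool.Agent.N899.BB.Low
import Pool.Agent.N899.BB.Circ
import Pool.Agent.N899.BB.Alg
import Pool.Agent.N899.BB.Spec
import Pool.Agent.N899.BB.Det
import Pool.Agent.N899.BB.Riem
import Pool.Agent.N899.BB.Plat
import Pool.Agent.N899.BB.Seq3

/-!
# Black body radiation of gluons: the exact Stefan-Boltzmann law
-/

open MeasureTheory Matrix Filter Topology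
open scoped Matrix.Norms.Frobenius
open Pool.Agent.N899.SB Pool.Agent.Y14.Wilson

namespace Pool.Agent.N899.BB

theorem f_TB : S_TB := Tb.t_TB Iso.t_ISO Sl.t_KX (Sl.t_SL Slg.t_SLG) Open.t_OPEN

theorem f_EST : S_EST := Est.t_EST Mom.t_MOM Tay.t_TAY Ibp.t_IBP Hinv.t_HINV

theorem f_GAUSS : S_GAUSS := Gauss.t_GAUSS f_EST Hinv.t_HINV Base.t_BASE

theorem f_DET : S_DET := Det.t_DET (Alg.t_ALG Circ.t_CIRC) Spec.t_SPEC Det.t_PRODQ

/-- **the exact Stefan-Boltzmann law** -/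
theorem sb_law {N n : ℕ} {G : Subgroup (UU N)} (hG : IsClosed (G : Set (UU N)))
    [MeasurableSpace G] [BorelSpace G] (μ : Measure G) [IsProbabilityMeasure μ]
    [μ.IsHaarMeasure] (B : LieBasis G n) :
    ∃ (C : ℝ) (K : ℕ), 3 ≤ C ∧ 1 ≤ K ∧ ∀ β : ℝ, C ≤ β → ∀ (l : ℕ) [NeZero l], Even l → β ≤ l →
      ∃ P : ℝ, (∀ ε : ℝ, 0 < ε → ∃ t₀ : ℕ, ∀ (t : ℕ) [NeZero t], Even t → t₀ ≤ t →
        |Real.log (Thermo.partition 3 l t μ β) / (t * l ^ 3) - P| ≤ ε) ∧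
      ∀ (s : ℕ) [NeZero s], Even s → (s : ℝ) ^ K ≤ β →
        |Real.log (Thermo.partition 3 l s μ β) / (s * l ^ 3) - P - 2 * n * plat s| ≤
          C * β ^ (-(1 / K : ℝ)) :=
  Asm.sb_exact Tor.t_TOR f_TB (Dia.t_DIA Slg.t_SLG) Tree.t_TREE Rt1.t_RT Sysr.t_SYSR f_GAUSS
    Low.t_LOW f_DET Riem.t_RIEM Plat.t_PLAT Seq3.t_SEQ3 hG μ B

end Pool.Agent.N899.BB
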