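import Mathlib
import Pool.Agent.N899.SB.Stm

/-!
# Black body radiation of gluons: counting of the states
-/

open MeasureTheory Filter Topology
open Pool.Agent.N899.SB

namespace Pool.Agent.N899.BB

/-- The spectral decomposition of the operator with the kernel `k`: `lm j` are the eigenvalues
different from zero, `f j` orthonormal eigenfunctions. -/
structure SpD {Y : Type} [TopologicalSpace Y] [MeasurableSpace Y] (μ : Measure Y) (k : Y → Y → ℝ)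
    (ι : Type) (lm : ι → ℝ) (f : ι → Y → ℝ) : Prop where
  ne : ∀ j, lm j ≠ 0
  cont : ∀ j, Continuous (f j)
  norm : ∀ j, ∫ u, f j u ^ 2 ∂μ = 1
  orth : ∀ i j, i ≠ j → ∫ u, f i u * f j u ∂μ = 0
  eig : ∀ j u, ∫ v, k u v * f j v ∂μ = lm j * f j u
  tr : ∀ r : ℕ, HasSum (fun j => lm j ^ (2 * r + 2)) (trk μ k (2 * r + 1))
  pars : ∀ g : Y → ℝ, Continuous g →
    HasSum (fun j => (lm j * ∫ u, f j u * g u ∂μ) ^ 2) (∫ u, (∫ v, k u v * g v ∂μ) ^ 2 ∂μ)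

/-- Spectral theorem. -/
def S_HS : Prop := ∀ (Y : Type) [TopologicalSpace Y] [CompactSpace Y]
  [SecondCountableTopology Y] [MeasurableSpace Y] [BorelSpace Y] (μ : Measure Y)
  [IsProbabilityMeasure μ] (k : Y → Y → ℝ), Continuous (fun p : Y × Y => k p.1 p.2) →
  (∀ u v, 0 < k u v) → (∀ u v, k u v = k v u) → ∃ (ι : Type) (lm : ι → ℝ) (f : ι → Y → ℝ),
  SpD μ k ι lm f

/-- The largest eigenvalue. -/
def S_TOP : Prop := ∀ (Y : Type) [TopologicalSpace Y] [CompactSpace Y]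
  [SecondCountableTopology Y] [MeasurableSpace Y] [BorelSpace Y] (μ : Measure Y)
  [IsProbabilityMeasure μ] (k : Y → Y → ℝ), Continuous (fun p : Y × Y => k p.1 p.2) →
  (∀ u v, 0 < k u v) → (∀ u v, k u v = k v u) → ∀ (ι : Type) (lm : ι → ℝ) (f : ι → Y → ℝ),
  SpD μ k ι lm f → ∃ j₀, (∀ j, |lm j| ≤ |lm j₀|) ∧
    (∀ g : Y → ℝ, Continuous g →
      ∫ u, (∫ v, k u v * g v ∂μ) ^ 2 ∂μ ≤ lm j₀ ^ 2 * ∫ u, g u ^ 2 ∂μ) ∧
    Tendsto (fun r : ℕ => Real.log (trk μ k (2 * r + 1)) / (2 * r + 2)) atTop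
      (𝓝 (Real.log |lm j₀|))

/-- Min-max: the number of the eigenvalues of modulus at least `x`. -/
def S_MM : Prop := ∀ (Y : Type) [TopologicalSpace Y] [CompactSpace Y]
  [SecondCountableTopology Y] [MeasurableSpace Y] [BorelSpace Y] (μ : Measure Y)
  [IsProbabilityMeasure μ] [μ.IsOpenPosMeasure] (k : Y → Y → ℝ),
  Continuous (fun p : Y × Y => k p.1 p.2) →
  (∀ u v, 0 < k u v) → (∀ u v, k u v = k v u) → ∀ (ι : Type) (lm : ι → ℝ) (f : ι → Y → ℝ),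
  SpD μ k ι lm f → ∀ x : ℝ, 0 < x → ∃ J : Finset ι, (∀ j, j ∈ J ↔ x ≤ |lm j|) ∧
    (∃ V : Submodule ℝ (Y → ℝ), Module.Finite ℝ V ∧ Module.finrank ℝ V = J.card ∧
      ∀ g ∈ V, Continuous g ∧ x ^ 2 * ∫ u, g u ^ 2 ∂μ ≤ ∫ u, (∫ v, k u v * g v ∂μ) ^ 2 ∂μ) ∧
    ∀ V : Submodule ℝ (Y → ℝ), (∀ g ∈ V, Continuous g ∧
      x ^ 2 * ∫ u, g u ^ 2 ∂μ ≤ ∫ u, (∫ v, k u v * g v ∂μ) ^ 2 ∂μ) →
      Module.Finite ℝ V ∧ Module.finrank ℝ V ≤ J.card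

/-- From the canonical to the microcanonical ensemble: if `log ∑ exp (-s E j) = (c + o(1)) V s ^ (-3)`
then the number of the `j` with `E j ≤ e V` is `exp ((4 / 3 + o(1)) (3 c) ^ (1 / 4) e ^ (3 / 4) V)`. -/
def S_LD : Prop := ∀ c : ℝ, 0 < c → ∀ ε : ℝ, 0 < ε → ∃ (δ M : ℝ) (s₁ : ℕ), 0 < δ ∧ 1 ≤ M ∧
  ∀ (ι : Type) (E : ι → ℝ), (∀ j, 0 ≤ E j) → ∀ (V : ℝ), 0 < V → ∀ (Z : ℕ → ℝ) (s₂ : ℕ),
  (∀ s : ℕ, Even s → 2 ≤ s → HasSum (fun j => Real.exp (-(s * E j))) (Z s)) →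
  (∀ s : ℕ, Even s → s₁ ≤ s → s ≤ s₂ → |(s : ℝ) ^ 3 * Real.log (Z s) / V - c| ≤ δ) →
  ∀ e : ℝ, 0 < e → M ≤ V * e ^ (3 / 4 : ℝ) → M * s₁ ≤ e ^ (-(1 / 4) : ℝ) →
    M * e ^ (-(1 / 4) : ℝ) ≤ s₂ → ∀ J : Finset ι, (∀ j, j ∈ J ↔ E j ≤ e * V) →
    J.Nonempty ∧ |Real.log J.card / (V * e ^ (3 / 4 : ℝ)) - 4 / 3 * (3 * c) ^ (1 / 4 : ℝ)| ≤ ε

end Pool.Agent.N899.BB
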