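import Mathlib
import Pool.Agent.N899.BB.Stm3
import Pool.Agent.N899.SB.Kit

/-!
# Spectral theorem for a continuous symmetric kernel
-/

set_option autoImplicit false
set_option linter.unusedSectionVars false

open MeasureTheory Filter Topology
open Pool.Agent.N899.SB
open scoped ENNReal InnerProductSpace

namespace Pool.Agent.N899.BB.Hs

noncomputable section

section Abstract

variable {H : Type} [NormedAddCommGroup H] [InnerProductSpace ℝ H] [CompleteSpace H]

/-- operators with bounded Hilbert-Schmidt sums are compact -/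
theorem compact_of_hs {ι : Type*} (b : HilbertBasis ι ℝ H) (T : H →L[ℝ] H) (B : ℝ)
    (hB : ∀ s : Finset ι, ∑ i ∈ s, ‖T (b i)‖ ^ 2 ≤ B) : IsCompactOperator T := by
  have hs : Summable fun i => ‖T (b i)‖ ^ 2 :=
    summable_of_sum_le (fun i => sq_nonneg _) hB
  obtain ⟨S, hS⟩ : ∃ S, S = ∑' i, ‖T (b i)‖ ^ 2 := ⟨_, rfl⟩
  have hSum : HasSum (fun i => ‖T (b i)‖ ^ 2) S := by rw [hS]; exact hs.hasSum
  let F : Finset ι → H →L[ℝ] H := fun s => ∑ i ∈ s, (innerSL ℝ (b i)).smulRight (T (b i))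
  have hF : ∀ s f, F s f = ∑ i ∈ s, ⟪b i, f⟫_ℝ • T (b i) := by
    intro s f
    simp [F]
  have hFc : ∀ s, IsCompactOperator (F s) := by
    intro s
    have : F s ∈ compactOperator (RingHom.id ℝ) H H := by
      apply Submodule.sum_mem
      intro i _
      show IsCompactOperator _
      have h1 : IsCompactOperator (innerSL ℝ (b i) : H →L[ℝ] ℝ) :=
        isCompactOperator_of_locallyCompactSpace_dom _
      exact h1.clm_comp ((ContinuousLinearMap.id ℝ ℝ).smulRight (T (b i)))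
    exact this
  have key : ∀ s f, ‖T f - F s f‖ ≤ Real.sqrt (S - ∑ i ∈ s, ‖T (b i)‖ ^ 2) * ‖f‖ := by
    classical
    intro s f
    have h1 : HasSum (fun i => ⟪b i, f⟫_ℝ • T (b i)) (T f) := by
      have := (b.hasSum_repr f).mapL T
      simpa [b.repr_apply_apply] using this
    have h2 : Tendsto (fun t : Finset ι => ‖(∑ i ∈ t, ⟪b i, f⟫_ℝ • T (b i)) - F s f‖) atTop
        (𝓝 ‖T f - F s f‖) := (h1.sub_const _).norm
    refine le_of_tendsto h2 ?_
    filter_upwards [eventually_ge_atTop s] with t ht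
    rw [hF, ← Finset.sum_sdiff (show s ⊆ t from ht), add_sub_cancel_right]
    have h3 : ∑ i ∈ t \ s, ‖⟪b i, f⟫_ℝ‖ ^ 2 ≤ ‖f‖ ^ 2 := b.orthonormal.sum_inner_products_le f
    have h4 : ∑ i ∈ t \ s, ‖T (b i)‖ ^ 2 ≤ S - ∑ i ∈ s, ‖T (b i)‖ ^ 2 := by
      have := sum_le_hasSum t (fun i _ => sq_nonneg ‖T (b i)‖) hSum
      rw [← Finset.sum_sdiff (show s ⊆ t from ht)] at this
      linarith
    calc ‖∑ i ∈ t \ s, ⟪b i, f⟫_ℝ • T (b i)‖ ≤ ∑ i ∈ t \ s, ‖⟪b i, f⟫_ℝ‖ * ‖T (b i)‖ := by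
          refine (norm_sum_le _ _).trans (le_of_eq ?_)
          exact Finset.sum_congr rfl fun i _ => norm_smul _ _
      _ ≤ Real.sqrt (∑ i ∈ t \ s, ‖⟪b i, f⟫_ℝ‖ ^ 2) * Real.sqrt (∑ i ∈ t \ s, ‖T (b i)‖ ^ 2) :=
          Real.sum_mul_le_sqrt_mul_sqrt _ _ _
      _ ≤ ‖f‖ * Real.sqrt (S - ∑ i ∈ s, ‖T (b i)‖ ^ 2) := by
          apply mul_le_mul _ (Real.sqrt_le_sqrt h4) (Real.sqrt_nonneg _) (norm_nonneg _)
          rw [← Real.sqrt_sq (norm_nonneg f)]
          exact Real.sqrt_le_sqrt h3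
      _ = _ := mul_comm _ _
  have hlim : Tendsto F atTop (𝓝 T) := by
    rw [tendsto_iff_norm_sub_tendsto_zero]
    have h1 : ∀ s, ‖F s - T‖ ≤ Real.sqrt (S - ∑ i ∈ s, ‖T (b i)‖ ^ 2) := by
      intro s
      refine ContinuousLinearMap.opNorm_le_bound _ (Real.sqrt_nonneg _) fun f => ?_
      rw [show (F s - T) f = F s f - T f from rfl, norm_sub_rev]
      exact key s f
    have h2 : Tendsto (fun s : Finset ι => Real.sqrt (S - ∑ i ∈ s, ‖T (b i)‖ ^ 2)) atTop (𝓝 0) := by
      have h3 : Tendsto (fun s : Finset ι => S - ∑ i ∈ s, ‖T (b i)‖ ^ 2) atTop (𝓝 (S - S)) :=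
        tendsto_const_nhds.sub hSum
      rw [sub_self] at h3
      have := (Real.continuous_sqrt.tendsto 0).comp h3
      rwa [Real.sqrt_zero] at this
    exact squeeze_zero (fun _ => norm_nonneg _) h1 h2
  exact isCompactOperator_of_tendsto hlim (Eventually.of_forall hFc)

/-- a Hilbert basis of eigenvectors -/
theorem exists_basis (T : H →L[ℝ] H) (hT : IsCompactOperator T)
    (hs : (T : H →ₗ[ℝ] H).IsSymmetric) :
    ∃ (I : Type) (lm : I → ℝ) (b : HilbertBasis I ℝ H), ∀ i, T (b i) = lm i • b i := by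
  have hcl : ∀ x : ℝ, IsClosed ((Module.End.eigenspace (T : Module.End ℝ H) x : Submodule ℝ H) : Set H) := by
    intro x
    have : ((Module.End.eigenspace (T : Module.End ℝ H) x : Submodule ℝ H) : Set H) =
        {v | T v = x • v} := by
      ext v
      exact Module.End.mem_eigenspace_iff
    rw [this]
    exact isClosed_eq T.continuous (continuous_const_smul x)
  have hcs : ∀ x : ℝ, CompleteSpace (Module.End.eigenspace (T : Module.End ℝ H) x) := fun x =>
    (hcl x).isComplete.completeSpace_coe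
  have hb : ∀ x : ℝ, ∃ (w : Set (Module.End.eigenspace (T : Module.End ℝ H) x))
      (b : HilbertBasis w ℝ (Module.End.eigenspace (T : Module.End ℝ H) x)), ⇑b = ((↑) : w → _) :=
    fun x => exists_hilbertBasis ℝ _
  choose w b hb using hb
  have hon : Orthonormal ℝ (fun a : Σ x : ℝ, w x =>
      ((Module.End.eigenspace (T : Module.End ℝ H) a.1).subtypeₗᵢ (b a.1 a.2))) :=
    hs.orthogonalFamily_eigenspaces.orthonormal_sigma_orthonormal (fun x => (b x).orthonormal)
  have hsp : (Submodule.span ℝ (Set.range (fun a : Σ x : ℝ, w x =>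
      ((Module.End.eigenspace (T : Module.End ℝ H) a.1).subtypeₗᵢ (b a.1 a.2)))))ᗮ = ⊥ := by
    rw [eq_bot_iff]
    intro x hx
    rw [← ContinuousLinearMap.orthogonalComplement_iSup_eigenspaces_eq_bot hT hs,
      Submodule.mem_orthogonal]
    have h1 : ∀ (l : ℝ) (y : H), y ∈ Module.End.eigenspace (T : Module.End ℝ H) l → ⟪y, x⟫_ℝ = 0 := by
      intro l y hy
      have h2 := (b l).hasSum_repr ⟨y, hy⟩
      have h3 := (h2.mapL (Module.End.eigenspace (T : Module.End ℝ H) l).subtypeL).mapL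
        (innerSL ℝ x)
      have h4 : (fun i => (innerSL ℝ x) ((Module.End.eigenspace (T : Module.End ℝ H) l).subtypeL
          ((b l).repr ⟨y, hy⟩ i • b l i))) = fun _ => 0 := by
        funext i
        rw [map_smul, map_smul]
        have h5 : (innerSL ℝ x) ((Module.End.eigenspace (T : Module.End ℝ H) l).subtypeL (b l i))
            = 0 := by
          rw [Submodule.mem_orthogonal'] at hx
          exact hx _ (Submodule.subset_span ⟨⟨l, i⟩, rfl⟩)
        rw [h5, smul_zero]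
      rw [h4] at h3
      have h6 := h3.unique hasSum_zero
      rw [real_inner_comm]
      exact h6
    intro y hy
    have h7 : (⨆ l, Module.End.eigenspace (T : Module.End ℝ H) l) ≤ (Submodule.span ℝ {x})ᗮ := by
      refine iSup_le fun l y hy => ?_
      rw [Submodule.mem_orthogonal_singleton_iff_inner_left]
      exact h1 l y hy
    have h8 := h7 hy
    rwa [Submodule.mem_orthogonal_singleton_iff_inner_left] at h8
  refine ⟨Σ x : ℝ, w x, fun a => a.1, HilbertBasis.mkOfOrthogonalEqBot hon hsp, fun a => ?_⟩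
  rw [HilbertBasis.coe_mkOfOrthogonalEqBot]
  exact Module.End.mem_eigenspace_iff.1 (b a.1 a.2).2

theorem countable_of_orthonormal [TopologicalSpace.SeparableSpace H] {I : Type} {v : I → H}
    (hv : Orthonormal ℝ v) : Countable I := by
  have h1 : ∀ i, ∃ n : ℕ, dist (v i) (TopologicalSpace.denseSeq H n) < 1 / 2 := fun i =>
    (TopologicalSpace.denseRange_denseSeq H).exists_dist_lt (v i) (by norm_num)
  choose n hn using h1
  refine Function.Injective.countable (f := n) fun i j hij => ?_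
  by_contra hne
  have h2 : dist (v i) (v j) < 1 := by
    have h3 := dist_triangle_right (v i) (v j) (TopologicalSpace.denseSeq H (n i))
    have h4 := hn i
    have h5 := hn j
    rw [← hij] at h5
    linarith
  have h6 : ‖v i - v j‖ ^ 2 = 2 := by
    rw [norm_sub_sq_real, hv.1 i, hv.1 j, hv.2 hne]
    norm_num
  rw [dist_eq_norm] at h2
  nlinarith [norm_nonneg (v i - v j)]

end Abstract

section Kernel

variable {Y : Type} [TopologicalSpace Y] [CompactSpace Y] [SecondCountableTopology Y]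
  [MeasurableSpace Y] [BorelSpace Y] (μ : Measure Y) [IsProbabilityMeasure μ]

theorem memLp_cont {f : Y → ℝ} (hf : Continuous f) : MemLp f 2 μ := by
  obtain ⟨C, hC⟩ := Kit.bound_of_cont f hf
  exact MemLp.of_bound hf.aestronglyMeasurable C (Eventually.of_forall hC)

/-- the class of a continuous function -/
def cl (f : Y → ℝ) (hf : Continuous f) : Lp ℝ 2 μ := (memLp_cont μ hf).toLp

theorem cl_coe {f : Y → ℝ} (hf : Continuous f) : cl μ f hf =ᵐ[μ] f := (memLp_cont μ hf).coeFn_toLp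

theorem inner_cl {f : Y → ℝ} (hf : Continuous f) (g : Lp ℝ 2 μ) :
    ⟪cl μ f hf, g⟫_ℝ = ∫ u, f u * g u ∂μ := by
  rw [L2.inner_def]
  apply integral_congr_ae
  filter_upwards [cl_coe μ hf] with u hu
  rw [hu]
  simp only [RCLike.inner_apply, conj_trivial]
  ring

theorem inner_cl_cl {f g : Y → ℝ} (hf : Continuous f) (hg : Continuous g) :
    ⟪cl μ f hf, cl μ g hg⟫_ℝ = ∫ u, f u * g u ∂μ := by
  rw [inner_cl]
  apply integral_congr_ae
  filter_upwards [cl_coe μ hg] with u hu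
  rw [hu]

theorem norm_sq_cl {f : Y → ℝ} (hf : Continuous f) : ‖cl μ f hf‖ ^ 2 = ∫ u, f u ^ 2 ∂μ := by
  rw [← real_inner_self_eq_norm_sq, inner_cl_cl]
  simp only [pow_two]

theorem norm_cl_le {f : Y → ℝ} (hf : Continuous f) {C : ℝ} (hC : ∀ u, ‖f u‖ ≤ C) :
    ‖cl μ f hf‖ ≤ C := by
  have hne : Nonempty Y := by
    by_contra h
    rw [not_nonempty_iff] at h
    have h1 : μ Set.univ = 1 := measure_univ
    rw [Set.univ_eq_empty_iff.2 h, measure_empty] at h1
    exact zero_ne_one h1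
  have hC0 : 0 ≤ C := (norm_nonneg _).trans (hC hne.some)
  apply le_of_sq_le_sq _ hC0
  rw [norm_sq_cl]
  have h1 : ∫ _ : Y, C ^ 2 ∂μ = C ^ 2 := by simp
  rw [← h1]
  refine integral_mono (Kit.intble μ _ (hf.pow 2)) (integrable_const _) fun u => ?_
  show f u ^ 2 ≤ C ^ 2
  rw [← sq_abs]
  exact pow_le_pow_left₀ (abs_nonneg _) (hC u) 2

theorem lp_int (g : Lp ℝ 2 μ) : Integrable g μ := (Lp.memLp g).integrable (by norm_num)

variable {k : Y → Y → ℝ} (hk : Continuous (fun p : Y × Y => k p.1 p.2))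

include hk in
theorem cont_right (u : Y) : Continuous (k u) := hk.comp (Continuous.prodMk_right u)

include hk in
/-- the integral operator gives continuous functions -/
theorem A_cont (g : Lp ℝ 2 μ) : Continuous fun u => ∫ v, k u v * g v ∂μ := by
  obtain ⟨C, hC⟩ := Kit.bound_of_cont _ hk
  refine continuous_of_dominated (bound := fun v => C * ‖g v‖) (fun u => ?_) (fun u => ?_)
    ((lp_int μ g).norm.const_mul C) ?_
  · exact (cont_right hk u).aestronglyMeasurable.mul (Lp.aestronglyMeasurable g)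
  · refine Eventually.of_forall fun v => ?_
    rw [norm_mul]
    exact mul_le_mul_of_nonneg_right (hC (u, v)) (norm_nonneg _)
  · exact Eventually.of_forall fun v =>
      (hk.comp (Continuous.prodMk_left v)).mul continuous_const

theorem A_eq (g : Lp ℝ 2 μ) (u : Y) :
    ∫ v, k u v * g v ∂μ = ⟪cl μ (k u) (cont_right hk u), g⟫_ℝ := (inner_cl μ _ g).symm

/-- the operator on `L²` -/
def Tlin : Lp ℝ 2 μ →ₗ[ℝ] Lp ℝ 2 μ where
  toFun g := cl μ _ (A_cont μ hk g)
  map_add' f g := by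
    unfold cl
    rw [← MemLp.toLp_add]
    congr 1
    funext u
    rw [Pi.add_apply, A_eq μ hk, A_eq μ hk, A_eq μ hk, inner_add_right]
  map_smul' c f := by
    unfold cl
    rw [RingHom.id_apply, ← MemLp.toLp_const_smul]
    congr 1
    funext u
    rw [Pi.smul_apply, A_eq μ hk, A_eq μ hk, inner_smul_right, smul_eq_mul]

theorem Tlin_norm : ∃ C : ℝ, ∀ g : Lp ℝ 2 μ, ‖Tlin μ hk g‖ ≤ C * ‖g‖ := by
  obtain ⟨C, hC⟩ := Kit.bound_of_cont _ hk
  refine ⟨C, fun g => norm_cl_le μ (A_cont μ hk g) fun u => ?_⟩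
  rw [A_eq μ hk]
  exact (norm_inner_le_norm _ _).trans
    (mul_le_mul_of_nonneg_right (norm_cl_le μ _ fun v => hC (u, v)) (norm_nonneg _))

/-- the operator on `L²` -/
def T : Lp ℝ 2 μ →L[ℝ] Lp ℝ 2 μ :=
  (Tlin μ hk).mkContinuous _ (Tlin_norm μ hk).choose_spec

theorem T_apply (g : Lp ℝ 2 μ) : T μ hk g = cl μ _ (A_cont μ hk g) := rfl

theorem T_coe (g : Lp ℝ 2 μ) : T μ hk g =ᵐ[μ] fun u => ∫ v, k u v * g v ∂μ :=
  cl_coe μ (A_cont μ hk g)

/-- Fubini -/
theorem fub (c : Y → Y → ℝ) (hc : Continuous (fun p : Y × Y => c p.1 p.2)) (f g : Lp ℝ 2 μ) :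
    ∫ u, ∫ v, c u v * (f u * g v) ∂μ ∂μ = ∫ v, ∫ u, c u v * (f u * g v) ∂μ ∂μ := by
  obtain ⟨C, hC⟩ := Kit.bound_of_cont _ hc
  apply integral_integral_swap
  have h1 : Integrable (fun p : Y × Y => f p.1 * g p.2) (μ.prod μ) :=
    (lp_int μ f).mul_prod (lp_int μ g)
  exact h1.bdd_mul (c := C) hc.aestronglyMeasurable (Eventually.of_forall hC)

theorem T_symm (hs : ∀ u v, k u v = k v u) :
    (T μ hk : Lp ℝ 2 μ →ₗ[ℝ] Lp ℝ 2 μ).IsSymmetric := by
  intro f g
  show ⟪T μ hk f, g⟫_ℝ = ⟪f, T μ hk g⟫_ℝ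
  rw [real_inner_comm (T μ hk g) f, T_apply, T_apply, inner_cl, inner_cl]
  have e1 : ∀ u, (∫ v, k u v * f v ∂μ) * g u = ∫ v, k u v * (g u * f v) ∂μ := by
    intro u
    rw [← integral_mul_const]
    congr 1
    funext v
    ring
  have e2 : ∀ u, (∫ v, k u v * g v ∂μ) * f u = ∫ v, k v u * (g v * f u) ∂μ := by
    intro u
    rw [← integral_mul_const]
    congr 1
    funext v
    rw [hs u v]
    ring
  simp only [e1, e2]
  exact fub μ k hk g f

theorem T_compact : IsCompactOperator (T μ hk) := by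
  obtain ⟨C, hC⟩ := Kit.bound_of_cont _ hk
  obtain ⟨w, b, -⟩ := exists_hilbertBasis ℝ (Lp ℝ 2 μ)
  refine compact_of_hs b _ (C ^ 2) fun s => ?_
  have hint : ∀ f : Lp ℝ 2 μ, Integrable (fun u => (∫ v, k u v * f v ∂μ) ^ 2) μ := fun f =>
    Kit.intble μ _ ((A_cont μ hk f).pow 2)
  have h0 : ∀ i, ‖T μ hk (b i)‖ ^ 2 = ∫ u, (∫ v, k u v * b i v ∂μ) ^ 2 ∂μ := fun i => by
    rw [T_apply, norm_sq_cl]
  simp_rw [h0]
  rw [← integral_finsetSum _ (fun i _ => hint _)]
  have h1 : ∀ u, ∑ i ∈ s, (∫ v, k u v * b i v ∂μ) ^ 2 ≤ C ^ 2 := by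
    intro u
    have h2 : ∑ i ∈ s, ‖⟪b i, cl μ (k u) (cont_right hk u)⟫_ℝ‖ ^ 2 ≤
        ‖cl μ (k u) (cont_right hk u)‖ ^ 2 := b.orthonormal.sum_inner_products_le _
    have h3 : ∑ i ∈ s, (∫ v, k u v * b i v ∂μ) ^ 2 =
        ∑ i ∈ s, ‖⟪b i, cl μ (k u) (cont_right hk u)⟫_ℝ‖ ^ 2 := by
      refine Finset.sum_congr rfl fun i _ => ?_
      rw [A_eq μ hk, real_inner_comm, Real.norm_eq_abs, sq_abs]
    rw [h3]
    exact h2.trans (pow_le_pow_left₀ (norm_nonneg _) (norm_cl_le μ _ fun v => hC (u, v)) 2)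
  have h4 : ∫ _ : Y, C ^ 2 ∂μ = C ^ 2 := by simp
  rw [← h4]
  exact integral_mono (integrable_finsetSum _ fun i _ => hint _) (integrable_const _) h1

/-- the iterated kernels on the eigenfunctions -/
theorem kit_eig {F : Lp ℝ 2 μ} {l : ℝ} (hF : T μ hk F = l • F) (r : ℕ) :
    (fun u => ∫ v, kit μ k r u v * F v ∂μ) =ᵐ[μ] fun u => l ^ (r + 1) * F u := by
  have h0 : (fun u => ∫ v, k u v * F v ∂μ) =ᵐ[μ] fun u => l * F u := by
    have h1 := T_coe μ hk F
    rw [hF] at h1
    filter_upwards [h1, Lp.coeFn_smul l F] with u h2 h3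
    rw [← h2, h3, Pi.smul_apply, smul_eq_mul]
  induction r with
  | zero =>
    simp only [zero_add, pow_one]
    exact h0
  | succ r ih =>
    have h1 : ∀ u, ∫ v, kit μ k (r + 1) u v * F v ∂μ =
        ∫ w, k u w * (∫ v, kit μ k r w v * F v ∂μ) ∂μ := by
      intro u
      have e1 : ∀ v, kit μ k (r + 1) u v * F v = ∫ w, k u w * kit μ k r w v * F v ∂μ := by
        intro v
        rw [integral_mul_const]
        rfl
      have e2 : ∀ w, k u w * (∫ v, kit μ k r w v * F v ∂μ) =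
          ∫ v, k u w * kit μ k r w v * F v ∂μ := by
        intro w
        rw [← integral_const_mul]
        congr 1
        funext v
        ring
      simp only [e1, e2]
      have hc : Continuous fun p : Y × Y => k u p.2 * kit μ k r p.2 p.1 :=
        ((cont_right hk u).comp continuous_snd).mul
          (Kit.kit_cont' μ hk r continuous_snd continuous_fst)
      obtain ⟨C, hC⟩ := Kit.bound_of_cont _ hc
      refine integral_integral_swap (f := fun v w => k u w * kit μ k r w v * F v) ?_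
      have h1 : Integrable (fun p : Y × Y => F p.1 * (1 : ℝ)) (μ.prod μ) :=
        (lp_int μ F).mul_prod (integrable_const (1 : ℝ))
      simp only [mul_one] at h1
      exact h1.bdd_mul (c := C) hc.aestronglyMeasurable (Eventually.of_forall hC)
    filter_upwards [h0] with u hu
    rw [h1 u]
    have h2 : ∫ w, k u w * (∫ v, kit μ k r w v * F v ∂μ) ∂μ =
        ∫ w, k u w * (l ^ (r + 1) * F w) ∂μ := by
      apply integral_congr_ae
      filter_upwards [ih] with w hw
      rw [hw]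
    have h3 : ∫ w, k u w * (l ^ (r + 1) * F w) ∂μ = l ^ (r + 1) * ∫ w, k u w * F w ∂μ := by
      rw [← integral_const_mul]
      congr 1
      funext w
      ring
    rw [h2, h3, hu]
    ring

end Kernel

theorem t_HS : S_HS := by
  intro Y _ _ _ _ _ μ _ k hk hp hs
  obtain ⟨I, lm, b, hb⟩ := exists_basis (T μ hk) (T_compact μ hk) (T_symm μ hk hs)
  have hbn : ∀ i, ‖b i‖ = 1 := b.orthonormal.1
  have hbo : ∀ i j, i ≠ j → ⟪b i, b j⟫_ℝ = 0 := fun i j h => b.orthonormal.2 h
  have hf : ∀ j : {i // lm i ≠ 0}, Continuous fun u => (lm j)⁻¹ * ∫ v, k u v * b j v ∂μ :=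
    fun j => continuous_const.mul (A_cont μ hk (b j))
  have hbf : ∀ j : {i // lm i ≠ 0}, cl μ _ (hf j) = b j := by
    intro j
    apply Lp.ext
    have h1 := T_coe μ hk (b j)
    rw [hb] at h1
    filter_upwards [cl_coe μ (hf j), h1, Lp.coeFn_smul (lm j) (b j)] with u h2 h3 h4
    rw [h2, ← h3, h4, Pi.smul_apply, smul_eq_mul, inv_mul_cancel_left₀ j.2]
  have hae : ∀ j : {i // lm i ≠ 0}, b j =ᵐ[μ] fun u => (lm j)⁻¹ * ∫ v, k u v * b j v ∂μ := by
    intro j
    have h := cl_coe μ (hf j)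
    rwa [hbf j] at h
  refine ⟨{i // lm i ≠ 0}, fun j => lm j, fun j u => (lm j)⁻¹ * ∫ v, k u v * b j v ∂μ, ?_⟩
  refine ⟨fun j => j.2, hf, fun j => ?_, fun i j hij => ?_, fun j u => ?_, fun r => ?_,
    fun g hg => ?_⟩
  · rw [← norm_sq_cl μ (hf j), hbf, hbn, one_pow]
  · rw [← inner_cl_cl μ (hf i) (hf j), hbf, hbf]
    exact hbo _ _ fun h => hij (Subtype.ext h)
  · rw [mul_inv_cancel_left₀ j.2]
    apply integral_congr_ae
    filter_upwards [hae j] with v hv
    rw [← hv]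
  · -- traces
    haveI h2 : Fact ((2 : ℝ≥0∞) ≠ ∞) := ⟨by norm_num⟩
    have hcI : Countable I := countable_of_orthonormal b.orthonormal
    have hkc : ∀ u, Continuous (kit μ k r u) := fun u => cont_right (Kit.kit_cont μ hk r) u
    have htr : trk μ k (2 * r + 1) = ∫ u, ‖cl μ (kit μ k r u) (hkc u)‖ ^ 2 ∂μ := by
      have e : 2 * r + 1 = r + r + 1 := by omega
      rw [e, Kit.trk_eq μ hk hs r r]
      congr 1
      funext u
      rw [norm_sq_cl]
      simp only [pow_two]
    have hnc : Continuous fun u => ‖cl μ (kit μ k r u) (hkc u)‖ ^ 2 := by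
      have e : (fun u => ‖cl μ (kit μ k r u) (hkc u)‖ ^ 2) =
          fun u => ∫ v, kit μ k r u v ^ 2 ∂μ := by
        funext u
        rw [norm_sq_cl]
      rw [e]
      exact Kit.cont_int μ (fun u v => kit μ k r u v ^ 2) ((Kit.kit_cont μ hk r).pow 2)
    have hFc : ∀ i, Continuous fun u => (∫ v, kit μ k r u v * b i v ∂μ) ^ 2 := fun i =>
      (A_cont μ (Kit.kit_cont μ hk r) (b i)).pow 2
    have hFi : ∀ i, ∫ u, (∫ v, kit μ k r u v * b i v ∂μ) ^ 2 ∂μ = lm i ^ (2 * r + 2) := by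
      intro i
      have h1 : ∫ u, (∫ v, kit μ k r u v * b i v ∂μ) ^ 2 ∂μ =
          ∫ u, lm i ^ (2 * r + 2) * (b i u * b i u) ∂μ := by
        apply integral_congr_ae
        filter_upwards [kit_eig μ hk (hb i) r] with u hu
        rw [hu]
        ring
      rw [h1, integral_const_mul]
      have h2 : ∫ u, b i u * b i u ∂μ = ⟪b i, b i⟫_ℝ := by
        rw [L2.inner_def]
        simp only [RCLike.inner_apply, conj_trivial]
      rw [h2, real_inner_self_eq_norm_sq, hbn]
      ring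
    have hpar : ∀ u, HasSum (fun i => (∫ v, kit μ k r u v * b i v ∂μ) ^ 2)
        (‖cl μ (kit μ k r u) (hkc u)‖ ^ 2) := by
      intro u
      have h1 := b.hasSum_inner_mul_inner (cl μ (kit μ k r u) (hkc u)) (cl μ (kit μ k r u) (hkc u))
      rw [real_inner_self_eq_norm_sq] at h1
      refine h1.congr_fun ?_ |> fun h => h
      intro i
      rw [real_inner_comm (cl μ (kit μ k r u) (hkc u)) (b i), ← inner_cl μ (hkc u) (b i)]
      ring
    have hsum : Summable fun i => ∫ u, ‖(∫ v, kit μ k r u v * b i v ∂μ) ^ 2‖ ∂μ := by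
      refine summable_of_sum_le (c := trk μ k (2 * r + 1))
        (fun i => integral_nonneg fun u => norm_nonneg _) fun s => ?_
      rw [← integral_finsetSum _ (fun i _ => (Kit.intble μ _ (hFc i)).norm), htr]
      refine integral_mono (integrable_finsetSum _ fun i _ => (Kit.intble μ _ (hFc i)).norm)
        (Kit.intble μ _ hnc) fun u => ?_
      show ∑ i ∈ s, ‖(∫ v, kit μ k r u v * b i v ∂μ) ^ 2‖ ≤ ‖cl μ (kit μ k r u) (hkc u)‖ ^ 2
      have h2 := sum_le_hasSum s (fun i _ => sq_nonneg _) (hpar u)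
      refine le_trans (le_of_eq ?_) h2
      refine Finset.sum_congr rfl fun i _ => ?_
      rw [Real.norm_eq_abs, abs_of_nonneg (sq_nonneg _)]
    have hH := hasSum_integral_of_summable_integral_norm
      (fun i => Kit.intble μ _ (hFc i)) hsum
    have hts : ∀ u, ∑' i, (∫ v, kit μ k r u v * b i v ∂μ) ^ 2 =
        ‖cl μ (kit μ k r u) (hkc u)‖ ^ 2 := fun u => (hpar u).tsum_eq
    simp only [hts, hFi] at hH
    rw [← htr] at hH
    have hsupp : Function.support (fun i => lm i ^ (2 * r + 2)) ⊆ {i | lm i ≠ 0} := by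
      intro i hi h0
      apply hi
      show lm i ^ (2 * r + 2) = 0
      rw [h0, zero_pow (by omega)]
    exact (hasSum_subtype_iff_of_support_subset hsupp).2 hH
  · -- Parseval
    have h1 := b.hasSum_inner_mul_inner (T μ hk (cl μ g hg)) (T μ hk (cl μ g hg))
    rw [real_inner_self_eq_norm_sq] at h1
    have h2 : ‖T μ hk (cl μ g hg)‖ ^ 2 = ∫ u, (∫ v, k u v * g v ∂μ) ^ 2 ∂μ := by
      rw [T_apply, norm_sq_cl]
      congr 1
      funext u
      congr 1
      apply integral_congr_ae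
      filter_upwards [cl_coe μ hg] with v hv
      rw [hv]
    rw [h2] at h1
    have h3 : ∀ i, ⟪b i, T μ hk (cl μ g hg)⟫_ℝ = lm i * ⟪b i, cl μ g hg⟫_ℝ := by
      intro i
      have h4 : ⟪T μ hk (b i), cl μ g hg⟫_ℝ = ⟪b i, T μ hk (cl μ g hg)⟫_ℝ :=
        T_symm μ hk hs (b i) (cl μ g hg)
      rw [← h4, hb, inner_smul_left]
      rfl
    have h5 : (fun i => ⟪T μ hk (cl μ g hg), b i⟫_ℝ * ⟪b i, T μ hk (cl μ g hg)⟫_ℝ) =
        fun i => (lm i * ⟪b i, cl μ g hg⟫_ℝ) ^ 2 := by
      funext i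
      rw [real_inner_comm (b i) (T μ hk (cl μ g hg)), h3]
      ring
    rw [h5] at h1
    have hsupp : Function.support (fun i => (lm i * ⟪b i, cl μ g hg⟫_ℝ) ^ 2) ⊆
        {i | lm i ≠ 0} := by
      intro i hi h0
      apply hi
      show (lm i * ⟪b i, cl μ g hg⟫_ℝ) ^ 2 = 0
      rw [h0, zero_mul, zero_pow (by omega)]
    have h6 := (hasSum_subtype_iff_of_support_subset hsupp).2 h1
    refine h6.congr_fun ?_ |> fun h => h
    intro j
    show (lm j * ∫ u, (lm j)⁻¹ * (∫ v, k u v * b j v ∂μ) * g u ∂μ) ^ 2 =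
      (lm j * ⟪b j, cl μ g hg⟫_ℝ) ^ 2
    rw [← inner_cl_cl μ (hf j) hg, hbf]

end

end Pool.Agent.N899.BB.Hs
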