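import Pool.Agent.N899.BB.Stm3

/-!
# Min-max principle for the number of the large eigenvalues
-/

open MeasureTheory Filter Topology
open Pool.Agent.N899.SB

set_option autoImplicit false
set_option linter.unusedSectionVars false

namespace Pool.Agent.N899.BB.Mm

variable {Y : Type} [TopologicalSpace Y] [CompactSpace Y] [SecondCountableTopology Y]
  [MeasurableSpace Y] [BorelSpace Y] {μ : Measure Y} [IsProbabilityMeasure μ]
  {k : Y → Y → ℝ} {ι : Type} {lm : ι → ℝ} {f : ι → Y → ℝ}

omit [SecondCountableTopology Y] in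
theorem ci {g : Y → ℝ} (hg : Continuous g) : Integrable g μ :=
  hg.integrable_of_hasCompactSupport (HasCompactSupport.of_compactSpace g)

/-- Finite linear combinations. -/
def cb (f : ι → Y → ℝ) (s : Finset ι) (a : ι → ℝ) (u : Y) : ℝ := ∑ j ∈ s, a j * f j u

omit [CompactSpace Y] [SecondCountableTopology Y] [MeasurableSpace Y] [BorelSpace Y] in
theorem cb_cont (hf : ∀ j, Continuous (f j)) (s : Finset ι) (a : ι → ℝ) :
    Continuous (cb f s a) :=
  continuous_finsetSum _ fun j _ => continuous_const.mul (hf j)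

omit [SecondCountableTopology Y] in
theorem int_cb (hf : ∀ j, Continuous (f j)) {g : Y → ℝ} (hg : Continuous g) (s : Finset ι)
    (a : ι → ℝ) :
    ∫ u, cb f s a u * g u ∂μ = ∑ j ∈ s, a j * ∫ u, f j u * g u ∂μ := by
  have h1 : ∀ u, cb f s a u * g u = ∑ j ∈ s, a j * (f j u * g u) := fun u => by
    rw [cb, Finset.sum_mul]
    exact Finset.sum_congr rfl fun j _ => by ring
  simp only [h1]
  have i1 : ∀ j, Integrable (fun u => a j * (f j u * g u)) μ := fun j =>
    (ci ((hf j).mul hg)).const_mul (a j)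
  rw [integral_finsetSum s fun j _ => i1 j]
  exact Finset.sum_congr rfl fun j _ => integral_const_mul _ _

open Classical in
theorem coef (h : SpD μ k ι lm f) (s : Finset ι) (a : ι → ℝ) (i : ι) :
    ∫ u, f i u * cb f s a u ∂μ = Finset.sum s fun j => if j = i then a j else 0 := by
  have h1 : ∀ u, f i u * cb f s a u = cb f s a u * f i u := fun u => mul_comm _ _
  simp only [h1]
  rw [int_cb h.cont (h.cont i)]
  refine Finset.sum_congr rfl fun j _ => ?_
  split_ifs with hj
  · subst hj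
    have := h.norm j
    have h2 : ∀ u, f j u * f j u = f j u ^ 2 := fun u => (sq _).symm
    simp only [h2]
    rw [this, mul_one]
  · rw [h.orth j i hj, mul_zero]

theorem coef_mem (h : SpD μ k ι lm f) {s : Finset ι} (a : ι → ℝ) {i : ι} (hi : i ∈ s) :
    ∫ u, f i u * cb f s a u ∂μ = a i := by
  classical
  rw [coef h, Finset.sum_eq_single i]
  · simp
  · intro j _ hj
    rw [if_neg hj]
  · intro h'
    exact absurd hi h'

theorem sq_cb (h : SpD μ k ι lm f) (s : Finset ι) (a : ι → ℝ) :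
    ∫ u, cb f s a u ^ 2 ∂μ = ∑ j ∈ s, a j ^ 2 := by
  have h1 : ∀ u, cb f s a u ^ 2 = cb f s a u * cb f s a u := fun u => sq _
  simp only [h1]
  rw [int_cb h.cont (cb_cont h.cont s a)]
  refine Finset.sum_congr rfl fun j hj => ?_
  rw [coef_mem h a hj]
  ring

theorem T_cb (hk : Continuous (fun p : Y × Y => k p.1 p.2)) (h : SpD μ k ι lm f) (s : Finset ι)
    (a : ι → ℝ) (u : Y) :
    ∫ v, k u v * cb f s a v ∂μ = cb f s (fun j => lm j * a j) u := by
  have hku : Continuous (k u) := hk.comp (Continuous.prodMk_right u)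
  have h1 : ∀ v, k u v * cb f s a v = cb f s a v * k u v := fun v => mul_comm _ _
  simp only [h1]
  rw [int_cb h.cont hku, cb]
  refine Finset.sum_congr rfl fun j _ => ?_
  have h2 := h.eig j u
  have h3 : ∀ v, f j v * k u v = k u v * f j v := fun v => mul_comm _ _
  simp only [h3]
  rw [h2]
  ring

/-- Bessel's inequality. -/
theorem bessel (h : SpD μ k ι lm f) {g : Y → ℝ} (hg : Continuous g) (s : Finset ι) :
    ∑ j ∈ s, (∫ u, f j u * g u ∂μ) ^ 2 ≤ ∫ u, g u ^ 2 ∂μ := by
  set c : ι → ℝ := fun j => ∫ u, f j u * g u ∂μ with hc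
  have h0 : 0 ≤ ∫ u, (g u - cb f s c u) ^ 2 ∂μ := integral_nonneg fun u => sq_nonneg _
  have hcc := cb_cont h.cont s c
  have h1 : ∀ u, (g u - cb f s c u) ^ 2 = g u ^ 2 - 2 * (cb f s c u * g u) + cb f s c u ^ 2 :=
    fun u => by ring
  simp only [h1] at h0
  have i1 : Integrable (fun u => g u ^ 2) μ := ci (hg.pow 2)
  have i2 : Integrable (fun u => 2 * (cb f s c u * g u)) μ := (ci (hcc.mul hg)).const_mul 2
  have i3 : Integrable (fun u => cb f s c u ^ 2) μ := ci (hcc.pow 2)
  have i4 : Integrable (fun u => g u ^ 2 - 2 * (cb f s c u * g u)) μ := i1.sub i2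
  rw [integral_add i4 i3, integral_sub i1 i2, integral_const_mul,
    int_cb h.cont hg, sq_cb h] at h0
  have h2 : ∑ j ∈ s, c j * ∫ u, f j u * g u ∂μ = ∑ j ∈ s, c j ^ 2 :=
    Finset.sum_congr rfl fun j _ => by rw [sq]
  rw [h2] at h0
  linarith

/-- A function which is orthogonal to the first eigenfunctions. -/
theorem ker [μ.IsOpenPosMeasure] (h : SpD μ k ι lm f) {x : ℝ} (hx : 0 < x) {J : Finset ι}
    (hJ : ∀ j, j ∈ J ↔ x ≤ |lm j|) {g : Y → ℝ} (hg : Continuous g)
    (hle : x ^ 2 * ∫ u, g u ^ 2 ∂μ ≤ ∫ u, (∫ v, k u v * g v ∂μ) ^ 2 ∂μ)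
    (h0 : ∀ j ∈ J, ∫ u, f j u * g u ∂μ = 0) : g = 0 := by
  have hp := h.pars g hg
  set c : ι → ℝ := fun j => ∫ u, f j u * g u ∂μ with hc
  have hcs : Summable fun j => c j ^ 2 :=
    summable_of_sum_le (fun _ => sq_nonneg _) fun s => bessel h hg s
  have hct : ∑' j, c j ^ 2 ≤ ∫ u, g u ^ 2 ∂μ :=
    hcs.tsum_le_of_sum_le fun s => bessel h hg s
  have h1 : ∀ j, 0 ≤ x ^ 2 * c j ^ 2 - (lm j * c j) ^ 2 := by
    intro j
    by_cases hj : j ∈ J
    · rw [show c j = 0 from h0 j hj]
      simp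
    · have h2 : |lm j| < x := not_le.1 fun h' => hj ((hJ j).2 h')
      have h3 : lm j ^ 2 ≤ x ^ 2 := by
        rw [← sq_abs (lm j)]
        exact pow_le_pow_left₀ (abs_nonneg _) h2.le 2
      have h4 : (lm j * c j) ^ 2 = lm j ^ 2 * c j ^ 2 := by ring
      rw [h4]
      nlinarith [sq_nonneg (c j)]
  have h2 : HasSum (fun j => x ^ 2 * c j ^ 2 - (lm j * c j) ^ 2)
      (x ^ 2 * ∑' j, c j ^ 2 - ∫ u, (∫ v, k u v * g v ∂μ) ^ 2 ∂μ) :=
    (hcs.hasSum.mul_left _).sub hp
  have h3 : x ^ 2 * ∑' j, c j ^ 2 - ∫ u, (∫ v, k u v * g v ∂μ) ^ 2 ∂μ ≤ 0 := by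
    have : x ^ 2 * ∑' j, c j ^ 2 ≤ x ^ 2 * ∫ u, g u ^ 2 ∂μ := by gcongr
    linarith
  have h4 : x ^ 2 * ∑' j, c j ^ 2 - ∫ u, (∫ v, k u v * g v ∂μ) ^ 2 ∂μ = 0 :=
    le_antisymm h3 (h2.nonneg h1)
  rw [h4] at h2
  have h5 : ∀ j, x ^ 2 * c j ^ 2 - (lm j * c j) ^ 2 = 0 := by
    have := (hasSum_zero_iff_of_nonneg h1).1 h2
    exact fun j => congrFun this j
  have h6 : ∀ j, c j = 0 := by
    intro j
    by_cases hj : j ∈ J
    · exact h0 j hj
    · have h7 : |lm j| < x := not_le.1 fun h' => hj ((hJ j).2 h')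
      have h8 : lm j ^ 2 < x ^ 2 := by
        rw [← sq_abs (lm j)]
        exact pow_lt_pow_left₀ h7 (abs_nonneg _) (by norm_num)
      have h9 : (x ^ 2 - lm j ^ 2) * c j ^ 2 = 0 := by
        have := h5 j
        linarith
      rcases mul_eq_zero.1 h9 with h10 | h10
      · linarith
      · exact pow_eq_zero_iff (two_ne_zero) |>.1 h10
  have h7 : ∫ u, (∫ v, k u v * g v ∂μ) ^ 2 ∂μ = 0 := by
    refine hp.unique ?_
    have h7 : (fun j => (lm j * ∫ u, f j u * g u ∂μ) ^ 2) = fun _ => (0 : ℝ) := by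
      funext j
      rw [show ∫ u, f j u * g u ∂μ = 0 from h6 j]
      ring
    rw [h7]
    exact hasSum_zero
  rw [h7] at hle
  have h8 : 0 ≤ ∫ u, g u ^ 2 ∂μ := integral_nonneg fun u => sq_nonneg _
  have h9 : ∫ u, g u ^ 2 ∂μ = 0 := by
    have : 0 < x ^ 2 := by positivity
    by_contra hne
    have : 0 < ∫ u, g u ^ 2 ∂μ := lt_of_le_of_ne h8 (Ne.symm hne)
    have : 0 < x ^ 2 * ∫ u, g u ^ 2 ∂μ := by positivity
    linarith
  have h10 := (integral_eq_zero_iff_of_nonneg (fun u => sq_nonneg (g u)) (ci (hg.pow 2))).1 h9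
  have h11 : g =ᵐ[μ] (0 : Y → ℝ) := by
    filter_upwards [h10] with u hu
    have hu' : g u ^ 2 = 0 := hu
    simpa using hu'
  exact (Continuous.ae_eq_iff_eq μ hg continuous_const).1 h11




/-- Min-max principle. -/
theorem t_MM : S_MM := by
  classical
  intro Y _ _ _ _ _ μ _ _ k hk _ _ ι lm f h x hx
  have hs := (h.tr 0).summable.tendsto_cofinite_zero
  have hfin : {j | x ≤ |lm j|}.Finite := by
    have h1 : ∀ᶠ j in cofinite, lm j ^ (2 * 0 + 2) < x ^ 2 :=
      hs.eventually (gt_mem_nhds (by positivity))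
    refine (Filter.eventually_cofinite.1 h1).subset fun j hj => ?_
    have hj' : x ≤ |lm j| := hj
    show ¬ (lm j ^ (2 * 0 + 2) < x ^ 2)
    rw [not_lt, show 2 * 0 + 2 = 2 from rfl, ← sq_abs (lm j)]
    exact pow_le_pow_left₀ hx.le hj' 2
  refine ⟨hfin.toFinset, by simp, ?_, ?_⟩
  · set J := hfin.toFinset with hJ
    have hli : LinearIndependent ℝ (fun j : J => f j) := by
      rw [Fintype.linearIndependent_iff]
      intro a ha i
      set a' : ι → ℝ := fun j => if hj : j ∈ J then a ⟨j, hj⟩ else 0 with ha'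
      have h1 : ∀ u, cb f J a' u = 0 := by
        intro u
        have h2 := congrFun ha u
        rw [Finset.sum_apply] at h2
        rw [cb, ← Finset.sum_coe_sort]
        refine Eq.trans (Finset.sum_congr rfl fun j _ => ?_) h2
        simp [ha']
      have h2 := coef_mem h a' i.2
      simp only [h1, mul_zero, integral_zero] at h2
      simpa [ha'] using h2.symm
    refine ⟨Submodule.span ℝ (Set.range fun j : J => f j),
      Module.Finite.span_of_finite ℝ (Set.finite_range _), ?_, ?_⟩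
    · rw [finrank_span_eq_card hli]
      simp
    · intro g hg
      obtain ⟨a, rfl⟩ := (Submodule.mem_span_range_iff_exists_fun ℝ).1 hg
      set a' : ι → ℝ := fun j => if hj : j ∈ J then a ⟨j, hj⟩ else 0 with ha'
      have h1 : (∑ i : J, a i • f i) = cb f J a' := by
        funext u
        rw [Finset.sum_apply, cb, ← Finset.sum_coe_sort J]
        refine Finset.sum_congr rfl fun j _ => ?_
        simp [ha']
      rw [h1]
      refine ⟨cb_cont h.cont J a', ?_⟩
      simp only [T_cb hk h]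
      rw [sq_cb h, sq_cb h, Finset.mul_sum]
      refine Finset.sum_le_sum fun j hj => ?_
      have h2 : x ≤ |lm j| := by simpa [hJ] using hj
      have h3 : x ^ 2 ≤ lm j ^ 2 := by
        rw [← sq_abs (lm j)]
        exact pow_le_pow_left₀ hx.le h2 2
      have h4 : (lm j * a' j) ^ 2 = lm j ^ 2 * a' j ^ 2 := by ring
      rw [h4]
      gcongr
  · intro V hV
    set J := hfin.toFinset with hJ
    have hJm : ∀ j, j ∈ J ↔ x ≤ |lm j| := by simp [hJ]
    let φ : V →ₗ[ℝ] (J → ℝ) :=
      { toFun := fun g j => ∫ u, f j u * (g : Y → ℝ) u ∂μ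
        map_add' := by
          intro g g'
          funext j
          have h1 : ∀ u, f j u * ((g + g' : V) : Y → ℝ) u =
              f j u * (g : Y → ℝ) u + f j u * (g' : Y → ℝ) u := fun u => by
            simp [mul_add]
          simp only [h1]
          exact integral_add (ci ((h.cont j).mul (hV g g.2).1)) (ci ((h.cont j).mul (hV g' g'.2).1))
        map_smul' := by
          intro c g
          funext j
          have h1 : ∀ u, f j u * ((c • g : V) : Y → ℝ) u = c * (f j u * (g : Y → ℝ) u) :=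
            fun u => by
            simp only [Submodule.coe_smul, Pi.smul_apply, smul_eq_mul]
            ring
          simp only [h1]
          exact integral_const_mul _ _ }
    have hφ : Function.Injective φ := by
      rw [injective_iff_map_eq_zero]
      intro g hg
      have h1 := ker h hx hJm (hV g g.2).1 (hV g g.2).2 (fun j hj => congrFun hg ⟨j, hj⟩)
      exact Subtype.ext h1
    refine ⟨Module.Finite.of_injective φ hφ, ?_⟩
    have h1 := LinearMap.finrank_le_finrank_of_injective hφ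
    simpa using h1

end Pool.Agent.N899.BB.Mm
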