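import Mathlib
import Pool.Agent.N899.YM.Thermo

/-!
# Lattice Yang-Mills theory: the transfer matrix and the spaces of states of low energy
-/

open MeasureTheory Matrix
open scoped Matrix.Norms.Frobenius
open Pool.Agent.Y14.Wilson

namespace Pool.Agent.N899.Thermo

noncomputable section

/-- The configurations of one time slice: the link variables of the periodic lattice `(ℤ/l)^D`. -/
abbrev Slice (D l : ℕ) (G : Type*) := (Fin D → ZMod l) × Fin D → G

variable {N D l : ℕ} {G : Subgroup (UU N)}

/-- The magnetic energy: the sum of `Re tr (1 - U_p)` over the plaquettes of the time slice. -/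
def magnetic [NeZero l] (u : Slice D l G) : ℝ :=
  ∑ x, ∑ i, ∑ j, if i < j then (trace (1 - mt (u (x, i) * u (x + Pi.single i 1, j) *
    (u (x + Pi.single j 1, i))⁻¹ * (u (x, j))⁻¹))).re else 0

/-- The electric energy: the sum of `Re tr (1 - U_p)` over the plaquettes between the time slices
`u` and `v`; `W x` is the variable of the link from `x` at the time of `u` to `x` at the time
of `v`. -/
def electric [NeZero l] (u : Slice D l G) (W : (Fin D → ZMod l) → G) (v : Slice D l G) : ℝ :=
  ∑ x, ∑ i, (trace (1 - mt (u (x, i) * W (x + Pi.single i 1) * (v (x, i))⁻¹ * (W x)⁻¹))).re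

/-- The kernel of the transfer matrix of Wilson's lattice Yang-Mills theory on `(ℤ/l)^D`. -/
def transfer [NeZero l] [MeasurableSpace G] (μ : Measure G) (β : ℝ) (u v : Slice D l G) : ℝ :=
  ∫ W : (Fin D → ZMod l) → G, Real.exp (-(β * (1 / 2 * magnetic u + 1 / 2 * magnetic v +
    electric u W v))) ∂(Measure.pi fun _ => μ)

/-- The transfer matrix. -/
def evolve [NeZero l] [MeasurableSpace G] (μ : Measure G) (β : ℝ) (f : Slice D l G → ℝ)
    (u : Slice D l G) : ℝ :=
  ∫ v, transfer μ β u v * f v ∂(Measure.pi fun _ => μ)

/-- The square of the norm of a wave function. -/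
def normSq [NeZero l] [MeasurableSpace G] (μ : Measure G) (f : Slice D l G → ℝ) : ℝ :=
  ∫ u, f u ^ 2 ∂(Measure.pi fun _ => μ)

/-- `V` is a space of continuous wave functions of energy at most `E` above the ground state:
`‖T f‖ / ‖f‖ ≥ exp (-E) ‖T g‖ / ‖g‖` for `f` in `V` and all continuous `g`, `T` being the transfer
matrix. The largest dimension of such a space is the number of the eigenvalues of `T`, with their
multiplicities, of modulus at least `exp (-E) ‖T‖`. -/
def LowEnergy [NeZero l] [MeasurableSpace G] (μ : Measure G) (β E : ℝ)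
    (V : Submodule ℝ (Slice D l G → ℝ)) : Prop :=
  ∀ f ∈ V, Continuous f ∧ ∀ g : Slice D l G → ℝ, Continuous g →
    Real.exp (-2 * E) * (normSq μ (evolve μ β g) * normSq μ f) ≤
      normSq μ (evolve μ β f) * normSq μ g

end

end Pool.Agent.N899.Thermo
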