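import Mathlib
import Pool.Agent.N899.SB.Stm

/-!
# Black body radiation of gluons: from the canonical to the microcanonical ensemble
-/

open MeasureTheory Filter Topology

namespace Pool.Agent.N899.BB

/-- From the canonical to the microcanonical ensemble: if `log ∑ exp (-s E j) = (c + o(1)) V s ^ (-3)`
for the even `s` between `s₀` and `s₂`, then the number of the `j` with `E j ≤ e V` is
`exp ((4 / 3 + o(1)) (3 c) ^ (1 / 4) e ^ (3 / 4) V)`. -/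
def S_LD2 : Prop := ∀ c : ℝ, 0 < c → ∀ ε : ℝ, 0 < ε → ∃ (δ M : ℝ) (s₁ : ℕ), 0 < δ ∧ 1 ≤ M ∧
  ∀ (ι : Type) (E : ι → ℝ), (∀ j, 0 ≤ E j) → ∀ (V : ℝ), 0 < V → ∀ (Z : ℕ → ℝ) (s₀ s₂ : ℕ),
  s₁ ≤ s₀ →
  (∀ s : ℕ, Even s → 2 ≤ s → HasSum (fun j => Real.exp (-(s * E j))) (Z s)) →
  (∀ s : ℕ, Even s → s₀ ≤ s → s ≤ s₂ → |(s : ℝ) ^ 3 * Real.log (Z s) / V - c| ≤ δ) →
  ∀ e : ℝ, 0 < e → M ≤ V * e ^ (3 / 4 : ℝ) → M * s₀ ≤ e ^ (-(1 / 4) : ℝ) →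
    M * e ^ (-(1 / 4) : ℝ) ≤ s₂ → ∀ J : Finset ι, (∀ j, j ∈ J ↔ E j ≤ e * V) →
    J.Nonempty ∧ |Real.log J.card / (V * e ^ (3 / 4 : ℝ)) - 4 / 3 * (3 * c) ^ (1 / 4 : ℝ)| ≤ ε

end Pool.Agent.N899.BB
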