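import Mathlib
import Pool.Agent.N899.BB.Stm3
import Pool.Agent.N899.SB.Kit

/-!
# The largest eigenvalue of a positive kernel and the growth of the traces: `S_TOP`
-/

set_option autoImplicit false

open MeasureTheory Filter Topology
open Pool.Agent.N899.SB Pool.Agent.N899.SB.Kit Pool.Agent.N899.BB

namespace Pool.Agent.N899.BB.Top

section gen

variable {Y : Type} [TopologicalSpace Y] [CompactSpace Y] [SecondCountableTopology Y]
  [MeasurableSpace Y] [BorelSpace Y] (μ : Measure Y) [IsProbabilityMeasure μ]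

/-- Bessel's inequality -/
lemma bessel {ι : Type} [DecidableEq ι] (f : ι → Y → ℝ) (hc : ∀ j, Continuous (f j))
    (hn : ∀ j, ∫ u, f j u ^ 2 ∂μ = 1) (ho : ∀ i j, i ≠ j → ∫ u, f i u * f j u ∂μ = 0)
    (s : Finset ι) : ∀ g : Y → ℝ, Continuous g →
    ∑ j ∈ s, (∫ u, f j u * g u ∂μ) ^ 2 ≤ ∫ u, g u ^ 2 ∂μ := by
  induction s using Finset.induction_on with
  | empty =>
    intro g _
    rw [Finset.sum_empty]
    exact integral_nonneg fun u => sq_nonneg _
  | insert i s hi ih =>
    intro g hg
    rw [Finset.sum_insert hi]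
    set a : ℝ := ∫ u, f i u * g u ∂μ with ha
    have hg' : Continuous fun u => g u - a * f i u := hg.sub (continuous_const.mul (hc i))
    have h1 := ih (fun u => g u - a * f i u) hg'
    have h2 : ∀ j ∈ s, ∫ u, f j u * (g u - a * f i u) ∂μ = ∫ u, f j u * g u ∂μ := by
      intro j hj
      have hji : j ≠ i := by
        rintro rfl
        exact hi hj
      have e : ∀ u, f j u * (g u - a * f i u) = f j u * g u - a * (f j u * f i u) := by
        intro u
        ring
      simp only [e]
      have i1 : Integrable (fun u => f j u * g u) μ := intble μ _ ((hc j).mul hg)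
      have i2 : Integrable (fun u => a * (f j u * f i u)) μ :=
        (intble μ _ ((hc j).mul (hc i))).const_mul a
      rw [integral_sub i1 i2, integral_const_mul, ho j i hji]
      ring
    have h3 : ∫ u, (g u - a * f i u) ^ 2 ∂μ = ∫ u, g u ^ 2 ∂μ - a ^ 2 := by
      have e : ∀ u, (g u - a * f i u) ^ 2 = g u ^ 2 - 2 * a * (f i u * g u) + a ^ 2 * f i u ^ 2 := by
        intro u
        ring
      simp only [e]
      have i1 : Integrable (fun u => g u ^ 2) μ := intble μ _ (hg.pow 2)
      have i2 : Integrable (fun u => 2 * a * (f i u * g u)) μ :=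
        (intble μ _ ((hc i).mul hg)).const_mul _
      have i3 : Integrable (fun u => a ^ 2 * f i u ^ 2) μ :=
        (intble μ _ ((hc i).pow 2)).const_mul _
      have i4 : Integrable (fun u => g u ^ 2 - 2 * a * (f i u * g u)) μ := i1.sub i2
      rw [integral_add i4 i3, integral_sub i1 i2, integral_const_mul, integral_const_mul,
        hn i, ← ha]
      ring
    rw [Finset.sum_congr rfl fun j hj => by rw [h2 j hj]] at h1
    rw [h3] at h1
    linarith

end gen

/-- `S_TOP` -/
theorem t_TOP : S_TOP := by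
  intro Y _ _ _ _ _ μ _ k hk hp hs ι lm f hf
  classical
  obtain ⟨-, -, -, -, -, -, -, ⟨c, hc, hct⟩⟩ := t_KIT Y μ k hk hp hs
  have htr : ∀ n, 0 < trk μ k n := fun n => lt_of_lt_of_le (by positivity) (hct n)
  have hsum : HasSum (fun j => lm j ^ 2) (trk μ k 1) := by
    have := hf.tr 0
    simpa using this
  -- the index set is not empty
  have hne : Nonempty ι := by
    by_contra h
    rw [not_nonempty_iff] at h
    have h1 : HasSum (fun j => lm j ^ 2) 0 := hasSum_empty
    exact (htr 1).ne' (hsum.unique h1)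
  obtain ⟨i₀⟩ := hne
  -- the maximum
  have hfin : {j : ι | |lm i₀| ≤ |lm j|}.Finite := by
    have h1 := hsum.summable.tendsto_cofinite_zero
    have h2 : (0 : ℝ) < lm i₀ ^ 2 := by
      have := hf.ne i₀
      positivity
    have h3 := h1.eventually (gt_mem_nhds h2)
    rw [Filter.eventually_cofinite] at h3
    refine h3.subset fun j hj => ?_
    simp only [Set.mem_ofPred_eq, not_lt] at hj ⊢
    exact sq_le_sq.2 hj
  obtain ⟨j₀, hj₀, hmax⟩ := hfin.toFinset.exists_max_image (fun j => |lm j|)
    ⟨i₀, by simp⟩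
  have hj₀' : |lm i₀| ≤ |lm j₀| := by simpa using hj₀
  have htop : ∀ j, |lm j| ≤ |lm j₀| := by
    intro j
    by_cases h : |lm i₀| ≤ |lm j|
    · exact hmax j (by simpa using h)
    · exact (not_le.1 h).le.trans hj₀'
  have hsq : ∀ j, lm j ^ 2 ≤ lm j₀ ^ 2 := fun j => sq_le_sq.2 (htop j)
  refine ⟨j₀, htop, ?_, ?_⟩
  · intro g hg
    have h1 := hf.pars g hg
    refine hasSum_le_of_sum_le h1 fun s => ?_
    calc ∑ j ∈ s, (lm j * ∫ u, f j u * g u ∂μ) ^ 2
        ≤ ∑ j ∈ s, lm j₀ ^ 2 * (∫ u, f j u * g u ∂μ) ^ 2 := by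
          refine Finset.sum_le_sum fun j _ => ?_
          rw [mul_pow]
          exact mul_le_mul_of_nonneg_right (hsq j) (sq_nonneg _)
      _ = lm j₀ ^ 2 * ∑ j ∈ s, (∫ u, f j u * g u ∂μ) ^ 2 := by rw [Finset.mul_sum]
      _ ≤ _ := mul_le_mul_of_nonneg_left (bessel μ f hf.cont hf.norm hf.orth s g hg)
          (sq_nonneg _)
  · set L : ℝ := |lm j₀| with hL
    have hLpos : 0 < L := abs_pos.2 (hf.ne j₀)
    have hlow : ∀ r : ℕ, L ^ (2 * r + 2) ≤ trk μ k (2 * r + 1) := by
      intro r
      have h1 := hf.tr r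
      have h2 : lm j₀ ^ (2 * r + 2) ≤ trk μ k (2 * r + 1) :=
        le_hasSum h1 j₀ fun j _ => by
          have : lm j ^ (2 * r + 2) = (lm j ^ (r + 1)) ^ 2 := by ring
          rw [this]
          exact sq_nonneg _
      have h3 : L ^ (2 * r + 2) = lm j₀ ^ (2 * r + 2) := by
        have e : 2 * r + 2 = 2 * (r + 1) := by ring
        rw [e, pow_mul, pow_mul, hL, sq_abs]
      rw [h3]
      exact h2
    have hupp : ∀ r : ℕ, trk μ k (2 * r + 1) ≤ L ^ (2 * r) * trk μ k 1 := by
      intro r
      have h1 := hf.tr r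
      have h2 := hsum.mul_left (L ^ (2 * r))
      refine hasSum_le (fun j => ?_) h1 h2
      have e : lm j ^ (2 * r + 2) = (lm j ^ 2) ^ r * lm j ^ 2 := by ring
      have e2 : L ^ (2 * r) = (lm j₀ ^ 2) ^ r := by rw [pow_mul, hL, sq_abs]
      rw [e, e2]
      exact mul_le_mul_of_nonneg_right (pow_le_pow_left₀ (sq_nonneg _) (hsq j) r) (sq_nonneg _)
    have hcast : Tendsto (fun r : ℕ => (2 * (r : ℝ) + 2)) atTop atTop := by
      refine tendsto_atTop_add_const_right _ _ ?_
      exact tendsto_natCast_atTop_atTop.const_mul_atTop (by norm_num)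
    have hupl : Tendsto (fun r : ℕ => Real.log L + (Real.log (trk μ k 1) - 2 * Real.log L) /
        (2 * (r : ℝ) + 2)) atTop (𝓝 (Real.log L)) := by
      have := (hcast.const_div_atTop (Real.log (trk μ k 1) - 2 * Real.log L)).const_add
        (Real.log L)
      simpa using this
    refine tendsto_of_tendsto_of_tendsto_of_le_of_le tendsto_const_nhds hupl ?_ ?_
    · intro r
      have hpos : (0 : ℝ) < 2 * (r : ℝ) + 2 := by positivity
      show Real.log L ≤ Real.log (trk μ k (2 * r + 1)) / (2 * r + 2)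
      rw [le_div_iff₀ hpos]
      have h1 := Real.log_le_log (by positivity) (hlow r)
      rw [Real.log_pow] at h1
      push_cast at h1
      linarith
    · intro r
      have hpos : (0 : ℝ) < 2 * (r : ℝ) + 2 := by positivity
      show Real.log (trk μ k (2 * r + 1)) / (2 * r + 2) ≤
        Real.log L + (Real.log (trk μ k 1) - 2 * Real.log L) / (2 * (r : ℝ) + 2)
      rw [div_le_iff₀ hpos, add_mul, div_mul_cancel₀ _ hpos.ne']
      have h1 := Real.log_le_log (htr _) (hupp r)
      rw [Real.log_mul (by positivity) (htr 1).ne', Real.log_pow] at h1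
      push_cast at h1
      linarith

end Pool.Agent.N899.BB.Top
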