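import Mathlib
import Pool.Agent.N899.BB.All
import Pool.Agent.N899.BB.Hs
import Pool.Agent.N899.BB.Top
import Pool.Agent.N899.BB.Mm
import Pool.Agent.N899.BB.Pub
import Pool.Agent.N899.BB.Stm4

/-!
# Black body radiation of gluons: the number of the states
-/

open MeasureTheory Matrix Filter Topology
open scoped Matrix.Norms.Frobenius
open Pool.Agent.N899.SB Pool.Agent.Y14.Wilson

namespace Pool.Agent.N899.BB.Asm

set_option linter.unusedSectionVars false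
set_option linter.unusedVariables false

noncomputable section

variable {N n : ℕ} {G : Subgroup (UU N)}

section

variable [CompactSpace G] [SecondCountableTopology G] [MeasurableSpace G] [BorelSpace G]
  (μ : Measure G) [IsProbabilityMeasure μ] [μ.IsHaarMeasure]

lemma transfer_eq (B : LieBasis G n) {D l : ℕ} [NeZero l] (β : ℝ) :
    Thermo.transfer (D := D) (l := l) μ β = MG990.N899.kr μ (ld B) β D l := rfl

/-- the states of low energy, in terms of the largest eigenvalue -/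
lemma lowEnergy_iff {D l : ℕ} [NeZero l] {β E : ℝ} {ι : Type} {lm : ι → ℝ}
    {f : ι → Thermo.Slice D l G → ℝ} {j₀ : ι}
    (hk : SpD (Measure.pi fun _ => μ) (Thermo.transfer (D := D) (l := l) μ β) ι lm f)
    (htop : ∀ g : Thermo.Slice D l G → ℝ, Continuous g →
      ∫ u, (∫ v, Thermo.transfer μ β u v * g v ∂(Measure.pi fun _ => μ)) ^ 2
        ∂(Measure.pi fun _ => μ) ≤ lm j₀ ^ 2 * ∫ u, g u ^ 2 ∂(Measure.pi fun _ => μ))
    (V : Submodule ℝ (Thermo.Slice D l G → ℝ)) :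
    Thermo.LowEnergy μ β E V ↔ ∀ g ∈ V, Continuous g ∧
      (Real.exp (-E) * |lm j₀|) ^ 2 * ∫ u, g u ^ 2 ∂(Measure.pi fun _ => μ) ≤
        ∫ u, (∫ v, Thermo.transfer μ β u v * g v ∂(Measure.pi fun _ => μ)) ^ 2
          ∂(Measure.pi fun _ => μ) := by
  have he : (Real.exp (-E) * |lm j₀|) ^ 2 = Real.exp (-2 * E) * lm j₀ ^ 2 := by
    rw [mul_pow, sq_abs, ← Real.exp_nat_mul]
    congr 2
    push_cast
    ring
  rw [he]
  unfold Thermo.LowEnergy
  have hns : ∀ g : Thermo.Slice D l G → ℝ, Thermo.normSq μ g =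
      ∫ u, g u ^ 2 ∂(Measure.pi fun _ => μ) := fun g => rfl
  have hne : ∀ g : Thermo.Slice D l G → ℝ, Thermo.normSq μ (Thermo.evolve μ β g) =
      ∫ u, (∫ v, Thermo.transfer μ β u v * g v ∂(Measure.pi fun _ => μ)) ^ 2
        ∂(Measure.pi fun _ => μ) := fun g => rfl
  have hnn : ∀ g : Thermo.Slice D l G → ℝ, 0 ≤ ∫ u, g u ^ 2 ∂(Measure.pi fun _ => μ) :=
    fun g => integral_nonneg fun u => sq_nonneg _
  constructor
  · intro h g hg
    obtain ⟨hc, h1⟩ := h g hg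
    refine ⟨hc, ?_⟩
    have h2 := h1 (f j₀) (hk.cont j₀)
    have h3 : Thermo.normSq μ (f j₀) = 1 := by rw [hns]; exact hk.norm j₀
    have h4 : Thermo.normSq μ (Thermo.evolve μ β (f j₀)) = lm j₀ ^ 2 := by
      rw [hne]
      have : ∀ u, (∫ v, Thermo.transfer μ β u v * f j₀ v ∂(Measure.pi fun _ => μ)) ^ 2 =
          lm j₀ ^ 2 * f j₀ u ^ 2 := by
        intro u
        rw [hk.eig j₀ u, mul_pow]
      simp only [this]
      rw [integral_const_mul, hk.norm j₀, mul_one]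
    rw [h3, h4, mul_one, hns, hne] at h2
    rw [mul_assoc]
    exact h2
  · intro h g hg
    obtain ⟨hc, h1⟩ := h g hg
    refine ⟨hc, fun g' hg' => ?_⟩
    rw [hne, hne, hns, hns]
    calc Real.exp (-2 * E) * ((∫ u, (∫ v, Thermo.transfer μ β u v * g' v
            ∂(Measure.pi fun _ => μ)) ^ 2 ∂(Measure.pi fun _ => μ)) *
            ∫ u, g u ^ 2 ∂(Measure.pi fun _ => μ)) ≤
          Real.exp (-2 * E) * ((lm j₀ ^ 2 * ∫ u, g' u ^ 2 ∂(Measure.pi fun _ => μ)) *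
            ∫ u, g u ^ 2 ∂(Measure.pi fun _ => μ)) := by
          refine mul_le_mul_of_nonneg_left ?_ (Real.exp_pos _).le
          exact mul_le_mul_of_nonneg_right (htop g' hg') (hnn g)
      _ = (Real.exp (-2 * E) * lm j₀ ^ 2 * ∫ u, g u ^ 2 ∂(Measure.pi fun _ => μ)) *
            ∫ u, g' u ^ 2 ∂(Measure.pi fun _ => μ) := by ring
      _ ≤ _ := mul_le_mul_of_nonneg_right h1 (hnn g')

end

/-- **the number of the states** -/
theorem count (hLD : S_LD2) (hG : IsClosed (G : Set (UU N)))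
    [MeasurableSpace G] [BorelSpace G] (μ : Measure G) [IsProbabilityMeasure μ]
    [μ.IsHaarMeasure] (B : LieBasis G n) (hn : 1 ≤ n) :
    ∃ K : ℕ, 1 ≤ K ∧ ∀ ε : ℝ, 0 < ε → ∃ β₁ e₁ : ℝ, 0 < e₁ ∧ ∀ β : ℝ, β₁ ≤ β →
      ∀ (l : ℕ) [NeZero l], Even l → β ≤ l → ∀ e : ℝ, β ^ (-(1 / K : ℝ)) ≤ e → e ≤ e₁ →
      (∃ V : Submodule ℝ (Thermo.Slice 3 l G → ℝ), Thermo.LowEnergy μ β (e * l ^ 3) V ∧
        Module.Finite ℝ V ∧
        Real.exp ((4 / 3 * (n * Real.pi ^ 2 / 15) ^ (1 / 4 : ℝ) - ε) *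
          (l ^ 3 * e ^ (3 / 4 : ℝ))) ≤ Module.finrank ℝ V) ∧
      ∀ V : Submodule ℝ (Thermo.Slice 3 l G → ℝ), Thermo.LowEnergy μ β (e * l ^ 3) V →
        Module.Finite ℝ V ∧ (Module.finrank ℝ V : ℝ) ≤
        Real.exp ((4 / 3 * (n * Real.pi ^ 2 / 15) ^ (1 / 4 : ℝ) + ε) *
          (l ^ 3 * e ^ (3 / 4 : ℝ))) := by
  have := compactG hG
  have := scG (G := G)
  have := right_inv μ
  have := inv_inv' μ
  obtain ⟨C, K, hC3, hK1, hsb⟩ := sb_law hG μ B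
  obtain ⟨-, hplat⟩ := Plat.t_PLAT
  have hn0 : (0 : ℝ) < n := by exact_mod_cast hn
  have hK0 : (0 : ℝ) < K := by exact_mod_cast hK1
  refine ⟨4 * K, by omega, fun ε hε => ?_⟩
  obtain ⟨c, hc⟩ : ∃ c : ℝ, c = n * Real.pi ^ 2 / 45 := ⟨_, rfl⟩
  have hc0 : 0 < c := by rw [hc]; positivity
  have h3c : n * Real.pi ^ 2 / 15 = 3 * c := by rw [hc]; ring
  rw [h3c]
  obtain ⟨δ, M, s₁, hδ, hM1, hld⟩ := hLD c hc0 ε hε
  -- the free pressure
  have hpl : Tendsto (fun s : ℕ => 2 * n * ((s : ℝ) ^ 4 * plat s)) atTop (𝓝 c) := by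
    have h1 := hplat.const_mul (2 * n : ℝ)
    have h2 : (2 * n : ℝ) * (Real.pi ^ 2 / 90) = c := by rw [hc]; ring
    rw [h2] at h1
    exact h1
  rw [Metric.tendsto_atTop] at hpl
  obtain ⟨s₂, hs₂⟩ := hpl (δ / 2) (by linarith)
  obtain ⟨s₀, hs₀⟩ : ∃ s₀ : ℕ, s₀ = max (max s₁ s₂) 2 := ⟨_, rfl⟩
  have hs₀1 : s₁ ≤ s₀ := by rw [hs₀]; exact (le_max_left _ _).trans (le_max_left _ _)
  have hs₀2 : s₂ ≤ s₀ := by rw [hs₀]; exact (le_max_right _ _).trans (le_max_left _ _)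
  have hs₀3 : 2 ≤ s₀ := by rw [hs₀]; exact le_max_right _ _
  have hs₀R : (2 : ℝ) ≤ s₀ := by exact_mod_cast hs₀3
  obtain ⟨X₀, hX₀⟩ : ∃ X₀ : ℝ, X₀ = max (M + 1) (2 * C / δ) := ⟨_, rfl⟩
  have hX₀1 : M + 1 ≤ X₀ := by rw [hX₀]; exact le_max_left _ _
  have hX₀2 : 2 * C / δ ≤ X₀ := by rw [hX₀]; exact le_max_right _ _
  have hMs0 : 0 < M * s₀ := by positivity
  refine ⟨max C (X₀ ^ (16 * K)), 1 / (M * s₀) ^ 4, by positivity,
    fun β hβ l _ hl hβl e he1 he2 => ?_⟩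
  have hβC : C ≤ β := (le_max_left _ _).trans hβ
  have hβX : X₀ ^ (16 * K) ≤ β := (le_max_right _ _).trans hβ
  have hβ0 : 0 < β := by linarith
  have hβ1 : 1 ≤ β := by linarith
  -- the parameter x
  obtain ⟨x, hx⟩ : ∃ x : ℝ, x = β ^ (1 / (16 * K : ℕ) : ℝ) := ⟨_, rfl⟩
  have hx1 : 1 ≤ x := by rw [hx]; exact Real.one_le_rpow hβ1 (by positivity)
  have hx0 : 0 < x := by linarith
  have hxp : x ^ (16 * K) = β := by
    rw [hx, one_div]
    exact Real.rpow_inv_natCast_pow hβ0.le (by omega)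
  have hxX : X₀ ≤ x := by
    by_contra hcon
    push Not at hcon
    have : x ^ (16 * K) < X₀ ^ (16 * K) := pow_lt_pow_left₀ hcon hx0.le (by omega)
    linarith
  have hxM : M + 1 ≤ x := hX₀1.trans hxX
  have hxC : C / x ≤ δ / 2 := by
    have h1 : 2 * C / δ ≤ x := hX₀2.trans hxX
    rw [div_le_iff₀ hδ] at h1
    rw [div_le_iff₀ hx0]
    linarith
  have hpow : ∀ (a : ℕ), β ^ (-((a : ℝ) / (16 * K : ℕ))) = (x ^ a)⁻¹ := by
    intro a
    rw [Real.rpow_neg hβ0.le, hx, ← Real.rpow_natCast, ← Real.rpow_mul hβ0.le]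
    congr 2
    ring
  have he3 : (x ^ 4)⁻¹ ≤ e := by
    refine le_trans (le_of_eq ?_) he1
    rw [← hpow 4]
    congr 1
    push_cast
    field_simp
    norm_num
  have hx4 : 0 < (x ^ 4)⁻¹ := by positivity
  have he0 : 0 < e := hx4.trans_le he3
  have he4 : e ^ (-(1 / 4) : ℝ) ≤ x := by
    have h1 : e ^ (-(1 / 4) : ℝ) ≤ ((x ^ 4)⁻¹) ^ (-(1 / 4) : ℝ) :=
      Real.rpow_le_rpow_of_nonpos hx4 he3 (by norm_num)
    refine h1.trans (le_of_eq ?_)
    rw [Real.rpow_neg (by positivity), Real.inv_rpow (by positivity), inv_inv,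
      ← Real.rpow_natCast x 4, ← Real.rpow_mul hx0.le]
    norm_num
  have he5 : M * s₀ ≤ e ^ (-(1 / 4) : ℝ) := by
    have h1 : (1 / (M * s₀) ^ 4) ^ (-(1 / 4) : ℝ) ≤ e ^ (-(1 / 4) : ℝ) :=
      Real.rpow_le_rpow_of_nonpos he0 he2 (by norm_num)
    refine le_trans (le_of_eq ?_) h1
    rw [one_div ((M * s₀) ^ 4), Real.rpow_neg (by positivity), Real.inv_rpow (by positivity),
      inv_inv, ← Real.rpow_natCast (M * s₀) 4, ← Real.rpow_mul hMs0.le]
    norm_num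
  obtain ⟨S, hS⟩ : ∃ S : ℕ, S = ⌊x ^ 2⌋₊ := ⟨_, rfl⟩
  have hS1 : (S : ℝ) ≤ x ^ 2 := by rw [hS]; exact Nat.floor_le (by positivity)
  have hS2 : x ^ 2 - 1 ≤ S := by
    have := Nat.lt_floor_add_one (x ^ 2)
    rw [hS]
    linarith
  have hMS : M * e ^ (-(1 / 4) : ℝ) ≤ S := by
    have h1 : M * e ^ (-(1 / 4) : ℝ) ≤ M * x := mul_le_mul_of_nonneg_left he4 (by linarith)
    nlinarith
  -- the volume
  obtain ⟨W, hW⟩ : ∃ W : ℝ, W = (l : ℝ) ^ 3 := ⟨_, rfl⟩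
  have hlR : (0 : ℝ) < l := by linarith
  have hW0 : 0 < W := by rw [hW]; positivity
  have hWβ : β ^ 3 ≤ W := by rw [hW]; exact pow_le_pow_left₀ hβ0.le hβl 3
  have hWe : M ≤ W * e ^ (3 / 4 : ℝ) := by
    have h1 : (x ^ 3)⁻¹ ≤ e ^ (3 / 4 : ℝ) := by
      have h2 : ((x ^ 4)⁻¹) ^ (3 / 4 : ℝ) ≤ e ^ (3 / 4 : ℝ) :=
        Real.rpow_le_rpow hx4.le he3 (by norm_num)
      refine le_trans (le_of_eq ?_) h2
      rw [Real.inv_rpow (by positivity), ← Real.rpow_natCast x 4, ← Real.rpow_mul hx0.le,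
        ← Real.rpow_natCast x 3]
      norm_num
    have h3 : x ≤ β := by
      calc x = x ^ 1 := (pow_one x).symm
        _ ≤ x ^ (16 * K) := pow_le_pow_right₀ hx1 (by omega)
        _ = β := hxp
    have h4 : x ^ 3 ≤ β ^ 2 := by
      calc x ^ 3 ≤ x ^ (32 * K) := pow_le_pow_right₀ hx1 (by omega)
        _ = β ^ 2 := by rw [← hxp, ← pow_mul]; congr 1; ring
    calc M ≤ β := by linarith
      _ = β ^ 3 * (β ^ 2)⁻¹ := by field_simp
      _ ≤ W * (x ^ 3)⁻¹ := by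
        refine mul_le_mul hWβ ?_ (by positivity) hW0.le
        exact inv_anti₀ (by positivity) h4
      _ ≤ W * e ^ (3 / 4 : ℝ) := mul_le_mul_of_nonneg_left h1 hW0.le
  -- the spectral decomposition
  obtain ⟨hkc, hk0, hks⟩ := MG990.N899.kr_good μ (L := ld B) (D := 3) (l := l) β
  obtain ⟨ι, lm, f, hk⟩ := Hs.t_HS (Thermo.Slice 3 l G) (Measure.pi fun _ => μ)
    (Thermo.transfer (D := 3) (l := l) μ β) hkc hk0 hks
  obtain ⟨j₀, hj1, hj2, hj3⟩ := Top.t_TOP (Thermo.Slice 3 l G) (Measure.pi fun _ => μ)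
    (Thermo.transfer (D := 3) (l := l) μ β) hkc hk0 hks ι lm f hk
  obtain ⟨Λ, hΛ⟩ : ∃ Λ : ℝ, Λ = |lm j₀| := ⟨_, rfl⟩
  have hΛ0 : 0 < Λ := by rw [hΛ]; exact abs_pos.2 (hk.ne j₀)
  rw [← hΛ] at hj1 hj3
  obtain ⟨J, hJ, ⟨V₀, hV₀f, hV₀d, hV₀⟩, hVup⟩ := Mm.t_MM (Thermo.Slice 3 l G)
    (Measure.pi fun _ => μ) (Thermo.transfer (D := 3) (l := l) μ β) hkc hk0 hks ι lm f hk
    (Real.exp (-(e * l ^ 3)) * Λ) (by positivity)
  obtain ⟨P, hP1, hP2⟩ := hsb β hβC l hl hβl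
  -- the partition functions
  have hpt : ∀ (s : ℕ) [NeZero s], Real.log (Thermo.partition 3 l s μ β) =
      Real.log (trk (Measure.pi fun _ => μ) (Thermo.transfer (D := 3) (l := l) μ β) (s - 1)) := by
    intro s _
    obtain ⟨n', hn'⟩ : ∃ n', s = n' + 1 := ⟨s - 1, by have := NeZero.ne s; omega⟩
    subst hn'
    rw [Thermo.partition_eq μ B, MG990.N899.prt_trk μ (L := ld B) β n']
    rfl
  have hPΛ : P * W = Real.log Λ := by
    have h1 : Tendsto (fun r : ℕ => Real.log (trk (Measure.pi fun _ => μ)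
        (Thermo.transfer (D := 3) (l := l) μ β) (2 * r + 1)) / (2 * r + 2)) atTop
        (𝓝 (P * W)) := by
      have h2 : Tendsto (fun r : ℕ => Real.log (trk (Measure.pi fun _ => μ)
          (Thermo.transfer (D := 3) (l := l) μ β) (2 * r + 1)) / ((2 * r + 2 : ℕ) * l ^ 3)) atTop
          (𝓝 P) := by
        rw [Metric.tendsto_atTop]
        intro ε' hε'
        obtain ⟨t₀, ht₀⟩ := hP1 (ε' / 2) (by linarith)
        refine ⟨t₀, fun r hr => ?_⟩
        have hne : NeZero (2 * r + 2) := ⟨by omega⟩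
        have h3 := ht₀ (2 * r + 2) ⟨r + 1, by ring⟩ (by omega)
        rw [hpt (2 * r + 2)] at h3
        have e1 : 2 * r + 2 - 1 = 2 * r + 1 := by omega
        rw [e1] at h3
        rw [Real.dist_eq]
        linarith
      have h4 := h2.mul_const W
      refine h4.congr fun r => ?_
      rw [hW]
      push_cast
      field_simp
    exact tendsto_nhds_unique h1 hj3
  -- the energies
  obtain ⟨E, hE⟩ : ∃ E : ι → ℝ, E = fun j => -Real.log (|lm j| / Λ) := ⟨_, rfl⟩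
  have hE0 : ∀ j, 0 ≤ E j := by
    intro j
    rw [hE]
    simp only
    have h1 : Real.log (|lm j| / Λ) ≤ 0 :=
      Real.log_nonpos (by positivity) ((div_le_one hΛ0).2 (hj1 j))
    linarith
  have hEe : ∀ j, Real.exp (-E j) = |lm j| / Λ := by
    intro j
    rw [hE]
    simp only [neg_neg]
    exact Real.exp_log (div_pos (abs_pos.2 (hk.ne j)) hΛ0)
  obtain ⟨Z, hZ⟩ : ∃ Z : ℕ → ℝ, Z = fun s => trk (Measure.pi fun _ => μ)
    (Thermo.transfer (D := 3) (l := l) μ β) (s - 1) / Λ ^ s := ⟨_, rfl⟩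
  have hsum : ∀ s : ℕ, Even s → 2 ≤ s → HasSum (fun j => Real.exp (-(s * E j))) (Z s) := by
    intro s hs hs2
    obtain ⟨r, hr⟩ : ∃ r, s = 2 * r + 2 := by
      obtain ⟨a, ha⟩ := even_iff_two_dvd.1 hs
      exact ⟨a - 1, by omega⟩
    rw [hZ]
    simp only
    have h1 := (hk.tr r).div_const (Λ ^ (2 * r + 2))
    have e1 : s - 1 = 2 * r + 1 := by omega
    rw [e1, hr]
    refine h1.congr_fun ?_ |> fun h => h
    intro j
    have e2 : Real.exp (-(((2 * r + 2 : ℕ) : ℝ) * E j)) = Real.exp (-E j) ^ (2 * r + 2) := by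
      rw [← Real.exp_nat_mul]
      congr 1
      ring
    rw [e2, hEe j, div_pow]
    congr 1
    have e3 : 2 * r + 2 = 2 * (r + 1) := by ring
    rw [e3, pow_mul, pow_mul, sq_abs]
  have hcan : ∀ s : ℕ, Even s → s₀ ≤ s → s ≤ S →
      |(s : ℝ) ^ 3 * Real.log (Z s) / W - c| ≤ δ := by
    intro s hs hs1 hs2
    have hsne : NeZero s := ⟨by omega⟩
    have hsR : (0 : ℝ) < s := by exact_mod_cast (by omega : 0 < s)
    have hsx : (s : ℝ) ≤ x ^ 2 := le_trans (by exact_mod_cast hs2) hS1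
    have hsK : (s : ℝ) ^ K ≤ β := by
      calc (s : ℝ) ^ K ≤ (x ^ 2) ^ K := pow_le_pow_left₀ hsR.le hsx K
        _ = x ^ (2 * K) := by rw [← pow_mul]
        _ ≤ x ^ (16 * K) := pow_le_pow_right₀ hx1 (by omega)
        _ = β := hxp
    have h1 := hP2 s hs hsK
    have h2 := hs₂ s (hs₀2.trans hs1)
    rw [Real.dist_eq] at h2
    rw [hpt s] at h1
    have htr : 0 < trk (Measure.pi fun _ => μ)
        (Thermo.transfer (D := 3) (l := l) μ β) (s - 1) := by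
      obtain ⟨-, -, -, -, -, -, -, c', hc', hct⟩ := Kit.t_KIT (Thermo.Slice 3 l G)
        (Measure.pi fun _ => μ) (Thermo.transfer (D := 3) (l := l) μ β) hkc hk0 hks
      exact lt_of_lt_of_le (by positivity) (hct (s - 1))
    have h3 : (s : ℝ) ^ 3 * Real.log (Z s) / W =
        s ^ 4 * (Real.log (trk (Measure.pi fun _ => μ)
          (Thermo.transfer (D := 3) (l := l) μ β) (s - 1)) / (s * l ^ 3) - P) := by
      rw [hZ]
      simp only
      rw [Real.log_div htr.ne' (by positivity), Real.log_pow, ← hPΛ, ← hW]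
      field_simp
    rw [h3]
    obtain ⟨A, hA⟩ : ∃ A, A = Real.log (trk (Measure.pi fun _ => μ)
        (Thermo.transfer (D := 3) (l := l) μ β) (s - 1)) / (s * l ^ 3) - P := ⟨_, rfl⟩
    rw [← hA] at h1 ⊢
    have h4 : β ^ (-(1 / K : ℝ)) = (x ^ 16)⁻¹ := by
      rw [← hpow 16]
      congr 1
      push_cast
      field_simp
    rw [h4] at h1
    have h5 : (s : ℝ) ^ 4 * |A - 2 * n * plat s| ≤ δ / 2 := by
      calc (s : ℝ) ^ 4 * |A - 2 * n * plat s| ≤ (x ^ 2) ^ 4 * (C * (x ^ 16)⁻¹) := by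
            refine mul_le_mul (pow_le_pow_left₀ hsR.le hsx 4) h1 (abs_nonneg _) (by positivity)
        _ = C / x ^ 8 := by field_simp
        _ ≤ C / x := by
            refine div_le_div_of_nonneg_left (by linarith) hx0 ?_
            calc x = x ^ 1 := (pow_one x).symm
              _ ≤ x ^ 8 := pow_le_pow_right₀ hx1 (by norm_num)
        _ ≤ δ / 2 := hxC
    have h6 : (s : ℝ) ^ 4 * A - c = s ^ 4 * (A - 2 * n * plat s) +
        (2 * n * ((s : ℝ) ^ 4 * plat s) - c) := by ring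
    rw [h6]
    refine (abs_add_le _ _).trans ?_
    rw [abs_mul, abs_of_nonneg (by positivity : (0 : ℝ) ≤ (s : ℝ) ^ 4)]
    linarith
  have hJE : ∀ j, j ∈ J ↔ E j ≤ e * W := by
    intro j
    rw [hJ j, hE]
    simp only
    have h1 : 0 < |lm j| / Λ := div_pos (abs_pos.2 (hk.ne j)) hΛ0
    rw [neg_le, Real.le_log_iff_exp_le h1, le_div_iff₀ hΛ0, hW]
  obtain ⟨hJne, hJc⟩ := hld ι E hE0 W hW0 Z s₀ S hs₀1 hsum hcan e he0 hWe he5 hMS J hJE
  have hJ0 : (0 : ℝ) < J.card := by exact_mod_cast Finset.card_pos.2 hJne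
  have hWe0 : 0 < W * e ^ (3 / 4 : ℝ) := mul_pos hW0 (Real.rpow_pos_of_pos he0 _)
  obtain ⟨c₀, hc₀⟩ : ∃ c₀ : ℝ, c₀ = 4 / 3 * (3 * c) ^ (1 / 4 : ℝ) := ⟨_, rfl⟩
  rw [← hc₀] at hJc ⊢
  rw [← hW]
  rw [abs_le] at hJc
  have hlo : Real.exp ((c₀ - ε) * (W * e ^ (3 / 4 : ℝ))) ≤ J.card := by
    rw [← Real.le_log_iff_exp_le hJ0, ← le_div_iff₀ hWe0]
    linarith [hJc.1]
  have hup : (J.card : ℝ) ≤ Real.exp ((c₀ + ε) * (W * e ^ (3 / 4 : ℝ))) := by
    rw [← Real.log_le_iff_le_exp hJ0, ← div_le_iff₀ hWe0]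
    linarith [hJc.2]
  have hiff := fun V => lowEnergy_iff (E := e * l ^ 3) μ hk hj2 V
  rw [← hΛ] at hiff
  refine ⟨⟨V₀, ?_, hV₀f, ?_⟩, fun V hV => ?_⟩
  · rw [hW, hiff V₀]
    exact hV₀
  · rw [hV₀d]
    exact hlo
  · rw [hW, hiff V] at hV
    obtain ⟨h1, h2⟩ := hVup V hV
    exact ⟨h1, le_trans (by exact_mod_cast h2) hup⟩

end

end Pool.Agent.N899.BB.Asm
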