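import Mathlib
import Pool.Agent.N899.BB.Stm

/-!
# HINV: the matrices of the interpolation
-/

open Matrix Finset

namespace Pool.Agent.N899.BB.Hinv

variable (Q : Sys)

lemma base_entry : ∃ e : Q.L → ℝ, (∀ w, e w = 1 ∨ e w = -1) ∧ ∀ w w', Q.D (Q.bp w) w' =
    e w * ((if w' = w then 1 else 0) - (if Q.pr w = some w' then 1 else 0)) := by
  classical
  have h : ∀ w, ∃ e : ℝ, (e = 1 ∨ e = -1) ∧ ∀ w', Q.D (Q.bp w) w' =
      e * ((if w' = w then 1 else 0) - (if Q.pr w = some w' then 1 else 0)) := by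
    intro w
    rcases Q.bp_wd w with ⟨h0, h1, h2, h3⟩ | ⟨h0, h1, h2, h3⟩
    · refine ⟨-1, Or.inr rfl, fun w' => ?_⟩
      unfold Sys.D
      rw [h0, h1, h2, h3]
      simp only [Option.some_inj, reduceCtorEq, if_false, eq_comm (a := w')]
      ring
    · refine ⟨1, Or.inl rfl, fun w' => ?_⟩
      unfold Sys.D
      rw [h0, h1, h2, h3]
      simp only [Option.some_inj, reduceCtorEq, if_false, eq_comm (a := w')]
      ring
  choose e he using h
  exact ⟨e, fun w => (he w).1, fun w => (he w).2⟩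

/-- the matrix of the basic plaquettes -/
noncomputable def A : Matrix Q.L Q.L ℝ := fun w w' => Q.D (Q.bp w) w'

/-- triangular matrix -/
noncomputable def T : Matrix Q.L Q.L ℝ := fun w w' =>
  (if w' = w then 1 else 0) - (if Q.pr w = some w' then 1 else 0)

lemma pr_ne (w : Q.L) : Q.pr w ≠ some w := fun h => lt_irrefl _ (Q.rk_lt w w h)

lemma det_T : (T Q).det = 1 := by
  classical
  rw [Matrix.det_apply]
  rw [Finset.sum_eq_single (1 : Equiv.Perm Q.L)]
  · simp [T, pr_ne]
  · intro σ _ hσ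
    have h0 : ∏ i, T Q (σ i) i = 0 := by
      by_contra h
      rw [Finset.prod_eq_zero_iff] at h
      push Not at h
      have h1 : ∀ i, Q.rk i ≤ Q.rk (σ i) ∧ (Q.rk i = Q.rk (σ i) → σ i = i) := by
        intro i
        have h2 := h i (mem_univ i)
        unfold T at h2
        by_cases h3 : i = σ i
        · exact ⟨by rw [← h3], fun _ => h3.symm⟩
        · rw [if_neg h3] at h2
          by_cases h4 : Q.pr (σ i) = some i
          · have h5 := Q.rk_lt _ _ h4
            exact ⟨h5.le, fun h6 => by omega⟩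
          · rw [if_neg h4] at h2
            simp at h2
      have h2 : ∑ i, Q.rk i = ∑ i, Q.rk (σ i) := (Equiv.sum_comp σ Q.rk).symm
      have h3 := (Finset.sum_eq_sum_iff_of_le (fun i _ => (h1 i).1)).1 h2
      exact hσ (Equiv.ext fun i => (h1 i).2 (h3 i (mem_univ i)))
    rw [h0, smul_zero]
  · intro h
    exact absurd (mem_univ _) h

lemma det_A : (A Q).det ^ 2 = 1 := by
  classical
  obtain ⟨e, he, hD⟩ := base_entry Q
  have h1 : A Q = Matrix.of fun i j => e i * T Q i j := by
    ext i j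
    rw [Matrix.of_apply]
    exact hD i j
  rw [h1, Matrix.det_mul_column, det_T, mul_one, ← Finset.prod_pow]
  refine Finset.prod_eq_one fun w _ => ?_
  rcases he w with h | h <;> rw [h] <;> norm_num

lemma sum_base (x : ℝ) (f : Q.P → ℝ) : ∑ p, Q.cp x p * f p =
    ∑ w, f (Q.bp w) + x * ∑ p, (if ∃ w, Q.bp w = p then 0 else f p) := by
  classical
  have h1 : ∑ w, f (Q.bp w) = ∑ p, (if ∃ w, Q.bp w = p then f p else 0) := by
    rw [← Finset.sum_filter]
    refine Finset.sum_bij (fun w _ => Q.bp w) ?_ ?_ ?_ ?_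
    · intro w _
      simp
    · intro a _ b _ h
      exact Q.bp_inj h
    · intro p hp
      rw [mem_filter] at hp
      obtain ⟨-, w, hw⟩ := hp
      exact ⟨w, mem_univ _, hw⟩
    · intro w _
      rfl
  rw [h1, Finset.mul_sum, ← Finset.sum_add_distrib]
  refine Finset.sum_congr rfl fun p _ => ?_
  unfold Sys.cp
  split_ifs <;> ring

lemma H_zero : Q.H (Q.cp 0) = (A Q)ᵀ * A Q := by
  classical
  ext w w'
  rw [Matrix.mul_apply]
  unfold Sys.H
  rw [sum_base Q 0 (fun p => Q.D p w * Q.D p w')]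
  simp [A, Matrix.transpose_apply]

lemma det_H_zero : (Q.H (Q.cp 0)).det = 1 := by
  rw [H_zero, Matrix.det_mul, Matrix.det_transpose, ← sq, det_A]

lemma quad (c : Q.P → ℝ) (y : Q.L → ℝ) :
    y ⬝ᵥ (Q.H c).mulVec y = ∑ p, c p * (∑ w, Q.D p w * y w) ^ 2 := by
  simp only [dotProduct, Matrix.mulVec, Sys.H]
  have h1 : ∀ w, y w * ∑ w', (∑ p, c p * (Q.D p w * Q.D p w')) * y w' =
      ∑ p, c p * ((Q.D p w * y w) * ∑ w', Q.D p w' * y w') := by
    intro w
    have h2 : ∀ w', (∑ p, c p * (Q.D p w * Q.D p w')) * y w' =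
        ∑ p, c p * (Q.D p w * Q.D p w') * y w' := fun w' => Finset.sum_mul _ _ _
    rw [Finset.sum_congr rfl fun w' _ => h2 w', Finset.sum_comm, Finset.mul_sum]
    refine Finset.sum_congr rfl fun p _ => ?_
    rw [Finset.mul_sum, Finset.mul_sum, Finset.mul_sum]
    exact Finset.sum_congr rfl fun w' _ => by ring
  rw [Finset.sum_congr rfl fun w _ => h1 w, Finset.sum_comm]
  refine Finset.sum_congr rfl fun p _ => ?_
  rw [← Finset.mul_sum, ← Finset.sum_mul, sq]

lemma key (y : Q.L → ℝ) : ∀ w, |y w| ≤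
    ∑ w' ∈ univ.filter (fun w' => Q.rk w' ≤ Q.rk w), |∑ v, Q.D (Q.bp w') v * y v| := by
  classical
  obtain ⟨e, he, hD⟩ := base_entry Q
  have hA : ∀ w, |∑ v, Q.D (Q.bp w) v * y v| =
      |y w - (match Q.pr w with | none => 0 | some v => y v)| := by
    intro w
    have h1 : ∑ v, Q.D (Q.bp w) v * y v =
        e w * (y w - (match Q.pr w with | none => 0 | some v => y v)) := by
      have h2 : ∀ v, Q.D (Q.bp w) v * y v = e w * ((if v = w then y v else 0) -
          (if Q.pr w = some v then y v else 0)) := by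
        intro v
        rw [hD]
        split_ifs <;> ring
      rw [Finset.sum_congr rfl fun v _ => h2 v, ← Finset.mul_sum, Finset.sum_sub_distrib,
        Finset.sum_ite_eq' univ w y, if_pos (mem_univ w)]
      rcases h3 : Q.pr w with _ | v
      · simp
      · simp [Option.some_inj]
    rw [h1, abs_mul]
    rcases he w with h | h <;> rw [h] <;> simp
  have main : ∀ n : ℕ, ∀ w, Q.rk w = n → |y w| ≤
      ∑ w' ∈ univ.filter (fun w' => Q.rk w' ≤ Q.rk w), |∑ v, Q.D (Q.bp w') v * y v| := by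
    intro n
    induction n using Nat.strong_induction_on with
    | _ n ih =>
      intro w hw
      have h0 := hA w
      rcases h3 : Q.pr w with _ | v
      · rw [h3] at h0
        simp only [sub_zero] at h0
        rw [← h0]
        exact Finset.single_le_sum (f := fun w' => |∑ v, Q.D (Q.bp w') v * y v|)
          (fun _ _ => abs_nonneg _) (by simp)
      · rw [h3] at h0
        simp only at h0
        have hrk := Q.rk_lt w v h3
        have h4 := ih (Q.rk v) (by omega) v rfl
        have h5 : |y w| ≤ |∑ u, Q.D (Q.bp w) u * y u| + |y v| := by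
          rw [h0]
          have := abs_add_le (y w - y v) (y v)
          rwa [sub_add_cancel] at this
        have h6 : w ∉ univ.filter (fun w' => Q.rk w' ≤ Q.rk v) := by
          simp only [mem_filter, mem_univ, true_and, not_le]
          exact hrk
        calc |y w| ≤ |∑ u, Q.D (Q.bp w) u * y u| +
              ∑ w' ∈ univ.filter (fun w' => Q.rk w' ≤ Q.rk v), |∑ v, Q.D (Q.bp w') v * y v| :=
              h5.trans (by linarith)
          _ = ∑ w' ∈ insert w (univ.filter (fun w' => Q.rk w' ≤ Q.rk v)),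
              |∑ v, Q.D (Q.bp w') v * y v| := by rw [Finset.sum_insert h6]
          _ ≤ _ := by
              refine Finset.sum_le_sum_of_subset_of_nonneg ?_ (fun _ _ _ => abs_nonneg _)
              intro u hu
              rw [mem_insert] at hu
              rw [mem_filter]
              refine ⟨mem_univ _, ?_⟩
              rcases hu with rfl | hu
              · exact le_rfl
              · exact ((mem_filter.1 hu).2).trans hrk.le
  exact fun w => main _ w rfl

lemma bound {x : ℝ} (hx : 0 ≤ x) (y : Q.L → ℝ) (w : Q.L) :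
    y w ^ 2 ≤ Fintype.card Q.L * (y ⬝ᵥ (Q.H (Q.cp x)).mulVec y) := by
  classical
  have h1 := key Q y w
  have h2 : |y w| ≤ ∑ w' : Q.L, |∑ v, Q.D (Q.bp w') v * y v| :=
    h1.trans (Finset.sum_le_sum_of_subset_of_nonneg (filter_subset _ _)
      (fun _ _ _ => abs_nonneg _))
  have h3 : (∑ w' : Q.L, |∑ v, Q.D (Q.bp w') v * y v|) ^ 2 ≤
      Fintype.card Q.L * ∑ w' : Q.L, |∑ v, Q.D (Q.bp w') v * y v| ^ 2 := by
    have := sq_sum_le_card_mul_sum_sq (s := (univ : Finset Q.L))
      (f := fun w' => |∑ v, Q.D (Q.bp w') v * y v|)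
    rwa [Finset.card_univ] at this
  have h4 : ∑ w' : Q.L, |∑ v, Q.D (Q.bp w') v * y v| ^ 2 ≤
      y ⬝ᵥ (Q.H (Q.cp x)).mulVec y := by
    rw [quad, sum_base Q x (fun p => (∑ w, Q.D p w * y w) ^ 2)]
    have h5 : 0 ≤ x * ∑ p, (if ∃ w, Q.bp w = p then 0 else (∑ w, Q.D p w * y w) ^ 2) := by
      refine mul_nonneg hx (Finset.sum_nonneg fun p _ => ?_)
      split_ifs
      · exact le_rfl
      · exact sq_nonneg _
    simp only [sq_abs]
    linarith
  have h6 : y w ^ 2 ≤ (∑ w' : Q.L, |∑ v, Q.D (Q.bp w') v * y v|) ^ 2 := by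
    rw [← sq_abs (y w)]
    exact pow_le_pow_left₀ (abs_nonneg _) h2 2
  exact h6.trans (h3.trans (mul_le_mul_of_nonneg_left h4 (Nat.cast_nonneg _)))

lemma posDef {x : ℝ} (hx : 0 ≤ x) : (Q.H (Q.cp x)).PosDef := by
  classical
  refine Matrix.PosDef.of_dotProduct_mulVec_pos ?_ ?_
  · ext w w'
    simp only [Matrix.conjTranspose_apply, star_trivial, Sys.H]
    exact Finset.sum_congr rfl fun p _ => by ring
  · intro y hy
    rw [star_trivial]
    obtain ⟨w, hw⟩ := Function.ne_iff.1 hy
    have h1 := bound Q hx y w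
    have h2 : 0 < y w ^ 2 := by
      have : y w ≠ 0 := hw
      positivity
    by_contra h3
    push Not at h3
    have h4 : (Fintype.card Q.L : ℝ) * (y ⬝ᵥ (Q.H (Q.cp x)).mulVec y) ≤ 0 :=
      mul_nonpos_of_nonneg_of_nonpos (Nat.cast_nonneg _) h3
    linarith

theorem t_HINV : S_HINV := by
  classical
  intro Q
  refine ⟨det_H_zero Q, fun x hx _ => ⟨posDef Q hx, ?_⟩⟩
  intro w' w
  have hu : IsUnit (Q.H (Q.cp x)) := (posDef Q hx).isUnit
  have hdet : IsUnit (Q.H (Q.cp x)).det := (Matrix.isUnit_iff_isUnit_det _).1 hu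
  set y : Q.L → ℝ := fun v => (Q.H (Q.cp x))⁻¹ v w with hy
  have h1 : (Q.H (Q.cp x)).mulVec y = Pi.single w 1 := by
    have h2 := Matrix.mul_nonsing_inv (Q.H (Q.cp x)) hdet
    ext v
    have h3 := congrFun (congrFun h2 v) w
    rw [Matrix.mul_apply] at h3
    rw [Matrix.mulVec, dotProduct]
    rw [h3, Matrix.one_apply, Pi.single_apply]
  have h2 : y ⬝ᵥ (Q.H (Q.cp x)).mulVec y = y w := by
    rw [h1, dotProduct_single_one]
  have hc : (0 : ℝ) ≤ Fintype.card Q.L := Nat.cast_nonneg _
  have h3 := bound Q hx y w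
  rw [h2] at h3
  have h4 : 0 ≤ y w := by
    by_contra h
    push Not at h
    have h5 : 0 < y w ^ 2 := by nlinarith
    nlinarith
  have h5 : y w ≤ Fintype.card Q.L := by
    by_contra h
    push Not at h
    nlinarith
  have h6 := bound Q hx y w'
  rw [h2] at h6
  have h7 : y w' ^ 2 ≤ (Fintype.card Q.L : ℝ) ^ 2 := by nlinarith
  exact abs_le_of_sq_le_sq h7 hc

end Pool.Agent.N899.BB.Hinv
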