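import Pool.Agent.N899.BB.Stm3

set_option autoImplicit false

/-!
# BB/LD: from the canonical to the microcanonical ensemble (written by helper490)
-/

open MeasureTheory Filter Topology

namespace Pool.Agent.N899.BB.Ld

open Pool.Agent.N899.BB

lemma evenpick {x : ℝ} (hx : 0 ≤ x) : ∃ s : ℕ, Even s ∧ x ≤ s ∧ (s:ℝ) ≤ x + 2 := by
  refine ⟨2 * ⌈x / 2⌉₊, even_two_mul _, ?_, ?_⟩
  · have := Nat.le_ceil (x / 2)
    push_cast
    linarith
  · have := Nat.ceil_lt_add_one (show 0 ≤ x / 2 by linarith)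
    push_cast
    linarith

lemma ineq1 {c δ η τ q : ℝ} (hc : 0 < c) (hδ0 : 0 ≤ δ) (hη : 0 < η) (hη1 : η ≤ 1) (hτ0 : η / 24 ≤ τ)
    (hτ1 : τ ≤ η / 12) (hδ : δ ≤ c * η ^ 2 / 96) (hq : q ≤ c * η ^ 2 / 24) :
    (c + δ) / (1 - τ) ^ 3 + q ≤ (c - δ) + 3 * c * τ * (1 + η) := by
  have ht0 : 0 ≤ τ := by linarith
  have ht1 : τ ≤ 1 / 12 := by linarith
  have h1 : 0 < (1 - τ) ^ 3 := by apply pow_pos; linarith
  have h2 : (c + δ) / (1 - τ) ^ 3 ≤ (c + δ) * (1 + 3 * τ + 12 * τ ^ 2) := by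
    rw [div_le_iff₀ h1, mul_assoc]
    refine le_mul_of_one_le_right (by linarith) ?_
    have e1 : (1 + 3 * τ + 12 * τ ^ 2) * (1 - τ) ^ 3 =
      1 + τ ^ 2 * (6 - 28 * τ + 33 * τ ^ 2 - 12 * τ ^ 3) := by ring
    rw [e1]
    have e2 : 0 ≤ 6 - 28 * τ + 33 * τ ^ 2 - 12 * τ ^ 3 := by
      have : τ ^ 3 ≤ τ ^ 2 := by nlinarith [sq_nonneg τ]
      nlinarith [sq_nonneg τ]
    nlinarith [mul_nonneg (sq_nonneg τ) e2]
  have h3 : δ * (1 + 3 * τ + 12 * τ ^ 2) ≤ δ * 2 := by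
    refine mul_le_mul_of_nonneg_left ?_ hδ0
    nlinarith
  have h4 : 12 * c * τ ^ 2 ≤ c * η * τ := by
    have : 12 * τ * τ ≤ η * τ := mul_le_mul_of_nonneg_right (by linarith) ht0
    nlinarith
  have h5 : c * η ^ 2 / 12 ≤ 2 * c * τ * η := by
    have : c * η * (η / 24) ≤ c * η * τ := mul_le_mul_of_nonneg_left hτ0 (by positivity)
    nlinarith
  have h6 : (c + δ) * (1 + 3 * τ + 12 * τ ^ 2) =
    c + 3 * c * τ + 12 * c * τ ^ 2 + δ * (1 + 3 * τ + 12 * τ ^ 2) := by ring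
  have h7 : 0 ≤ c * η ^ 2 := by positivity
  nlinarith

lemma ineq2 {c δ η τ q : ℝ} (hc : 0 < c) (hδ0 : 0 ≤ δ) (hη : 0 < η) (hη1 : η ≤ 1) (hτ0 : η / 12 ≤ τ)
    (hτ1 : τ ≤ η / 6) (hδ : δ ≤ c * η ^ 2 / 96) (hq : q ≤ c * η ^ 2 / 24) :
    (c + δ) / (1 + τ) ^ 3 + q + 3 * c * τ * (1 - η) ≤ (c - δ) := by
  have ht0 : 0 ≤ τ := by linarith
  have ht1 : τ ≤ 1 / 6 := by linarith
  have h1 : 0 < (1 + τ) ^ 3 := by positivity
  have h2 : (c + δ) / (1 + τ) ^ 3 ≤ (c + δ) * (1 - 3 * τ + 6 * τ ^ 2) := by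
    rw [div_le_iff₀ h1, mul_assoc]
    refine le_mul_of_one_le_right (by linarith) ?_
    have e1 : (1 - 3 * τ + 6 * τ ^ 2) * (1 + τ) ^ 3 =
      1 + τ ^ 3 * (10 + 15 * τ + 6 * τ ^ 2) := by ring
    rw [e1]
    have : 0 ≤ τ ^ 3 * (10 + 15 * τ + 6 * τ ^ 2) := by positivity
    linarith
  have h3 : δ * (1 - 3 * τ + 6 * τ ^ 2) ≤ δ * 1 := by
    refine mul_le_mul_of_nonneg_left ?_ hδ0
    nlinarith
  have h4 : 6 * c * τ ^ 2 ≤ c * η * τ := by
    have : 6 * τ * τ ≤ η * τ := mul_le_mul_of_nonneg_right (by linarith) ht0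
    nlinarith
  have h5 : c * η ^ 2 / 6 ≤ 2 * c * τ * η := by
    have : c * η * (η / 12) ≤ c * η * τ := mul_le_mul_of_nonneg_left hτ0 (by positivity)
    nlinarith
  have h6 : (c + δ) * (1 - 3 * τ + 6 * τ ^ 2) =
    c - 3 * c * τ + 6 * c * τ ^ 2 + δ * (1 - 3 * τ + 6 * τ ^ 2) := by ring
  have h7 : 0 ≤ c * η ^ 2 := by positivity
  nlinarith

/-- the pointwise partition -/
lemma part {ι : Type} {E : ι → ℝ} {s s' s'' y1 y2 Z Z' Z'' : ℝ} (h1 : s' ≤ s) (h2 : s ≤ s'')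
    (hs : 0 ≤ s)
    (hZ : HasSum (fun j => Real.exp (-(s * E j))) Z)
    (hZ' : HasSum (fun j => Real.exp (-(s' * E j))) Z')
    (hZ'' : HasSum (fun j => Real.exp (-(s'' * E j))) Z'')
    {y : ℝ} (hy : y2 ≤ y) {J : Finset ι} (hJ : ∀ j, j ∈ J ↔ E j ≤ y) :
    Z ≤ J.card * Real.exp (-(s * y1)) + Z' * Real.exp (-((s - s') * y2)) +
      Z'' * Real.exp ((s'' - s) * y1) := by
  classical
  have k1 : HasSum (fun j => if j ∈ J then Real.exp (-(s * y1)) else 0)
      (J.card * Real.exp (-(s * y1))) := by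
    have : HasSum (fun j => if j ∈ J then Real.exp (-(s * y1)) else 0)
      (∑ j ∈ J, if j ∈ J then Real.exp (-(s * y1)) else 0) :=
      hasSum_sum_of_ne_finset_zero fun b hb => if_neg hb
    rw [Finset.sum_ite_mem, Finset.inter_self, Finset.sum_const, nsmul_eq_mul] at this
    exact this
  refine hasSum_le (fun j => ?_) hZ ((k1.add (hZ'.mul_right _)).add (hZ''.mul_right _))
  have p1 : 0 ≤ (if j ∈ J then Real.exp (-(s * y1)) else 0) := by
    split_ifs
    · exact (Real.exp_pos _).le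
    · exact le_rfl
  have p2 : 0 ≤ Real.exp (-(s' * E j)) * Real.exp (-((s - s') * y2)) := by positivity
  have p3 : 0 ≤ Real.exp (-(s'' * E j)) * Real.exp ((s'' - s) * y1) := by positivity
  rcases le_total y2 (E j) with a | a
  · have : Real.exp (-(s * E j)) ≤ Real.exp (-(s' * E j)) * Real.exp (-((s - s') * y2)) := by
      rw [← Real.exp_add]
      refine Real.exp_le_exp.2 ?_
      nlinarith [mul_le_mul_of_nonneg_left a (sub_nonneg.2 h1)]
    linarith
  · rcases le_total (E j) y1 with b | b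
    · have : Real.exp (-(s * E j)) ≤ Real.exp (-(s'' * E j)) * Real.exp ((s'' - s) * y1) := by
        rw [← Real.exp_add]
        refine Real.exp_le_exp.2 ?_
        nlinarith [mul_le_mul_of_nonneg_left b (sub_nonneg.2 h2)]
      linarith
    · have hjJ : j ∈ J := (hJ j).2 (a.trans hy)
      have : Real.exp (-(s * E j)) ≤ Real.exp (-(s * y1)) := by
        refine Real.exp_le_exp.2 ?_
        nlinarith [mul_le_mul_of_nonneg_left b hs]
      rw [if_pos hjJ] at p1 ⊢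
      linarith

lemma upp {ι : Type} {E : ι → ℝ} {s Z : ℝ} (hs : 0 ≤ s)
    (hZ : HasSum (fun j => Real.exp (-(s * E j))) Z)
    {y : ℝ} {J : Finset ι} (hJ : ∀ j, j ∈ J ↔ E j ≤ y) :
    J.card * Real.exp (-(s * y)) ≤ Z := by
  have h1 : ∑ j ∈ J, Real.exp (-(s * E j)) ≤ Z := sum_le_hasSum J (fun j _ => (Real.exp_pos _).le) hZ
  refine le_trans ?_ h1
  rw [← nsmul_eq_mul, ← Finset.sum_const]
  refine Finset.sum_le_sum fun j hj => Real.exp_le_exp.2 ?_
  have := mul_le_mul_of_nonneg_left ((hJ j).1 hj) hs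
  linarith

lemma core {A ε : ℝ} (hA : 0 < A) (hε : 0 < ε) : ∃ (δ M : ℝ) (s₁ : ℕ), 0 < δ ∧ 1 ≤ M ∧
    ∀ (ι : Type) (E : ι → ℝ), (∀ j, 0 ≤ E j) → ∀ (V : ℝ), 0 < V → ∀ (Z : ℕ → ℝ) (s₂ : ℕ),
    (∀ s : ℕ, Even s → 2 ≤ s → HasSum (fun j => Real.exp (-(s * E j))) (Z s)) →
    (∀ s : ℕ, Even s → s₁ ≤ s → s ≤ s₂ → |(s : ℝ) ^ 3 * Real.log (Z s) / V - A ^ 4 / 3| ≤ δ) →
    ∀ κ : ℝ, 0 < κ → M ≤ V * κ ^ 3 → M * s₁ ≤ κ⁻¹ → M * κ⁻¹ ≤ s₂ →
    ∀ J : Finset ι, (∀ j, j ∈ J ↔ E j ≤ κ ^ 4 * V) →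
    J.Nonempty ∧ |Real.log J.card / (V * κ ^ 3) - 4 / 3 * A| ≤ ε := by
  obtain ⟨c, hc⟩ : ∃ c : ℝ, c = A ^ 4 / 3 := ⟨_, rfl⟩
  have hc0 : 0 < c := by rw [hc]; positivity
  rw [← hc]
  obtain ⟨η, hη⟩ : ∃ η : ℝ, η = min (1 / 2) (ε / (20 * A)) := ⟨_, rfl⟩
  have hη0 : 0 < η := by rw [hη]; exact lt_min (by norm_num) (by positivity)
  have hη1 : η ≤ 1 / 2 := by rw [hη]; exact min_le_left _ _
  have hη2 : 20 * A * η ≤ ε := by
    have : η ≤ ε / (20 * A) := by rw [hη]; exact min_le_right _ _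
    rw [le_div_iff₀ (by positivity)] at this
    linarith
  obtain ⟨δ, hδ⟩ : ∃ δ : ℝ, δ = min (c * η ^ 2 / 96) (A ^ 3 * ε / 2) := ⟨_, rfl⟩
  have hδ0 : 0 < δ := by rw [hδ]; exact lt_min (by positivity) (by positivity)
  have hδ1 : δ ≤ c * η ^ 2 / 96 := by rw [hδ]; exact min_le_left _ _
  have hδ2 : δ ≤ A ^ 3 * ε / 2 := by rw [hδ]; exact min_le_right _ _
  have hδc : δ ≤ c * η / 96 := by
    refine hδ1.trans ?_
    have : c * η ^ 2 ≤ c * η := by
      have : η ^ 2 ≤ η := by nlinarith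
      exact mul_le_mul_of_nonneg_left this hc0.le
    linarith
  have hδc' : δ < c := by nlinarith
  obtain ⟨M, hM⟩ : ∃ M : ℝ, M = 1 + 2 / A + (4 * A + 6) + 2 / (A * η) + 400 * A ^ 3 / (c * η ^ 2) + 4 / ε := ⟨_, rfl⟩
  have t1 : 0 < 2 / A := by positivity
  have t2 : 0 < 2 / (A * η) := by positivity
  have t3 : 0 < 400 * A ^ 3 / (c * η ^ 2) := by positivity
  have t4 : 0 < 4 / ε := by positivity
  have hM1 : 1 ≤ M := by rw [hM]; linarith
  have hM2 : 2 ≤ A * M := by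
    have : 2 / A ≤ M := by rw [hM]; linarith
    rw [div_le_iff₀ hA] at this
    linarith
  have hM3 : 4 * A + 6 ≤ M := by rw [hM]; linarith
  have hM4 : 2 ≤ A * η * M := by
    have : 2 / (A * η) ≤ M := by rw [hM]; linarith
    rw [div_le_iff₀ (by positivity)] at this
    linarith
  have hM5 : 400 * A ^ 3 ≤ c * η ^ 2 * M := by
    have : 400 * A ^ 3 / (c * η ^ 2) ≤ M := by rw [hM]; linarith
    rw [div_le_iff₀ (by positivity)] at this
    linarith
  have hM6 : 4 ≤ ε * M := by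
    have : 4 / ε ≤ M := by rw [hM]; linarith
    rw [div_le_iff₀ hε] at this
    linarith
  obtain ⟨s₁, hs₁⟩ : ∃ s₁ : ℕ, s₁ = ⌈48 / η⌉₊ + 2 := ⟨_, rfl⟩
  have hs1a : 48 / η ≤ (s₁:ℝ) := by
    rw [hs₁]
    push_cast
    have := Nat.le_ceil (48 / η)
    linarith
  have hs1b : (2:ℝ) ≤ (s₁:ℝ) := by
    rw [hs₁]
    push_cast
    have : (0:ℝ) ≤ (⌈48 / η⌉₊:ℝ) := Nat.cast_nonneg _
    linarith
  have hs1c : 48 ≤ η * s₁ := by
    rw [div_le_iff₀ hη0] at hs1a
    linarith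
  refine ⟨δ, M, s₁, hδ0, hM1, ?_⟩
  intro ι E hE V hV Z s₂ hZ hL κ hκ hMV hMs₁ hMs₂ J hJ
  have hκM : κ * M * s₁ ≤ 1 := by
    have := mul_le_mul_of_nonneg_left hMs₁ hκ.le
    rw [mul_inv_cancel₀ hκ.ne'] at this
    linarith
  have hκM1 : κ * M ≤ 1 := by
    have : κ * M * 1 ≤ κ * M * s₁ := mul_le_mul_of_nonneg_left (by linarith) (by positivity)
    linarith
  have hκ1 : κ ≤ 1 := (le_mul_of_one_le_right hκ.le hM1).trans hκM1
  have hMs₂' : M ≤ κ * s₂ := by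
    have := mul_le_mul_of_nonneg_left hMs₂ hκ.le
    rw [mul_comm M, ← mul_assoc, mul_inv_cancel₀ hκ.ne', one_mul] at this
    exact this
  have hκ2 : 2 * κ ≤ A * η := by
    have : κ * 2 ≤ κ * (A * η * M) := mul_le_mul_of_nonneg_left hM4 hκ.le
    have h2 : A * η * (κ * M) ≤ A * η * 1 := mul_le_mul_of_nonneg_left hκM1 (by positivity)
    have h4 : κ * (A * η * M) = A * η * (κ * M) := by ring
    linarith
  have hκ3 : 2 * κ ≤ ε / 2 := by
    have h2 : κ * 4 ≤ κ * (ε * M) := mul_le_mul_of_nonneg_left hM6 hκ.le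
    have h3 : ε * (κ * M) ≤ ε * 1 := mul_le_mul_of_nonneg_left hκM1 hε.le
    have h4 : ε * (κ * M) = κ * (ε * M) := by ring
    linarith
  -- values of `u = κ s` in `[A / 2, M]` are admissible
  have adm : ∀ s : ℕ, A / 2 ≤ κ * s → κ * s ≤ M → s₁ ≤ s ∧ s ≤ s₂ := by
    intro s h1 h2
    constructor
    · have h3 : κ * (s₁:ℝ) ≤ κ * s := by
        have h4 : κ * s₁ * 2 ≤ κ * s₁ * (A * M) := mul_le_mul_of_nonneg_left hM2 (by positivity)
        have h5 : A * (κ * M * s₁) ≤ A * 1 := mul_le_mul_of_nonneg_left hκM hA.le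
        have h6 : κ * s₁ * (A * M) = A * (κ * M * s₁) := by ring
        linarith
      exact_mod_cast le_of_mul_le_mul_left h3 hκ
    · have h3 : κ * (s:ℝ) ≤ κ * s₂ := h2.trans hMs₂'
      exact_mod_cast le_of_mul_le_mul_left h3 hκ
  -- the logarithms
  have hlog : ∀ s : ℕ, Even s → s₁ ≤ s → s ≤ s₂ → 0 < Z s ∧
      (c - δ) * V / (s:ℝ) ^ 3 ≤ Real.log (Z s) ∧ Real.log (Z s) ≤ (c + δ) * V / (s:ℝ) ^ 3 := by
    intro s he h1 h2
    have h3 := hL s he h1 h2
    have hs2 : (2:ℝ) ≤ s := by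
      have : (s₁:ℝ) ≤ s := by exact_mod_cast h1
      linarith
    have hs2' : 2 ≤ s := by exact_mod_cast hs2
    have hs0 : (0:ℝ) < s ^ 3 := by positivity
    obtain ⟨h4, h5⟩ := abs_le.1 h3
    have h6 : (c - δ) * V / (s:ℝ) ^ 3 ≤ Real.log (Z s) := by
      rw [div_le_iff₀ hs0]
      have : c - δ ≤ (s:ℝ) ^ 3 * Real.log (Z s) / V := by linarith
      rw [le_div_iff₀ hV] at this
      linarith
    refine ⟨?_, h6, ?_⟩
    · have h7 : 0 ≤ Z s := (hZ s he hs2').nonneg fun j => (Real.exp_pos _).le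
      rcases h7.lt_or_eq with h8 | h8
      · exact h8
      · exfalso
        rw [← h8, Real.log_zero] at h6
        have : 0 < (c - δ) * V / (s:ℝ) ^ 3 := by
          apply div_pos _ hs0
          apply mul_pos _ hV
          linarith
        linarith
    · rw [le_div_iff₀ hs0]
      have : (s:ℝ) ^ 3 * Real.log (Z s) / V ≤ c + δ := by linarith
      rw [div_le_iff₀ hV] at this
      linarith
  have hsum : ∀ s : ℕ, Even s → s₁ ≤ s → HasSum (fun j => Real.exp (-(s * E j))) (Z s) := by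
    intro s he h1
    refine hZ s he ?_
    have : (2:ℝ) ≤ s := by
      have : (s₁:ℝ) ≤ s := by exact_mod_cast h1
      linarith
    exact_mod_cast this
  -- lower bound
  have hlow : 0 < (J.card : ℝ) ∧ 4 / 3 * A - ε ≤ Real.log J.card / (V * κ ^ 3) := by
    obtain ⟨s, hse, hsx, hsx'⟩ := evenpick (show 0 ≤ A * (1 + η) / κ by positivity)
    rw [div_le_iff₀ hκ] at hsx
    have hu1 : A * (1 + η) ≤ κ * s := by linarith
    have hu2 : κ * s ≤ A * (1 + 2 * η) := by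
      have h1 : κ * s ≤ κ * (A * (1 + η) / κ + 2) := mul_le_mul_of_nonneg_left hsx' hκ.le
      have h2 : κ * (A * (1 + η) / κ + 2) = A * (1 + η) + 2 * κ := by
        field_simp
      rw [h2] at h1
      have h3 : A * (1 + 2 * η) = A * (1 + η) + A * η := by ring
      linarith
    have hu3 : κ * s ≤ 2 * A := by
      have : A * (1 + 2 * η) ≤ A * 2 := mul_le_mul_of_nonneg_left (by linarith) hA.le
      linarith
    have hs0 : (0:ℝ) < s := by
      have : 0 < κ * s := lt_of_lt_of_le (by positivity) hu1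
      exact (mul_pos_iff_of_pos_left hκ).1 this
    -- `s ≥ 48 / η`
    have hs48 : 96 ≤ η * s := by
      have h1 : κ * (2 * (s₁:ℝ)) ≤ κ * s := by
        have h4 : κ * s₁ * 2 ≤ κ * s₁ * (A * M) := mul_le_mul_of_nonneg_left hM2 (by positivity)
        have h5 : A * (κ * M * s₁) ≤ A * 1 := mul_le_mul_of_nonneg_left hκM hA.le
        have h6 : κ * s₁ * (A * M) = A * (κ * M * s₁) := by ring
        have h7 : κ * (2 * (s₁:ℝ)) = κ * s₁ * 2 := by ring
        linarith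
      have h2 := le_of_mul_le_mul_left h1 hκ
      have h3 := mul_le_mul_of_nonneg_left h2 hη0.le
      linarith
    obtain ⟨s', hse', hsx1, hsx1'⟩ := evenpick (show 0 ≤ (s:ℝ) * (1 - η / 12) by
      apply mul_nonneg hs0.le; linarith)
    obtain ⟨s'', hse'', hsx2, hsx2'⟩ := evenpick (show 0 ≤ (s:ℝ) * (1 + η / 12) by positivity)
    -- the two differences
    have r1 : (s:ℝ) * (1 - η / 12) = s - η * s / 12 := by ring
    have r2 : (s:ℝ) * (1 + η / 12) = s + η * s / 12 := by ring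
    have r3 : (s:ℝ) * (η / 24) = η * s / 24 := by ring
    have r4 : (s:ℝ) * (η / 12) = η * s / 12 := by ring
    have r5 : (s:ℝ) * (η / 6) = η * s / 6 := by ring
    have d1 : (s:ℝ) * (η / 24) ≤ s - s' := by linarith
    have d2 : (s:ℝ) - s' ≤ s * (η / 12) := by linarith
    have d3 : (s:ℝ) * (η / 12) ≤ s'' - s := by linarith
    have d4 : (s'':ℝ) - s ≤ s * (η / 6) := by linarith
    have hs's : (s':ℝ) ≤ s := by
      have : 0 ≤ (s:ℝ) * (η / 24) := by positivity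
      linarith
    have hss'' : (s:ℝ) ≤ s'' := by
      have : 0 ≤ (s:ℝ) * (η / 12) := by positivity
      linarith
    -- admissibility
    have hAη' : A * η ≤ A * (1 / 2) := mul_le_mul_of_nonneg_left hη1 hA.le
    have hAη : A ≤ A * (1 + η) := le_mul_of_one_le_right hA.le (by linarith)
    obtain ⟨a1, a2⟩ := adm s (by linarith) (by linarith)
    have hks' : A / 2 ≤ κ * s' := by
      have h1 : κ * (s * (1 - η / 12)) ≤ κ * s' := mul_le_mul_of_nonneg_left hsx1 hκ.le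
      have h2 : A * (1 - η / 12) ≤ κ * s * (1 - η / 12) :=
        mul_le_mul_of_nonneg_right (hAη.trans hu1) (by linarith)
      have h3 : κ * (s * (1 - η / 12)) = κ * s * (1 - η / 12) := by ring
      have h5 : A * (1 - η / 12) = A - A * η / 12 := by ring
      linarith
    have hks's : κ * s' ≤ κ * s := mul_le_mul_of_nonneg_left hs's hκ.le
    obtain ⟨b1, b2⟩ := adm s' hks' (by linarith)
    have hkss'' : κ * s ≤ κ * s'' := mul_le_mul_of_nonneg_left hss'' hκ.le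
    have hks'' : κ * s'' ≤ 4 * A := by
      have h1 : κ * (s'' - s) ≤ κ * (s * (η / 6)) := mul_le_mul_of_nonneg_left d4 hκ.le
      have h2 : κ * s * (η / 6) ≤ 2 * A * (η / 6) := mul_le_mul_of_nonneg_right hu3 (by positivity)
      have h3 : κ * (s'' - s) = κ * s'' - κ * s := by ring
      have h4 : κ * (s * (η / 6)) = κ * s * (η / 6) := by ring
      have h5 : 2 * A * (η / 6) = A * η / 3 := by ring
      linarith
    obtain ⟨c1, c2⟩ := adm s'' (by linarith) (by linarith)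
    obtain ⟨zs0, zs1, zs2⟩ := hlog s hse a1 a2
    obtain ⟨zp0, zp1, zp2⟩ := hlog s' hse' b1 b2
    obtain ⟨zq0, zq1, zq2⟩ := hlog s'' hse'' c1 c2
    have hs'0 : (0:ℝ) < s' := by
      have : 0 < κ * s' := lt_of_lt_of_le (by positivity) hks'
      exact (mul_pos_iff_of_pos_left hκ).1 this
    have hs''0 : (0:ℝ) < s'' := lt_of_lt_of_le hs0 hss''
    obtain ⟨w, hw⟩ : ∃ w : ℝ, w = V / (s:ℝ) ^ 3 := ⟨_, rfl⟩
    have hw0 : 0 < w := by rw [hw]; positivity
    obtain ⟨q, hq⟩ : ∃ q : ℝ, q = 2 / w := ⟨_, rfl⟩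
    have hwq : w * q = 2 := by rw [hq]; field_simp
    have hwu : V * κ ^ 3 = w * (κ * s) ^ 3 := by
      rw [hw]; field_simp
    have hw8 : M ≤ w * (8 * A ^ 3) := by
      have h1 : (κ * s) ^ 3 ≤ (2 * A) ^ 3 := pow_le_pow_left₀ (by positivity) hu3 3
      have h2 : w * (κ * s) ^ 3 ≤ w * (2 * A) ^ 3 := mul_le_mul_of_nonneg_left h1 hw0.le
      have h3 : (2 * A) ^ 3 = 8 * A ^ 3 := by ring
      rw [h3] at h2
      linarith
    have hq1 : q ≤ c * η ^ 2 / 24 := by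
      rw [hq, div_le_iff₀ hw0]
      have h1 : c * η ^ 2 * M ≤ c * η ^ 2 * (w * (8 * A ^ 3)) :=
        mul_le_mul_of_nonneg_left hw8 (by positivity)
      have h2 : A ^ 3 * 50 ≤ A ^ 3 * (c * η ^ 2 * w) := by
        have : c * η ^ 2 * (w * (8 * A ^ 3)) = 8 * (A ^ 3 * (c * η ^ 2 * w)) := by ring
        linarith
      have h3 := le_of_mul_le_mul_left h2 (by positivity)
      linarith
    -- the levels
    obtain ⟨y1, hy1⟩ : ∃ y1 : ℝ, y1 = (1 - η) * (3 * c * w / s) := ⟨_, rfl⟩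
    obtain ⟨y2, hy2⟩ : ∃ y2 : ℝ, y2 = (1 + η) * (3 * c * w / s) := ⟨_, rfl⟩
    have e1 : Real.log (Z s') + 2 - (s - s') * y2 ≤ Real.log (Z s) := by
      obtain ⟨τ, hτ⟩ : ∃ τ : ℝ, τ = (s - s') / s := ⟨_, rfl⟩
      have hτs : (s:ℝ) * τ = s - s' := by rw [hτ]; field_simp
      have hτ0 : η / 24 ≤ τ := by
        rw [hτ, le_div_iff₀ hs0]; linarith
      have hτ1 : τ ≤ η / 12 := by
        rw [hτ, div_le_iff₀ hs0]; linarith
      have hs'τ : (s':ℝ) = s * (1 - τ) := by rw [mul_sub, hτs]; ring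
      have k1 := ineq1 hc0 hδ0.le hη0 (by linarith) hτ0 hτ1 hδ1 hq1
      have k2 := mul_le_mul_of_nonneg_left k1 hw0.le
      have k3 : (c + δ) * V / (s':ℝ) ^ 3 = w * ((c + δ) / (1 - τ) ^ 3) := by
        rw [hs'τ, hw, mul_pow]
        have : (1 - τ) ^ 3 ≠ 0 := by
          apply pow_ne_zero; linarith
        field_simp
      have k4 : (s - s') * y2 = w * (3 * c * τ * (1 + η)) := by
        rw [hy2, ← hτs]
        field_simp
      have k5 : (c - δ) * V / (s:ℝ) ^ 3 = w * (c - δ) := by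
        rw [hw]; ring
      rw [k3] at zp2
      rw [k5] at zs1
      rw [k4]
      rw [mul_add, mul_add, hwq] at k2
      linarith
    have e2 : Real.log (Z s'') + 2 + (s'' - s) * y1 ≤ Real.log (Z s) := by
      obtain ⟨τ, hτ⟩ : ∃ τ : ℝ, τ = (s'' - s) / s := ⟨_, rfl⟩
      have hτs : (s:ℝ) * τ = s'' - s := by rw [hτ]; field_simp
      have hτ0 : η / 12 ≤ τ := by
        rw [hτ, le_div_iff₀ hs0]; linarith
      have hτ1 : τ ≤ η / 6 := by
        rw [hτ, div_le_iff₀ hs0]; linarith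
      have hs'τ : (s'':ℝ) = s * (1 + τ) := by rw [mul_add, hτs]; ring
      have k1 := ineq2 hc0 hδ0.le hη0 (by linarith) hτ0 hτ1 hδ1 hq1
      have k2 := mul_le_mul_of_nonneg_left k1 hw0.le
      have k3 : (c + δ) * V / (s'':ℝ) ^ 3 = w * ((c + δ) / (1 + τ) ^ 3) := by
        rw [hs'τ, hw, mul_pow]
        have : (1 + τ) ^ 3 ≠ 0 := by
          apply pow_ne_zero; linarith
        field_simp
      have k4 : (s'' - s) * y1 = w * (3 * c * τ * (1 - η)) := by
        rw [hy1, ← hτs]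
        field_simp
      have k5 : (c - δ) * V / (s:ℝ) ^ 3 = w * (c - δ) := by
        rw [hw]; ring
      rw [k3] at zq2
      rw [k5] at zs1
      rw [k4]
      rw [mul_add, mul_add, hwq] at k2
      linarith
    have hy2le : y2 ≤ κ ^ 4 * V := by
      have h1 : (A * (1 + η)) ^ 4 ≤ (κ * s) ^ 4 := pow_le_pow_left₀ (by positivity) hu1 4
      have h2 : A ^ 4 * (1 + η) ≤ (A * (1 + η)) ^ 4 := by
        rw [mul_pow]
        refine mul_le_mul_of_nonneg_left ?_ (by positivity)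
        exact le_self_pow₀ (by linarith) (by norm_num)
      have h3 : y2 = (A ^ 4 * (1 + η)) * (V / (s:ℝ) ^ 4) := by
        rw [hy2, hw, hc]; field_simp
      have h4 : κ ^ 4 * V = (κ * s) ^ 4 * (V / (s:ℝ) ^ 4) := by
        field_simp
      rw [h3, h4]
      exact mul_le_mul_of_nonneg_right (h2.trans h1) (by positivity)
    have e3 := part (y1 := y1) hs's hss'' hs0.le (hsum s hse a1) (hsum s' hse' b1) (hsum s'' hse'' c1)
      hy2le hJ
    have hexp2 : Real.exp (-2) ≤ 1 / 4 := by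
      rw [Real.exp_neg, ← one_div]
      apply one_div_le_one_div_of_le (by norm_num)
      have h1 : Real.exp 2 = Real.exp 1 ^ 2 := by
        rw [← Real.exp_nat_mul]; norm_num
      have h2 : (2:ℝ) ≤ Real.exp 1 := by
        have := Real.exp_one_gt_d9
        linarith
      rw [h1]
      calc (4:ℝ) = 2 ^ 2 := by norm_num
        _ ≤ _ := pow_le_pow_left₀ (by norm_num) h2 2
    have e4 : Z s' * Real.exp (-((s - s') * y2)) ≤ Z s * (1 / 4) := by
      rw [← Real.exp_log zp0, ← Real.exp_log zs0, ← Real.exp_add]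
      refine le_trans (Real.exp_le_exp.2 (show Real.log (Z s') + -((s - s') * y2) ≤
        Real.log (Z s) + -2 by linarith)) ?_
      rw [Real.exp_add]
      exact mul_le_mul_of_nonneg_left hexp2 (Real.exp_pos _).le
    have e5 : Z s'' * Real.exp ((s'' - s) * y1) ≤ Z s * (1 / 4) := by
      rw [← Real.exp_log zq0, ← Real.exp_log zs0, ← Real.exp_add]
      refine le_trans (Real.exp_le_exp.2 (show Real.log (Z s'') + (s'' - s) * y1 ≤
        Real.log (Z s) + -2 by linarith)) ?_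
      rw [Real.exp_add]
      exact mul_le_mul_of_nonneg_left hexp2 (Real.exp_pos _).le
    have e6 : Z s * (1 / 2) ≤ J.card * Real.exp (-(s * y1)) := by linarith
    have hN : 0 < (J.card : ℝ) := by
      have : 0 < (J.card : ℝ) * Real.exp (-(s * y1)) := lt_of_lt_of_le (by positivity) e6
      exact (mul_pos_iff_of_pos_right (Real.exp_pos _)).1 this
    refine ⟨hN, ?_⟩
    have e7 : Real.log (Z s) - 1 ≤ Real.log J.card + -(s * y1) := by
      have h1 := Real.log_le_log (by positivity) e6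
      rw [Real.log_mul hN.ne' (Real.exp_pos _).ne', Real.log_exp,
        Real.log_mul zs0.ne' (by norm_num)] at h1
      have h2 : -1 ≤ Real.log (1 / 2) := by
        rw [one_div, Real.log_inv]
        have := Real.log_two_lt_d9
        linarith
      linarith
    have e8 : w * ((4 - 4 * η) * c) - 1 ≤ Real.log J.card := by
      have k5 : (c - δ) * V / (s:ℝ) ^ 3 = w * (c - δ) := by
        rw [hw]; ring
      rw [k5] at zs1
      have k6 : s * y1 = w * (3 * c * (1 - η)) := by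
        rw [hy1]; field_simp
      rw [k6] at e7
      have k7 : w * ((4 - 4 * η) * c) ≤ w * (c - δ) + w * (3 * c * (1 - η)) := by
        rw [← mul_add]
        refine mul_le_mul_of_nonneg_left ?_ hw0.le
        have u1 : (4 - 4 * η) * c = 4 * c - 4 * (c * η) := by ring
        have u2 : c - δ + 3 * c * (1 - η) = 4 * c - 3 * (c * η) - δ := by ring
        have u3 : 0 < c * η := by positivity
        linarith
      linarith
    have hVκ : 0 < V * κ ^ 3 := by positivity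
    rw [le_div_iff₀ hVκ]
    refine le_trans ?_ e8
    -- `(4 / 3 A - ε) V κ ^ 3 ≤ w (4 - 4 η) c - 1`
    have f1 : 1 ≤ ε / 4 * (V * κ ^ 3) := by
      have h1 : ε / 4 * M ≤ ε / 4 * (V * κ ^ 3) := mul_le_mul_of_nonneg_left hMV (by positivity)
      linarith
    have f2 : (4 / 3 * A * (1 - 7 * η)) * (V * κ ^ 3) ≤ w * ((4 - 4 * η) * c) := by
      rw [hwu, hc]
      rcases le_total (1 - 7 * η) 0 with h | h
      · have h1 : (4 / 3 * A * (1 - 7 * η)) * (w * (κ * s) ^ 3) ≤ 0 :=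
          mul_nonpos_of_nonpos_of_nonneg (mul_nonpos_of_nonneg_of_nonpos (by positivity) h)
            (by positivity)
        have h2 : 0 ≤ w * ((4 - 4 * η) * (A ^ 4 / 3)) :=
          mul_nonneg hw0.le (mul_nonneg (by linarith) (by positivity))
        linarith
      · have h1 : (κ * s) ^ 3 ≤ (A * (1 + 2 * η)) ^ 3 := pow_le_pow_left₀ (by positivity) hu2 3
        have h2 : (1 - 7 * η) * (1 + 2 * η) ^ 3 ≤ 1 - η := by
          have : (1 - 7 * η) * (1 + 2 * η) ^ 3 = 1 - η - η ^ 2 * (30 + 76 * η + 56 * η ^ 2) := by ring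
          rw [this]
          have : 0 ≤ η ^ 2 * (30 + 76 * η + 56 * η ^ 2) := by positivity
          linarith
        calc (4 / 3 * A * (1 - 7 * η)) * (w * (κ * s) ^ 3)
            ≤ (4 / 3 * A * (1 - 7 * η)) * (w * (A * (1 + 2 * η)) ^ 3) := by
              refine mul_le_mul_of_nonneg_left (mul_le_mul_of_nonneg_left h1 hw0.le) ?_
              exact mul_nonneg (by positivity) h
          _ = 4 / 3 * w * A ^ 4 * ((1 - 7 * η) * (1 + 2 * η) ^ 3) := by ring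
          _ ≤ 4 / 3 * w * A ^ 4 * (1 - η) := mul_le_mul_of_nonneg_left h2 (by positivity)
          _ = w * ((4 - 4 * η) * (A ^ 4 / 3)) := by ring
    have f3 : (28 / 3 * A * η) * (V * κ ^ 3) ≤ ε / 2 * (V * κ ^ 3) := by
      refine mul_le_mul_of_nonneg_right ?_ hVκ.le
      linarith
    have f4 : (4 / 3 * A - ε) * (V * κ ^ 3) = (4 / 3 * A * (1 - 7 * η)) * (V * κ ^ 3) +
        (28 / 3 * A * η) * (V * κ ^ 3) - 4 * (ε / 4 * (V * κ ^ 3)) := by ring
    have f5 : ε / 2 * (V * κ ^ 3) = 2 * (ε / 4 * (V * κ ^ 3)) := by ring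
    linarith
  obtain ⟨hN, hlow⟩ := hlow
  refine ⟨Finset.card_pos.1 (by exact_mod_cast hN), ?_⟩
  rw [abs_le]
  refine ⟨by linarith, ?_⟩
  -- upper bound
  obtain ⟨s, hse, hsx, hsx'⟩ := evenpick (show 0 ≤ A / κ by positivity)
  rw [div_le_iff₀ hκ] at hsx
  have hu1 : A ≤ κ * s := by linarith
  have hu2 : κ * s ≤ A + 2 * κ := by
    have h1 : κ * s ≤ κ * (A / κ + 2) := mul_le_mul_of_nonneg_left hsx' hκ.le
    have h2 : κ * (A / κ + 2) = A + 2 * κ := by
      field_simp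
    linarith
  have hs0 : (0:ℝ) < s := by
    have : 0 < κ * s := lt_of_lt_of_le hA hu1
    exact (mul_pos_iff_of_pos_left hκ).1 this
  obtain ⟨a1, a2⟩ := adm s (by linarith) (by linarith)
  obtain ⟨zs0, zs1, zs2⟩ := hlog s hse a1 a2
  have e1 := upp hs0.le (hsum s hse a1) hJ
  have e2 : Real.log J.card + -(s * (κ ^ 4 * V)) ≤ Real.log (Z s) := by
    have h1 := Real.log_le_log (by positivity) e1
    rwa [Real.log_mul hN.ne' (Real.exp_pos _).ne', Real.log_exp] at h1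
  have hVκ : 0 < V * κ ^ 3 := by positivity
  have e3 : Real.log J.card / (V * κ ^ 3) ≤ (c + δ) / (κ * s) ^ 3 + κ * s := by
    rw [div_le_iff₀ hVκ]
    have h1 : ((c + δ) / (κ * s) ^ 3 + κ * s) * (V * κ ^ 3) =
        (c + δ) * V / (s:ℝ) ^ 3 + s * (κ ^ 4 * V) := by
      field_simp
    rw [h1]
    linarith
  have e4 : (c + δ) / (κ * s) ^ 3 ≤ (c + δ) / A ^ 3 :=
    div_le_div_of_nonneg_left (by linarith) (by positivity) (pow_le_pow_left₀ hA.le hu1 3)
  have e5 : (c + δ) / A ^ 3 ≤ A / 3 + ε / 2 := by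
    rw [div_le_iff₀ (by positivity), hc]
    have : (A / 3 + ε / 2) * A ^ 3 = A ^ 4 / 3 + A ^ 3 * ε / 2 := by ring
    linarith
  linarith

theorem t_LD : S_LD := by
  intro c hc ε hε
  obtain ⟨A, hAd⟩ : ∃ A : ℝ, A = (3 * c) ^ (1 / 4 : ℝ) := ⟨_, rfl⟩
  have hA : 0 < A := by rw [hAd]; positivity
  have hA4 : A ^ 4 / 3 = c := by
    have : A ^ 4 = 3 * c := by
      rw [hAd, ← Real.rpow_natCast, ← Real.rpow_mul (by positivity)]
      norm_num
    rw [this]
    ring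
  obtain ⟨δ, M, s₁, hδ, hM, H⟩ := core hA hε
  refine ⟨δ, M, s₁, hδ, hM, ?_⟩
  intro ι E hE V hV Z s₂ hZ hL e he h1 h2 h3 J hJ
  obtain ⟨κ, hκd⟩ : ∃ κ : ℝ, κ = e ^ (1 / 4 : ℝ) := ⟨_, rfl⟩
  have hκ : 0 < κ := by rw [hκd]; positivity
  have hκ3 : e ^ (3 / 4 : ℝ) = κ ^ 3 := by
    rw [hκd, ← Real.rpow_natCast, ← Real.rpow_mul he.le]
    norm_num
  have hκ4 : e = κ ^ 4 := by
    rw [hκd, ← Real.rpow_natCast, ← Real.rpow_mul he.le]
    norm_num
  have hκi : e ^ (-(1 / 4) : ℝ) = κ⁻¹ := by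
    rw [hκd, Real.rpow_neg he.le]
  rw [hκ3] at h1 ⊢
  rw [hκi] at h2 h3
  rw [← hAd]
  rw [hA4] at H
  exact H ι E hE V hV Z s₂ hZ hL κ hκ h1 h2 h3 J (by rw [← hκ4]; exact hJ)

end Pool.Agent.N899.BB.Ld
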